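import Pool.Agent.TARO.INJ

/-! PARO: a paradoxical decomposition from the Hall inequality. -/

namespace TARO

open TAR

/-- one half: the sets `A i = {f g | f g = s i * g, i chosen}`, with `s = Fin.cons 1 x`, for the
indices `i` with `A i` not empty, and one of them enlarged by a set `Q` disjoint from the
range of `f` -/
theorem PARO_half {G : Type} [Group G] {n : ℕ} (x : Fin n → G) (f : G → G)
    (hf : Function.Injective f) (hx : ∀ g, f g = g ∨ ∃ i, f g = x i * g) (Q : Set G)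
    (hQ : Disjoint Q (Set.range f)) :
    ∃ (m : ℕ) (A : Fin m → Set G) (a : Fin m → G), 1 ≤ m ∧ m ≤ n + 1 ∧
      (∀ i, (A i).Nonempty) ∧ (∀ i i', i ≠ i' → Disjoint (A i) (A i')) ∧
      (⋃ i, A i) = Set.range f ∪ Q ∧
      (⋃ i, (fun g => a i * g) '' A i) = Set.univ := by
  classical
  let s : Fin (n + 1) → G := Fin.cons 1 x
  have hs : ∀ g, ∃ i, f g = s i * g := by
    intro g
    rcases hx g with h1 | ⟨i, h1⟩
    · exact ⟨0, by simp [s, h1]⟩
    · exact ⟨i.succ, by simp [s, h1]⟩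
  choose c hc using hs
  let I : Finset (Fin (n + 1)) := Finset.univ.filter fun i => ∃ g, c g = i
  have hcI : ∀ g, c g ∈ I := fun g => Finset.mem_filter.2 ⟨Finset.mem_univ _, g, rfl⟩
  have hIpos : 0 < I.card := Finset.card_pos.2 ⟨c 1, hcI 1⟩
  have hIle : I.card ≤ n + 1 := by
    have := Finset.card_le_univ I
    rwa [Fintype.card_fin] at this
  let e : I ≃ Fin I.card := I.equivFin
  let j0 : Fin I.card := ⟨0, hIpos⟩
  let A₀ : Fin I.card → Set G := fun j => {z | ∃ g, c g = (e.symm j : Fin (n + 1)) ∧ z = f g}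
  let A : Fin I.card → Set G := fun j => {z | z ∈ A₀ j ∨ (j = j0 ∧ z ∈ Q)}
  let a : Fin I.card → G := fun j => (s (e.symm j))⁻¹
  have hdis₀ : ∀ j j' z, z ∈ A₀ j → z ∈ A₀ j' → j = j' := by
    rintro j j' z ⟨g, hg, rfl⟩ ⟨g', hg', hfe⟩
    have h1 := hf hfe
    subst h1
    have h2 : (e.symm j : Fin (n + 1)) = e.symm j' := hg.symm.trans hg'
    exact e.symm.injective (Subtype.ext h2)
  have hA₀r : ∀ j z, z ∈ A₀ j → z ∈ Set.range f := by
    rintro j z ⟨g, -, rfl⟩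
    exact ⟨g, rfl⟩
  have hmem : ∀ g, f g ∈ A₀ (e ⟨c g, hcI g⟩) := by
    intro g
    refine ⟨g, ?_, rfl⟩
    rw [Equiv.symm_apply_apply]
  refine ⟨I.card, A, a, hIpos, hIle, ?_, ?_, ?_, ?_⟩
  · intro j
    obtain ⟨g, hg⟩ := (Finset.mem_filter.1 (e.symm j).2).2
    exact ⟨f g, Or.inl ⟨g, hg, rfl⟩⟩
  · intro j j' hne
    rw [Set.disjoint_left]
    rintro z (h1 | ⟨h1, h2⟩) (h3 | ⟨h3, h4⟩)
    · exact hne (hdis₀ j j' z h1 h3)
    · exact Set.disjoint_left.1 hQ h4 (hA₀r j z h1)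
    · exact Set.disjoint_left.1 hQ h2 (hA₀r j' z h3)
    · exact hne (h1.trans h3.symm)
  · ext z
    simp only [Set.mem_iUnion, Set.mem_union]
    constructor
    · rintro ⟨j, h1 | ⟨-, h1⟩⟩
      · exact Or.inl (hA₀r j z h1)
      · exact Or.inr h1
    · rintro (⟨g, rfl⟩ | h1)
      · exact ⟨_, Or.inl (hmem g)⟩
      · exact ⟨j0, Or.inr ⟨rfl, h1⟩⟩
  · rw [Set.eq_univ_iff_forall]
    intro g
    refine Set.mem_iUnion.2 ⟨e ⟨c g, hcI g⟩, f g, Or.inl (hmem g), ?_⟩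
    simp only [a]
    rw [Equiv.symm_apply_apply, hc g]
    group

/-- `exists_inj` gives the injection `f` of `G ⊕ G`; the first half for `f ∘ inl` with `Q` the
complement of the range of `f`, the second half for `f ∘ inr` with `Q = ∅` -/
theorem par_gen {G : Type} [Group G] [DecidableEq G] {sx sy : ℕ} (x : Fin sx → G)
    (y : Fin sy → G) (h : GHset x y) :
    ∃ m n : ℕ, 1 ≤ m ∧ 1 ≤ n ∧ m ≤ sx + 1 ∧ n ≤ sy + 1 ∧ HasParadox G m n := by
  obtain ⟨f, hf, hfx, hfy⟩ := exists_inj x y h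
  have hQ1 : Disjoint (Set.range f)ᶜ (Set.range fun g => f (Sum.inl g)) := by
    rw [Set.disjoint_left]
    rintro z hz ⟨g, rfl⟩
    exact hz ⟨_, rfl⟩
  obtain ⟨m, A, a, hm1, hm2, hA1, hA2, hA3, hA4⟩ := PARO_half x (fun g => f (Sum.inl g))
    (fun g g' hg => Sum.inl_injective (hf hg)) hfx _ hQ1
  obtain ⟨n, B, b, hn1, hn2, hB1, hB2, hB3, hB4⟩ := PARO_half y (fun g => f (Sum.inr g))
    (fun g g' hg => Sum.inr_injective (hf hg)) hfy ∅ (Set.empty_disjoint _)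
  refine ⟨m, n, hm1, hn1, hm2, hn2, A, B, a, b, hA1, hB1, hA2, hB2, ?_, ?_, hA4, hB4⟩
  · intro i j
    rw [Set.disjoint_left]
    intro z hz hz'
    have h1 : z ∈ (Set.range fun g => f (Sum.inl g)) ∪ (Set.range f)ᶜ := by
      rw [← hA3]
      exact Set.mem_iUnion.2 ⟨i, hz⟩
    have h2 : z ∈ (Set.range fun g => f (Sum.inr g)) ∪ ∅ := by
      rw [← hB3]
      exact Set.mem_iUnion.2 ⟨j, hz'⟩
    rw [Set.union_empty] at h2
    obtain ⟨g, rfl⟩ := h2
    rcases h1 with ⟨g', hg'⟩ | h1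
    · have := hf hg'
      simp at this
    · exact h1 ⟨_, rfl⟩
  · rw [hA3, hB3, Set.union_empty, Set.eq_univ_iff_forall]
    intro z
    by_cases hz : z ∈ Set.range f
    · obtain ⟨p, rfl⟩ := hz
      rcases p with g | g
      · exact Or.inl (Or.inl ⟨g, rfl⟩)
      · exact Or.inr ⟨g, rfl⟩
    · exact Or.inl (Or.inr hz)

end TARO
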