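import Pool.Agent.TARO.Defs

/-! PGH: the Hall inequality from a paradoxical decomposition. -/

namespace TARO

open TAR

private theorem pgh_half {G : Type} [Group G] {n : ℕ} (A : Fin (n + 1) → Set G)
    (a : Fin (n + 1) → G) (hA : ∀ i i', i ≠ i' → Disjoint (A i) (A i'))
    (hU : (⋃ i, (fun g => a i * g) '' A i) = Set.univ) :
    ∃ φ : G → G, Function.Injective φ ∧ (∀ g, ∃ i, φ g ∈ A i) ∧
      ∀ g, φ g = g ∨ ∃ i : Fin n, φ g = ((a i.succ)⁻¹ * a 0) * g := by
  have h1 : ∀ g, ∃ i, ∃ z ∈ A i, a i * z = a 0 * g := by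
    intro g
    have h2 : a 0 * g ∈ ⋃ i, (fun g => a i * g) '' A i := by rw [hU]; trivial
    obtain ⟨i, z, hz, hz2⟩ := Set.mem_iUnion.1 h2
    exact ⟨i, z, hz, hz2⟩
  choose c φ hφ hφ2 using h1
  refine ⟨φ, ?_, fun g => ⟨c g, hφ g⟩, ?_⟩
  · intro g g' hgg
    have h2 : c g = c g' := by
      by_contra hne
      have h3 := hφ g
      rw [hgg] at h3
      exact Set.disjoint_left.1 (hA _ _ hne) h3 (hφ g')
    have h3 := hφ2 g
    rw [hgg, h2, hφ2 g'] at h3
    exact (mul_left_cancel h3).symm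
  · intro g
    have h3 : φ g = (a (c g))⁻¹ * a 0 * g := by
      rw [mul_assoc, ← hφ2 g]
      group
    rcases Fin.eq_zero_or_eq_succ (c g) with h0 | ⟨i, hi⟩
    · left
      rw [h3, h0]
      group
    · right
      exact ⟨i, by rw [h3, hi]⟩

/-- Let `s i = (a (i + 1))⁻¹ * a 0`, `t j = (b (j + 1))⁻¹ * b 0`.  For `g` in `F₁` the element
`a 0 * g` lies in some `a i * A i`; the map `g ↦ (a i)⁻¹ * a 0 * g ∈ A i` is injective and its
values are in `F₁ ∪ s F₁`.  In the same way for `F₂`; the images lie in the disjoint sets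
`⋃ A i` and `⋃ B j`. -/
theorem gh_of_paradox {G : Type} [Group G] [DecidableEq G] {sx sy : ℕ}
    (h : HasParadox G (sx + 1) (sy + 1)) :
    ∃ (s : Fin sx → G) (t : Fin sy → G), GHset s t := by
  obtain ⟨A, B, a, b, -, -, hA, hB, hAB, -, hAU, hBU⟩ := h
  obtain ⟨φ, hφ1, hφ2, hφ3⟩ := pgh_half A a hA hAU
  obtain ⟨ψ, hψ1, hψ2, hψ3⟩ := pgh_half B b hB hBU
  refine ⟨fun i => (a i.succ)⁻¹ * a 0, fun j => (b j.succ)⁻¹ * b 0, ?_⟩
  intro F₁ F₂
  have hd : Disjoint (F₁.image φ) (F₂.image ψ) := by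
    rw [Finset.disjoint_left]
    intro z hz hz'
    obtain ⟨g, -, rfl⟩ := Finset.mem_image.1 hz
    obtain ⟨g', -, hg'⟩ := Finset.mem_image.1 hz'
    obtain ⟨i, hi⟩ := hφ2 g
    obtain ⟨j, hj⟩ := hψ2 g'
    rw [hg'] at hj
    exact Set.disjoint_left.1 (hAB i j) hi hj
  have h1 : (F₁.image φ ∪ F₂.image ψ).card = F₁.card + F₂.card := by
    rw [Finset.card_union_of_disjoint hd, Finset.card_image_of_injective _ hφ1,
      Finset.card_image_of_injective _ hψ1]
  rw [← h1]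
  apply Finset.card_le_card
  intro z hz
  rcases Finset.mem_union.1 hz with hz | hz
  · obtain ⟨g, hg, rfl⟩ := Finset.mem_image.1 hz
    rcases hφ3 g with h2 | ⟨i, h2⟩
    · rw [h2]
      exact Finset.mem_union_left _ (Finset.mem_union_left _ (Finset.mem_union_left _ hg))
    · refine Finset.mem_union_left _ (Finset.mem_union_right _ ?_)
      exact Finset.mem_biUnion.2 ⟨i, Finset.mem_univ _, Finset.mem_image.2 ⟨g, hg, h2.symm⟩⟩
  · obtain ⟨g, hg, rfl⟩ := Finset.mem_image.1 hz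
    rcases hψ3 g with h2 | ⟨i, h2⟩
    · rw [h2]
      exact Finset.mem_union_left _ (Finset.mem_union_left _ (Finset.mem_union_right _ hg))
    · refine Finset.mem_union_right _ ?_
      exact Finset.mem_biUnion.2 ⟨i, Finset.mem_univ _, Finset.mem_image.2 ⟨g, hg, h2.symm⟩⟩

end TARO
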