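import Pool.Agent.TARO.GRP
import Pool.Agent.TARO.PARO
import Pool.Agent.TARO.PGH
import Pool.Agent.TAR.LB

/-! MAINO: odd Tarski numbers from `7` on. -/

namespace TARO

open TAR

/-- for every `r ≥ 1` there is a group generated by `2 r + 3` elements all of whose
subgroups generated by `r` elements are finite and whose Tarski number is `2 r + 5` -/
theorem odd_family (r : ℕ) (hr : 1 ≤ r) :
    ∃ (G : Type) (_ : Group G), (∃ s : Fin (2 * r + 3) → G,
      Subgroup.closure (Set.range s) = ⊤) ∧ RFin G r ∧ HasTarskiNumber G (2 * r + 5) := by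
  obtain ⟨G, hG, hdec, x, y, hgen, hR, hset, hno⟩ := exists_group hr
  have key : ∀ m n : ℕ, HasParadox G m n → 2 * r + 5 ≤ m + n := by
    intro m n hp
    obtain ⟨h1, h2⟩ := lb hR hp
    by_contra hcon
    have e1 : m = r + 1 + 1 := by omega
    have e2 : n = r + 1 + 1 := by omega
    subst e1
    subst e2
    obtain ⟨s, t, hst⟩ := gh_of_paradox hp
    exact hno s t hst
  refine ⟨G, hG, ?_, hR, ?_, fun m n _ _ hp => key m n hp⟩
  · have e : Fin (2 * r + 3) ≃ Fin (r + 1) ⊕ Fin (r + 2) :=
      (finCongr (by omega : 2 * r + 3 = (r + 1) + (r + 2))).trans finSumFinEquiv.symm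
    refine ⟨Sum.elim x y ∘ e, ?_⟩
    rw [Set.range_comp, e.surjective.range_eq, Set.image_univ, Set.Sum.elim_range, hgen]
  · obtain ⟨m, n, hm, hn, hm', hn', hp⟩ := par_gen x y hset
    have := key m n hp
    exact ⟨m, n, hm, hn, by omega, hp⟩

end TARO
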