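import Mathlib

/-! ABEL: Abel summation. -/

namespace TARO

private theorem abel_aux {p : ℝ} (hp : 1 ≤ p) (σ a : ℕ → ℝ) :
    ∀ M : ℕ, (∀ i, i ≤ M →
      ∑ t ∈ Finset.range i, σ t - ∑ t ∈ Finset.range (i + 1), a t ≤ 0) →
    (p ^ (M + 1) - p ^ M) * a 0 +
      ∑ i ∈ Finset.range (M + 1), p ^ (M - i) * (σ i - p * a i) ≤
        ∑ t ∈ Finset.range (M + 1), σ t - ∑ t ∈ Finset.range (M + 1), a t := by
  intro M
  induction M with
  | zero =>
    intro _
    apply le_of_eq
    simp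
    ring
  | succ M ih =>
    intro h
    have h1 := ih (fun i hi => h i (by omega))
    have h2 := h (M + 1) le_rfl
    have e1 : ∑ i ∈ Finset.range (M + 1 + 1), p ^ (M + 1 - i) * (σ i - p * a i) =
        p * ∑ i ∈ Finset.range (M + 1), p ^ (M - i) * (σ i - p * a i) +
          (σ (M + 1) - p * a (M + 1)) := by
      rw [Finset.sum_range_succ, Finset.mul_sum]
      congr 1
      · apply Finset.sum_congr rfl
        intro i hi
        have hi' : i ≤ M := by
          have := Finset.mem_range.1 hi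
          omega
        rw [Nat.succ_sub hi', pow_succ]
        ring
      · simp
    rw [e1]
    have e2 : ∑ t ∈ Finset.range (M + 1 + 1), σ t =
        ∑ t ∈ Finset.range (M + 1), σ t + σ (M + 1) := Finset.sum_range_succ _ _
    have e3 : ∑ t ∈ Finset.range (M + 1 + 1), a t =
        ∑ t ∈ Finset.range (M + 1), a t + a (M + 1) := Finset.sum_range_succ _ _
    rw [e3] at h2
    rw [e2, e3]
    have h3 := mul_le_mul_of_nonneg_left h1 (le_trans zero_le_one hp)
    have h4 := mul_nonneg (sub_nonneg.2 hp) (neg_nonneg.2 h2)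
    have e4 : (p ^ (M + 1 + 1) - p ^ (M + 1)) * a 0 = p * ((p ^ (M + 1) - p ^ M) * a 0) := by
      ring
    rw [e4]
    nlinarith [h3, h4]

/-- With `S i = ∑ t < i, σ t - ∑ t < i + 1, a t` the left side is
`∑ i ∈ [1, L - 1], (p ^ (L - i) - p ^ (L - i - 1)) S i + S L`: induction on `L`. -/
theorem abel_neg {p : ℝ} (hp : 1 ≤ p) {L : ℕ} (hL : 1 ≤ L) (σ a : ℕ → ℝ) (ha : a L = 0)
    (h : ∀ i, i ≤ L →
      ∑ t ∈ Finset.range i, σ t - ∑ t ∈ Finset.range (i + 1), a t ≤ 0)
    (h' : ∑ t ∈ Finset.range L, σ t - ∑ t ∈ Finset.range (L + 1), a t < 0) :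
    (p ^ L - p ^ (L - 1)) * a 0 +
      ∑ i ∈ Finset.range L, p ^ (L - 1 - i) * (σ i - p * a i) < 0 := by
  obtain ⟨M, rfl⟩ := Nat.exists_eq_add_of_le' hL
  have h1 := abel_aux hp σ a M (fun i hi => h i (by omega))
  rw [Finset.sum_range_succ a (M + 1), ha, add_zero] at h'
  simp only [Nat.add_sub_cancel]
  exact lt_of_le_of_lt h1 h'

end TARO
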