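import Pool.Agent.TARO.ADPT

/-! ADPC: adapted complements and adapted bases. -/

open Module

namespace TARO

variable {r : ℕ}

/-- take a `C` of maximal dimension with `Adapted c n Y C`, `Y ⊔ C ≤ V` and use
`Adapted.exists_vector` for `D = V` -/
theorem exists_adapted_compl (c : ℕ → Cm r) (n : ℕ) {Y V : Submodule K (F r)} (h : Y ≤ V)
    (hV : V ≤ Fd r n) : ∃ C : Submodule K (F r), C ≤ V ∧ Y ⊔ C = V ∧ Adapted c n Y C := by
  have hfV : FiniteDimensional K V := finiteDimensional_of_le_Fd hV
  have key : ∀ (k : ℕ) (C : Submodule K (F r)), Y ⊔ C ≤ V → Adapted c n Y C →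
      finrank K V ≤ finrank K (Y ⊔ C : Submodule K (F r)) + k →
      ∃ C' : Submodule K (F r), C' ≤ V ∧ Y ⊔ C' = V ∧ Adapted c n Y C' := by
    intro k
    induction k with
    | zero =>
      intro C hle hA hk
      refine ⟨C, le_sup_right.trans hle, ?_, hA⟩
      exact Submodule.eq_of_le_of_finrank_le hle (by omega)
    | succ k ih =>
      intro C hle hA hk
      by_cases hne : V ≤ Y ⊔ C
      · exact ⟨C, le_sup_right.trans hle, le_antisymm hle hne, hA⟩
      · obtain ⟨v, hvV, hv, hA', -⟩ := hA.exists_vector hV hle hne
        have hle' : Y ⊔ (C ⊔ Submodule.span K {v}) ≤ V := by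
          rw [← sup_assoc]
          exact sup_le hle ((Submodule.span_singleton_le_iff_mem _ _).2 hvV)
        refine ih (C ⊔ Submodule.span K {v}) hle' hA' ?_
        have hfd : FiniteDimensional K (Y ⊔ (C ⊔ Submodule.span K {v}) : Submodule K (F r)) :=
          Submodule.finiteDimensional_of_le hle'
        have hlt : Y ⊔ C < Y ⊔ (C ⊔ Submodule.span K {v}) := by
          rw [← sup_assoc]
          refine lt_of_le_of_ne le_sup_left ?_
          intro heq
          apply hv
          rw [heq]
          exact (le_sup_right : Submodule.span K {v} ≤ _) (Submodule.mem_span_singleton_self v)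
        have := Submodule.finrank_lt_finrank_of_lt hlt
        omega
  exact key (finrank K V) ⊥ (by rw [sup_bot_eq]; exact h) (Adapted.bot_right c n Y) (by omega)

/-- the weighted dimension of a line -/
private theorem ADPC_w_span (c : ℕ → Cm r) (n : ℕ) {v : F r} (hv : v ≠ 0) (hvn : v ∈ Fd r n) :
    ∃ j, v ∈ Flt c n j ∧ w c n (Submodule.span K {v}) = alp r ^ j := by
  classical
  have hex : ∃ j, v ∉ Flt c n (j + 1) := by
    refine ⟨n, ?_⟩
    rw [Flt_bot c (Nat.lt_succ_self n)]
    exact hv
  let j := Nat.find hex
  have hj : v ∉ Flt c n (j + 1) := Nat.find_spec hex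
  have hjmin : ∀ i, i < j → v ∈ Flt c n (i + 1) := fun i hi => by
    have := Nat.find_min hex hi
    exact not_not.1 this
  have hvj : v ∈ Flt c n j := by
    rcases Nat.eq_zero_or_pos j with h0 | h0
    · rw [h0, Flt_zero]
      exact hvn
    · have := hjmin (j - 1) (by omega)
      rwa [Nat.sub_add_cancel h0] at this
  have hjn : j ≤ n := by
    by_contra hlt
    have := hjmin n (by omega)
    rw [Flt_bot c (Nat.lt_succ_self n)] at this
    exact hv this
  refine ⟨j, hvj, ?_⟩
  have hrd0 : ∀ i, i < j → rd (Submodule.span K {v}) (Flt c n (i + 1)) = 0 := by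
    intro i hi
    exact rd_eq_zero ((Submodule.span_singleton_le_iff_mem _ _).2 (hjmin i hi))
  have hrd1 : ∀ i, j ≤ i → rd (Submodule.span K {v}) (Flt c n (i + 1)) = 1 := by
    intro i hi
    have h1 : (Submodule.span K {v} ⊓ Flt c n (i + 1) : Submodule K (F r)) = ⊥ := by
      rw [eq_bot_iff]
      intro x hx
      obtain ⟨hx1, hx2⟩ := Submodule.mem_inf.1 hx
      obtain ⟨a, rfl⟩ := Submodule.mem_span_singleton.1 hx1
      rw [Submodule.mem_bot]
      by_contra hne
      have ha : a ≠ 0 := by
        rintro rfl
        exact hne (zero_smul _ _)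
      apply hj
      have hmem : v ∈ Flt c n (i + 1) := by
        have := (Flt c n (i + 1)).smul_mem a⁻¹ hx2
        rwa [smul_smul, inv_mul_cancel₀ ha, one_smul] at this
      exact Flt_anti c n (by omega) hmem
    unfold rd
    rw [h1, finrank_bot, finrank_span_singleton hv]
  have hsum : ∑ i ∈ Finset.range n,
      alp r ^ i * (rd (Submodule.span K {v}) (Flt c n (i + 1)) : ℝ) =
      ∑ i ∈ Finset.range n, (if j ≤ i then alp r ^ i else 0) := by
    apply Finset.sum_congr rfl
    intro i _
    by_cases hji : j ≤ i
    · rw [hrd1 i hji, if_pos hji]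
      simp
    · rw [hrd0 i (by omega), if_neg hji]
      simp
  have hgeo : ∀ m, j ≤ m → (1 - alp r) * ∑ i ∈ Finset.range m,
      (if j ≤ i then alp r ^ i else 0) + alp r ^ m = alp r ^ j := by
    intro m hm
    induction m, hm using Nat.le_induction with
    | base =>
      have : ∑ i ∈ Finset.range j, (if j ≤ i then alp r ^ i else 0) = 0 := by
        apply Finset.sum_eq_zero
        intro i hi
        rw [if_neg (by have := Finset.mem_range.1 hi; omega)]
      rw [this]
      ring
    | succ m hm ih =>
      rw [Finset.sum_range_succ, if_pos hm, ← ih]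
      ring
  unfold w
  rw [hsum, finrank_span_singleton hv, Nat.cast_one, mul_one]
  exact hgeo n hjn

/-- a basis adapted to the filtration: induction on the dimension of `V`; if `V ≠ ⊥` use
`Adapted.exists_vector` for `O = Z = ⊥`, `D = V` to get `v`, then a complement `C` of the span
of `v` in `V`; if `j` is the last step containing `v` then `w (span {v}) = alp ^ j` -/
theorem exists_adapted_basis (c : ℕ → Cm r) (n : ℕ) {V : Submodule K (F r)}
    (hV : V ≤ Fd r n) :
    ∃ (m : ℕ) (v : Fin m → F r) (j : Fin m → ℕ), (∀ i, v i ∈ Flt c n (j i)) ∧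
      Submodule.span K (Set.range v) = V ∧ ∑ i, alp r ^ j i = w c n V := by
  have hfV : FiniteDimensional K V := finiteDimensional_of_le_Fd hV
  have key : ∀ (k : ℕ) (W : Submodule K (F r)), W ≤ V →
      (∃ (m : ℕ) (v : Fin m → F r) (j : Fin m → ℕ), (∀ i, v i ∈ Flt c n (j i)) ∧
        Submodule.span K (Set.range v) = W ∧ ∑ i, alp r ^ j i = w c n W) →
      finrank K V ≤ finrank K W + k →
      ∃ (m : ℕ) (v : Fin m → F r) (j : Fin m → ℕ), (∀ i, v i ∈ Flt c n (j i)) ∧
        Submodule.span K (Set.range v) = V ∧ ∑ i, alp r ^ j i = w c n V := by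
    intro k
    induction k with
    | zero =>
      intro W hle hW hk
      have : W = V := Submodule.eq_of_le_of_finrank_le hle (by omega)
      rwa [this] at hW
    | succ k ih =>
      intro W hle hW hk
      by_cases hne : V ≤ W
      · rwa [le_antisymm hle hne] at hW
      · obtain ⟨m, u, j, hu, hspan, hsum⟩ := hW
        have hfW : FiniteDimensional K W := Submodule.finiteDimensional_of_le hle
        obtain ⟨v, hvV, hv, hA, -⟩ := (Adapted.bot_right c n W).exists_vector hV
          (by rw [sup_bot_eq]; exact hle) (by rw [sup_bot_eq]; exact hne)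
        rw [sup_bot_eq] at hv
        rw [bot_sup_eq] at hA
        have hv0 : v ≠ 0 := by
          rintro rfl
          exact hv (zero_mem W)
        obtain ⟨i, hvi, hwi⟩ := ADPC_w_span c n hv0 (hV hvV)
        have hle' : W ⊔ Submodule.span K {v} ≤ V :=
          sup_le hle ((Submodule.span_singleton_le_iff_mem _ _).2 hvV)
        have hfd : FiniteDimensional K (W ⊔ Submodule.span K {v} : Submodule K (F r)) :=
          Submodule.finiteDimensional_of_le hle'
        refine ih (W ⊔ Submodule.span K {v}) hle' ?_ ?_
        · refine ⟨m + 1, Fin.snoc u v, Fin.snoc j i, ?_, ?_, ?_⟩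
          · intro t
            refine Fin.lastCases ?_ (fun s => ?_) t
            · simpa using hvi
            · simpa using hu s
          · have hr : Set.range (Fin.snoc u v : Fin (m + 1) → F r) =
                Set.range u ∪ {v} := by
              ext x
              constructor
              · rintro ⟨t, rfl⟩
                refine Fin.lastCases ?_ (fun s => ?_) t
                · right
                  simp
                · left
                  exact ⟨s, by simp⟩
              · rintro (⟨s, rfl⟩ | hx)
                · exact ⟨Fin.castSucc s, by simp⟩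
                · exact ⟨Fin.last m, by simpa using hx.symm⟩
            rw [hr, Submodule.span_union, hspan]
          · rw [hA.w_sup, hwi, ← hsum, Fin.sum_univ_castSucc]
            simp
        · have hlt : W < W ⊔ Submodule.span K {v} := by
            refine lt_of_le_of_ne le_sup_left ?_
            intro heq
            apply hv
            rw [heq]
            exact (le_sup_right : Submodule.span K {v} ≤ _)
              (Submodule.mem_span_singleton_self v)
          have := Submodule.finrank_lt_finrank_of_lt hlt
          omega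
  refine key (finrank K V) ⊥ bot_le ⟨0, Fin.elim0, Fin.elim0, fun i => i.elim0, ?_, ?_⟩
    (by omega)
  · simp
  · unfold w
    have h0 : ∀ P : Submodule K (F r), rd ⊥ P = 0 := fun P => rd_eq_zero bot_le
    simp [h0]

end TARO
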