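import Pool.Agent.TARO.WB

/-! WSPAN: weighted dimension of a span. -/

open Module

namespace TARO

variable {r : ℕ}

theorem w_sup_le (c : ℕ → Cm r) (n : ℕ) (V W : Submodule K (F r))
    [FiniteDimensional K V] [FiniteDimensional K W] :
    w c n (V ⊔ W) ≤ w c n V + w c n W := by
  have h1 := w_sup_add_inf c n V W
  have h2 := w_nonneg c n (V ⊓ W)
  linarith

private theorem WSPAN_aux (c : ℕ → Cm r) (n : ℕ) {ι : Type} (s : Finset ι) (v : ι → F r) :
    w c n (Submodule.span K (v '' (s : Set ι))) ≤ ∑ i ∈ s, w c n (Submodule.span K {v i}) := by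
  classical
  induction s using Finset.induction_on with
  | empty =>
    rw [Finset.coe_empty, Set.image_empty, Submodule.span_empty, w_bot, Finset.sum_empty]
  | insert a s ha ih =>
    rw [Finset.coe_insert, Set.image_insert_eq, Finset.sum_insert ha, Submodule.span_insert]
    haveI : FiniteDimensional K (Submodule.span K (v '' (s : Set ι))) :=
      FiniteDimensional.span_of_finite K (s.finite_toSet.image v)
    have h := w_sup_le c n (Submodule.span K {v a}) (Submodule.span K (v '' (s : Set ι)))
    linarith

theorem w_span_range_le (c : ℕ → Cm r) (n : ℕ) {ι : Type} [Fintype ι] (v : ι → F r) :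
    w c n (Submodule.span K (Set.range v)) ≤ ∑ i, w c n (Submodule.span K {v i}) := by
  have h := WSPAN_aux c n (Finset.univ : Finset ι) v
  rwa [Finset.coe_univ, Set.image_univ] at h

private theorem WSPAN_fin (v : F r) :
    ((finrank K (Submodule.span K {v} : Submodule K (F r)) : ℕ) : ℝ) ≤ 1 := by
  have h := finrank_span_le_card (R := K) ({v} : Set (F r))
  have h2 : finrank K (Submodule.span K {v} : Submodule K (F r)) ≤ 1 := by
    simpa using h
  exact_mod_cast h2

theorem w_singleton_le (c : ℕ → Cm r) {n j : ℕ} {v : F r} (h : v ∈ Flt c n j) :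
    w c n (Submodule.span K {v}) ≤ alp r ^ j := by
  have h1 : Submodule.span K {v} ≤ Flt c n j := by
    rw [Submodule.span_singleton_le_iff_mem]
    exact h
  have h2 := w_le_of_le_Flt c n j h1
  have h3 := WSPAN_fin v
  have h4 : (0 : ℝ) ≤ alp r ^ j := pow_nonneg (alp_pos r).le j
  have h5 := mul_le_mul_of_nonneg_left h3 h4
  linarith

theorem w_singleton_le_one (c : ℕ → Cm r) (n : ℕ) (v : F r) :
    w c n (Submodule.span K {v}) ≤ 1 :=
  (w_le_finrank c n _).trans (WSPAN_fin v)

theorem w_singleton_add (c : ℕ → Cm r) (n : ℕ) (v v' : F r) :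
    w c n (Submodule.span K {v + v'}) ≤
      w c n (Submodule.span K {v}) + w c n (Submodule.span K {v'}) := by
  have h1 : Submodule.span K {v + v'} ≤ Submodule.span K {v} ⊔ Submodule.span K {v'} := by
    rw [Submodule.span_singleton_le_iff_mem]
    exact Submodule.add_mem_sup (Submodule.mem_span_singleton_self v)
      (Submodule.mem_span_singleton_self v')
  exact (w_mono c n h1).trans (w_sup_le c n _ _)

end TARO
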