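import Pool.Agent.TARO.FLTM
import Pool.Agent.TARO.ADPC
import Pool.Agent.TARO.WSPAN

/-! PRODW: weighted dimension of a product. -/

open Module

namespace TARO

variable {r : ℕ}

/-- adapted bases `v a ∈ Flt (j a)` of `Ω` and `u b ∈ Flt (i b)` of `U`: the products
`v a * u b ∈ Flt (j a + i b)` span `Ω * U` -/
theorem w_mul_le (c : ℕ → Cm r) (m n : ℕ) {Ω U : Submodule K (F r)} (hΩ : Ω ≤ Fd r n)
    (hU : U ≤ Fd r m) : w c (m + n) (Ω * U) ≤ w (shift c m) n Ω * w c m U := by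
  obtain ⟨k₁, v, j, hv, hvs, hvw⟩ := exists_adapted_basis (shift c m) n hΩ
  obtain ⟨k₂, u, i, hu, hus, huw⟩ := exists_adapted_basis c m hU
  have hspan : Ω * U = Submodule.span K
      (Set.range fun p : Fin k₁ × Fin k₂ => v p.1 * u p.2) := by
    rw [← hvs, ← hus, Submodule.span_mul_span]
    congr 1
    ext x
    rw [Set.mem_mul]
    constructor
    · rintro ⟨_, ⟨a, rfl⟩, _, ⟨b, rfl⟩, rfl⟩
      exact ⟨(a, b), rfl⟩
    · rintro ⟨p, rfl⟩
      exact ⟨v p.1, ⟨p.1, rfl⟩, u p.2, ⟨p.2, rfl⟩, rfl⟩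
  rw [hspan]
  refine (w_span_range_le c (m + n) _).trans ?_
  calc ∑ p : Fin k₁ × Fin k₂, w c (m + n) (Submodule.span K {v p.1 * u p.2}) ≤
      ∑ p : Fin k₁ × Fin k₂, alp r ^ j p.1 * alp r ^ i p.2 := by
        refine Finset.sum_le_sum fun p _ => ?_
        rw [← pow_add]
        exact w_singleton_le c (Flt_mul c m n (j p.1) (i p.2)
          (Submodule.mul_mem_mul (hv p.1) (hu p.2)))
    _ = (∑ a, alp r ^ j a) * ∑ b, alp r ^ i b := by
        rw [Fintype.sum_prod_type, Finset.sum_mul_sum]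
    _ = w (shift c m) n Ω * w c m U := by rw [hvw, huw]

end TARO
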