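import Pool.Agent.TARO.LEAST
import Pool.Agent.TARO.ADPC
import Pool.Agent.TARO.PRODW

/-! ADD: adding a relation whose degree is the length of the interval. -/

open Module

namespace TARO

variable {r : ℕ}

/-- As `TAR.CapI.add`.  Let `P` be the least good family for `insert (h, Ω') R` with `Y`, `Ω`,
`U = P (s * h)`.  Let `K'` be an adapted complement of `U` in `Fd r (s * h)` and `U'` an adapted
complement of `Y` in `U` (`exists_adapted_compl`).  Apply `hC` to `K' ⊔ Y` and `Ω ⊔ Ω' * U'`.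
The family obtained satisfies the relation `(h, Ω')` too, contains `P` by minimality, and is
everything at `s * h`.  `w (Fd) - w (K' ⊔ Y) = w U - w Y = w U'` (`Adapted.w_sup` for
`(U, K')`, for `(Y, K')` by `Adapted.mono_right`, and for `(Y, U')`), and
`w (Ω' * U') ≤ w (shift c (s * h)) h Ω' * w c (s * h) U'` (`w_mul_le`). -/
theorem CapI.add {c : ℕ → Cm r} {L : ℕ} {R : Rels r} {s h : ℕ} {κ ω : ℝ}
    {Ω' : Submodule K (F r)} (hh : 0 < h) (hR : ∀ p ∈ R, p.2 ≤ Fd r p.1) (hΩ' : Ω' ≤ Fd r h)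
    (hω : w (shift c (s * h)) h Ω' ≤ ω) (hC : CapI c L R (s * h) ((s + 1) * h) κ) :
    CapI c L (insert (h, Ω') R) (s * h) ((s + 1) * h) (κ - ω) := by
  intro Y Ω hY hΩ
  have hR' : ∀ p ∈ insert (h, Ω') R, p.2 ≤ Fd r p.1 := by
    intro p hp
    rcases Set.mem_insert_iff.mp hp with rfl | hp
    · exact hΩ'
    · exact hR p hp
  obtain ⟨Q, hQ, hYQ, hΩQ, hmin⟩ :=
    exists_least (L := L) (b := s * h) (e := (s + 1) * h) hR' hY hΩ
  have hle : s * h ≤ (s + 1) * h := Nat.mul_le_mul_right _ (Nat.le_succ _)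
  have heq : (s + 1) * h = s * h + h := by ring
  have hU : Q (s * h) ≤ Fd r (s * h) := hQ.le _ le_rfl hle
  obtain ⟨K', hK'le, hK'sup, hK'ad⟩ := exists_adapted_compl c (s * h) hU le_rfl
  obtain ⟨U', hU'le, hU'sup, hU'ad⟩ := exists_adapted_compl c (s * h) hYQ hU
  have hU'Fd : U' ≤ Fd r (s * h) := hU'le.trans hU
  have hYhat : K' ⊔ Y ≤ Fd r (s * h) := sup_le hK'le hY
  have hmulle : Ω' * U' ≤ Fd r ((s + 1) * h) := by
    calc Ω' * U' ≤ Fd r h * Fd r (s * h) := mul_le_mul' hΩ' hU'Fd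
      _ = Fd r (h + s * h) := Fd_mul _ _
      _ = Fd r ((s + 1) * h) := by rw [heq, Nat.add_comm]
  have hΩhat : Ω ⊔ Ω' * U' ≤ Fd r ((s + 1) * h) := sup_le hΩ hmulle
  obtain ⟨P, hP, hYP, hΩP, hdim⟩ := hC (K' ⊔ Y) (Ω ⊔ Ω' * U') hYhat hΩhat
  -- the full space of degree `s * h`
  have hFd : Fd r (s * h) = (K' ⊔ Y) ⊔ U' := by
    rw [← hK'sup, ← hU'sup]
    ac_rfl
  have hPgood : Good r L (insert (h, Ω') R) (s * h) ((s + 1) * h) P := by
    refine ⟨hP.le, hP.closed, hP.hl, ?_⟩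
    intro p hp t ht1 ht2
    rcases Set.mem_insert_iff.mp hp with rfl | hp
    · have hts : t = s := by
        apply le_antisymm
        · have := Nat.le_of_mul_le_mul_right ht2 hh
          omega
        · exact Nat.le_of_mul_le_mul_right ht1 hh
      subst hts
      show Ω' * Fd r (t * h) ≤ P ((t + 1) * h)
      rw [hFd, Submodule.mul_sup]
      apply sup_le
      · calc Ω' * (K' ⊔ Y) ≤ Fd r h * P (t * h) := mul_le_mul' hΩ' hYP
          _ ≤ P (t * h + h) := Fd_mul_le hP.closed h (t * h) le_rfl (by rw [heq])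
          _ = P ((t + 1) * h) := by rw [heq]
      · exact le_sup_right.trans hΩP
    · exact hP.rel p hp t ht1 ht2
  have hQP : ∀ n, s * h ≤ n → n ≤ (s + 1) * h → Q n ≤ P n :=
    hmin P hPgood (le_sup_right.trans hYP) (le_sup_left.trans hΩP)
  have hPfull : P (s * h) = Fd r (s * h) := by
    apply le_antisymm (hP.le _ le_rfl hle)
    rw [← hK'sup]
    exact sup_le (hQP _ le_rfl hle) (le_sup_left.trans hYP)
  refine ⟨Q, hQ, hYQ, hΩQ, ?_⟩
  have : FiniteDimensional K K' := finiteDimensional_of_le_Fd hK'le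
  have : FiniteDimensional K U' := finiteDimensional_of_le_Fd hU'Fd
  have : FiniteDimensional K Y := finiteDimensional_of_le_Fd hY
  have : FiniteDimensional K (Q (s * h)) := finiteDimensional_of_le_Fd hU
  have : FiniteDimensional K Ω := finiteDimensional_of_le_Fd hΩ
  have : FiniteDimensional K Ω' := finiteDimensional_of_le_Fd hΩ'
  have : FiniteDimensional K (Ω' * U' : Submodule K (F r)) :=
    finiteDimensional_of_le_Fd hmulle
  have e1 : w c (s * h) (Fd r (s * h)) = w c (s * h) (Q (s * h)) + w c (s * h) K' := by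
    rw [← hK'ad.w_sup, hK'sup]
  have e2 : w c (s * h) (Q (s * h)) = w c (s * h) Y + w c (s * h) U' := by
    rw [← hU'ad.w_sup, hU'sup]
  have e3 : w c (s * h) (K' ⊔ Y) = w c (s * h) K' + w c (s * h) Y :=
    (hK'ad.symm.mono_right hYQ).w_sup
  have e4 : w c ((s + 1) * h) (Ω ⊔ Ω' * U') ≤
      w c ((s + 1) * h) Ω + ω * w c (s * h) U' := by
    have h1 := w_sup_le c ((s + 1) * h) Ω (Ω' * U')
    have h2 := w_mul_le c (s * h) h hΩ' hU'Fd
    rw [← heq] at h2
    have h3 := mul_le_mul_of_nonneg_right hω (w_nonneg c (s * h) U')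
    linarith
  rw [hPfull, e1, e3] at hdim
  have e5 : w c (s * h) (Q (s * h)) + w c (s * h) K' - (w c (s * h) K' + w c (s * h) Y) =
      w c (s * h) U' := by
    rw [e2]
    ring
  rw [e5] at hdim
  have e6 : w c (s * h) (Q (s * h)) - w c (s * h) Y = w c (s * h) U' := by
    rw [e2]
    ring
  rw [e6, sub_mul]
  linarith

end TARO
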