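import Pool.Agent.TARO.WB

/-! ADPT: adapted pairs of subspaces. -/

open Module

namespace TARO

variable {r : ℕ}

theorem Adapted.symm {c : ℕ → Cm r} {n : ℕ} {O Z : Submodule K (F r)} (h : Adapted c n O Z) :
    Adapted c n Z O := by
  refine ⟨?_, fun j => ?_⟩
  · rw [inf_comm]
    exact h.1
  · rw [sup_comm Z O, sup_comm (Z ⊓ Flt c n j)]
    exact h.2 j

theorem Adapted.mono_right {c : ℕ → Cm r} {n : ℕ} {O Z Z' : Submodule K (F r)}
    (h : Adapted c n O Z) (hZ : Z' ≤ Z) : Adapted c n O Z' := by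
  refine ⟨?_, fun j => ?_⟩
  · rw [eq_bot_iff, ← h.1]
    exact inf_le_inf_left _ hZ
  · rintro x ⟨hx, hxF⟩
    obtain ⟨o, ho, z, hz, rfl⟩ := Submodule.mem_sup.1 hx
    have h1 : o + z ∈ (O ⊔ Z) ⊓ Flt c n j :=
      ⟨Submodule.mem_sup.2 ⟨o, ho, z, hZ hz, rfl⟩, hxF⟩
    obtain ⟨o', ho', z', hz', e⟩ := Submodule.mem_sup.1 (h.2 j h1)
    have h2 : o' - o ∈ O ⊓ Z := by
      refine ⟨Submodule.sub_mem _ ho'.1 ho, ?_⟩
      have : o' - o = z - z' := by
        rw [sub_eq_sub_iff_add_eq_add, e, add_comm]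
      rw [this]
      exact Submodule.sub_mem _ (hZ hz) hz'.1
    rw [h.1, Submodule.mem_bot, sub_eq_zero] at h2
    subst h2
    have h3 : z' = z := add_left_cancel e
    subst h3
    exact Submodule.mem_sup.2 ⟨o', ho', z', ⟨hz, hz'.2⟩, rfl⟩

theorem Adapted.bot_right (c : ℕ → Cm r) (n : ℕ) (O : Submodule K (F r)) :
    Adapted c n O ⊥ := by
  refine ⟨inf_bot_eq _, fun j => ?_⟩
  rw [sup_bot_eq, bot_inf_eq, sup_bot_eq]

/-- `w_eq'` and the dimensions of `(O ⊔ Z) ⊓ Flt = (O ⊓ Flt) ⊔ (Z ⊓ Flt)` -/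
theorem Adapted.w_sup {c : ℕ → Cm r} {n : ℕ} {O Z : Submodule K (F r)} (h : Adapted c n O Z)
    [FiniteDimensional K O] [FiniteDimensional K Z] :
    w c n (O ⊔ Z) = w c n O + w c n Z := by
  rw [w_eq' c le_rfl (O ⊔ Z), w_eq' c le_rfl O, w_eq' c le_rfl Z]
  have e1 : finrank K (O ⊔ Z : Submodule K (F r)) = finrank K O + finrank K Z := by
    have := Submodule.finrank_sup_add_finrank_inf_eq O Z
    rw [h.1, finrank_bot, add_zero] at this
    exact this
  have e2 : ∀ j, finrank K ((O ⊔ Z) ⊓ Flt c n (j + 1) : Submodule K (F r)) =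
      finrank K (O ⊓ Flt c n (j + 1) : Submodule K (F r)) +
        finrank K (Z ⊓ Flt c n (j + 1) : Submodule K (F r)) := by
    intro j
    have f1 : FiniteDimensional K (O ⊓ Flt c n (j + 1) : Submodule K (F r)) :=
      Submodule.finiteDimensional_of_le inf_le_left
    have f2 : FiniteDimensional K (Z ⊓ Flt c n (j + 1) : Submodule K (F r)) :=
      Submodule.finiteDimensional_of_le inf_le_left
    have e3 : (O ⊔ Z) ⊓ Flt c n (j + 1) = (O ⊓ Flt c n (j + 1)) ⊔ (Z ⊓ Flt c n (j + 1)) := by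
      apply le_antisymm (h.2 _)
      exact sup_le (inf_le_inf_right _ le_sup_left) (inf_le_inf_right _ le_sup_right)
    rw [e3]
    have := Submodule.finrank_sup_add_finrank_inf_eq (O ⊓ Flt c n (j + 1))
      (Z ⊓ Flt c n (j + 1))
    have e4 : (O ⊓ Flt c n (j + 1)) ⊓ (Z ⊓ Flt c n (j + 1)) = ⊥ := by
      rw [eq_bot_iff, ← h.1]
      exact inf_le_inf inf_le_left inf_le_left
    rw [e4, finrank_bot, add_zero] at this
    exact this
  rw [e1]
  simp only [e2]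
  push_cast
  simp only [mul_add, Finset.sum_add_distrib]
  ring

private theorem ADPT_aux {c : ℕ → Cm r} {n : ℕ} {O Z D : Submodule K (F r)}
    (h : Adapted c n O Z) (hD : D ≤ Fd r n) (hOZ : O ⊔ Z ≤ D) (hne : ¬ D ≤ O ⊔ Z) :
    ∃ v ∈ D, v ∉ O ⊔ Z ∧ ∀ k, (O ⊔ Z ⊔ Submodule.span K {v}) ⊓ Flt c n k ≤
      (O ⊓ Flt c n k) ⊔ (Z ⊓ Flt c n k) ⊔ (Submodule.span K {v} ⊓ Flt c n k) := by
  classical
  let p : ℕ → Prop := fun j => ∃ v ∈ D, v ∉ O ⊔ Z ∧ v ∈ Flt c n j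
  have hp0 : p 0 := by
    obtain ⟨v, hv, hv'⟩ := SetLike.not_le_iff_exists.1 hne
    refine ⟨v, hv, hv', ?_⟩
    rw [Flt_zero]
    exact hD hv
  have hpn : ∀ k, p k → k ≤ n := by
    rintro k ⟨v, _, hv', hvk⟩
    by_contra hk
    rw [Flt_bot c (by omega), Submodule.mem_bot] at hvk
    subst hvk
    exact hv' (Submodule.zero_mem _)
  have hj : p (Nat.findGreatest p n) := Nat.findGreatest_spec (P := p) (Nat.zero_le n) hp0
  have hmax : ∀ k, p k → k ≤ Nat.findGreatest p n := fun k hk =>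
    Nat.le_findGreatest (hpn k hk) hk
  obtain ⟨v, hvD, hvn, hvF⟩ := hj
  refine ⟨v, hvD, hvn, fun k => ?_⟩
  rintro x ⟨hx, hxF⟩
  obtain ⟨y, hy, s, hs, rfl⟩ := Submodule.mem_sup.1 hx
  obtain ⟨e, rfl⟩ := Submodule.mem_span_singleton.1 hs
  by_cases he : e = 0
  · subst he
    rw [zero_smul, add_zero] at hxF ⊢
    exact (le_sup_left : _ ≤ _ ⊔ (Submodule.span K {v} ⊓ Flt c n k)) (h.2 k ⟨hy, hxF⟩)
  · have h1 : y + e • v ∉ O ⊔ Z := by
      intro h1
      apply hvn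
      have h2 : e • v ∈ O ⊔ Z := by
        have := Submodule.sub_mem _ h1 hy
        rwa [add_sub_cancel_left] at this
      exact (Submodule.smul_mem_iff _ he).1 h2
    have h2 : p k := ⟨y + e • v, Submodule.add_mem _ (hOZ hy) (Submodule.smul_mem _ _ hvD),
      h1, hxF⟩
    have hvk : v ∈ Flt c n k := Flt_anti c n (hmax k h2) hvF
    have hyF : y ∈ Flt c n k := by
      have := Submodule.sub_mem _ hxF (Submodule.smul_mem _ e hvk)
      rwa [add_sub_cancel_right] at this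
    refine Submodule.add_mem _ ?_ ?_
    · exact (le_sup_left : _ ≤ _ ⊔ (Submodule.span K {v} ⊓ Flt c n k)) (h.2 k ⟨hy, hyF⟩)
    · exact (le_sup_right : (Submodule.span K {v} ⊓ Flt c n k) ≤ _)
        ⟨Submodule.smul_mem _ _ (Submodule.mem_span_singleton_self v),
          Submodule.smul_mem _ _ hvk⟩

private theorem ADPT_disj {O Z : Submodule K (F r)} (h : O ⊓ Z = ⊥) {v : F r}
    (hv : v ∉ O ⊔ Z) : O ⊓ (Z ⊔ Submodule.span K {v}) = ⊥ := by
  rw [eq_bot_iff]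
  rintro x ⟨hxO, hx⟩
  obtain ⟨z, hz, s, hs, e⟩ := Submodule.mem_sup.1 hx
  obtain ⟨a, rfl⟩ := Submodule.mem_span_singleton.1 hs
  by_cases ha : a = 0
  · subst ha
    rw [zero_smul, add_zero] at e
    subst e
    rw [← h]
    exact ⟨hxO, hz⟩
  · exfalso
    apply hv
    have h2 : a • v ∈ O ⊔ Z := by
      have : a • v = x - z := by rw [← e, add_sub_cancel_left]
      rw [this]
      exact Submodule.sub_mem _ (Submodule.mem_sup_left hxO) (Submodule.mem_sup_right hz)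
    exact (Submodule.smul_mem_iff _ ha).1 h2

/-- Choose `v ∈ D \ (O ⊔ Z)` in the last possible step of the filtration.  If
`x = o + z + ε v` lies in `Flt c n k` and `ε ≠ 0` then `x ∈ D \ (O ⊔ Z)`, so `v ∈ Flt c n k` by
the choice of `v`, and `o + z ∈ Flt c n k`. -/
theorem Adapted.exists_vector {c : ℕ → Cm r} {n : ℕ} {O Z D : Submodule K (F r)}
    (h : Adapted c n O Z) (hD : D ≤ Fd r n) (hOZ : O ⊔ Z ≤ D) (hne : ¬ D ≤ O ⊔ Z) :
    ∃ v ∈ D, v ∉ O ⊔ Z ∧ Adapted c n O (Z ⊔ Submodule.span K {v}) ∧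
      Adapted c n (O ⊔ Submodule.span K {v}) Z := by
  obtain ⟨v, hvD, hv, hF⟩ := ADPT_aux h hD hOZ hne
  refine ⟨v, hvD, hv, ⟨ADPT_disj h.1 hv, fun k => ?_⟩, ⟨?_, fun k => ?_⟩⟩
  · rw [← sup_assoc]
    refine (hF k).trans ?_
    rw [sup_assoc]
    exact sup_le_sup_left (sup_le (inf_le_inf_right _ le_sup_left)
      (inf_le_inf_right _ le_sup_right)) _
  · rw [inf_comm]
    refine ADPT_disj ?_ ?_
    · rw [inf_comm]
      exact h.1
    · rwa [sup_comm]
  · have e : O ⊔ Submodule.span K {v} ⊔ Z = O ⊔ Z ⊔ Submodule.span K {v} := by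
      rw [sup_assoc, sup_comm (Submodule.span K {v}), ← sup_assoc]
    rw [e]
    refine (hF k).trans ?_
    refine sup_le (sup_le ?_ ?_) ?_
    · exact le_sup_of_le_left (inf_le_inf_right _ le_sup_left)
    · exact le_sup_right
    · exact le_sup_of_le_left (inf_le_inf_right _ le_sup_right)

end TARO
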