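import Pool.Agent.TARO.PT

/-! ALGN: elements of the algebra generated by a tuple which can be killed are nilpotent. -/

open Module

namespace TARO

variable {r : ℕ}

private theorem ALGN_wp_append {k : ℕ} (u : Fin k → F r) (v w : List (Fin k)) :
    wp u (v ++ w) = wp u v * wp u w := by
  unfold wp
  rw [List.map_append, List.prod_append]

theorem Alg_mul {k : ℕ} (u : Fin k → F r) : Alg u * Alg u ≤ Alg u := by
  unfold Alg
  rw [Submodule.span_mul_span, Submodule.span_le]
  rintro _ ⟨p, ⟨v, hv, rfl⟩, q, ⟨w, hw, rfl⟩, rfl⟩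
  refine Submodule.subset_span ⟨v ++ w, ?_, (ALGN_wp_append u v w).symm⟩
  simp [hv]

/-- `f ^ N` is a linear combination of products of at least `N` factors -/
theorem alg_nil {k : ℕ} (L : LinRep r) {u : Fin k → F r} (hu : Killable u) {f : F r}
    (hf : f ∈ Alg u) : ∃ N : ℕ, L.ρ f ^ N = 0 := by
  obtain ⟨N, hN⟩ := L.nil k u hu
  refine ⟨N, ?_⟩
  have h1 : ∀ n : ℕ, f ^ n ∈ Submodule.span K {p | ∃ v : List (Fin k), n ≤ v.length ∧
      p = wp u v} := by
    intro n
    induction n with
    | zero =>
      rw [pow_zero]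
      exact Submodule.subset_span ⟨[], le_rfl, rfl⟩
    | succ n ih =>
      rw [pow_succ]
      have h2 := Submodule.mul_mem_mul ih hf
      unfold Alg at h2
      rw [Submodule.span_mul_span] at h2
      refine Submodule.span_mono ?_ h2
      rintro _ ⟨p, ⟨v, hv, rfl⟩, q, ⟨w, hw, rfl⟩, rfl⟩
      refine ⟨v ++ w, ?_, (ALGN_wp_append u v w).symm⟩
      rw [List.length_append]
      have := List.length_pos_of_ne_nil hw
      omega
  have h3 : ∀ p ∈ Submodule.span K {p | ∃ v : List (Fin k), N ≤ v.length ∧ p = wp u v},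
      L.ρ p = 0 := by
    intro p hp
    induction hp using Submodule.span_induction with
    | mem x hx =>
      obtain ⟨v, hv, rfl⟩ := hx
      have h1 : v = v.take N ++ v.drop N := (List.take_append_drop N v).symm
      rw [h1, ALGN_wp_append, map_mul, hN (v.take N) (List.length_take_of_le hv), zero_mul]
    | zero => exact map_zero _
    | add x y _ _ hx hy => rw [map_add, hx, hy, add_zero]
    | smul c x _ hx => rw [map_smul, hx, smul_zero]
  rw [← map_pow]
  exact h3 _ (h1 N)

end TARO
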