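import Pool.Agent.TARO.ESTEP

/-! BL: the capacity of a block without relations. -/

open Module

namespace TARO

variable {r : ℕ}

private theorem BL_start (c : ℕ → Cm r) {L : ℕ} (hL : 1 ≤ L) {b : ℕ} {Y Ω : Submodule K (F r)}
    (hY : Y ≤ Fd r b) (hΩ : Ω ≤ Fd r (b + L)) :
    ∃ P : ℕ → Submodule K (F r), LCB r L b P ∧ Y ≤ P b ∧ Ω ≤ P (b + L) ∧
      En c L b P ≤ (((r : ℝ) + 1) ^ L - ((r : ℝ) + 1) ^ (L - 1)) * w c b Y + w c (b + L) Ω := by
  classical
  let P0 : ℕ → Submodule K (F r) := fun n =>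
    if n < b + L then Fd r (n - b) * Y else Fd r L * Y ⊔ Ω
  have q0 : ∀ i, i < L → P0 (b + i) = Fd r i * Y := by
    intro i hi
    show (if b + i < b + L then Fd r (b + i - b) * Y else Fd r L * Y ⊔ Ω) = _
    rw [if_pos (by omega), Nat.add_sub_cancel_left]
  have q1 : P0 (b + L) = Fd r L * Y ⊔ Ω := if_neg (lt_irrefl _)
  have hF : ∀ i, Fd r i * Y ≤ Fd r (b + i) := by
    intro i
    calc Fd r i * Y ≤ Fd r i * Fd r b := mul_le_mul' le_rfl hY
      _ = Fd r (b + i) := by rw [Fd_mul, Nat.add_comm]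
  have hsucc : ∀ i, Fd r 1 * (Fd r i * Y) = Fd r (i + 1) * Y := by
    intro i
    rw [← mul_assoc, Fd_mul, Nat.add_comm]
  have hle : ∀ i, i < L → Fd r 1 * P0 (b + i) ≤ P0 (b + (i + 1)) := by
    intro i hi
    rw [q0 i hi, hsucc]
    by_cases h : i + 1 < L
    · rw [q0 (i + 1) h]
    · have hiL : i + 1 = L := by omega
      rw [hiL, q1]
      exact le_sup_left
  have hw : ∀ i, w c (b + i) (Fd r i * Y) = (2 * ((r : ℝ) + 1)) ^ i * w c b Y := by
    intro i
    induction i with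
    | zero => rw [Fd_zero, one_mul, pow_zero, one_mul, add_zero]
    | succ i ih =>
      rw [← hsucc, show b + (i + 1) = b + i + 1 from rfl, w_Fd_one_mul c (b + i) (hF i), ih, pow_succ]
      ring
  refine ⟨P0, ⟨?_, hle⟩, ?_, ?_, ?_⟩
  · intro i hi
    by_cases h : i < L
    · rw [q0 i h]
      exact hF i
    · have hiL : i = L := by omega
      rw [hiL, q1]
      exact sup_le (hF L) hΩ
  · have := q0 0 (by omega)
    rw [add_zero] at this
    rw [this, Fd_zero, one_mul]
  · rw [q1]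
    exact le_sup_right
  · unfold En
    have e0 : P0 b = Y := by
      have := q0 0 (by omega)
      rw [add_zero] at this
      rw [this, Fd_zero, one_mul]
    rw [e0]
    obtain ⟨M, rfl⟩ : ∃ M, L = M + 1 := ⟨L - 1, by omega⟩
    rw [Finset.sum_range_succ]
    have z : ∑ i ∈ Finset.range M, ((r : ℝ) + 1) ^ (M + 1 - 1 - i) *
        (w c (b + (i + 1)) (P0 (b + (i + 1))) -
          2 * ((r : ℝ) + 1) * w c (b + i) (P0 (b + i))) = 0 := by
      apply Finset.sum_eq_zero
      intro i hi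
      have hi' : i < M := Finset.mem_range.1 hi
      rw [q0 i (by omega), q0 (i + 1) (by omega), hw, hw, pow_succ]
      ring
    rw [z, q0 M (by omega), q1, hw]
    have hfd1 : FiniteDimensional K (Fd r (M + 1) * Y : Submodule K (F r)) :=
      finiteDimensional_of_le_Fd (hF (M + 1))
    have hfd2 : FiniteDimensional K Ω := finiteDimensional_of_le_Fd hΩ
    have h1 := w_sup_add_inf c (b + (M + 1)) (Fd r (M + 1) * Y) Ω
    have h2 := w_nonneg c (b + (M + 1)) (Fd r (M + 1) * Y ⊓ Ω)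
    have h3 := hw (M + 1)
    have h4 : M + 1 - 1 - M = 0 := by omega
    rw [h4, pow_zero]
    rw [h3, pow_succ] at h1
    linarith

private theorem BL_congr (c : ℕ → Cm r) {L b : ℕ} {P P' : ℕ → Submodule K (F r)}
    (h : ∀ i, i ≤ L → P (b + i) = P' (b + i)) : En c L b P = En c L b P' := by
  unfold En
  have h0 : P b = P' b := h 0 (Nat.zero_le _)
  rw [h0]
  congr 1
  refine Finset.sum_congr rfl fun i hi => ?_
  have hi' : i < L := Finset.mem_range.1 hi
  rw [h i hi'.le, h (i + 1) hi']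

/-- Start with `P (b + i) = Fd r i * Y` for `i < L` and `P (b + L) = Fd r L * Y ⊔ Ω`; by
`w_Fd_one_mul` and subadditivity its potential `En` is at most `κ * w Y + w Ω`.  Among all
families with `LCB`, `Y ≤ P b`, `Ω ≤ P (b + L)` and `En` at most this number take one with the
largest sum of the dimensions of the `P (b + i)`, `i ≤ L` (bounded by the dimensions of the
`Fd r (b + i)`).  If `HL` fails for it, then `exists_min_violator`, `Sw_nonpos`, `Sw_neg` and
`energy_step` give a larger family with smaller `En`: contradiction.  For the final family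
`w (P (b + (i + 1))) ≥ w (Fd 1 * P (b + i)) = 2 (r + 1) w (P (b + i))`, so
`κ * w (P b) ≤ En`.  The family is good: a multiple `n` of `L` with `b ≤ n`, `n + L ≤ b + L`
is `b`. -/
theorem base_cap (c : ℕ → Cm r) {L : ℕ} (hL : 1 ≤ L) {b : ℕ} (hb : L ∣ b) :
    CapI c L (∅ : Rels r) b (b + L) (((r : ℝ) + 1) ^ L - ((r : ℝ) + 1) ^ (L - 1)) := by
  classical
  intro Y Ω hY hΩ
  let Adm : (ℕ → Submodule K (F r)) → Prop := fun P =>
    LCB r L b P ∧ Y ≤ P b ∧ Ω ≤ P (b + L) ∧
      En c L b P ≤ (((r : ℝ) + 1) ^ L - ((r : ℝ) + 1) ^ (L - 1)) * w c b Y + w c (b + L) Ω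
  let size : (ℕ → Submodule K (F r)) → ℕ := fun P =>
    ∑ i ∈ Finset.range (L + 1), finrank K (P (b + i))
  let B : ℕ := ∑ i ∈ Finset.range (L + 1), finrank K (Fd r (b + i))
  have hfinP : ∀ P, LCB r L b P → ∀ i, i ≤ L → FiniteDimensional K (P (b + i)) :=
    fun P hP i hi => finiteDimensional_of_le_Fd (hP.1 i hi)
  have hbound : ∀ P, Adm P → size P ≤ B := by
    rintro P ⟨hP, -⟩
    refine Finset.sum_le_sum fun i hi => ?_
    have hi' : i ≤ L := Nat.lt_succ_iff.1 (Finset.mem_range.1 hi)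
    have : FiniteDimensional K (Fd r (b + i)) := finiteDimensional_of_le_Fd le_rfl
    exact Submodule.finrank_mono (hP.1 i hi')
  have hne : ∃ P, Adm P := BL_start c hL hY hΩ
  obtain ⟨P, hP, hmax⟩ : ∃ P, Adm P ∧ ∀ Q, Adm Q → size Q ≤ size P := by
    obtain ⟨P1, hP1⟩ := hne
    have hbd : ∀ m, (∃ P, Adm P ∧ size P = m) → m ≤ B := by
      rintro m ⟨P, hP, rfl⟩
      exact hbound P hP
    obtain ⟨m, ⟨P, hP, hPm⟩, hm⟩ : ∃ m, (∃ P, Adm P ∧ size P = m) ∧
        ∀ k, (∃ P, Adm P ∧ size P = k) → k ≤ m := by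
      refine ⟨Nat.findGreatest (fun m => ∃ P, Adm P ∧ size P = m) B, ?_, ?_⟩
      · exact Nat.findGreatest_spec (P := fun m => ∃ P, Adm P ∧ size P = m)
          (hbd _ ⟨P1, hP1, rfl⟩) ⟨P1, hP1, rfl⟩
      · intro k hk
        exact Nat.le_findGreatest (hbd k hk) hk
    exact ⟨P, hP, fun Q hQ => by rw [hPm]; exact hm _ ⟨Q, hQ, rfl⟩⟩
  obtain ⟨hLC, hYP, hΩP, hEn⟩ := hP
  have hH : HL r L P b := by
    by_contra hv
    obtain ⟨V₁, V₂, hV, hneg, hmin⟩ := exists_min_violator hLC hv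
    obtain ⟨P', hLC', hge, hlt⟩ := energy_step c hL hLC hV
      (fun i hi => Sw_nonpos c hLC hV hmin hi) (Sw_neg c hLC hV hneg hmin)
    have hadm : Adm P' := ⟨hLC', hYP.trans (hge 0 (Nat.zero_le _)), hΩP.trans (hge L le_rfl),
      le_of_lt (lt_of_lt_of_le hlt hEn)⟩
    have hs : size P' ≤ size P := hmax P' hadm
    have hterm : ∀ i ∈ Finset.range (L + 1), finrank K (P (b + i)) ≤ finrank K (P' (b + i)) := by
      intro i hi
      have hi' : i ≤ L := Nat.lt_succ_iff.1 (Finset.mem_range.1 hi)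
      have := hfinP P' hLC' i hi'
      exact Submodule.finrank_mono (hge i hi')
    have heq := (Finset.sum_eq_sum_iff_of_le hterm).1 (le_antisymm (Finset.sum_le_sum hterm) hs)
    have heq2 : ∀ i, i ≤ L → P (b + i) = P' (b + i) := by
      intro i hi
      have := hfinP P' hLC' i hi
      exact Submodule.eq_of_le_of_finrank_eq (hge i hi)
        (heq i (Finset.mem_range.2 (Nat.lt_succ_of_le hi)))
    rw [BL_congr c heq2] at hlt
    exact lt_irrefl _ hlt
  refine ⟨P, ⟨?_, ?_, ?_, ?_⟩, hYP, hΩP, ?_⟩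
  · intro n h1 h2
    obtain ⟨i, rfl⟩ := Nat.exists_eq_add_of_le h1
    exact hLC.1 i (by omega)
  · intro n h1 h2
    obtain ⟨i, rfl⟩ := Nat.exists_eq_add_of_le h1
    exact hLC.2 i (by omega)
  · intro n hn h1 h2
    have : n = b := by omega
    rw [this]
    exact hH
  · intro p hp
    exact absurd hp (Set.notMem_empty p)
  · have hpos : ∀ i ∈ Finset.range L, 0 ≤ ((r : ℝ) + 1) ^ (L - 1 - i) *
        (w c (b + (i + 1)) (P (b + (i + 1))) - 2 * ((r : ℝ) + 1) * w c (b + i) (P (b + i))) := by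
      intro i hi
      have hi' : i < L := Finset.mem_range.1 hi
      have := hfinP P hLC (i + 1) hi'
      have h1 : w c (b + (i + 1)) (Fd r 1 * P (b + i)) ≤ w c (b + (i + 1)) (P (b + (i + 1))) :=
        w_mono c _ (hLC.2 i hi')
      rw [show b + (i + 1) = b + i + 1 from rfl, w_Fd_one_mul c (b + i) (hLC.1 i hi'.le)] at h1
      refine mul_nonneg (by positivity) ?_
      rw [show b + (i + 1) = b + i + 1 from rfl]
      linarith
    have h2 := Finset.sum_nonneg hpos
    unfold En at hEn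
    linarith

end TARO
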