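import Mathlib

/-! CFA: the choice of the linear form. -/

namespace TARO

/-- The linear map `lam ↦ (fun j => ∑ i, lam i * Ψ i j)` of `Fin p → K` is not injective (take
`lam ≠ 0` in the kernel, `a = 0`) or bijective (take `lam` with image `η`, `a = 1`; `lam ≠ 0`
because `η ≠ 0`). -/
theorem exists_lam {p : ℕ} (Ψ : Fin p → Fin p → ZMod 2) {η : Fin p → ZMod 2} (hη : η ≠ 0) :
    ∃ (lam : Fin p → ZMod 2) (a : ℕ), lam ≠ 0 ∧ (a = 0 ∨ a = 1) ∧
      ∀ j, ∑ i, lam i * Ψ i j = (a : ZMod 2) * η j := by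
  classical
  let L : (Fin p → ZMod 2) →ₗ[ZMod 2] (Fin p → ZMod 2) := Matrix.vecMulLinear (Matrix.of Ψ)
  have hL : ∀ lam j, L lam j = ∑ i, lam i * Ψ i j := by
    intro lam j
    simp [L, Matrix.vecMulLinear, Matrix.vecMul, dotProduct]
  by_cases hinj : Function.Injective L
  · have hsurj : Function.Surjective L := LinearMap.injective_iff_surjective.mp hinj
    obtain ⟨lam, hlam⟩ := hsurj η
    refine ⟨lam, 1, ?_, Or.inr rfl, ?_⟩
    · rintro rfl
      apply hη
      rw [← hlam, map_zero]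
    · intro j
      rw [← hL, hlam]
      simp
  · rw [← LinearMap.ker_eq_bot] at hinj
    obtain ⟨lam, hm, h0⟩ := (Submodule.ne_bot_iff _).mp hinj
    refine ⟨lam, 0, h0, Or.inl rfl, ?_⟩
    intro j
    rw [← hL, LinearMap.mem_ker.mp hm]
    simp

/-- coordinates with respect to a basis -/
theorem exists_coord {p : ℕ} {ξ : Fin p → Fin p → ZMod 2} (hξ : LinearIndependent (ZMod 2) ξ)
    (v : Fin p → ZMod 2) : ∃ c : Fin p → ZMod 2, ∀ l, v l = ∑ i, c i * ξ i l := by
  classical
  have hspan : Submodule.span (ZMod 2) (Set.range ξ) = ⊤ :=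
    hξ.span_eq_top_of_card_eq_finrank' (by simp)
  have hv : v ∈ Submodule.span (ZMod 2) (Set.range ξ) := by rw [hspan]; trivial
  rw [Submodule.mem_span_range_iff_exists_fun] at hv
  obtain ⟨c, hc⟩ := hv
  refine ⟨c, fun l => ?_⟩
  rw [← hc]
  simp [Finset.sum_apply]

/-- a non-zero linear form is `1` on some vector of a basis -/
theorem exists_index {p : ℕ} {ξ : Fin p → Fin p → ZMod 2} (hξ : LinearIndependent (ZMod 2) ξ)
    {lam : Fin p → ZMod 2} (hl : lam ≠ 0) : ∃ i₀, ∑ l, lam l * ξ i₀ l = 1 := by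
  classical
  by_contra hcon
  push Not at hcon
  have h0 : ∀ i, ∑ l, lam l * ξ i l = 0 := by
    intro i
    have h2 : ∀ x : ZMod 2, x ≠ 1 → x = 0 := by decide
    exact h2 _ (hcon i)
  apply hl
  funext j
  obtain ⟨c, hc⟩ := exists_coord hξ (Pi.single j 1)
  have : lam j = ∑ l, lam l * (Pi.single j (1 : ZMod 2) : Fin p → ZMod 2) l := by
    simp [Pi.single_apply]
  rw [this]
  calc ∑ l, lam l * (Pi.single j (1 : ZMod 2) : Fin p → ZMod 2) l
      = ∑ l, lam l * ∑ i, c i * ξ i l := by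
        refine Finset.sum_congr rfl fun l _ => ?_
        rw [hc l]
    _ = ∑ i, c i * ∑ l, lam l * ξ i l := by
        simp_rw [Finset.mul_sum]
        rw [Finset.sum_comm]
        refine Finset.sum_congr rfl fun i _ => Finset.sum_congr rfl fun l _ => ?_
        ring
    _ = 0 := by simp [h0]

end TARO
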