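import Pool.Agent.TARO.WD

/-! PT: degree parts and constant terms. -/

open Module

namespace TARO

variable {r : ℕ}

private theorem coeff_part (n : ℕ) (p : F r) (w : FreeMonoid (Al r)) :
    (part n p).coeff w = if w.length = n then p.coeff w else 0 := by
  change (p.coeff.filter fun w => w.length = n) w = _
  rw [Finsupp.filter_apply]

theorem part_of_mem {n : ℕ} {p : F r} (hp : p ∈ Fd r n) : part n p = p := by
  apply MonoidAlgebra.ext
  ext w
  rw [coeff_part]
  split_ifs with h
  · rfl
  · by_contra hne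
    exact h (mem_Fd.1 hp w (fun h0 => hne h0.symm))

theorem part_of_ne {m n : ℕ} {p : F r} (hp : p ∈ Fd r n) (h : m ≠ n) : part m p = 0 := by
  apply MonoidAlgebra.ext
  ext w
  rw [coeff_part]
  split_ifs with h'
  · by_contra hne
    exact h (h'.symm.trans (mem_Fd.1 hp w hne))
  · rfl

theorem part_mem (n : ℕ) (p : F r) : part n p ∈ Fd r n := by
  rw [mem_Fd]
  intro w hw
  rw [coeff_part] at hw
  by_contra h
  exact hw (if_neg h)

theorem exists_sum_part (p : F r) :
    ∃ N : ℕ, (∀ n, N ≤ n → part n p = 0) ∧ p = ∑ n ∈ Finset.range N, part n p := by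
  obtain ⟨N, hN⟩ : ∃ N : ℕ, ∀ w : FreeMonoid (Al r), p.coeff w ≠ 0 → w.length < N := by
    refine ⟨p.coeff.support.sup (fun w => w.length) + 1, fun w hw => ?_⟩
    have := Finset.le_sup (f := fun w : FreeMonoid (Al r) => w.length)
      (Finsupp.mem_support_iff.2 hw)
    exact Nat.lt_succ_of_le this
  refine ⟨N, fun n hn => ?_, ?_⟩
  · apply MonoidAlgebra.ext
    ext w
    rw [coeff_part]
    split_ifs with h
    · by_contra hne
      have := hN w hne
      omega
    · rfl
  · apply MonoidAlgebra.ext
    ext w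
    have h1 : (∑ n ∈ Finset.range N, part n p).coeff w
        = ∑ n ∈ Finset.range N, (part n p).coeff w := by
      induction Finset.range N using Finset.induction_on with
      | empty => simp
      | insert a s ha ih => rw [Finset.sum_insert ha, Finset.sum_insert ha, ← ih]; rfl
    rw [h1]
    simp only [coeff_part]
    rw [Finset.sum_ite_eq]
    split_ifs with h
    · rfl
    · by_contra hne
      exact h (Finset.mem_range.2 (hN w hne))

private theorem mem_mul_Fd {a b : ℕ} {p q : F r} (hp : p ∈ Fd r a) (hq : q ∈ Fd r b) :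
    p * q ∈ Fd r (a + b) := by
  rw [← Fd_mul]
  exact Submodule.mul_mem_mul hp hq

theorem part_mul_of_mem {a : ℕ} {p : F r} (hp : p ∈ Fd r a) (q : F r) (n : ℕ) :
    part (a + n) (p * q) = p * part n q := by
  obtain ⟨N, hN, hq⟩ := exists_sum_part q
  have h1 : part (a + n) (p * q) =
      ∑ m ∈ Finset.range N, part (a + n) (p * part m q) := by
    conv_lhs => rw [hq]
    rw [Finset.mul_sum, map_sum]
  rw [h1]
  by_cases hn : n < N
  · rw [Finset.sum_eq_single_of_mem n (Finset.mem_range.2 hn)]
    · exact part_of_mem (mem_mul_Fd hp (part_mem n q))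
    · intro m _ hm
      exact part_of_ne (mem_mul_Fd hp (part_mem m q)) (by omega)
  · rw [hN n (not_lt.1 hn), mul_zero]
    apply Finset.sum_eq_zero
    intro m hm
    have := Finset.mem_range.1 hm
    exact part_of_ne (mem_mul_Fd hp (part_mem m q)) (by omega)

theorem part_mul_of_lt {a n : ℕ} {p : F r} (hp : p ∈ Fd r a) (q : F r) (h : n < a) :
    part n (p * q) = 0 := by
  obtain ⟨N, hN, hq⟩ := exists_sum_part q
  have h1 : part n (p * q) =
      ∑ m ∈ Finset.range N, part n (p * part m q) := by
    conv_lhs => rw [hq]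
    rw [Finset.mul_sum, map_sum]
  rw [h1]
  apply Finset.sum_eq_zero
  intro m _
  exact part_of_ne (mem_mul_Fd hp (part_mem m q)) (by omega)

theorem mul_part_of_mem {a : ℕ} {p : F r} (hp : p ∈ Fd r a) (q : F r) (n : ℕ) :
    part (n + a) (q * p) = part n q * p := by
  obtain ⟨N, hN, hq⟩ := exists_sum_part q
  have h1 : part (n + a) (q * p) =
      ∑ m ∈ Finset.range N, part (n + a) (part m q * p) := by
    conv_lhs => rw [hq]
    rw [Finset.sum_mul, map_sum]
  rw [h1]
  by_cases hn : n < N
  · rw [Finset.sum_eq_single_of_mem n (Finset.mem_range.2 hn)]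
    · exact part_of_mem (mem_mul_Fd (part_mem n q) hp)
    · intro m _ hm
      exact part_of_ne (mem_mul_Fd (part_mem m q) hp) (by omega)
  · rw [hN n (not_lt.1 hn), zero_mul]
    apply Finset.sum_eq_zero
    intro m hm
    have := Finset.mem_range.1 hm
    exact part_of_ne (mem_mul_Fd (part_mem m q) hp) (by omega)

theorem mul_part_of_lt {a n : ℕ} {p : F r} (hp : p ∈ Fd r a) (q : F r) (h : n < a) :
    part n (q * p) = 0 := by
  obtain ⟨N, hN, hq⟩ := exists_sum_part q
  have h1 : part n (q * p) =
      ∑ m ∈ Finset.range N, part n (part m q * p) := by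
    conv_lhs => rw [hq]
    rw [Finset.sum_mul, map_sum]
  rw [h1]
  apply Finset.sum_eq_zero
  intro m _
  exact part_of_ne (mem_mul_Fd (part_mem m q) hp) (by omega)

theorem nc_iff (f : F r) : NC f ↔ part 0 f = 0 := by
  constructor
  · intro h
    apply MonoidAlgebra.ext
    ext w
    rw [coeff_part]
    split_ifs with h'
    · have hw : w = 1 := FreeMonoid.length_eq_zero.1 h'
      rw [hw]
      exact h
    · rfl
  · intro h
    have h1 := coeff_part 0 f (1 : FreeMonoid (Al r))
    rw [h, if_pos FreeMonoid.length_one] at h1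
    exact h1.symm

theorem NC.add {f g : F r} (hf : NC f) (hg : NC g) : NC (f + g) := by
  rw [nc_iff] at *
  rw [map_add, hf, hg, add_zero]

theorem NC.mul_left {f : F r} (hf : NC f) (g : F r) : NC (g * f) := by
  rw [nc_iff] at *
  obtain ⟨N, hN, hq⟩ := exists_sum_part f
  have h1 : part 0 (g * f) = ∑ m ∈ Finset.range N, part 0 (g * part m f) := by
    conv_lhs => rw [hq]
    rw [Finset.mul_sum, map_sum]
  rw [h1]
  apply Finset.sum_eq_zero
  intro m _
  rcases Nat.eq_zero_or_pos m with hm | hm
  · rw [hm, hf, mul_zero, map_zero]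
  · exact mul_part_of_lt (part_mem m f) g hm

theorem NC.mul_right {f : F r} (hf : NC f) (g : F r) : NC (f * g) := by
  rw [nc_iff] at *
  obtain ⟨N, hN, hq⟩ := exists_sum_part f
  have h1 : part 0 (f * g) = ∑ m ∈ Finset.range N, part 0 (part m f * g) := by
    conv_lhs => rw [hq]
    rw [Finset.sum_mul, map_sum]
  rw [h1]
  apply Finset.sum_eq_zero
  intro m _
  rcases Nat.eq_zero_or_pos m with hm | hm
  · rw [hm, hf, zero_mul, map_zero]
  · exact part_mul_of_lt (part_mem m f) g hm

theorem NC_wd (w : List (Al r)) (hw : w ≠ []) : NC (wd w : F r) := by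
  unfold NC
  rw [coeff_wd]
  exact if_neg hw

end TARO
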