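import Pool.Agent.TARO.COMP
import Pool.Agent.TARO.PT

/-! KLIN: tuples of `r + 1` elements whose linear parts do not form a basis of the span of the
x-letters. -/

open Module

namespace TARO

variable {r : ℕ}

theorem mem_Alg {k : ℕ} (u : Fin k → F r) (i : Fin k) : u i ∈ Alg u := by
  refine Submodule.subset_span ⟨[i], by simp, ?_⟩
  simp [wp]

private theorem KLIN_bad {ψ : Cm r} {p : F r} (hp : p ∈ YC ψ) :
    p ∈ Flt (fun _ => ψ) 1 1 := by
  have h : Flt (fun _ => ψ) 1 1 = XM r * ⊥ ⊔ YC ψ * Fd r 0 := rfl
  rw [h, Fd_zero, mul_one]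
  exact Submodule.mem_sup_right hp

/-- Choose `l` with `κ l ≠ 0` and replace `u l` by `∑ i, κ i • u i`; all degrees are `1`, the
special factor is `l`, and `part 1` of the new element is `0` or in some `YC ψ`
(`exists_YC`), which is `Flt (fun _ => ψ) 1 1`. -/
theorem killable_lin (u : Fin (r + 1) → F r) (hu : ∀ l, NC (u l)) (κ : Fin (r + 1) → K)
    (hκ : κ ≠ 0)
    (h : part 1 (∑ i, κ i • u i) = 0 ∨ part 1 (∑ i, κ i • u i) ∉ XM r) :
    ∃ u' : Fin (r + 1) → F r, Killable u' ∧ ∀ i, u i ∈ Alg u' := by
  classical
  obtain ⟨l, hl⟩ : ∃ l, κ l ≠ 0 := by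
    by_contra hcon
    push Not at hcon
    exact hκ (funext hcon)
  have hl1 : κ l = 1 := by
    have h2 : ∀ x : K, x ≠ 0 → x = 1 := by decide
    exact h2 _ hl
  set s : F r := ∑ i, κ i • u i with hs
  have hsNC : part 0 s = 0 := by
    rw [hs, map_sum]
    refine Finset.sum_eq_zero fun i _ => ?_
    rw [map_smul, (nc_iff _).1 (hu i), smul_zero]
  refine ⟨Function.update u l s, ?_, ?_⟩
  · obtain ⟨ψ, hψ⟩ : ∃ ψ : Cm r, part 1 s ∈ YC ψ := by
      rcases h with h | h
      · exact ⟨0, by rw [h]; exact Submodule.zero_mem _⟩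
      · exact exists_YC (part_mem 1 s) h
    refine ⟨fun _ => 1, l, ψ, ?_, ?_, ?_, ?_⟩
    · intro i
      exact Or.inl rfl
    · intro i n hn
      have hn0 : n = 0 := by omega
      subst hn0
      by_cases hi : i = l
      · subst hi
        rw [Function.update_self]
        exact hsNC
      · rw [Function.update_of_ne hi]
        exact (nc_iff _).1 (hu i)
    · simp only [pow_one, Finset.sum_const, Finset.card_univ, Fintype.card_fin, nsmul_eq_mul]
      have hpos : (0 : ℝ) < (r : ℝ) + 1 := by positivity
      push_cast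
      rw [mul_one_div, div_self hpos.ne']
    · show part 1 (Function.update u l s l) ∈ Flt (fun _ => ψ) 1 1
      rw [Function.update_self]
      exact KLIN_bad hψ
  · intro i
    by_cases hi : i = l
    · subst hi
      have hdec : u i = s - ∑ j ∈ Finset.univ.erase i, κ j • u j := by
        rw [hs, ← Finset.add_sum_erase _ _ (Finset.mem_univ i), hl1, one_smul]
        abel
      rw [hdec]
      refine Submodule.sub_mem _ ?_ (Submodule.sum_mem _ fun j hj => Submodule.smul_mem _ _ ?_)
      · have := mem_Alg (Function.update u i s) i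
        rwa [Function.update_self] at this
      · have hji : j ≠ i := Finset.ne_of_mem_erase hj
        have := mem_Alg (Function.update u i s) j
        rwa [Function.update_of_ne hji] at this
    · have := mem_Alg (Function.update u l s) i
      rwa [Function.update_of_ne hi] at this

end TARO
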