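import Pool.Agent.TARO.JET
import Pool.Agent.TARO.KLIN
import Pool.Agent.TARO.ALGN

/-! CFK: a tuple of `2 r + 1` elements which can be killed. -/

open Module

namespace TARO

variable {r : ℕ}

/-- Take `u = Fin.append γ χ` with `χ j = κ j - ∑ i, cc j i • γ i` for `j ≠ 0` and
`χ 0 = κ 0 - ∑ i, cc 0 i • γ i - ∑ a, ∑ b, dd a b • (γ a * γ b)`; degrees `1` for the `γ i` and
`2` for the `χ j`, special factor `χ 0`, complement `0` (`part_two_bad`);
`r / p + p / p ^ 2 = 1` for `p = r + 1`.  The `κ j` are in `Alg u` (`Alg_mul`). -/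
theorem killable_cfg (γ : Fin r → F r) (κ : Fin (r + 1) → F r) (hγ : ∀ i, NC (γ i))
    (hκ : ∀ j, NC (κ j)) (cc : Fin (r + 1) → Fin r → K) (dd : Fin r → Fin r → K)
    (hlin : ∀ j a, lv (κ j - ∑ i, cc j i • γ i) a = 0)
    (hquad : ∀ l m : Fin (r + 1),
      qv (κ 0 - ∑ i, cc 0 i • γ i - ∑ a, ∑ b, dd a b • (γ a * γ b)) (Sum.inl l) (Sum.inl m) = 0) :
    ∃ (k : ℕ) (u : Fin k → F r), Killable u ∧ (∀ i, γ i ∈ Alg u) ∧ ∀ j, κ j ∈ Alg u := by
  classical
  obtain ⟨χ, hχ⟩ : ∃ χ : Fin (r + 1) → F r, χ = fun j => κ j - ∑ i, cc j i • γ i -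
      if j = 0 then ∑ a, ∑ b, dd a b • (γ a * γ b) else 0 := ⟨_, rfl⟩
  have hχj : ∀ j, χ j = κ j - ∑ i, cc j i • γ i -
      if j = 0 then ∑ a, ∑ b, dd a b • (γ a * γ b) else 0 := fun j => congrFun hχ j
  have hq0 : part 0 (∑ a, ∑ b, dd a b • (γ a * γ b)) = 0 := by
    rw [map_sum]
    refine Finset.sum_eq_zero fun a _ => ?_
    rw [map_sum]
    refine Finset.sum_eq_zero fun b _ => ?_
    rw [map_smul, (nc_iff _).1 ((hγ a).mul_right (γ b)), smul_zero]
  have hql : ∀ c, lv (∑ a, ∑ b, dd a b • (γ a * γ b)) c = 0 := by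
    intro c
    rw [lv_sum]
    refine Finset.sum_eq_zero fun a _ => ?_
    rw [lv_sum]
    refine Finset.sum_eq_zero fun b _ => ?_
    have h1 : (γ a).coeff 1 = 0 := hγ a
    have h2 : (γ b).coeff 1 = 0 := hγ b
    rw [lv_smul, lv_mul, h1, h2]
    ring
  have hχ0 : ∀ j, part 0 (χ j) = 0 := by
    intro j
    have h1 : part 0 (∑ i, cc j i • γ i) = 0 := by
      rw [map_sum]
      refine Finset.sum_eq_zero fun i _ => ?_
      rw [map_smul, (nc_iff _).1 (hγ i), smul_zero]
    rw [hχj, map_sub, map_sub, (nc_iff _).1 (hκ j), h1]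
    split_ifs
    · rw [hq0, sub_zero, sub_zero]
    · rw [map_zero, sub_zero, sub_zero]
  have hχ1 : ∀ j, part 1 (χ j) = 0 := by
    intro j
    rw [part_one_eq_zero_iff]
    intro c
    rw [hχj, lv_sub, hlin j c]
    split_ifs
    · rw [hql, sub_zero]
    · have : lv (0 : F r) c = 0 := rfl
      rw [this, sub_zero]
  refine ⟨r + (r + 1), Fin.append γ χ, ?_, ?_, ?_⟩
  · refine ⟨Fin.append (fun _ => 1) (fun _ => 2), Fin.natAdd r 0, 0, ?_, ?_, ?_, ?_⟩
    · intro i
      refine Fin.addCases (fun i => ?_) (fun i => ?_) i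
      · left; rw [Fin.append_left]
      · right; rw [Fin.append_right]
    · intro i
      refine Fin.addCases (fun i => ?_) (fun i => ?_) i
      · intro n hn
        rw [Fin.append_left] at hn ⊢
        have : n = 0 := by omega
        rw [this]
        exact (nc_iff _).1 (hγ i)
      · intro n hn
        rw [Fin.append_right] at hn ⊢
        have : n = 0 ∨ n = 1 := by omega
        rcases this with rfl | rfl
        · exact hχ0 i
        · exact hχ1 i
    · rw [Fin.sum_univ_add]
      simp only [Fin.append_left, Fin.append_right, Finset.sum_const, Finset.card_univ,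
        Fintype.card_fin, nsmul_eq_mul]
      have hpos : (0 : ℝ) < (r : ℝ) + 1 := by positivity
      push_cast
      apply le_of_eq
      field_simp
    · rw [Fin.append_right, Fin.append_right]
      refine part_two_bad fun l m => ?_
      have := hquad l m
      rw [hχj, if_pos rfl]
      exact this
  · intro i
    have := mem_Alg (Fin.append γ χ) (Fin.castAdd (r + 1) i)
    rwa [Fin.append_left] at this
  · have hγA : ∀ i, γ i ∈ Alg (Fin.append γ χ) := by
      intro i
      have := mem_Alg (Fin.append γ χ) (Fin.castAdd (r + 1) i)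
      rwa [Fin.append_left] at this
    have hχA : ∀ j, χ j ∈ Alg (Fin.append γ χ) := by
      intro j
      have := mem_Alg (Fin.append γ χ) (Fin.natAdd r j)
      rwa [Fin.append_right] at this
    intro j
    have hdec : κ j = χ j + ∑ i, cc j i • γ i +
        if j = 0 then ∑ a, ∑ b, dd a b • (γ a * γ b) else 0 := by
      rw [hχj]; abel
    rw [hdec]
    refine Submodule.add_mem _ (Submodule.add_mem _ (hχA j)
      (Submodule.sum_mem _ fun i _ => Submodule.smul_mem _ _ (hγA i))) ?_
    split_ifs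
    · exact Submodule.sum_mem _ fun a _ => Submodule.sum_mem _ fun b _ =>
        Submodule.smul_mem _ _ (Alg_mul _ (Submodule.mul_mem_mul (hγA a) (hγA b)))
    · exact Submodule.zero_mem _

end TARO
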