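import Pool.Agent.TARO.CFV

/-! CFR: the right contraction of the quadratic part vanishes. -/

open Module

namespace TARO

variable {r : ℕ} {S T : Fin (r + 1) → F r} {M : ℕ} {lam : Fin (r + 1) → K} {i₀ : Fin (r + 1)}
  {a : ℕ} {ε ε' : Fin (r + 1) → ℕ} {cf : Fin (r + 1) → Fin (r + 1) → K}

private theorem CFR_sub_one {f : F r} (hf : Asy f) (b c : Al r) :
    qv (f - 1) b c + qv (f - 1) c b =
      lv (f - 1) b * lv (f - 1) c + if b = c then lv (f - 1) b else 0 := by
  simp only [qv_sub, lv_sub, qv_one, lv_one, sub_zero]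
  exact hf b c

/-- `gam i + 1` and `kap 0 + 1` satisfy `Asy` (products); the linear part of
`χ = kap 0 - ∑ cf gam` vanishes, so `qv χ l m + qv χ m l` is
`ℓ (kap 0) l ℓ (kap 0) m + ∑ i, cf ℓ (gam i) l ℓ (gam i) m`, whose contraction with `lam`
vanishes (`lam_hvec`, `lv_gam`, and `ℓ (kap 0) = ∑ cf ℓ (gam i)`); use `contr_left`. -/
theorem contr_right (h : CfgData r S T M lam i₀ a ε ε' cf) (l : Fin (r + 1)) :
    ∑ m, lam m * qv (kap S T M i₀ a ε' 0 - ∑ i, cf 0 (i₀.succAbove i) • gam S M i₀ ε i)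
      (Sum.inl l) (Sum.inl m) = 0 := by
  set χ := kap S T M i₀ a ε' 0 - ∑ i, cf 0 (i₀.succAbove i) • gam S M i₀ ε i with hχ
  have hlχ : ∀ b, lv χ b = 0 := fun b => lv_kap h 0 b
  have hg : ∀ (i : Fin r) (b c : Al r), qv (gam S M i₀ ε i) b c + qv (gam S M i₀ ε i) c b =
      lv (gam S M i₀ ε i) b * lv (gam S M i₀ ε i) c +
        if b = c then lv (gam S M i₀ ε i) b else 0 :=
    fun i => CFR_sub_one (((h.Sa i₀).pow (h.S1 i₀) _).mul (h.Sa _) (pow_coeff_one (h.S1 i₀) _)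
      (h.S1 _))
  have hk : ∀ b c : Al r, qv (kap S T M i₀ a ε' 0) b c + qv (kap S T M i₀ a ε' 0) c b =
      lv (kap S T M i₀ a ε' 0) b * lv (kap S T M i₀ a ε' 0) c +
        if b = c then lv (kap S T M i₀ a ε' 0) b else 0 := by
    have h1 : Asy (S i₀ ^ ((M - 1) * ε' 0) * T 0) :=
      ((h.Sa i₀).pow (h.S1 i₀) _).mul (h.Ta _) (pow_coeff_one (h.S1 i₀) _) (h.T1 _)
    have h2 : (S i₀ ^ ((M - 1) * ε' 0) * T 0).coeff 1 = 1 := by
      rw [coeff_one_mul, pow_coeff_one (h.S1 i₀), h.T1, one_mul]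
    exact CFR_sub_one (h1.mul ((h.Sa i₀).pow (h.S1 i₀) a) h2 (pow_coeff_one (h.S1 i₀) a))
  have hlk : ∀ b, lv (kap S T M i₀ a ε' 0) b =
      ∑ i, cf 0 (i₀.succAbove i) * lv (gam S M i₀ ε i) b := by
    intro b
    have h1 := hlχ b
    rw [hχ, lv_sub, lv_sum, sub_eq_zero] at h1
    rw [h1]
    exact Finset.sum_congr rfl fun i _ => lv_smul _ _ _
  have hsym : ∀ b c : Al r, qv χ b c + qv χ c b =
      lv (kap S T M i₀ a ε' 0) b * lv (kap S T M i₀ a ε' 0) c -
        ∑ i, cf 0 (i₀.succAbove i) * (lv (gam S M i₀ ε i) b * lv (gam S M i₀ ε i) c) := by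
    intro b c
    have e1 : qv χ b c + qv χ c b =
        (qv (kap S T M i₀ a ε' 0) b c + qv (kap S T M i₀ a ε' 0) c b) -
        ∑ i, cf 0 (i₀.succAbove i) *
          (qv (gam S M i₀ ε i) b c + qv (gam S M i₀ ε i) c b) := by
      rw [hχ, qv_sub, qv_sub, qv_sum, qv_sum]
      simp only [qv_smul, mul_add]
      rw [Finset.sum_add_distrib]
      ring
    rw [e1, hk]
    simp only [hg, mul_add]
    rw [Finset.sum_add_distrib]
    by_cases hbc : b = c
    · simp only [if_pos hbc]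
      rw [← hlk b]
      ring
    · simp only [if_neg hbc, mul_zero, Finset.sum_const_zero]
      ring
  have hlam : ∀ i, ∑ m, lam m * lv (gam S M i₀ ε i) (Sum.inl m) = 0 := by
    intro i
    simp only [lv_gam h]
    exact lam_hvec h.hi₀ i
  have hlamk : ∑ m, lam m * lv (kap S T M i₀ a ε' 0) (Sum.inl m) = 0 := by
    simp only [hlk, Finset.mul_sum]
    rw [Finset.sum_comm]
    refine Finset.sum_eq_zero fun i _ => ?_
    have e : ∀ m, lam m * (cf 0 (i₀.succAbove i) * lv (gam S M i₀ ε i) (Sum.inl m)) =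
        cf 0 (i₀.succAbove i) * (lam m * lv (gam S M i₀ ε i) (Sum.inl m)) := fun m => by ring
    simp only [e]
    rw [← Finset.mul_sum, hlam i, mul_zero]
  have hleft := contr_left h l
  rw [← hχ] at hleft
  have hsum : ∑ m, lam m * (qv χ (Sum.inl l) (Sum.inl m) + qv χ (Sum.inl m) (Sum.inl l)) = 0 := by
    simp only [hsym]
    have e : ∀ m, lam m * (lv (kap S T M i₀ a ε' 0) (Sum.inl l) *
          lv (kap S T M i₀ a ε' 0) (Sum.inl m) -
        ∑ i, cf 0 (i₀.succAbove i) * (lv (gam S M i₀ ε i) (Sum.inl l) *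
          lv (gam S M i₀ ε i) (Sum.inl m))) =
        lv (kap S T M i₀ a ε' 0) (Sum.inl l) * (lam m * lv (kap S T M i₀ a ε' 0) (Sum.inl m)) -
        ∑ i, (cf 0 (i₀.succAbove i) * lv (gam S M i₀ ε i) (Sum.inl l)) *
          (lam m * lv (gam S M i₀ ε i) (Sum.inl m)) := by
      intro m
      rw [mul_sub, Finset.mul_sum]
      congr 1
      · ring
      · refine Finset.sum_congr rfl fun i _ => ?_
        ring
    simp only [e]
    rw [Finset.sum_sub_distrib, ← Finset.mul_sum, hlamk, mul_zero, Finset.sum_comm]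
    rw [Finset.sum_eq_zero, sub_zero]
    intro i _
    rw [← Finset.mul_sum, hlam i, mul_zero]
  simp only [mul_add] at hsum
  rw [Finset.sum_add_distrib, hleft, add_zero] at hsum
  exact hsum

end TARO
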