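import Pool.Agent.TARO.CFA

/-! KSP: the kernel of the linear form, and matrices killed by it from both sides. -/

namespace TARO

/-- the vectors `ξ i + (lam · ξ i) ξ i₀` for `i ≠ i₀` -/
def hvec {r : ℕ} (ξ : Fin (r + 1) → Fin (r + 1) → ZMod 2) (lam : Fin (r + 1) → ZMod 2)
    (i₀ : Fin (r + 1)) (i : Fin r) (l : Fin (r + 1)) : ZMod 2 :=
  ξ (i₀.succAbove i) l + (∑ m, lam m * ξ (i₀.succAbove i) m) * ξ i₀ l

private theorem KSP_add_self (a : ZMod 2) : a + a = 0 := CharTwo.add_self_eq_zero a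

theorem lam_hvec {r : ℕ} {ξ : Fin (r + 1) → Fin (r + 1) → ZMod 2}
    {lam : Fin (r + 1) → ZMod 2} {i₀ : Fin (r + 1)} (h : ∑ l, lam l * ξ i₀ l = 1) (i : Fin r) :
    ∑ l, lam l * hvec ξ lam i₀ i l = 0 := by
  have h1 : ∑ l, lam l * hvec ξ lam i₀ i l =
      ∑ l, lam l * ξ (i₀.succAbove i) l +
        (∑ m, lam m * ξ (i₀.succAbove i) m) * ∑ l, lam l * ξ i₀ l := by
    rw [Finset.mul_sum, ← Finset.sum_add_distrib]
    refine Finset.sum_congr rfl fun l _ => ?_
    unfold hvec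
    ring
  rw [h1, h, mul_one]
  exact KSP_add_self _

private theorem KSP_sum_hvec {r : ℕ} (ξ : Fin (r + 1) → Fin (r + 1) → ZMod 2)
    (lam : Fin (r + 1) → ZMod 2) (i₀ : Fin (r + 1)) (g : Fin r → ZMod 2) (l : Fin (r + 1)) :
    ∑ i, g i * hvec ξ lam i₀ i l =
      (∑ i, g i * ∑ m, lam m * ξ (i₀.succAbove i) m) * ξ i₀ l +
        ∑ i, g i * ξ (i₀.succAbove i) l := by
  rw [Finset.sum_mul, ← Finset.sum_add_distrib]
  refine Finset.sum_congr rfl fun i _ => ?_
  unfold hvec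
  ring

/-- `exists_coord`; the coefficient of `ξ i₀` in terms of the `hvec` is `lam · v = 0` -/
theorem kernel_span {r : ℕ} {ξ : Fin (r + 1) → Fin (r + 1) → ZMod 2}
    (hξ : LinearIndependent (ZMod 2) ξ) {lam : Fin (r + 1) → ZMod 2} {i₀ : Fin (r + 1)}
    (h : ∑ l, lam l * ξ i₀ l = 1) {v : Fin (r + 1) → ZMod 2} (hv : ∑ l, lam l * v l = 0) :
    ∃ c : Fin r → ZMod 2, ∀ l, v l = ∑ i, c i * hvec ξ lam i₀ i l := by
  obtain ⟨c, hc⟩ := exists_coord hξ v
  refine ⟨fun i => c (i₀.succAbove i), fun l => ?_⟩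
  have hc' : ∀ l, v l = c i₀ * ξ i₀ l + ∑ i, c (i₀.succAbove i) * ξ (i₀.succAbove i) l := by
    intro l
    rw [hc l, Fin.sum_univ_succAbove _ i₀]
  have h0 : c i₀ + ∑ i, c (i₀.succAbove i) * ∑ m, lam m * ξ (i₀.succAbove i) m = 0 := by
    have h1 : ∑ l, lam l * v l = c i₀ * ∑ l, lam l * ξ i₀ l +
        ∑ i, c (i₀.succAbove i) * ∑ m, lam m * ξ (i₀.succAbove i) m := by
      have h2 : ∀ l, lam l * v l = c i₀ * (lam l * ξ i₀ l) +
          ∑ i, c (i₀.succAbove i) * (lam l * ξ (i₀.succAbove i) l) := by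
        intro l
        rw [hc' l, mul_add, Finset.mul_sum]
        congr 1
        · ring
        · refine Finset.sum_congr rfl fun i _ => ?_
          ring
      rw [Finset.sum_congr rfl fun l _ => h2 l, Finset.sum_add_distrib, ← Finset.mul_sum,
        Finset.sum_comm]
      congr 1
      refine Finset.sum_congr rfl fun i _ => ?_
      rw [Finset.mul_sum]
    rw [← hv, h1, h, mul_one]
  have h3 : (∑ i, c (i₀.succAbove i) * ∑ m, lam m * ξ (i₀.succAbove i) m) = c i₀ := by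
    have := KSP_add_self (c i₀)
    linear_combination h0 - this
  rw [KSP_sum_hvec, h3]
  exact hc' l

theorem hvec_indep {r : ℕ} {ξ : Fin (r + 1) → Fin (r + 1) → ZMod 2}
    (hξ : LinearIndependent (ZMod 2) ξ) (lam : Fin (r + 1) → ZMod 2) (i₀ : Fin (r + 1)) :
    LinearIndependent (ZMod 2) (hvec ξ lam i₀) := by
  rw [Fintype.linearIndependent_iff] at hξ ⊢
  intro g hg i
  have hg' : ∀ l, ∑ i, g i * hvec ξ lam i₀ i l = 0 := by
    intro l
    have := congrFun hg l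
    simpa [Finset.sum_apply, smul_eq_mul] using this
  set G : Fin (r + 1) → ZMod 2 :=
    i₀.insertNth (∑ i, g i * ∑ m, lam m * ξ (i₀.succAbove i) m) g with hG
  have h1 : ∑ j, G j • ξ j = 0 := by
    funext l
    rw [Finset.sum_apply, Fin.sum_univ_succAbove _ i₀]
    have h2 := hg' l
    rw [KSP_sum_hvec] at h2
    simpa [hG, smul_eq_mul] using h2
  have h3 := hξ G h1 (i₀.succAbove i)
  simpa [hG] using h3

/-- Apply `kernel_span` to the columns of `D`: `D l m = ∑ a, κ a m * hvec a l`; by `h₂` and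
`hvec_indep` the vectors `κ a` are killed by `lam`; apply `kernel_span` to them. -/
theorem kernel_span₂ {r : ℕ} {ξ : Fin (r + 1) → Fin (r + 1) → ZMod 2}
    (hξ : LinearIndependent (ZMod 2) ξ) {lam : Fin (r + 1) → ZMod 2} {i₀ : Fin (r + 1)}
    (h : ∑ l, lam l * ξ i₀ l = 1) {D : Fin (r + 1) → Fin (r + 1) → ZMod 2}
    (h₁ : ∀ m, ∑ l, lam l * D l m = 0) (h₂ : ∀ l, ∑ m, lam m * D l m = 0) :
    ∃ d : Fin r → Fin r → ZMod 2, ∀ l m,
      D l m = ∑ a, ∑ b, d a b * (hvec ξ lam i₀ a l * hvec ξ lam i₀ b m) := by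
  have hk : ∀ m, ∃ c : Fin r → ZMod 2, ∀ l, D l m = ∑ i, c i * hvec ξ lam i₀ i l :=
    fun m => kernel_span hξ h (v := fun l => D l m) (h₁ m)
  choose κ hκ using hk
  have hz : ∀ a, ∑ m, lam m * κ m a = 0 := by
    have hind := hvec_indep hξ lam i₀
    rw [Fintype.linearIndependent_iff] at hind
    refine hind (fun a => ∑ m, lam m * κ m a) ?_
    funext l
    rw [Finset.sum_apply]
    have h3 := h₂ l
    have h4 : ∀ m, lam m * D l m = ∑ a, (lam m * κ m a) * hvec ξ lam i₀ a l := by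
      intro m
      rw [hκ m l, Finset.mul_sum]
      refine Finset.sum_congr rfl fun a _ => ?_
      ring
    rw [Finset.sum_congr rfl fun m _ => h4 m, Finset.sum_comm] at h3
    rw [Pi.zero_apply, ← h3]
    refine Finset.sum_congr rfl fun a _ => ?_
    rw [Pi.smul_apply, smul_eq_mul, Finset.sum_mul]
  have hd : ∀ a, ∃ c : Fin r → ZMod 2, ∀ m, κ m a = ∑ b, c b * hvec ξ lam i₀ b m :=
    fun a => kernel_span hξ h (v := fun m => κ m a) (hz a)
  choose d hd using hd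
  refine ⟨d, fun l m => ?_⟩
  rw [hκ m l]
  refine Finset.sum_congr rfl fun a _ => ?_
  rw [hd a m, Finset.sum_mul]
  refine Finset.sum_congr rfl fun b _ => ?_
  ring

end TARO
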