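import Pool.Agent.TARO.JETW
import Pool.Agent.TARO.KSP

/-! CFV: linear and quadratic coefficients of the elements of the configuration. -/

open Module

namespace TARO

variable {r : ℕ}

/-- the situation of the configuration -/
structure CfgData (r : ℕ) (S T : Fin (r + 1) → F r) (M : ℕ) (lam : Fin (r + 1) → K)
    (i₀ : Fin (r + 1)) (a : ℕ) (ε ε' : Fin (r + 1) → ℕ) (cf : Fin (r + 1) → Fin (r + 1) → K) :
    Prop where
  h4 : 4 ∣ M
  hM : 0 < M
  S1 : ∀ i, (S i).coeff 1 = 1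
  T1 : ∀ i, (T i).coeff 1 = 1
  Sa : ∀ i, Asy (S i)
  Ta : ∀ i, Asy (T i)
  SX : ∀ i, XLin (S i)
  TX : ∀ i, XLin (T i)
  hi₀ : ∑ l, lam l * lv (S i₀) (Sum.inl l) = 1
  hε : ∀ i, (ε i : K) = ∑ l, lam l * lv (S i) (Sum.inl l)
  hε' : ∀ j, (ε' j : K) = ∑ l, lam l * lv (T j) (Sum.inl l) + (a : K)
  ε01 : ∀ i, ε i = 0 ∨ ε i = 1
  ε'01 : ∀ i, ε' i = 0 ∨ ε' i = 1
  a01 : a = 0 ∨ a = 1
  /-- coordinates of the linear parts of the `T j` in the basis of the linear parts of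
  the `S i` -/
  hcf : ∀ j l, lv (T j) (Sum.inl l) = ∑ i, cf j i * lv (S i) (Sum.inl l)
  /-- the choice of `lam` and `a` -/
  hlam : ∀ m, ∑ l, lam l * (qv (T 0) (Sum.inl l) (Sum.inl m) +
      lv (T 0) (Sum.inl l) * lv (T 0) (Sum.inl m) +
      ∑ i, cf 0 i * (qv (S i) (Sum.inl l) (Sum.inl m) +
        lv (S i) (Sum.inl l) * lv (S i) (Sum.inl m))) = (a : K) * lv (T 0) (Sum.inl m)

/-- the generators of degree `1` -/
noncomputable def gam (S : Fin (r + 1) → F r) (M : ℕ) (i₀ : Fin (r + 1))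
    (ε : Fin (r + 1) → ℕ) (i : Fin r) : F r :=
  S i₀ ^ ((M - 1) * ε (i₀.succAbove i)) * S (i₀.succAbove i) - 1

/-- the generators of degree `2`, before the correction -/
noncomputable def kap (S T : Fin (r + 1) → F r) (M : ℕ) (i₀ : Fin (r + 1)) (a : ℕ)
    (ε' : Fin (r + 1) → ℕ) (j : Fin (r + 1)) : F r :=
  S i₀ ^ ((M - 1) * ε' j) * T j * S i₀ ^ a - 1

variable {S T : Fin (r + 1) → F r} {M : ℕ} {lam : Fin (r + 1) → K} {i₀ : Fin (r + 1)} {a : ℕ}
  {ε ε' : Fin (r + 1) → ℕ} {cf : Fin (r + 1) → Fin (r + 1) → K}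

private theorem CFV_two : (2 : K) = 0 := rfl

/-- left contraction of the quadratic part -/
private noncomputable def CFV_L (lam : Fin (r + 1) → K) (f : F r) (m : Fin (r + 1)) : K :=
  ∑ l, lam l * qv f (Sum.inl l) (Sum.inl m)

/-- contraction of the linear part -/
private noncomputable def CFV_l (lam : Fin (r + 1) → K) (f : F r) : K :=
  ∑ l, lam l * lv f (Sum.inl l)

private theorem CFV_L_mul (lam : Fin (r + 1) → K) {f g : F r} (hf : f.coeff 1 = 1)
    (hg : g.coeff 1 = 1) (m : Fin (r + 1)) :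
    CFV_L lam (f * g) m = CFV_L lam g m + CFV_l lam f * lv g (Sum.inl m) + CFV_L lam f m := by
  unfold CFV_L CFV_l
  rw [Finset.sum_mul, ← Finset.sum_add_distrib, ← Finset.sum_add_distrib]
  refine Finset.sum_congr rfl fun l _ => ?_
  rw [qv_mul, hf, hg]
  ring

private theorem CFV_l_mul (lam : Fin (r + 1) → K) {f g : F r} (hf : f.coeff 1 = 1)
    (hg : g.coeff 1 = 1) : CFV_l lam (f * g) = CFV_l lam g + CFV_l lam f := by
  unfold CFV_l
  rw [← Finset.sum_add_distrib]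
  refine Finset.sum_congr rfl fun l _ => ?_
  rw [lv_mul, hf, hg]
  ring

private theorem CFV_L_sub_one (lam : Fin (r + 1) → K) (f : F r) (m : Fin (r + 1)) :
    CFV_L lam (f - 1) m = CFV_L lam f m := by
  unfold CFV_L
  refine Finset.sum_congr rfl fun l _ => ?_
  rw [qv_sub, qv_one, sub_zero]

private theorem CFV_P1 {f : F r} (hf : f.coeff 1 = 1) (M e : ℕ) :
    (f ^ ((M - 1) * e)).coeff 1 = 1 := pow_coeff_one hf _

private theorem CFV_Pl {f : F r} (hf : f.coeff 1 = 1) {M : ℕ} (hM : 4 ∣ M) (hM0 : 0 < M)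
    {e : ℕ} (he : e = 0 ∨ e = 1) (b : Al r) :
    lv (f ^ ((M - 1) * e)) b = (e : K) * lv f b := by
  rcases he with rfl | rfl
  · rw [mul_zero, pow_zero, lv_one, Nat.cast_zero, zero_mul]
  · rw [mul_one, lv_pow_inv hf hM hM0, Nat.cast_one, one_mul]

private theorem CFV_Pq {f : F r} (hf : f.coeff 1 = 1) {M : ℕ} (hM : 4 ∣ M) (hM0 : 0 < M)
    {e : ℕ} (he : e = 0 ∨ e = 1) (b c : Al r) :
    qv (f ^ ((M - 1) * e)) b c = (e : K) * (qv f b c + lv f b * lv f c) := by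
  rcases he with rfl | rfl
  · rw [mul_zero, pow_zero, qv_one, Nat.cast_zero, zero_mul]
  · rw [mul_one, qv_pow_inv hf hM hM0, Nat.cast_one, one_mul]

private theorem CFV_al {f : F r} {e : ℕ} (he : e = 0 ∨ e = 1) (b : Al r) :
    lv (f ^ e) b = (e : K) * lv f b := by
  rcases he with rfl | rfl
  · rw [pow_zero, lv_one, Nat.cast_zero, zero_mul]
  · rw [pow_one, Nat.cast_one, one_mul]

private theorem CFV_aq {f : F r} {e : ℕ} (he : e = 0 ∨ e = 1) (b c : Al r) :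
    qv (f ^ e) b c = (e : K) * qv f b c := by
  rcases he with rfl | rfl
  · rw [pow_zero, qv_one, Nat.cast_zero, zero_mul]
  · rw [pow_one, Nat.cast_one, one_mul]

private theorem CFV_gam_all (h : CfgData r S T M lam i₀ a ε ε' cf) (i : Fin r) (b : Al r) :
    lv (gam S M i₀ ε i) b = lv (S (i₀.succAbove i)) b +
      (ε (i₀.succAbove i) : K) * lv (S i₀) b := by
  unfold gam
  rw [lv_sub, lv_one, sub_zero, lv_mul, CFV_P1 (h.S1 i₀), h.S1,
    CFV_Pl (h.S1 i₀) h.h4 h.hM (h.ε01 _)]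
  ring

theorem lv_gam (h : CfgData r S T M lam i₀ a ε ε' cf) (i : Fin r) (l : Fin (r + 1)) :
    lv (gam S M i₀ ε i) (Sum.inl l) =
      hvec (fun i l => lv (S i) (Sum.inl l)) lam i₀ i l := by
  rw [CFV_gam_all h, h.hε]
  rfl

theorem lv_gam_inr (h : CfgData r S T M lam i₀ a ε ε' cf) (i : Fin r) (j : Fin (r + 2)) :
    lv (gam S M i₀ ε i) (Sum.inr j) = 0 := by
  rw [CFV_gam_all h, h.SX _ j, h.SX _ j]
  ring

private theorem CFV_kap_all (h : CfgData r S T M lam i₀ a ε ε' cf) (j : Fin (r + 1))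
    (b : Al r) :
    lv (kap S T M i₀ a ε' j) b = lv (T j) b + ((ε' j : K) + (a : K)) * lv (S i₀) b := by
  unfold kap
  have h1 : (S i₀ ^ ((M - 1) * ε' j) * T j).coeff 1 = 1 := by
    rw [coeff_one_mul, CFV_P1 (h.S1 i₀), h.T1, one_mul]
  rw [lv_sub, lv_one, sub_zero, lv_mul, h1, pow_coeff_one (h.S1 i₀), lv_mul,
    CFV_P1 (h.S1 i₀), h.T1, CFV_Pl (h.S1 i₀) h.h4 h.hM (h.ε'01 _), CFV_al h.a01]
  ring

private theorem CFV_lT (h : CfgData r S T M lam i₀ a ε ε' cf) (j : Fin (r + 1)) :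
    ∑ l, lam l * lv (T j) (Sum.inl l) =
      ∑ i, cf j i * ∑ l, lam l * lv (S i) (Sum.inl l) := by
  simp only [h.hcf j, Finset.mul_sum]
  rw [Finset.sum_comm]
  refine Finset.sum_congr rfl fun i _ => Finset.sum_congr rfl fun l _ => ?_
  ring

/-- the linear part of `kap j` is `ℓ (T j) + (lam · ℓ (T j)) ℓ (S i₀)`, which is
`∑ i, cf j (i₀.succAbove i) ℓ (gam i)` -/
theorem lv_kap (h : CfgData r S T M lam i₀ a ε ε' cf) (j : Fin (r + 1)) (b : Al r) :
    lv (kap S T M i₀ a ε' j - ∑ i, cf j (i₀.succAbove i) • gam S M i₀ ε i) b = 0 := by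
  rw [lv_sub, lv_sum, CFV_kap_all h]
  simp only [lv_smul]
  rcases b with l | k
  · simp only [CFV_gam_all h, h.hε, h.hε']
    have e1 := h.hcf j l
    have e2 := CFV_lT h j
    rw [Fin.sum_univ_succAbove _ i₀] at e1
    rw [Fin.sum_univ_succAbove (fun i => cf j i * ∑ l, lam l * lv (S i) (Sum.inl l)) i₀] at e2
    rw [h.hi₀] at e2
    have e3 : ∑ i : Fin r, cf j (i₀.succAbove i) * (lv (S (i₀.succAbove i)) (Sum.inl l) +
        (∑ m, lam m * lv (S (i₀.succAbove i)) (Sum.inl m)) * lv (S i₀) (Sum.inl l)) =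
        (∑ i : Fin r, cf j (i₀.succAbove i) * lv (S (i₀.succAbove i)) (Sum.inl l)) +
        (∑ i : Fin r, cf j (i₀.succAbove i) *
          ∑ m, lam m * lv (S (i₀.succAbove i)) (Sum.inl m)) * lv (S i₀) (Sum.inl l) := by
      rw [Finset.sum_mul, ← Finset.sum_add_distrib]
      refine Finset.sum_congr rfl fun i _ => ?_
      ring
    rw [e3, e1, e2]
    linear_combination ((a : K) + cf j i₀) * lv (S i₀) (Sum.inl l) * CFV_two
  · rw [h.TX j k, h.SX i₀ k, Finset.sum_eq_zero, mul_zero, add_zero, sub_zero]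
    intro i _
    rw [lv_gam_inr h, mul_zero]

private theorem CFV_L_gam (h : CfgData r S T M lam i₀ a ε ε' cf) (i : Fin r)
    (m : Fin (r + 1)) :
    CFV_L lam (gam S M i₀ ε i) m =
      (CFV_L lam (S (i₀.succAbove i)) m +
        CFV_l lam (S (i₀.succAbove i)) * lv (S (i₀.succAbove i)) (Sum.inl m)) +
      CFV_l lam (S (i₀.succAbove i)) * (CFV_L lam (S i₀) m + lv (S i₀) (Sum.inl m)) := by
  unfold gam
  rw [CFV_L_sub_one, CFV_L_mul lam (CFV_P1 (h.S1 i₀) M _) (h.S1 _)]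
  have e1 : CFV_l lam (S i₀ ^ ((M - 1) * ε (i₀.succAbove i))) =
      CFV_l lam (S (i₀.succAbove i)) := by
    unfold CFV_l
    simp only [CFV_Pl (h.S1 i₀) h.h4 h.hM (h.ε01 (i₀.succAbove i))]
    rw [← h.hε]
    have : ∀ l, lam l * ((ε (i₀.succAbove i) : K) * lv (S i₀) (Sum.inl l)) =
        (ε (i₀.succAbove i) : K) * (lam l * lv (S i₀) (Sum.inl l)) := fun l => by ring
    simp only [this]
    rw [← Finset.mul_sum, h.hi₀, mul_one]
  have e2 : CFV_L lam (S i₀ ^ ((M - 1) * ε (i₀.succAbove i))) m =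
      CFV_l lam (S (i₀.succAbove i)) * (CFV_L lam (S i₀) m + lv (S i₀) (Sum.inl m)) := by
    have e3 : CFV_l lam (S (i₀.succAbove i)) = (ε (i₀.succAbove i) : K) := (h.hε _).symm
    rw [e3]
    unfold CFV_L
    simp only [CFV_Pq (h.S1 i₀) h.h4 h.hM (h.ε01 (i₀.succAbove i))]
    have : ∀ l, lam l * ((ε (i₀.succAbove i) : K) * (qv (S i₀) (Sum.inl l) (Sum.inl m) +
        lv (S i₀) (Sum.inl l) * lv (S i₀) (Sum.inl m))) =
        (ε (i₀.succAbove i) : K) * (lam l * qv (S i₀) (Sum.inl l) (Sum.inl m)) +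
        (ε (i₀.succAbove i) : K) * ((lam l * lv (S i₀) (Sum.inl l)) *
          lv (S i₀) (Sum.inl m)) := fun l => by ring
    simp only [this]
    rw [Finset.sum_add_distrib, ← Finset.mul_sum, ← Finset.mul_sum, ← Finset.sum_mul, h.hi₀]
    ring
  rw [e1, e2]

private theorem CFV_L_kap (h : CfgData r S T M lam i₀ a ε ε' cf) (m : Fin (r + 1)) :
    CFV_L lam (kap S T M i₀ a ε' 0) m =
      CFV_L lam (T 0) m + (CFV_l lam (T 0) + (a : K)) * lv (T 0) (Sum.inl m) +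
      CFV_l lam (T 0) * (CFV_L lam (S i₀) m + lv (S i₀) (Sum.inl m)) := by
  unfold kap
  have h1 : (S i₀ ^ ((M - 1) * ε' 0) * T 0).coeff 1 = 1 := by
    rw [coeff_one_mul, CFV_P1 (h.S1 i₀), h.T1, one_mul]
  rw [CFV_L_sub_one, CFV_L_mul lam h1 (pow_coeff_one (h.S1 i₀) a),
    CFV_L_mul lam (CFV_P1 (h.S1 i₀) M _) (h.T1 _), CFV_l_mul lam (CFV_P1 (h.S1 i₀) M _) (h.T1 _),
    CFV_al h.a01]
  have e0 : (ε' 0 : K) = CFV_l lam (T 0) + (a : K) := h.hε' 0
  have e1 : CFV_l lam (S i₀ ^ ((M - 1) * ε' 0)) = CFV_l lam (T 0) + (a : K) := by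
    unfold CFV_l
    simp only [CFV_Pl (h.S1 i₀) h.h4 h.hM (h.ε'01 0)]
    have : ∀ l, lam l * ((ε' 0 : K) * lv (S i₀) (Sum.inl l)) =
        (ε' 0 : K) * (lam l * lv (S i₀) (Sum.inl l)) := fun l => by ring
    simp only [this]
    rw [← Finset.mul_sum, h.hi₀, mul_one]
    exact h.hε' 0
  have e2 : CFV_L lam (S i₀ ^ ((M - 1) * ε' 0)) m =
      (CFV_l lam (T 0) + (a : K)) * (CFV_L lam (S i₀) m + lv (S i₀) (Sum.inl m)) := by
    rw [← e0]
    unfold CFV_L
    simp only [CFV_Pq (h.S1 i₀) h.h4 h.hM (h.ε'01 0)]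
    have : ∀ l, lam l * ((ε' 0 : K) * (qv (S i₀) (Sum.inl l) (Sum.inl m) +
        lv (S i₀) (Sum.inl l) * lv (S i₀) (Sum.inl m))) =
        (ε' 0 : K) * (lam l * qv (S i₀) (Sum.inl l) (Sum.inl m)) +
        (ε' 0 : K) * ((lam l * lv (S i₀) (Sum.inl l)) *
          lv (S i₀) (Sum.inl m)) := fun l => by ring
    simp only [this]
    rw [Finset.sum_add_distrib, ← Finset.mul_sum, ← Finset.mul_sum, ← Finset.sum_mul, h.hi₀]
    ring
  have e3 : CFV_L lam (S i₀ ^ a) m = (a : K) * CFV_L lam (S i₀) m := by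
    unfold CFV_L
    simp only [CFV_aq h.a01]
    rw [Finset.mul_sum]
    refine Finset.sum_congr rfl fun l _ => ?_
    ring
  have ha : (a : K) * (a : K) = (a : K) := by
    rcases h.a01 with rfl | rfl
    · rw [Nat.cast_zero, mul_zero]
    · rw [Nat.cast_one, mul_one]
  rw [e1, e2, e3]
  linear_combination lv (S i₀) (Sum.inl m) * ha +
    ((a : K) * CFV_L lam (S i₀) m + (a : K) * lv (S i₀) (Sum.inl m) +
      (a : K) * CFV_l lam (T 0) * lv (S i₀) (Sum.inl m)) * CFV_two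

private theorem CFV_sums {n : ℕ} (lam A B cf : Fin n → K) (C D : Fin n → Fin n → K) :
    ∑ l, lam l * (A l + B l + ∑ i, cf i * (C i l + D i l)) =
      ∑ l, lam l * A l + ∑ l, lam l * B l +
        ∑ i, cf i * (∑ l, lam l * C i l + ∑ l, lam l * D i l) := by
  have e : ∑ i, cf i * (∑ l, lam l * C i l + ∑ l, lam l * D i l) =
      ∑ l, ∑ i, lam l * (cf i * (C i l + D i l)) := by
    rw [Finset.sum_comm]
    refine Finset.sum_congr rfl fun i _ => ?_
    rw [← Finset.sum_add_distrib, Finset.mul_sum]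
    refine Finset.sum_congr rfl fun l _ => ?_
    ring
  rw [e, ← Finset.sum_add_distrib, ← Finset.sum_add_distrib]
  refine Finset.sum_congr rfl fun l _ => ?_
  rw [← Finset.mul_sum]
  ring

/-- The left contraction of the quadratic part vanishes.  Let `Λ f m = ∑ l, lam l * qv f l m`,
`ξ i`, `η` the linear parts of `S i`, `T 0`, `θ i = Λ (S i) + (lam · ξ i) ξ i`.  Then
`Λ (gam i) = θ i + (lam · ξ i) θ i₀`, and `Λ (kap 0)` is
`Λ (T 0) + (lam · η + a) η + (lam · η) θ i₀`.  The contraction is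
`Λ (T 0) + (lam · η) η + ∑ i, cf 0 i θ i + a η = 0` by `hlam`. -/
theorem contr_left (h : CfgData r S T M lam i₀ a ε ε' cf) (m : Fin (r + 1)) :
    ∑ l, lam l * qv (kap S T M i₀ a ε' 0 - ∑ i, cf 0 (i₀.succAbove i) • gam S M i₀ ε i)
      (Sum.inl l) (Sum.inl m) = 0 := by
  have e1 : ∑ l, lam l * qv (kap S T M i₀ a ε' 0 -
      ∑ i, cf 0 (i₀.succAbove i) • gam S M i₀ ε i) (Sum.inl l) (Sum.inl m) =
      CFV_L lam (kap S T M i₀ a ε' 0) m -
        ∑ i, cf 0 (i₀.succAbove i) * CFV_L lam (gam S M i₀ ε i) m := by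
    unfold CFV_L
    simp only [Finset.mul_sum]
    rw [Finset.sum_comm, ← Finset.sum_sub_distrib]
    refine Finset.sum_congr rfl fun l _ => ?_
    rw [qv_sub, qv_sum, mul_sub, Finset.mul_sum]
    congr 1
    refine Finset.sum_congr rfl fun i _ => ?_
    rw [qv_smul]
    ring
  have e2 : CFV_L lam (T 0) m + CFV_l lam (T 0) * lv (T 0) (Sum.inl m) +
      ∑ i, cf 0 i * (CFV_L lam (S i) m + CFV_l lam (S i) * lv (S i) (Sum.inl m)) =
      (a : K) * lv (T 0) (Sum.inl m) := by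
    rw [← h.hlam m]
    unfold CFV_L CFV_l
    rw [CFV_sums]
    congr 1
    · congr 1
      rw [Finset.sum_mul]
      refine Finset.sum_congr rfl fun l _ => ?_
      ring
    · refine Finset.sum_congr rfl fun i _ => ?_
      congr 2
      rw [Finset.sum_mul]
      refine Finset.sum_congr rfl fun l _ => ?_
      ring
  have e3 : CFV_l lam (T 0) = ∑ i, cf 0 i * CFV_l lam (S i) := CFV_lT h 0
  have hi₀ : CFV_l lam (S i₀) = 1 := h.hi₀
  rw [Fin.sum_univ_succAbove _ i₀] at e2 e3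
  rw [hi₀] at e2 e3
  rw [e1, CFV_L_kap h]
  simp only [CFV_L_gam h]
  have e4 : ∑ i : Fin r, cf 0 (i₀.succAbove i) *
      (CFV_L lam (S (i₀.succAbove i)) m +
        CFV_l lam (S (i₀.succAbove i)) * lv (S (i₀.succAbove i)) (Sum.inl m) +
        CFV_l lam (S (i₀.succAbove i)) * (CFV_L lam (S i₀) m + lv (S i₀) (Sum.inl m))) =
      (∑ i : Fin r, cf 0 (i₀.succAbove i) * (CFV_L lam (S (i₀.succAbove i)) m +
        CFV_l lam (S (i₀.succAbove i)) * lv (S (i₀.succAbove i)) (Sum.inl m))) +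
      (∑ i : Fin r, cf 0 (i₀.succAbove i) * CFV_l lam (S (i₀.succAbove i))) *
        (CFV_L lam (S i₀) m + lv (S i₀) (Sum.inl m)) := by
    rw [Finset.sum_mul, ← Finset.sum_add_distrib]
    refine Finset.sum_congr rfl fun i _ => ?_
    ring
  rw [e4]
  set X := ∑ i : Fin r, cf 0 (i₀.succAbove i) * (CFV_L lam (S (i₀.succAbove i)) m +
        CFV_l lam (S (i₀.succAbove i)) * lv (S (i₀.succAbove i)) (Sum.inl m)) with hX
  set Y := ∑ i : Fin r, cf 0 (i₀.succAbove i) * CFV_l lam (S (i₀.succAbove i)) with hY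
  set Z := CFV_L lam (S i₀) m + lv (S i₀) (Sum.inl m) with hZ
  linear_combination e2 + Z * e3 + ((a : K) * lv (T 0) (Sum.inl m) - X) * CFV_two

end TARO
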