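import Pool.Agent.TARO.FLT

/-! COMP: the complement `YC ψ` of the span of the x-letters. -/

open Module

namespace TARO

variable {r : ℕ}

private theorem COMP_Fd_one :
    Fd r 1 = Submodule.span K (Set.range fun a : Al r => (wd [a] : F r)) := by
  unfold Fd
  congr 1
  ext p
  constructor
  · rintro ⟨w, hw, rfl⟩
    obtain ⟨a, rfl⟩ := List.length_eq_one_iff.mp hw
    exact ⟨a, rfl⟩
  · rintro ⟨a, rfl⟩
    exact ⟨[a], rfl, rfl⟩

private theorem COMP_lq_letter (a b : Al r) (z : F r) :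
    lq a (wd [b] * z) = if a = b then z else 0 := by
  rw [lq_mul_of_nc a (NC_wd [b] (by simp)) z]
  have h1 : lq a (wd [b] : F r) = if a = b then wd [] else 0 := lq_wd_cons a b []
  rw [h1]
  split_ifs
  · rw [wd_nil, one_mul]
  · rw [zero_mul]

theorem Fd_one_eq (ψ : Cm r) : Fd r 1 = XM r ⊔ YC ψ := by
  apply le_antisymm
  · rw [COMP_Fd_one, Submodule.span_le]
    rintro _ ⟨a, rfl⟩
    rcases a with i | j
    · exact Submodule.mem_sup_left (Submodule.subset_span ⟨i, rfl⟩)
    · have h1 : (wd [Sum.inr j] : F r) =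
          (- ∑ i : Fin (r + 1), ψ j i • (wd [Sum.inl i] : F r)) + yl ψ j := by
        unfold yl
        abel
      change (wd [Sum.inr j] : F r) ∈ XM r ⊔ YC ψ
      rw [h1]
      refine Submodule.add_mem_sup ?_ (Submodule.subset_span ⟨j, rfl⟩)
      refine Submodule.neg_mem _ (Submodule.sum_mem _ fun i _ => ?_)
      exact Submodule.smul_mem _ _ (Submodule.subset_span ⟨i, rfl⟩)
  · refine sup_le ?_ (YC_le ψ)
    rw [COMP_Fd_one]
    refine Submodule.span_mono ?_
    rintro _ ⟨i, rfl⟩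
    exact ⟨Sum.inl i, rfl⟩

/-- every element of `YC ψ * W` has the form `∑ j, yl ψ j * w j` with `w j ∈ W` -/
theorem mem_YC_mul (ψ : Cm r) {W : Submodule K (F r)} {p : F r} (hp : p ∈ YC ψ * W) :
    ∃ v : Fin (r + 2) → F r, (∀ j, v j ∈ W) ∧ p = ∑ j, yl ψ j * v j := by
  induction hp using Submodule.mul_induction_on' with
  | mem_mul_mem m hm n hn =>
    unfold YC at hm
    rw [Submodule.mem_span_range_iff_exists_fun] at hm
    obtain ⟨c, rfl⟩ := hm
    refine ⟨fun j => c j • n, fun j => Submodule.smul_mem _ _ hn, ?_⟩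
    rw [Finset.sum_mul]
    refine Finset.sum_congr rfl fun j _ => ?_
    rw [smul_mul_assoc, mul_smul_comm]
  | add x _ y _ hx hy =>
    obtain ⟨v, hv, rfl⟩ := hx
    obtain ⟨u, hu, rfl⟩ := hy
    refine ⟨fun j => v j + u j, fun j => Submodule.add_mem _ (hv j) (hu j), ?_⟩
    rw [← Finset.sum_add_distrib]
    refine Finset.sum_congr rfl fun j _ => ?_
    rw [mul_add]

private theorem COMP_yl_mul (ψ : Cm r) (j : Fin (r + 2)) (z : F r) :
    yl ψ j * z = wd [Sum.inr j] * z + ∑ i : Fin (r + 1), ψ j i • (wd [Sum.inl i] * z) := by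
  unfold yl
  rw [add_mul, Finset.sum_mul]
  simp_rw [smul_mul_assoc]

private theorem COMP_lq_inr (ψ : Cm r) (j k : Fin (r + 2)) (z : F r) :
    lq (Sum.inr j) (yl ψ k * z) = if j = k then z else 0 := by
  rw [COMP_yl_mul, map_add, map_sum, COMP_lq_letter]
  rw [Finset.sum_eq_zero, add_zero]
  · simp only [Sum.inr.injEq]
  · intro i _
    rw [map_smul, COMP_lq_letter, if_neg (by simp), smul_zero]

private theorem COMP_lq_inl (ψ : Cm r) (i : Fin (r + 1)) (k : Fin (r + 2)) (z : F r) :
    lq (Sum.inl i) (yl ψ k * z) = ψ k i • z := by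
  rw [COMP_yl_mul, map_add, map_sum, COMP_lq_letter, if_neg (by simp), zero_add,
    Finset.sum_eq_single i]
  · rw [map_smul, COMP_lq_letter, if_pos rfl]
  · intro b _ hb
    rw [map_smul, COMP_lq_letter, if_neg, smul_zero]
    intro h
    exact hb (Sum.inl.inj h).symm
  · intro h
    exact absurd (Finset.mem_univ i) h

/-- left quotients of `∑ j, yl ψ j * v j` -/
theorem lq_inr_yl (ψ : Cm r) (v : Fin (r + 2) → F r) (j : Fin (r + 2)) :
    lq (Sum.inr j) (∑ j, yl ψ j * v j) = v j := by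
  rw [map_sum, Finset.sum_eq_single j]
  · rw [COMP_lq_inr, if_pos rfl]
  · intro b _ hb
    rw [COMP_lq_inr, if_neg]
    exact fun h => hb h.symm
  · intro h
    exact absurd (Finset.mem_univ j) h

theorem lq_inl_yl (ψ : Cm r) (v : Fin (r + 2) → F r) (i : Fin (r + 1)) :
    lq (Sum.inl i) (∑ j, yl ψ j * v j) = ∑ j, ψ j i • v j := by
  rw [map_sum]
  refine Finset.sum_congr rfl fun j _ => ?_
  rw [COMP_lq_inl]

private theorem COMP_lq_XM {V : Submodule K (F r)} {p : F r} (hp : p ∈ XM r * V)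
    (j : Fin (r + 2)) : lq (Sum.inr j) p = 0 := by
  have h1 : XM r * V ≤ LinearMap.ker (lq (Sum.inr j : Al r)) := by
    rw [Submodule.mul_le]
    intro m hm n _
    unfold XM at hm
    rw [Submodule.mem_span_range_iff_exists_fun] at hm
    obtain ⟨c, rfl⟩ := hm
    rw [LinearMap.mem_ker, Finset.sum_mul, map_sum]
    refine Finset.sum_eq_zero fun i _ => ?_
    rw [smul_mul_assoc, map_smul, COMP_lq_letter, if_neg (by simp), smul_zero]
  exact LinearMap.mem_ker.1 (h1 hp)

theorem disjoint_XM_YC (ψ : Cm r) (V W : Submodule K (F r)) :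
    Disjoint (XM r * V) (YC ψ * W) := by
  rw [Submodule.disjoint_def]
  intro p hp hq
  obtain ⟨v, _, rfl⟩ := mem_YC_mul ψ hq
  refine Finset.sum_eq_zero fun j _ => ?_
  have h1 := COMP_lq_XM hp j
  rw [lq_inr_yl] at h1
  rw [h1, mul_zero]

private noncomputable def compL (ψ : Cm r) (V : Submodule K (F r)) :
    (Fin (r + 2) → V) →ₗ[K] F r :=
  ∑ j, (LinearMap.mulLeft K (yl ψ j : F r)) ∘ₗ V.subtype ∘ₗ LinearMap.proj j

private theorem compL_apply (ψ : Cm r) (V : Submodule K (F r)) (v : Fin (r + 2) → V) :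
    compL ψ V v = ∑ j, yl ψ j * (v j : F r) := by
  simp [compL, LinearMap.sum_apply]

private theorem compL_inj (ψ : Cm r) (V : Submodule K (F r)) :
    Function.Injective (compL ψ V) := by
  intro v w h
  rw [compL_apply, compL_apply] at h
  funext j
  apply Subtype.ext
  rw [← lq_inr_yl ψ (fun j => (v j : F r)) j, ← lq_inr_yl ψ (fun j => (w j : F r)) j, h]

private theorem compL_range (ψ : Cm r) (V : Submodule K (F r)) :
    LinearMap.range (compL ψ V) = YC ψ * V := by
  apply le_antisymm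
  · rintro p ⟨v, rfl⟩
    rw [compL_apply]
    refine Submodule.sum_mem _ fun j _ => ?_
    exact Submodule.mul_mem_mul (Submodule.subset_span ⟨j, rfl⟩) (v j).2
  · intro p hp
    obtain ⟨v, hv, rfl⟩ := mem_YC_mul ψ hp
    refine ⟨fun j => ⟨v j, hv j⟩, ?_⟩
    rw [compL_apply]

theorem finrank_YC_mul (ψ : Cm r) (V : Submodule K (F r)) [FiniteDimensional K V] :
    finrank K (YC ψ * V : Submodule K (F r)) = (r + 2) * finrank K V := by
  rw [← compL_range, LinearMap.finrank_range_of_inj (compL_inj ψ V), Module.finrank_pi_fintype,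
    Finset.sum_const, Finset.card_univ, smul_eq_mul, Fintype.card_fin]

/-- every linear form outside the span of the x-letters lies in some complement -/
theorem exists_YC {p : F r} (hp : p ∈ Fd r 1) (h : p ∉ XM r) : ∃ ψ : Cm r, p ∈ YC ψ := by
  rw [COMP_Fd_one, Submodule.mem_span_range_iff_exists_fun] at hp
  obtain ⟨c, rfl⟩ := hp
  rw [Fintype.sum_sum_type] at h ⊢
  have h1 : ∃ j : Fin (r + 2), c (Sum.inr j) ≠ 0 := by
    by_contra hc
    push Not at hc
    apply h
    rw [Finset.sum_eq_zero (s := Finset.univ) (f := fun j : Fin (r + 2) =>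
      c (Sum.inr j) • (wd [Sum.inr j] : F r)) (fun j _ => by rw [hc j, zero_smul]), add_zero]
    refine Submodule.sum_mem _ fun i _ => ?_
    exact Submodule.smul_mem _ _ (Submodule.subset_span ⟨i, rfl⟩)
  obtain ⟨j₀, hj₀⟩ := h1
  have h2 : c (Sum.inr j₀) = 1 := by
    have : ∀ x : ZMod 2, x ≠ 0 → x = 1 := by decide
    exact this _ hj₀
  refine ⟨fun j i => if j = j₀ then c (Sum.inl i) else 0, ?_⟩
  have h3 : ∑ i, c (Sum.inl i) • (wd [Sum.inl i] : F r) +
      ∑ j, c (Sum.inr j) • (wd [Sum.inr j] : F r) =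
      ∑ j, c (Sum.inr j) • yl (fun j i => if j = j₀ then c (Sum.inl i) else 0) j := by
    unfold yl
    simp_rw [smul_add]
    rw [Finset.sum_add_distrib, add_comm]
    congr 1
    rw [Finset.sum_eq_single j₀]
    · rw [h2, one_smul]
      simp
    · intro b _ hb
      simp [hb]
    · intro h
      exact absurd (Finset.mem_univ j₀) h
  rw [h3]
  refine Submodule.sum_mem _ fun j _ => ?_
  exact Submodule.smul_mem _ _ (Submodule.subset_span ⟨j, rfl⟩)

end TARO
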