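import Pool.Agent.TARO.CFR
import Pool.Agent.TARO.CFK

/-! CONF: the configuration. -/

open Module

namespace TARO

variable {r : ℕ}

private theorem CONF_nc {f : F r} (hf : f.coeff 1 = 1) : NC (f - 1) := by
  have h1 : (1 : F r).coeff 1 = 1 := by
    rw [← wd_nil, coeff_wd]
    exact if_pos rfl
  change f.coeff 1 - (1 : F r).coeff 1 = 0
  rw [hf, h1, sub_self]

/-- `exists_coord` gives `cf`, `exists_lam` (for the matrix in `CfgData.hlam`) gives `lam`, `a`,
`exists_index` gives `i₀`; `ε`, `ε'` are the representatives in `{0, 1}`.  `kernel_span₂` for the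
quadratic part of `kap 0 - ∑ cf gam` (`contr_left`, `contr_right`) gives `dd`; the quadratic part
of `gam a * gam b` is the product of the linear parts.  Then `killable_cfg`. -/
theorem config {S T : Fin (r + 1) → F r} {M : ℕ} (h4 : 4 ∣ M) (hM : 0 < M)
    (hS1 : ∀ i, (S i).coeff 1 = 1) (hT1 : ∀ i, (T i).coeff 1 = 1) (hSa : ∀ i, Asy (S i))
    (hTa : ∀ i, Asy (T i)) (hSX : ∀ i, XLin (S i)) (hTX : ∀ i, XLin (T i))
    (hξ : LinearIndependent K fun i (l : Fin (r + 1)) => lv (S i) (Sum.inl l))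
    (hη : (fun l : Fin (r + 1) => lv (T 0) (Sum.inl l)) ≠ 0) :
    ∃ (i₀ : Fin (r + 1)) (a : ℕ) (ε ε' : Fin (r + 1) → ℕ) (k : ℕ) (u : Fin k → F r),
      Killable u ∧ (∀ i, ε i = 0 ∨ ε i = 1) ∧ (∀ j, ε' j = 0 ∨ ε' j = 1) ∧
      (a = 0 ∨ a = 1) ∧
      (∀ i, gam S M i₀ ε i ∈ Alg u) ∧ ∀ j, kap S T M i₀ a ε' j ∈ Alg u := by
  classical
  choose cf hcf using fun j => exists_coord hξ (fun l => lv (T j) (Sum.inl l))
  obtain ⟨lam, a, hlam0, ha, hlam⟩ := exists_lam (fun l m => qv (T 0) (Sum.inl l) (Sum.inl m) +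
      lv (T 0) (Sum.inl l) * lv (T 0) (Sum.inl m) +
      ∑ i, cf 0 i * (qv (S i) (Sum.inl l) (Sum.inl m) +
        lv (S i) (Sum.inl l) * lv (S i) (Sum.inl m))) hη
  obtain ⟨i₀, hi₀⟩ := exists_index hξ hlam0
  obtain ⟨ε, hε⟩ : ∃ ε : Fin (r + 1) → ℕ,
      ε = fun i => (∑ l, lam l * lv (S i) (Sum.inl l) : K).val := ⟨_, rfl⟩
  obtain ⟨ε', hε'⟩ : ∃ ε' : Fin (r + 1) → ℕ,
      ε' = fun j => (∑ l, lam l * lv (T j) (Sum.inl l) + (a : K) : K).val := ⟨_, rfl⟩
  have hval : ∀ x : K, x.val = 0 ∨ x.val = 1 := by decide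
  have h : CfgData r S T M lam i₀ a ε ε' cf := by
    refine ⟨h4, hM, hS1, hT1, hSa, hTa, hSX, hTX, hi₀, ?_, ?_, ?_, ?_, ha, hcf, hlam⟩
    · intro i
      rw [hε]
      exact ZMod.natCast_zmod_val _
    · intro j
      rw [hε']
      exact ZMod.natCast_zmod_val _
    · intro i
      rw [hε]
      exact hval _
    · intro j
      rw [hε']
      exact hval _
  obtain ⟨dd, hdd⟩ := kernel_span₂ hξ hi₀
    (D := fun l m => qv (kap S T M i₀ a ε' 0 - ∑ i, cf 0 (i₀.succAbove i) • gam S M i₀ ε i)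
      (Sum.inl l) (Sum.inl m)) (contr_left h) (contr_right h)
  have hγ : ∀ i, NC (gam S M i₀ ε i) := by
    intro i
    refine CONF_nc ?_
    rw [coeff_one_mul, pow_coeff_one (hS1 i₀), hS1, one_mul]
  have hκ : ∀ j, NC (kap S T M i₀ a ε' j) := by
    intro j
    refine CONF_nc ?_
    rw [coeff_one_mul, coeff_one_mul, pow_coeff_one (hS1 i₀), pow_coeff_one (hS1 i₀), hT1,
      one_mul, one_mul]
  obtain ⟨k, u, hu, hug, huk⟩ := killable_cfg (gam S M i₀ ε) (kap S T M i₀ a ε') hγ hκ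
    (fun j i => cf j (i₀.succAbove i)) dd (fun j b => lv_kap h j b) (by
      intro l m
      have h1 : ∀ a b, qv (gam S M i₀ ε a * gam S M i₀ ε b) (Sum.inl l) (Sum.inl m) =
          hvec (fun i l => lv (S i) (Sum.inl l)) lam i₀ a l *
            hvec (fun i l => lv (S i) (Sum.inl l)) lam i₀ b m := by
        intro a b
        have h2 : (gam S M i₀ ε a).coeff 1 = 0 := hγ a
        have h3 : (gam S M i₀ ε b).coeff 1 = 0 := hγ b
        rw [qv_mul, h2, h3, lv_gam h, lv_gam h]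
        ring
      rw [qv_sub, qv_sum]
      simp only [qv_sum, qv_smul, h1]
      have h4 := hdd l m
      rw [h4]
      exact sub_self _)
  exact ⟨i₀, a, ε, ε', k, u, hu, h.ε01, h.ε'01, ha, hug, huk⟩

end TARO
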