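import Pool.Agent.TAR.Defs

/-!
Odd Tarski numbers (MP_40d138_al), project TARO: definitions.

`K` is the field with two elements, `Al r` the alphabet of `r + 1` letters `x_i` (`inl i`) and
`r + 2` letters `y_j` (`inr j`), `F r` the free algebra on `Al r`, `Fd r n` its part of
degree `n`.
-/

open Module

namespace TARO

/-- the field with two elements -/
abbrev K : Type := ZMod 2

/-- letters: `inl i` is the letter `x_i`, `inr j` is the letter `y_j` -/
abbrev Al (r : ℕ) : Type := Fin (r + 1) ⊕ Fin (r + 2)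

/-- the free algebra on the letters -/
abbrev F (r : ℕ) : Type := MonoidAlgebra (ZMod 2) (FreeMonoid (Al r))

/-- the word `w` as an element of the free algebra -/
noncomputable def wd {r : ℕ} (w : List (Al r)) : F r :=
  MonoidAlgebra.single (FreeMonoid.ofList w) 1

/-- the constant coefficient of an element of the free algebra is zero -/
def NC {r : ℕ} (f : F r) : Prop := f.coeff (1 : FreeMonoid (Al r)) = 0

/-- projection to the part of degree `n` -/
noncomputable def part {r : ℕ} (n : ℕ) : F r →ₗ[K] F r where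
  toFun p := MonoidAlgebra.ofCoeff (p.coeff.filter fun w => w.length = n)
  map_add' p q := by
    apply MonoidAlgebra.ext
    simp [Finsupp.filter_add]
  map_smul' c p := by
    apply MonoidAlgebra.ext
    simp [Finsupp.filter_smul]

/-- left quotient by the letter `a`: the coefficient at `w` is the coefficient at `a w` -/
noncomputable def lq {r : ℕ} (a : Al r) : F r →ₗ[K] F r where
  toFun p := MonoidAlgebra.ofCoeff
    (p.coeff.comapDomain (fun w => FreeMonoid.of a * w)
      (fun _ _ _ _ h => mul_left_cancel h))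
  map_add' p q := by
    apply MonoidAlgebra.ext
    ext w
    rfl
  map_smul' c p := by
    apply MonoidAlgebra.ext
    ext w
    rfl

/-- right quotient by the letter `a`: the coefficient at `w` is the coefficient at `w a` -/
noncomputable def rq {r : ℕ} (a : Al r) : F r →ₗ[K] F r where
  toFun p := MonoidAlgebra.ofCoeff
    (p.coeff.comapDomain (fun w => w * FreeMonoid.of a)
      (fun _ _ _ _ h => mul_right_cancel h))
  map_add' p q := by
    apply MonoidAlgebra.ext
    ext w
    rfl
  map_smul' c p := by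
    apply MonoidAlgebra.ext
    ext w
    rfl

/-- the part of degree `n` of the free algebra -/
noncomputable def Fd (r n : ℕ) : Submodule K (F r) :=
  Submodule.span K {p | ∃ w : List (Al r), w.length = n ∧ p = wd w}

/-- the span of the x-letters -/
noncomputable def XM (r : ℕ) : Submodule K (F r) :=
  Submodule.span K (Set.range fun i : Fin (r + 1) => (wd [Sum.inl i] : F r))

/-- the span of the y-letters -/
noncomputable def YM (r : ℕ) : Submodule K (F r) :=
  Submodule.span K (Set.range fun j : Fin (r + 2) => (wd [Sum.inr j] : F r))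

/-- the dimension of `V` modulo `P` -/
noncomputable def rd {r : ℕ} (V P : Submodule K (F r)) : ℕ :=
  finrank K V - finrank K (V ⊓ P : Submodule K (F r))

/-! ### complements and weighted dimensions -/

/-- data of a complement of the span of the x-letters: `ψ j i` is the coefficient of `x_i`
in the `j`-th basis vector -/
abbrev Cm (r : ℕ) : Type := Fin (r + 2) → Fin (r + 1) → ZMod 2

/-- the basis vector `y_j + ∑ i, ψ j i x_i` -/
noncomputable def yl {r : ℕ} (ψ : Cm r) (j : Fin (r + 2)) : F r :=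
  wd [Sum.inr j] + ∑ i : Fin (r + 1), ψ j i • (wd [Sum.inl i] : F r)

/-- the complement of the span of the x-letters given by `ψ` -/
noncomputable def YC {r : ℕ} (ψ : Cm r) : Submodule K (F r) :=
  Submodule.span K (Set.range (yl ψ))

/-- the filtration of `Fd r n` for the sequence `c` of complements: `Flt c n j` is spanned by
the products of `n` letters of which at least `j` are in the complement of their level; the
letter number `t` from the right is at level `t` (starting with `0`) -/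
noncomputable def Flt {r : ℕ} (c : ℕ → Cm r) : ℕ → ℕ → Submodule K (F r)
  | 0, 0 => Fd r 0
  | 0, _ + 1 => ⊥
  | n + 1, 0 => Fd r (n + 1)
  | n + 1, j + 1 => XM r * Flt c n (j + 1) ⊔ YC (c n) * Flt c n j

/-- the sequence of complements seen from level `o` on -/
def shift {r : ℕ} (c : ℕ → Cm r) (o : ℕ) : ℕ → Cm r := fun n => c (o + n)

/-- the weight `(r + 1) / (r + 2)` -/
noncomputable def alp (r : ℕ) : ℝ := ((r : ℝ) + 1) / ((r : ℝ) + 2)

/-- weighted dimension: a vector in step `j` of the filtration counts `alp r ^ j` -/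
noncomputable def w {r : ℕ} (c : ℕ → Cm r) (n : ℕ) (V : Submodule K (F r)) : ℝ :=
  (1 - alp r) * ∑ j ∈ Finset.range n, alp r ^ j * (rd V (Flt c n (j + 1)) : ℝ) +
    alp r ^ n * (finrank K V : ℝ)

/-- the sequence of complements which is used: every complement three times in a row,
periodically -/
noncomputable def cs (r : ℕ) : ℕ → Cm r := fun n =>
  (Fintype.equivFin (Cm r)).symm
    ⟨n / 3 % Fintype.card (Cm r), Nat.mod_lt _ Fintype.card_pos⟩

/-- `O` and `Z` are independent, also with respect to the filtration -/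
def Adapted {r : ℕ} (c : ℕ → Cm r) (n : ℕ) (O Z : Submodule K (F r)) : Prop :=
  O ⊓ Z = ⊥ ∧ ∀ j, (O ⊔ Z) ⊓ Flt c n j ≤ (O ⊓ Flt c n j) ⊔ (Z ⊓ Flt c n j)

/-! ### good families and capacities -/

/-- the Hall inequality of the family `P` for the block of levels `b, …, b + L` -/
def HL (r L : ℕ) (P : ℕ → Submodule K (F r)) (b : ℕ) : Prop :=
  ∀ V₁ V₂ : ℕ → Submodule K (F r),
    (∀ i, V₁ i ≤ Fd r (b + i)) → (∀ i, V₂ i ≤ Fd r (b + i)) → V₁ L = ⊥ → V₂ L = ⊥ →
    ∑ i ∈ Finset.range L, (rd (V₁ i) (P (b + i)) + rd (V₂ i) (P (b + i))) ≤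
      ∑ i ∈ Finset.range L,
        rd (V₁ (i + 1) ⊔ V₂ (i + 1) ⊔ XM r * V₁ i ⊔ YM r * V₂ i) (P (b + (i + 1)))

/-- a set of relations: pairs `(h, Ω)`; the relation `(h, Ω)` asks for
`Ω * Fd (t h) ≤ P ((t+1) h)` for all `t` -/
abbrev Rels (r : ℕ) : Type := Set (ℕ × Submodule K (F r))

/-- the family `P` is good on the interval `[b, e]` for the relations `R` -/
structure Good (r L : ℕ) (R : Rels r) (b e : ℕ) (P : ℕ → Submodule K (F r)) : Prop where
  le : ∀ n, b ≤ n → n ≤ e → P n ≤ Fd r n
  closed : ∀ n, b ≤ n → n + 1 ≤ e → Fd r 1 * P n ≤ P (n + 1)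
  hl : ∀ n, L ∣ n → b ≤ n → n + L ≤ e → HL r L P n
  rel : ∀ p ∈ R, ∀ t : ℕ, b ≤ t * p.1 → (t + 1) * p.1 ≤ e →
    p.2 * Fd r (t * p.1) ≤ P ((t + 1) * p.1)

/-- capacity `κ` on the interval `[b, e]` -/
def CapI {r : ℕ} (c : ℕ → Cm r) (L : ℕ) (R : Rels r) (b e : ℕ) (κ : ℝ) : Prop :=
  ∀ Y Ω : Submodule K (F r), Y ≤ Fd r b → Ω ≤ Fd r e →
    ∃ P : ℕ → Submodule K (F r), Good r L R b e P ∧ Y ≤ P b ∧ Ω ≤ P e ∧
      κ * (w c b (P b) - w c b Y) ≤ w c e Ω

/-- all relations in `R` are homogeneous, of positive degree dividing `H` -/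
def RelOK (r : ℕ) (R : Rels r) (H : ℕ) : Prop :=
  ∀ p ∈ R, 0 < p.1 ∧ p.1 ∣ H ∧ p.2 ≤ Fd r p.1

/-- the potential of a family on the block `[b, b + L]` -/
noncomputable def En {r : ℕ} (c : ℕ → Cm r) (L b : ℕ) (P : ℕ → Submodule K (F r)) : ℝ :=
  (((r : ℝ) + 1) ^ L - ((r : ℝ) + 1) ^ (L - 1)) * w c b (P b) +
    ∑ i ∈ Finset.range L, ((r : ℝ) + 1) ^ (L - 1 - i) *
      (w c (b + (i + 1)) (P (b + (i + 1))) - 2 * ((r : ℝ) + 1) * w c (b + i) (P (b + i)))

/-- left closed family on the block `[b, b + L]` -/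
def LCB (r L b : ℕ) (P : ℕ → Submodule K (F r)) : Prop :=
  (∀ i, i ≤ L → P (b + i) ≤ Fd r (b + i)) ∧
    ∀ i, i < L → Fd r 1 * P (b + i) ≤ P (b + (i + 1))

/-- a pair of sequences of subspaces containing the family `P` on the block `[b, b + L]` and
equal to it at the top -/
structure AdmV (r L b : ℕ) (P V₁ V₂ : ℕ → Submodule K (F r)) : Prop where
  le₁ : ∀ i, i ≤ L → V₁ i ≤ Fd r (b + i)
  le₂ : ∀ i, i ≤ L → V₂ i ≤ Fd r (b + i)
  ge₁ : ∀ i, i ≤ L → P (b + i) ≤ V₁ i
  ge₂ : ∀ i, i ≤ L → P (b + i) ≤ V₂ i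
  top₁ : V₁ L = P (b + L)
  top₂ : V₂ L = P (b + L)

/-- the space at level `b + (i + 1)` in the Hall inequality -/
noncomputable def AA {r : ℕ} (V₁ V₂ : ℕ → Submodule K (F r)) (i : ℕ) : Submodule K (F r) :=
  V₁ (i + 1) ⊔ V₂ (i + 1) ⊔ XM r * V₁ i ⊔ YM r * V₂ i

/-- the difference of the two sides of the Hall inequality for an admissible pair -/
noncomputable def fv {r : ℕ} (L b : ℕ) (P V₁ V₂ : ℕ → Submodule K (F r)) : ℤ :=
  ∑ i ∈ Finset.range L,
      ((finrank K (AA V₁ V₂ i) : ℤ) - finrank K (P (b + (i + 1)))) -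
    ∑ i ∈ Finset.range L,
      ((finrank K (V₁ i) : ℤ) + finrank K (V₂ i) - 2 * finrank K (P (b + i)))

/-- weighted sums up to `i`: the terms `σ` of the levels `b + 1, …, b + i` minus the terms `a` of
the levels `b, …, b + i` -/
noncomputable def Sw {r : ℕ} (c : ℕ → Cm r) (b : ℕ) (P V₁ V₂ : ℕ → Submodule K (F r))
    (i : ℕ) : ℝ :=
  ∑ t ∈ Finset.range i,
      (w c (b + (t + 1)) (AA V₁ V₂ t) - w c (b + (t + 1)) (P (b + (t + 1)))) -
    ∑ t ∈ Finset.range (i + 1),
      (w c (b + t) (V₁ t) + w c (b + t) (V₂ t) - 2 * w c (b + t) (P (b + t)))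

/-- a state of the construction; `E` is the unit of length, the blocks have length `2 * E` -/
structure IsState {r : ℕ} (c : ℕ → Cm r) (E : ℕ) (R : Rels r) (H : ℕ) (κ : ℝ) : Prop where
  rels : RelOK r R H
  dvd : 2 * E ∣ H
  pos : 0 < H
  big : (2 * ((r : ℝ) + 1) ^ E / 3) ^ (H / E) < κ
  cap : ∀ t : ℕ, CapI c (2 * E) R (t * H) ((t + 1) * H) κ

/-- a sequence of possible relations whose weighted dimension grows slowly -/
def SlowRel {r : ℕ} (c : ℕ → Cm r) (E : ℕ) (Ω : ℕ → Submodule K (F r)) : Prop :=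
  (∀ h, Ω h ≤ Fd r h) ∧
    ∃ C : ℝ, ∀ g o : ℕ,
      w (shift c o) (E * g) (Ω (E * g)) ≤ C * (2 * ((r : ℝ) + 1) ^ E / 3) ^ g

/-! ### tuples -/

/-- product of the values of `u` along the word `v` -/
noncomputable def wp {r k : ℕ} (u : Fin k → F r) (v : List (Fin k)) : F r := (v.map u).prod

/-- the flow space of a tuple `u` with bound `D` -/
noncomputable def flowW {r k : ℕ} (u : Fin k → F r) (D : ℕ) : Submodule K (F r) :=
  Submodule.span K {p | ∃ (w₁ w₂ : List (Al r)) (v : List (Fin k)),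
    w₁.length < D ∧ w₂.length < D ∧ p = wd w₁ * wp u v * wd w₂}

/-- the data which allow to kill all long products of the tuple `u`: `dg i` is a lower bound for
the degrees in `u i`, the sum of the `(r + 1) ^ (- dg i)` is at most `1`, and the part of degree
`dg i₀` of `u i₀` has a letter of the complement `ψ` in every term -/
structure KillData (r k : ℕ) (u : Fin k → F r) (dg : Fin k → ℕ) (i₀ : Fin k) (ψ : Cm r) :
    Prop where
  deg : ∀ i, dg i = 1 ∨ dg i = 2
  low : ∀ i n, n < dg i → part n (u i) = 0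
  mass : ∑ i, (1 / ((r : ℝ) + 1)) ^ dg i ≤ 1
  bad : part (dg i₀) (u i₀) ∈ Flt (fun _ => ψ) (dg i₀) 1

/-- the tuple `u` can be killed -/
def Killable {r k : ℕ} (u : Fin k → F r) : Prop :=
  ∃ (dg : Fin k → ℕ) (i₀ : Fin k) (ψ : Cm r), KillData r k u dg i₀ ψ

/-! ### the combinatorial mass -/

/-- weight of the last factor `i` of degree `d` of a product, ending at position `m` -/
noncomputable def stepW {k : ℕ} (α δ : ℝ) (dg : Fin k → ℕ) (i₀ : Fin k) (gain : ℕ → Prop)
    (m : ℕ) (i : Fin k) (d : ℕ) : ℝ :=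
  open Classical in
  δ ^ (d - dg i) * (if i = i₀ ∧ d = dg i ∧ gain m then α else 1)

/-- total mass of the products of `n` factors ending at position `m` -/
noncomputable def mass {k : ℕ} (α δ q : ℝ) (dg : Fin k → ℕ) (i₀ : Fin k) (gain : ℕ → Prop) :
    ℕ → ℕ → ℝ
  | 0, _ => 1
  | n + 1, m => ∑ i, ∑ d ∈ Finset.Icc (dg i) m,
      stepW α δ dg i₀ gain m i d * q ^ d * mass α δ q dg i₀ gain n (m - d)

/-- mass of the product `v` from position `s` to position `m`; the head of the list is the last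
factor -/
noncomputable def wmass {k : ℕ} (α δ : ℝ) (dg : Fin k → ℕ) (i₀ : Fin k) (gain : ℕ → Prop)
    (s : ℕ) : List (Fin k) → ℕ → ℝ
  | [], m => if m = s then 1 else 0
  | i :: v, m => ∑ d ∈ Finset.Icc (dg i) m,
      stepW α δ dg i₀ gain m i d * wmass α δ dg i₀ gain s v (m - d)

/-- all backward paths of `n` steps with step lengths `dg i` from `m` meet a gain position
or run below zero -/
def hit {k : ℕ} (dg : Fin k → ℕ) (gain : ℕ → Prop) : ℕ → ℕ → Prop
  | 0, _ => False
  | n + 1, m => gain m ∨ ∀ i, m < dg i ∨ hit dg gain n (m - dg i)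

/-- the gain positions at offset `o` for the complement `ψ` and a factor of degree `d₀`: the
last `d₀` levels below the position have complement `ψ` -/
def gainAt {r : ℕ} (c : ℕ → Cm r) (o : ℕ) (ψ : Cm r) (d₀ : ℕ) (m : ℕ) : Prop :=
  d₀ ≤ m ∧ ∀ t, m - d₀ ≤ t → t < m → c (o + t) = ψ

/-! ### the quotient module -/

/-- the family `P` is a graded left ideal -/
structure LeftClosed (r : ℕ) (P : ℕ → Submodule K (F r)) : Prop where
  le : ∀ n, P n ≤ Fd r n
  closed : ∀ n, Fd r 1 * P n ≤ P (n + 1)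

/-- the graded left ideal as one subspace -/
noncomputable def PI {r : ℕ} (P : ℕ → Submodule K (F r)) : Submodule K (F r) := ⨆ n, P n

/-- the quotient `F r ⧸ PI P` with its action and its graded pieces -/
structure QData (r : ℕ) (P : ℕ → Submodule K (F r)) where
  /-- left multiplication -/
  ρ : F r →ₐ[K] Module.End K (F r ⧸ PI P)
  /-- the part of degree `n` -/
  π : ∀ n : ℕ, (F r ⧸ PI P) →ₗ[K] (F r ⧸ P n)
  hρ : ∀ f g : F r, ρ f ((PI P).mkQ g) = (PI P).mkQ (f * g)
  hπ : ∀ (n : ℕ) (g : F r), π n ((PI P).mkQ g) = (P n).mkQ (part n g)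

/-- the elements of `F r ⧸ PI P` without parts of degree `< n` -/
noncomputable def QData.Fil {r : ℕ} {P : ℕ → Submodule K (F r)} (D : QData r P) (n : ℕ) :
    Submodule K (F r ⧸ PI P) := ⨅ i : Fin n, LinearMap.ker (D.π i)

/-- the leading parts of degree `n` of the elements of `V`, as a subspace of `F r`
containing `P n` -/
noncomputable def QData.gr {r : ℕ} {P : ℕ → Submodule K (F r)} (D : QData r P)
    (V : Submodule K (F r ⧸ PI P)) (n : ℕ) : Submodule K (F r) :=
  Fd r n ⊓ ((V ⊓ D.Fil n).map (D.π n)).comap (P n).mkQ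

/-- the Hall inequality for two finite dimensional subspaces -/
def GHlin {M : Type} [AddCommGroup M] [Module K M] {a b : ℕ}
    (x : Fin a → Module.End K M) (y : Fin b → Module.End K M) : Prop :=
  ∀ V₁ V₂ : Submodule K M, FiniteDimensional K V₁ → FiniteDimensional K V₂ →
    finrank K V₁ + finrank K V₂ ≤
      finrank K (V₁ ⊔ V₂ ⊔ (⨆ i, V₁.map (x i)) ⊔ (⨆ i, V₂.map (y i)) : Submodule K M)

/-- the linear data from which the group is built -/
structure LinRep (r : ℕ) where
  /-- the space -/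
  M : Type
  [acg : AddCommGroup M]
  [mod : Module (ZMod 2) M]
  /-- the action of the free algebra -/
  ρ : F r →ₐ[ZMod 2] Module.End (ZMod 2) M
  /-- the filtration -/
  Fil : ℕ → Submodule (ZMod 2) M
  fil_zero : Fil 0 = ⊤
  fil_anti : ∀ n, Fil (n + 1) ≤ Fil n
  fil_inf : ∀ m : M, (∀ n, m ∈ Fil n) → m = 0
  fil_fin : ∀ n, Finite (M ⧸ Fil n)
  nontriv : ∃ m : M, m ≠ 0
  fil_map : ∀ n (a : Al r) (m : M), m ∈ Fil n → ρ (wd [a]) m ∈ Fil (n + 1)
  gh : GHlin (fun i : Fin (r + 1) => ρ (wd [Sum.inl i]))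
    (fun j : Fin (r + 2) => ρ (wd [Sum.inr j]))
  nil : ∀ (k : ℕ) (u : Fin k → F r), Killable u →
    ∃ N : ℕ, ∀ v : List (Fin k), v.length = N → ρ (wp u v) = 0

attribute [instance] LinRep.acg LinRep.mod

/-! ### groups -/

/-- the Hall inequality for two finite subsets of a group, for the sets
`{1} ∪ {x_i}` and `{1} ∪ {y_i}` -/
def GHset {G : Type} [Group G] [DecidableEq G] {a b : ℕ} (x : Fin a → G) (y : Fin b → G) :
    Prop :=
  ∀ F₁ F₂ : Finset G,
    F₁.card + F₂.card ≤
      ((F₁ ∪ F₂) ∪ (Finset.univ.biUnion fun i => F₁.image fun g => x i * g) ∪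
        (Finset.univ.biUnion fun i => F₂.image fun g => y i * g)).card

/-- the span of the non-empty products of the tuple `u` -/
noncomputable def Alg {r k : ℕ} (u : Fin k → F r) : Submodule K (F r) :=
  Submodule.span K {p | ∃ v : List (Fin k), v ≠ [] ∧ p = wp u v}

/-- the product of the `1 + a` over the letters `a` of the word `s` -/
noncomputable def EW {r : ℕ} (s : List (Al r)) : F r := (s.map fun a => 1 + wd [a]).prod

/-- linear coefficients -/
noncomputable def lv {r : ℕ} (f : F r) (a : Al r) : K := f.coeff (FreeMonoid.of a)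

/-- quadratic coefficients -/
noncomputable def qv {r : ℕ} (f : F r) (a b : Al r) : K :=
  f.coeff (FreeMonoid.of a * FreeMonoid.of b)

/-- the linear part of `f` is supported on the x-letters -/
def XLin {r : ℕ} (f : F r) : Prop := ∀ j : Fin (r + 2), lv f (Sum.inr j) = 0

end TARO
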