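import Pool.Agent.TARO.FLT
import Pool.Agent.TARO.RD

/-! WB: basic facts on the weighted dimension. -/

open Module

namespace TARO

variable {r : ℕ}

theorem alp_pos (r : ℕ) : 0 < alp r := by
  unfold alp
  positivity

theorem alp_lt_one (r : ℕ) : alp r < 1 := by
  unfold alp
  rw [div_lt_one (by positivity)]
  linarith

theorem alp_mul (r : ℕ) : alp r * ((r : ℝ) + 2) = (r : ℝ) + 1 := by
  unfold alp
  field_simp

/-- the sum in the definition may be taken over a longer range: `Flt c n (j + 1) = ⊥` for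
`n ≤ j`, and `rd V ⊥ = finrank V` -/
theorem w_eq (c : ℕ → Cm r) {n J : ℕ} (h : n ≤ J) (V : Submodule K (F r)) :
    w c n V = (1 - alp r) * ∑ j ∈ Finset.range J, alp r ^ j * (rd V (Flt c n (j + 1)) : ℝ) +
      alp r ^ J * (finrank K V : ℝ) := by
  induction J, h using Nat.le_induction with
  | base => rfl
  | succ J hJ ih =>
    rw [ih, Finset.sum_range_succ, Flt_bot c (Nat.lt_succ_of_le hJ)]
    have h1 : rd V (⊥ : Submodule K (F r)) = finrank K V := by
      unfold rd
      rw [inf_bot_eq, finrank_bot, Nat.sub_zero]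
    rw [h1]
    ring

/-- the weighted dimension in terms of the dimensions of the intersections: because of
`rd V P = finrank V - finrank (V ⊓ P)` -/
theorem w_eq' (c : ℕ → Cm r) {n J : ℕ} (h : n ≤ J) (V : Submodule K (F r))
    [FiniteDimensional K V] :
    w c n V = (finrank K V : ℝ) - (1 - alp r) * ∑ j ∈ Finset.range J,
      alp r ^ j * (finrank K (V ⊓ Flt c n (j + 1) : Submodule K (F r)) : ℝ) := by
  rw [w_eq c h V]
  have h1 : ∀ j, (rd V (Flt c n (j + 1)) : ℝ) =
      (finrank K V : ℝ) - (finrank K (V ⊓ Flt c n (j + 1) : Submodule K (F r)) : ℝ) := by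
    intro j
    have h2 := rd_add_inf V (Flt c n (j + 1))
    have h3 : ((rd V (Flt c n (j + 1)) + finrank K (V ⊓ Flt c n (j + 1) : Submodule K (F r)) : ℕ)
      : ℝ) = (finrank K V : ℝ) := by rw [h2]
    push_cast at h3
    linarith
  simp only [h1, mul_sub, Finset.sum_sub_distrib]
  rw [← Finset.sum_mul]
  have h4 := mul_neg_geom_sum (alp r) J
  linear_combination (finrank K V : ℝ) * h4

theorem w_nonneg (c : ℕ → Cm r) (n : ℕ) (V : Submodule K (F r)) : 0 ≤ w c n V := by
  have h1 := alp_pos r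
  have h2 := alp_lt_one r
  unfold w
  have h3 : 0 ≤ ∑ j ∈ Finset.range n, alp r ^ j * (rd V (Flt c n (j + 1)) : ℝ) :=
    Finset.sum_nonneg fun j _ => by positivity
  have h4 : 0 ≤ alp r ^ n * (finrank K V : ℝ) := by positivity
  have h5 := mul_nonneg (sub_nonneg.mpr h2.le) h3
  linarith

theorem w_bot (c : ℕ → Cm r) (n : ℕ) : w c n ⊥ = 0 := by
  unfold w
  have h1 : ∀ P : Submodule K (F r), rd (⊥ : Submodule K (F r)) P = 0 := fun P =>
    rd_eq_zero bot_le
  simp only [h1, Nat.cast_zero, mul_zero, Finset.sum_const_zero, finrank_bot, add_zero]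

theorem w_le_finrank (c : ℕ → Cm r) (n : ℕ) (V : Submodule K (F r)) :
    w c n V ≤ (finrank K V : ℝ) := by
  have h1 := alp_pos r
  have h2 := alp_lt_one r
  have h3 : ∑ j ∈ Finset.range n, alp r ^ j * (rd V (Flt c n (j + 1)) : ℝ) ≤
      ∑ j ∈ Finset.range n, alp r ^ j * (finrank K V : ℝ) := by
    refine Finset.sum_le_sum fun j _ => ?_
    refine mul_le_mul_of_nonneg_left ?_ (by positivity)
    exact_mod_cast Nat.sub_le _ _
  rw [← Finset.sum_mul] at h3
  have h4 := mul_neg_geom_sum (alp r) n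
  have h5 := mul_le_mul_of_nonneg_left h3 (sub_nonneg.mpr h2.le)
  unfold w
  have h6 : (1 - alp r) * ((∑ j ∈ Finset.range n, alp r ^ j) * (finrank K V : ℝ)) =
      (1 - alp r ^ n) * (finrank K V : ℝ) := by
    rw [← mul_assoc, h4]
  rw [h6] at h5
  linarith

theorem le_w (c : ℕ → Cm r) (n : ℕ) (V : Submodule K (F r)) :
    alp r ^ n * (finrank K V : ℝ) ≤ w c n V := by
  have h1 := alp_pos r
  have h2 := alp_lt_one r
  unfold w
  have h3 : 0 ≤ ∑ j ∈ Finset.range n, alp r ^ j * (rd V (Flt c n (j + 1)) : ℝ) :=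
    Finset.sum_nonneg fun j _ => by positivity
  have h5 := mul_nonneg (sub_nonneg.mpr h2.le) h3
  linarith

/-- uses `rd_mono_left` -/
theorem w_mono (c : ℕ → Cm r) (n : ℕ) {V W : Submodule K (F r)} (h : V ≤ W)
    [FiniteDimensional K W] : w c n V ≤ w c n W := by
  have h1 := alp_pos r
  have h2 := alp_lt_one r
  unfold w
  refine add_le_add (mul_le_mul_of_nonneg_left (Finset.sum_le_sum fun j _ => ?_)
    (sub_nonneg.mpr h2.le)) ?_
  · refine mul_le_mul_of_nonneg_left ?_ (by positivity)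
    exact_mod_cast rd_mono_left _ h
  · refine mul_le_mul_of_nonneg_left ?_ (by positivity)
    exact_mod_cast Submodule.finrank_mono h

/-- uses `w_eq'`: `finrank (V ⊔ W) + finrank (V ⊓ W) = finrank V + finrank W` and
`(V ⊓ Q) ⊔ (W ⊓ Q) ≤ (V ⊔ W) ⊓ Q` -/
theorem w_sup_add_inf (c : ℕ → Cm r) (n : ℕ) (V W : Submodule K (F r))
    [FiniteDimensional K V] [FiniteDimensional K W] :
    w c n (V ⊔ W) + w c n (V ⊓ W) ≤ w c n V + w c n W := by
  have h1 := alp_pos r
  have h2 := alp_lt_one r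
  haveI : FiniteDimensional K (V ⊓ W : Submodule K (F r)) :=
    Submodule.finiteDimensional_of_le (inf_le_left (a := V) (b := W))
  rw [w_eq' c le_rfl V, w_eq' c le_rfl W, w_eq' c le_rfl (V ⊔ W), w_eq' c le_rfl (V ⊓ W)]
  have h3 := Submodule.finrank_sup_add_finrank_inf_eq V W
  have h3' : (finrank K (V ⊔ W : Submodule K (F r)) : ℝ) +
      (finrank K (V ⊓ W : Submodule K (F r)) : ℝ) = (finrank K V : ℝ) + (finrank K W : ℝ) := by
    exact_mod_cast h3
  have h4 : ∀ Q : Submodule K (F r),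
      (finrank K (V ⊓ Q : Submodule K (F r)) : ℝ) + (finrank K (W ⊓ Q : Submodule K (F r)) : ℝ) ≤
      (finrank K ((V ⊔ W) ⊓ Q : Submodule K (F r)) : ℝ) +
        (finrank K (V ⊓ W ⊓ Q : Submodule K (F r)) : ℝ) := by
    intro Q
    haveI : FiniteDimensional K (V ⊓ Q : Submodule K (F r)) :=
      Submodule.finiteDimensional_of_le (inf_le_left (a := V) (b := Q))
    haveI : FiniteDimensional K (W ⊓ Q : Submodule K (F r)) :=
      Submodule.finiteDimensional_of_le (inf_le_left (a := W) (b := Q))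
    haveI : FiniteDimensional K ((V ⊔ W) ⊓ Q : Submodule K (F r)) :=
      Submodule.finiteDimensional_of_le (inf_le_left (a := V ⊔ W) (b := Q))
    have h5 := Submodule.finrank_sup_add_finrank_inf_eq (V ⊓ Q) (W ⊓ Q)
    have h6 : (V ⊓ Q) ⊓ (W ⊓ Q) = V ⊓ W ⊓ Q := by
      rw [inf_inf_inf_comm, inf_idem]
    rw [h6] at h5
    have h7 : finrank K ((V ⊓ Q) ⊔ (W ⊓ Q) : Submodule K (F r)) ≤
        finrank K ((V ⊔ W) ⊓ Q : Submodule K (F r)) :=
      Submodule.finrank_mono (sup_le (inf_le_inf_right Q le_sup_left)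
        (inf_le_inf_right Q le_sup_right))
    have h8 : finrank K (V ⊓ Q : Submodule K (F r)) + finrank K (W ⊓ Q : Submodule K (F r)) ≤
      finrank K ((V ⊔ W) ⊓ Q : Submodule K (F r)) +
        finrank K (V ⊓ W ⊓ Q : Submodule K (F r)) := by omega
    exact_mod_cast h8
  have h5 : ∑ j ∈ Finset.range n,
      alp r ^ j * (finrank K (V ⊓ Flt c n (j + 1) : Submodule K (F r)) : ℝ) +
      ∑ j ∈ Finset.range n,
      alp r ^ j * (finrank K (W ⊓ Flt c n (j + 1) : Submodule K (F r)) : ℝ) ≤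
      ∑ j ∈ Finset.range n,
      alp r ^ j * (finrank K ((V ⊔ W) ⊓ Flt c n (j + 1) : Submodule K (F r)) : ℝ) +
      ∑ j ∈ Finset.range n,
      alp r ^ j * (finrank K (V ⊓ W ⊓ Flt c n (j + 1) : Submodule K (F r)) : ℝ) := by
    rw [← Finset.sum_add_distrib, ← Finset.sum_add_distrib]
    refine Finset.sum_le_sum fun j _ => ?_
    rw [← mul_add, ← mul_add]
    exact mul_le_mul_of_nonneg_left (h4 _) (by positivity)
  have h6 := mul_le_mul_of_nonneg_left h5 (sub_nonneg.mpr h2.le)
  rw [mul_add, mul_add] at h6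
  linarith

/-- a space in step `j` of the filtration -/
theorem w_le_of_le_Flt (c : ℕ → Cm r) (n j : ℕ) {V : Submodule K (F r)} (h : V ≤ Flt c n j) :
    w c n V ≤ alp r ^ j * (finrank K V : ℝ) := by
  have h1 := alp_pos r
  have h2 := alp_lt_one r
  have h3 : ∀ i, i < j → rd V (Flt c n (i + 1)) = 0 := fun i hi =>
    rd_eq_zero (h.trans (Flt_anti c n hi))
  have h4 : ∀ J, j ≤ J → (1 - alp r) * ∑ i ∈ Finset.range J,
      alp r ^ i * (rd V (Flt c n (i + 1)) : ℝ) + alp r ^ J * (finrank K V : ℝ) ≤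
      alp r ^ j * (finrank K V : ℝ) := by
    intro J hJ
    induction J, hJ using Nat.le_induction with
    | base =>
      rw [Finset.sum_eq_zero fun i hi => by
        rw [h3 i (Finset.mem_range.mp hi), Nat.cast_zero, mul_zero], mul_zero, zero_add]
    | succ J hJ ih =>
      rw [Finset.sum_range_succ]
      have h5 : (rd V (Flt c n (J + 1)) : ℝ) ≤ (finrank K V : ℝ) := by
        exact_mod_cast Nat.sub_le _ _
      have h6 : (1 - alp r) * (alp r ^ J * (rd V (Flt c n (J + 1)) : ℝ)) ≤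
          (1 - alp r) * (alp r ^ J * (finrank K V : ℝ)) :=
        mul_le_mul_of_nonneg_left (mul_le_mul_of_nonneg_left h5 (by positivity))
          (sub_nonneg.mpr h2.le)
      have h7 : alp r ^ (J + 1) * (finrank K V : ℝ) =
        alp r ^ J * (finrank K V : ℝ) - (1 - alp r) * (alp r ^ J * (finrank K V : ℝ)) := by ring
      rw [mul_add, h7]
      linarith
  rw [w_eq c (le_max_left n j) V]
  exact h4 _ (le_max_right n j)

theorem w_congr {c c' : ℕ → Cm r} {n : ℕ} (h : ∀ t, t < n → c t = c' t)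
    (V : Submodule K (F r)) : w c n V = w c' n V := by
  unfold w
  congr 2
  refine Finset.sum_congr rfl fun j _ => ?_
  rw [Flt_congr h]

end TARO
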