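import Pool.Agent.TARO.RDX
import Pool.Agent.TARO.WB

/-! WX: the weighted dimension and products with letters. -/

open Module

namespace TARO

variable {r : ℕ}

/-- the weighted dimension with the filtration shifted by one step -/
private theorem WX_shift (c : ℕ → Cm r) (n : ℕ) {V : Submodule K (F r)} (h : V ≤ Fd r n) :
    (1 - alp r) * ∑ j ∈ Finset.range (n + 1), alp r ^ j * (rd V (Flt c n j) : ℝ) +
      alp r ^ (n + 1) * (finrank K V : ℝ) = alp r * w c n V := by
  unfold w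
  rw [Finset.sum_range_succ']
  have h0 : rd V (Flt c n 0) = 0 := by
    rw [Flt_zero]
    exact rd_eq_zero h
  rw [h0]
  have h1 : ∑ j ∈ Finset.range n, alp r ^ (j + 1) * (rd V (Flt c n (j + 1)) : ℝ) =
      alp r * ∑ j ∈ Finset.range n, alp r ^ j * (rd V (Flt c n (j + 1)) : ℝ) := by
    rw [Finset.mul_sum]
    refine Finset.sum_congr rfl fun j _ => ?_
    rw [pow_succ]
    ring
  rw [h1, pow_succ]
  push_cast
  ring

/-- Use `w_eq` with `J = n + 1` on both sides and `rdx_lower` for `A = Flt c n (j + 1)`,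
`B = Flt c n j`, `XM * A ⊔ YC (c n) * B = Flt c (n + 1) (j + 1)`; the sum over `j` of
`alp ^ j * rd V₂ (Flt c n j)` has no term for `j = 0` (`Flt c n 0 = Fd r n`, so this needs
`V₂ ≤ Fd r n`) and is `alp` times the sum for `Flt c n (j + 1)`; finally
`alp * (r + 2) = r + 1`. -/
theorem w_XY (c : ℕ → Cm r) (n : ℕ) {V₁ V₂ : Submodule K (F r)} (h₁ : V₁ ≤ Fd r n)
    (h₂ : V₂ ≤ Fd r n) :
    ((r : ℝ) + 1) * (w c n V₁ + w c n V₂) ≤ w c (n + 1) (XM r * V₁ ⊔ YM r * V₂) := by
  have hf₁ : FiniteDimensional K V₁ := finiteDimensional_of_le_Fd h₁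
  have hf₂ : FiniteDimensional K V₂ := finiteDimensional_of_le_Fd h₂
  have e1 := w_eq c (show n ≤ n + 1 from Nat.le_succ n) V₁
  have e2 := WX_shift c n h₂
  have ha := alp_mul r
  have ha1 := alp_lt_one r
  have ha0 := alp_pos r
  have e3 : ((r : ℝ) + 1) * (w c n V₁ + w c n V₂) =
      (1 - alp r) * ∑ j ∈ Finset.range (n + 1), alp r ^ j *
        (((r : ℝ) + 1) * (rd V₁ (Flt c n (j + 1)) : ℝ) +
          ((r : ℝ) + 2) * (rd V₂ (Flt c n j) : ℝ)) +
      alp r ^ (n + 1) * (((r : ℝ) + 1) * (finrank K V₁ : ℝ) +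
        ((r : ℝ) + 2) * (finrank K V₂ : ℝ)) := by
    have e4 : ∑ j ∈ Finset.range (n + 1), alp r ^ j *
        (((r : ℝ) + 1) * (rd V₁ (Flt c n (j + 1)) : ℝ) +
          ((r : ℝ) + 2) * (rd V₂ (Flt c n j) : ℝ)) =
        ((r : ℝ) + 1) * ∑ j ∈ Finset.range (n + 1), alp r ^ j *
          (rd V₁ (Flt c n (j + 1)) : ℝ) +
        ((r : ℝ) + 2) * ∑ j ∈ Finset.range (n + 1), alp r ^ j *
          (rd V₂ (Flt c n j) : ℝ) := by
      rw [Finset.mul_sum, Finset.mul_sum, ← Finset.sum_add_distrib]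
      refine Finset.sum_congr rfl fun j _ => ?_
      ring
    rw [e4]
    have e5 : ((r : ℝ) + 1) * w c n V₂ = ((r : ℝ) + 2) * (alp r * w c n V₂) := by
      rw [← ha]
      ring
    rw [mul_add, e5, ← e2, e1]
    ring
  rw [e3]
  have e6 : w c (n + 1) (XM r * V₁ ⊔ YM r * V₂) =
      (1 - alp r) * ∑ j ∈ Finset.range (n + 1), alp r ^ j *
        (rd (XM r * V₁ ⊔ YM r * V₂) (Flt c (n + 1) (j + 1)) : ℝ) +
      alp r ^ (n + 1) * (finrank K (XM r * V₁ ⊔ YM r * V₂ : Submodule K (F r)) : ℝ) := rfl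
  rw [e6, finrank_XY]
  push_cast
  refine add_le_add ?_ (le_refl _)
  refine mul_le_mul_of_nonneg_left (Finset.sum_le_sum fun j _ => ?_) (by linarith)
  refine mul_le_mul_of_nonneg_left ?_ (pow_nonneg ha0.le j)
  have h7 := rdx_lower (c n) V₁ V₂ (Flt c n (j + 1)) (Flt c n j)
  rw [Flt_succ]
  exact_mod_cast h7

/-- `≥` is `w_XY` for `V₁ = V₂ = V`, `≤` is the same computation with `rdx_upper` -/
theorem w_Fd_one_mul (c : ℕ → Cm r) (n : ℕ) {V : Submodule K (F r)} (h : V ≤ Fd r n) :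
    w c (n + 1) (Fd r 1 * V) = 2 * ((r : ℝ) + 1) * w c n V := by
  have hf : FiniteDimensional K V := finiteDimensional_of_le_Fd h
  apply le_antisymm
  · have e1 := w_eq c (show n ≤ n + 1 from Nat.le_succ n) V
    have e2 := WX_shift c n h
    have ha := alp_mul r
    have ha1 := alp_lt_one r
    have ha0 := alp_pos r
    have e3 : 2 * ((r : ℝ) + 1) * w c n V =
        (1 - alp r) * ∑ j ∈ Finset.range (n + 1), alp r ^ j *
          (((r : ℝ) + 1) * (rd V (Flt c n (j + 1)) : ℝ) +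
            ((r : ℝ) + 2) * (rd V (Flt c n j) : ℝ)) +
        alp r ^ (n + 1) * ((2 * (r : ℝ) + 3) * (finrank K V : ℝ)) := by
      have e4 : ∑ j ∈ Finset.range (n + 1), alp r ^ j *
          (((r : ℝ) + 1) * (rd V (Flt c n (j + 1)) : ℝ) +
            ((r : ℝ) + 2) * (rd V (Flt c n j) : ℝ)) =
          ((r : ℝ) + 1) * ∑ j ∈ Finset.range (n + 1), alp r ^ j *
            (rd V (Flt c n (j + 1)) : ℝ) +
          ((r : ℝ) + 2) * ∑ j ∈ Finset.range (n + 1), alp r ^ j *
            (rd V (Flt c n j) : ℝ) := by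
        rw [Finset.mul_sum, Finset.mul_sum, ← Finset.sum_add_distrib]
        refine Finset.sum_congr rfl fun j _ => ?_
        ring
      rw [e4]
      have e5 : 2 * ((r : ℝ) + 1) * w c n V =
          ((r : ℝ) + 1) * w c n V + ((r : ℝ) + 2) * (alp r * w c n V) := by
        have e7 : ((r : ℝ) + 2) * (alp r * w c n V) = (alp r * ((r : ℝ) + 2)) * w c n V := by
          ring
        rw [e7, ha]
        ring
      rw [e5, ← e2, e1]
      ring
    rw [e3]
    have e6 : w c (n + 1) (Fd r 1 * V) =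
        (1 - alp r) * ∑ j ∈ Finset.range (n + 1), alp r ^ j *
          (rd (Fd r 1 * V) (Flt c (n + 1) (j + 1)) : ℝ) +
        alp r ^ (n + 1) * (finrank K (Fd r 1 * V : Submodule K (F r)) : ℝ) := rfl
    rw [e6, finrank_Fd_one_mul]
    push_cast
    refine add_le_add ?_ (le_refl _)
    refine mul_le_mul_of_nonneg_left (Finset.sum_le_sum fun j _ => ?_) (by linarith)
    refine mul_le_mul_of_nonneg_left ?_ (pow_nonneg ha0.le j)
    have h7 := rdx_upper (c n) V (Flt c n (j + 1)) (Flt c n j)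
    rw [Flt_succ]
    exact_mod_cast h7
  · have h1 := w_XY c n h h
    have h2 : Fd r 1 * V = XM r * V ⊔ YM r * V := by
      rw [Fd_one, Submodule.sup_mul]
    rw [h2]
    linarith

end TARO
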