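import Pool.Agent.TARO.PSUM
import Pool.Agent.TARO.ABEL
import Pool.Agent.TARO.WX

/-! ESTEP: a violator lowers the potential. -/

open Module

namespace TARO

variable {r : ℕ}

/-- the family generated by a pair: `Q 0 = V₁ 0 ⊔ V₂ 0`, `Q (i + 1) = AA V₁ V₂ i ⊔ Fd 1 * Q i` -/
noncomputable def genQ (V₁ V₂ : ℕ → Submodule K (F r)) : ℕ → Submodule K (F r)
  | 0 => V₁ 0 ⊔ V₂ 0
  | i + 1 => AA V₁ V₂ i ⊔ Fd r 1 * genQ V₁ V₂ i

theorem ESTEP_AA_le {L b : ℕ} {P V₁ V₂ : ℕ → Submodule K (F r)} (hV : AdmV r L b P V₁ V₂)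
    {i : ℕ} (hi : i < L) : AA V₁ V₂ i ≤ Fd r (b + (i + 1)) := by
  have e : Fd r (b + (i + 1)) = Fd r 1 * Fd r (b + i) := by
    rw [Fd_mul]
    congr 1
    omega
  unfold AA
  refine sup_le (sup_le (sup_le (hV.le₁ (i + 1) hi) (hV.le₂ (i + 1) hi)) ?_) ?_
  · rw [e]
    exact mul_le_mul' XM_le (hV.le₁ i hi.le)
  · rw [e]
    exact mul_le_mul' YM_le (hV.le₂ i hi.le)

theorem ESTEP_genQ_le {L b : ℕ} {P V₁ V₂ : ℕ → Submodule K (F r)} (hV : AdmV r L b P V₁ V₂) :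
    ∀ i, i ≤ L → genQ V₁ V₂ i ≤ Fd r (b + i) := by
  intro i
  induction i with
  | zero =>
    intro _
    exact sup_le (hV.le₁ 0 (Nat.zero_le _)) (hV.le₂ 0 (Nat.zero_le _))
  | succ i ih =>
    intro hi
    have e : Fd r (b + (i + 1)) = Fd r 1 * Fd r (b + i) := by
      rw [Fd_mul]
      congr 1
      omega
    refine sup_le (ESTEP_AA_le hV hi) ?_
    rw [e]
    exact mul_le_mul' le_rfl (ih (by omega))

theorem ESTEP_le_genQ₁ (V₁ V₂ : ℕ → Submodule K (F r)) (i : ℕ) : V₁ i ≤ genQ V₁ V₂ i := by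
  cases i with
  | zero => exact le_sup_left
  | succ i =>
    exact le_trans (le_trans le_sup_left (le_trans le_sup_left le_sup_left)) le_sup_left

theorem ESTEP_le_genQ₂ (V₁ V₂ : ℕ → Submodule K (F r)) (i : ℕ) : V₂ i ≤ genQ V₁ V₂ i := by
  cases i with
  | zero => exact le_sup_right
  | succ i =>
    exact le_trans (le_trans le_sup_right (le_trans le_sup_left le_sup_left)) le_sup_left

/-- `w_sup_add_inf` and `P b ≤ V₁ 0 ⊓ V₂ 0` -/
theorem w_genQ_zero (c : ℕ → Cm r) {L b : ℕ} {P V₁ V₂ : ℕ → Submodule K (F r)}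
    (hV : AdmV r L b P V₁ V₂) :
    w c b (genQ V₁ V₂ 0) + w c b (P b) ≤ w c b (V₁ 0) + w c b (V₂ 0) := by
  have f1 : FiniteDimensional K (V₁ 0) := finiteDimensional_of_le_Fd (hV.le₁ 0 (Nat.zero_le _))
  have f2 : FiniteDimensional K (V₂ 0) := finiteDimensional_of_le_Fd (hV.le₂ 0 (Nat.zero_le _))
  have h1 := w_sup_add_inf c b (V₁ 0) (V₂ 0)
  have h2 : w c b (P b) ≤ w c b (V₁ 0 ⊓ V₂ 0) :=
    w_mono c b (le_inf (hV.ge₁ 0 (Nat.zero_le _)) (hV.ge₂ 0 (Nat.zero_le _)))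
  have h3 : genQ V₁ V₂ 0 = V₁ 0 ⊔ V₂ 0 := rfl
  rw [h3]
  linarith

/-- `w_sup_add_inf` for `AA V₁ V₂ i` and `Fd 1 * Q i`; the intersection contains
`XM * V₁ i ⊔ YM * V₂ i` (because `V₁ i, V₂ i ≤ Q i`), then `w_XY` and `w_Fd_one_mul` -/
theorem w_genQ_succ (c : ℕ → Cm r) {L b : ℕ} {P V₁ V₂ : ℕ → Submodule K (F r)}
    (hP : LCB r L b P) (hV : AdmV r L b P V₁ V₂) {i : ℕ} (hi : i < L) :
    w c (b + (i + 1)) (genQ V₁ V₂ (i + 1)) - 2 * ((r : ℝ) + 1) * w c (b + i) (genQ V₁ V₂ i) ≤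
      w c (b + (i + 1)) (AA V₁ V₂ i) -
        ((r : ℝ) + 1) * (w c (b + i) (V₁ i) + w c (b + i) (V₂ i)) := by
  have e : Fd r (b + (i + 1)) = Fd r 1 * Fd r (b + i) := by
    rw [Fd_mul]
    congr 1
    omega
  have hQ := ESTEP_genQ_le hV i hi.le
  have hle : Fd r 1 * genQ V₁ V₂ i ≤ Fd r (b + (i + 1)) := by
    rw [e]
    exact mul_le_mul' le_rfl hQ
  have f1 : FiniteDimensional K (AA V₁ V₂ i) := finiteDimensional_of_le_Fd (ESTEP_AA_le hV hi)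
  have f2 : FiniteDimensional K (Fd r 1 * genQ V₁ V₂ i : Submodule K (F r)) :=
    finiteDimensional_of_le_Fd hle
  have h1 := w_sup_add_inf c (b + (i + 1)) (AA V₁ V₂ i) (Fd r 1 * genQ V₁ V₂ i)
  have h2 : w c (b + (i + 1)) (XM r * V₁ i ⊔ YM r * V₂ i) ≤
      w c (b + (i + 1)) (AA V₁ V₂ i ⊓ (Fd r 1 * genQ V₁ V₂ i)) := by
    refine w_mono c _ (le_inf ?_ ?_)
    · unfold AA
      exact sup_le (le_trans le_sup_right le_sup_left) le_sup_right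
    · exact sup_le (mul_le_mul' XM_le (ESTEP_le_genQ₁ V₁ V₂ i))
        (mul_le_mul' YM_le (ESTEP_le_genQ₂ V₁ V₂ i))
  have h3 := w_XY c (b + i) (hV.le₁ i hi.le) (hV.le₂ i hi.le)
  have h4 := w_Fd_one_mul c (b + i) hQ
  have h5 : genQ V₁ V₂ (i + 1) = AA V₁ V₂ i ⊔ Fd r 1 * genQ V₁ V₂ i := rfl
  have e2 : b + i + 1 = b + (i + 1) := by omega
  rw [e2] at h3 h4
  rw [h5]
  linarith

/-- Take `P' n = genQ V₁ V₂ (n - b)`.  By `w_genQ_zero` and `w_genQ_succ` the difference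
`En P' - En P` is at most the left side of `abel_neg` for
`σ i = w (AA V₁ V₂ i) - w (P (b + (i + 1)))`, `a i = w (V₁ i) + w (V₂ i) - 2 w (P (b + i))`
and `p = r + 1`. -/
theorem energy_step (c : ℕ → Cm r) {L b : ℕ} (hL : 1 ≤ L) {P V₁ V₂ : ℕ → Submodule K (F r)}
    (hP : LCB r L b P) (hV : AdmV r L b P V₁ V₂)
    (h : ∀ i, i ≤ L → Sw c b P V₁ V₂ i ≤ 0) (h' : Sw c b P V₁ V₂ L < 0) :
    ∃ P' : ℕ → Submodule K (F r), LCB r L b P' ∧ (∀ i, i ≤ L → P (b + i) ≤ P' (b + i)) ∧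
      En c L b P' < En c L b P := by
  refine ⟨fun n => genQ V₁ V₂ (n - b), ⟨?_, ?_⟩, ?_, ?_⟩
  · intro i hi
    show genQ V₁ V₂ (b + i - b) ≤ _
    rw [Nat.add_sub_cancel_left]
    exact ESTEP_genQ_le hV i hi
  · intro i _
    show Fd r 1 * genQ V₁ V₂ (b + i - b) ≤ genQ V₁ V₂ (b + (i + 1) - b)
    rw [Nat.add_sub_cancel_left, Nat.add_sub_cancel_left]
    exact le_sup_right
  · intro i hi
    show P (b + i) ≤ genQ V₁ V₂ (b + i - b)
    rw [Nat.add_sub_cancel_left]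
    exact (hV.ge₁ i hi).trans (ESTEP_le_genQ₁ V₁ V₂ i)
  · have hp : (1 : ℝ) ≤ (r : ℝ) + 1 := by
      have : (0 : ℝ) ≤ r := Nat.cast_nonneg r
      linarith
    have hab := abel_neg hp hL
      (fun i => w c (b + (i + 1)) (AA V₁ V₂ i) - w c (b + (i + 1)) (P (b + (i + 1))))
      (fun i => w c (b + i) (V₁ i) + w c (b + i) (V₂ i) - 2 * w c (b + i) (P (b + i)))
      (by simp only [hV.top₁, hV.top₂]; ring) h h'
    simp only [Nat.add_zero] at hab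
    have hz := w_genQ_zero c hV
    have hpow : 0 ≤ ((r : ℝ) + 1) ^ L - ((r : ℝ) + 1) ^ (L - 1) :=
      sub_nonneg.2 (pow_le_pow_right₀ hp (Nat.sub_le _ _))
    have hz2 := mul_le_mul_of_nonneg_left
      (show w c b (genQ V₁ V₂ 0) - w c b (P b) ≤
        w c b (V₁ 0) + w c b (V₂ 0) - 2 * w c b (P b) by linarith) hpow
    have hsum : ∑ i ∈ Finset.range L, ((r : ℝ) + 1) ^ (L - 1 - i) *
        (w c (b + (i + 1)) (genQ V₁ V₂ (i + 1)) -
          2 * ((r : ℝ) + 1) * w c (b + i) (genQ V₁ V₂ i)) -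
        ∑ i ∈ Finset.range L, ((r : ℝ) + 1) ^ (L - 1 - i) *
          (w c (b + (i + 1)) (P (b + (i + 1))) - 2 * ((r : ℝ) + 1) * w c (b + i) (P (b + i))) ≤
        ∑ i ∈ Finset.range L, ((r : ℝ) + 1) ^ (L - 1 - i) *
          (w c (b + (i + 1)) (AA V₁ V₂ i) - w c (b + (i + 1)) (P (b + (i + 1))) -
            ((r : ℝ) + 1) *
              (w c (b + i) (V₁ i) + w c (b + i) (V₂ i) - 2 * w c (b + i) (P (b + i)))) := by
      rw [← Finset.sum_sub_distrib]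
      refine Finset.sum_le_sum fun i hi => ?_
      rw [← mul_sub]
      refine mul_le_mul_of_nonneg_left ?_ (by positivity)
      have := w_genQ_succ c hP hV (Finset.mem_range.1 hi)
      linarith
    unfold En
    simp only [Nat.add_sub_cancel_left, Nat.sub_self]
    linarith

end TARO
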