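import Pool.Agent.TARO.Defs

/-! EXT: the Hall inequality for extensions. -/

open Module

namespace TARO

variable {sx sy : ℕ}

/-- the restriction of an injection to a preimage -/
def extI {W' W : Type} [AddCommGroup W'] [Module K W'] [AddCommGroup W] [Module K W]
    (ι : W' →ₗ[K] W) (V : Submodule K W) : V.comap ι →ₗ[K] V :=
  (ι.domRestrict (V.comap ι)).codRestrict V (fun w => w.2)

theorem extI_inj {W' W : Type} [AddCommGroup W'] [Module K W'] [AddCommGroup W] [Module K W]
    (ι : W' →ₗ[K] W) (hι : Function.Injective ι) (V : Submodule K W) :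
    Function.Injective (extI ι V) := by
  intro a b h
  apply Subtype.ext
  apply hι
  exact congrArg Subtype.val h

theorem ext_fin {W' W : Type} [AddCommGroup W'] [Module K W'] [AddCommGroup W] [Module K W]
    (ι : W' →ₗ[K] W) (hι : Function.Injective ι) (V : Submodule K W) [FiniteDimensional K V] :
    FiniteDimensional K (V.comap ι) :=
  Module.Finite.of_injective (extI ι V) (extI_inj ι hι V)

theorem ext_dim {W' W W'' : Type} [AddCommGroup W'] [Module K W'] [AddCommGroup W]
    [Module K W] [AddCommGroup W''] [Module K W'']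
    (ι : W' →ₗ[K] W) (φ : W →ₗ[K] W'') (hι : Function.Injective ι)
    (hex : LinearMap.range ι = LinearMap.ker φ) (V : Submodule K W) [FiniteDimensional K V] :
    finrank K V = finrank K (V.comap ι) + finrank K (V.map φ) := by
  have h1 := LinearMap.finrank_range_add_finrank_ker (φ.domRestrict V)
  have h2 : LinearMap.range (φ.domRestrict V) = V.map φ := by
    ext z
    constructor
    · rintro ⟨v, rfl⟩
      exact ⟨v.1, v.2, rfl⟩
    · rintro ⟨v, hv, rfl⟩
      exact ⟨⟨v, hv⟩, rfl⟩
  have h3 : LinearMap.range (extI ι V) = LinearMap.ker (φ.domRestrict V) := by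
    ext v
    constructor
    · rintro ⟨w, rfl⟩
      change φ (ι w.1) = 0
      have : ι w.1 ∈ LinearMap.ker φ := by
        rw [← hex]
        exact ⟨w.1, rfl⟩
      exact this
    · intro hv
      have hv' : (v : W) ∈ LinearMap.range ι := by
        rw [hex]
        exact hv
      obtain ⟨w, hw⟩ := hv'
      refine ⟨⟨w, ?_⟩, ?_⟩
      · change ι w ∈ V
        rw [hw]
        exact v.2
      · apply Subtype.ext
        exact hw
  have h4 : finrank K (LinearMap.ker (φ.domRestrict V)) = finrank K (V.comap ι) := by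
    rw [← h3]
    exact LinearMap.finrank_range_of_inj (extI_inj ι hι V)
  rw [h2, h4] at h1
  omega

theorem GHlin.ext {W' W W'' : Type} [AddCommGroup W'] [Module K W'] [AddCommGroup W]
    [Module K W] [AddCommGroup W''] [Module K W'']
    {x' : Fin sx → Module.End K W'} {y' : Fin sy → Module.End K W'}
    {x : Fin sx → Module.End K W} {y : Fin sy → Module.End K W}
    {x'' : Fin sx → Module.End K W''} {y'' : Fin sy → Module.End K W''}
    (ι : W' →ₗ[K] W) (φ : W →ₗ[K] W'') (hι : Function.Injective ι)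
    (hex : LinearMap.range ι = LinearMap.ker φ)
    (hx' : ∀ i w, ι (x' i w) = x i (ι w)) (hy' : ∀ i w, ι (y' i w) = y i (ι w))
    (hx'' : ∀ i w, φ (x i w) = x'' i (φ w)) (hy'' : ∀ i w, φ (y i w) = y'' i (φ w))
    (h' : GHlin x' y') (h'' : GHlin x'' y'') : GHlin x y := by
  intro V₁ V₂ f1 f2
  have := f1
  have := f2
  set W0 : Submodule K W := V₁ ⊔ V₂ ⊔ (⨆ i, V₁.map (x i)) ⊔ (⨆ i, V₂.map (y i)) with hW0
  have fW : FiniteDimensional K W0 := by
    rw [hW0]
    infer_instance
  have l1 : V₁ ≤ W0 := le_trans le_sup_left (le_trans le_sup_left le_sup_left)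
  have l2 : V₂ ≤ W0 := le_trans le_sup_right (le_trans le_sup_left le_sup_left)
  have lx : ∀ i, V₁.map (x i) ≤ W0 := fun i =>
    le_trans (le_iSup (fun i => V₁.map (x i)) i) (le_trans le_sup_right le_sup_left)
  have ly : ∀ i, V₂.map (y i) ≤ W0 := fun i =>
    le_trans (le_iSup (fun i => V₂.map (y i)) i) le_sup_right
  have g1 := ext_fin ι hι V₁
  have g2 := ext_fin ι hι V₂
  have g3 := ext_fin ι hι W0
  have k1 := h' (V₁.comap ι) (V₂.comap ι) g1 g2
  have k2 := h'' (V₁.map φ) (V₂.map φ) inferInstance inferInstance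
  have m1 : V₁.comap ι ⊔ V₂.comap ι ⊔ (⨆ i, (V₁.comap ι).map (x' i)) ⊔
      (⨆ i, (V₂.comap ι).map (y' i)) ≤ W0.comap ι := by
    refine sup_le (sup_le (sup_le (Submodule.comap_mono l1) (Submodule.comap_mono l2))
      (iSup_le fun i => ?_)) (iSup_le fun i => ?_)
    · rintro _ ⟨w, hw, rfl⟩
      change ι (x' i w) ∈ W0
      rw [hx']
      exact lx i ⟨ι w, hw, rfl⟩
    · rintro _ ⟨w, hw, rfl⟩
      change ι (y' i w) ∈ W0
      rw [hy']
      exact ly i ⟨ι w, hw, rfl⟩
  have m2 : V₁.map φ ⊔ V₂.map φ ⊔ (⨆ i, (V₁.map φ).map (x'' i)) ⊔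
      (⨆ i, (V₂.map φ).map (y'' i)) ≤ W0.map φ := by
    refine sup_le (sup_le (sup_le (Submodule.map_mono l1) (Submodule.map_mono l2))
      (iSup_le fun i => ?_)) (iSup_le fun i => ?_)
    · rintro _ ⟨_, ⟨w, hw, rfl⟩, rfl⟩
      rw [← hx'']
      exact ⟨x i w, lx i ⟨w, hw, rfl⟩, rfl⟩
    · rintro _ ⟨_, ⟨w, hw, rfl⟩, rfl⟩
      rw [← hy'']
      exact ⟨y i w, ly i ⟨w, hw, rfl⟩, rfl⟩
  have n1 := Submodule.finrank_mono m1
  have n2 := Submodule.finrank_mono m2
  rw [ext_dim ι φ hι hex V₁, ext_dim ι φ hι hex V₂, ext_dim ι φ hι hex W0]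
  omega

end TARO
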