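import Pool.Agent.TARO.PT

/-! FLOWD: dimensions of the degree parts of the flow space. -/

open Module

namespace TARO

variable {r k : ℕ}

theorem part_wp_eq_zero (u : Fin k → F r) (hu : ∀ l, NC (u l)) (v : List (Fin k)) {n : ℕ}
    (h : n < v.length) : part n (wp u v) = 0 := by
  induction v generalizing n with
  | nil => simp at h
  | cons l v ih =>
    have h3 : wp u (l :: v) = u l * wp u v := by simp [wp]
    obtain ⟨N, -, hN⟩ := exists_sum_part (u l)
    rw [h3, hN, Finset.sum_mul, map_sum]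
    refine Finset.sum_eq_zero fun m _ => ?_
    rcases Nat.eq_zero_or_pos m with rfl | hm
    · rw [(nc_iff _).mp (hu l), zero_mul, map_zero]
    · rcases Nat.lt_or_ge n m with h4 | h4
      · exact part_mul_of_lt (part_mem m _) _ h4
      · obtain ⟨k, rfl⟩ := Nat.exists_eq_add_of_le h4
        rw [part_mul_of_mem (part_mem m _), ih (by simp only [List.length_cons] at h; omega),
          mul_zero]

theorem FLOWD_part_gen (u : Fin k → F r) (hu : ∀ l, NC (u l)) (w₁ w₂ : List (Al r))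
    (v : List (Fin k)) {n : ℕ} (h : n < v.length) : part n (wd w₁ * wp u v * wd w₂) = 0 := by
  rcases Nat.lt_or_ge n w₂.length with h4 | h4
  · exact mul_part_of_lt (wd_mem_Fd w₂) _ h4
  · obtain ⟨k, rfl⟩ := Nat.exists_eq_add_of_le' h4
    rw [mul_part_of_mem (wd_mem_Fd w₂)]
    rcases Nat.lt_or_ge k w₁.length with h5 | h5
    · rw [part_mul_of_lt (wd_mem_Fd w₁) _ h5, zero_mul]
    · obtain ⟨k, rfl⟩ := Nat.exists_eq_add_of_le h5
      rw [part_mul_of_mem (wd_mem_Fd w₁), part_wp_eq_zero u hu v (by omega), mul_zero, zero_mul]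

theorem FLOWD_ofFn {α : Type} {D : ℕ} (w : List α) (h : w.length < D) :
    ∃ x : (Σ n : Fin D, (Fin n → α)), List.ofFn x.2 = w :=
  ⟨⟨⟨w.length, h⟩, w.get⟩, List.ofFn_get w⟩

/-- the parts of degree `h` of the flow space are spanned by the parts of the generators with at
most `h` factors -/
theorem flowW_part_span (u : Fin k → F r) (hu : ∀ l, NC (u l)) (D h : ℕ) :
    (flowW u D).map (part h) ≤ Submodule.span K (Set.range
      fun x : ((Σ n : Fin D, (Fin n → Al r)) × (Σ n : Fin D, (Fin n → Al r))) ×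
        (Σ n : Fin (h + 1), (Fin n → Fin k)) =>
      part h (wd (List.ofFn x.1.1.2) * wp u (List.ofFn x.2.2) * wd (List.ofFn x.1.2.2))) := by
  rw [flowW, Submodule.map_span_le]
  rintro _ ⟨w₁, w₂, v, h₁, h₂, rfl⟩
  rcases Nat.lt_or_ge h v.length with h4 | h4
  · rw [FLOWD_part_gen u hu w₁ w₂ v h4]
    exact Submodule.zero_mem _
  · obtain ⟨x, hx⟩ := FLOWD_ofFn w₁ h₁
    obtain ⟨y, hy⟩ := FLOWD_ofFn w₂ h₂
    obtain ⟨z, hz⟩ := FLOWD_ofFn v (D := h + 1) (by omega)
    refine Submodule.subset_span ⟨⟨⟨x, y⟩, z⟩, ?_⟩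
    simp only [hx, hy, hz]

end TARO
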