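import Pool.Agent.TARO.FLOWQ
import Pool.Agent.TARO.FLOWD

/-! FLOW: for a tuple `u` without constant terms the flow space for a large bound `D` contains
all products `wp u v` and is closed under quotients by letters. -/

open Module

namespace TARO

variable {r k : ℕ}

theorem exists_flow (u : Fin k → F r) (hu : ∀ l, NC (u l)) :
    ∃ D : ℕ, (∀ v : List (Fin k), wp u v ∈ flowW u D) ∧
      (∀ a, (flowW u D).map (lq a) ≤ flowW u D) ∧
      (∀ a, (flowW u D).map (rq a) ≤ flowW u D) := by
  have h1 : ∃ D : ℕ, 0 < D ∧
      ∀ l (w : FreeMonoid (Al r)), (u l).coeff w ≠ 0 → w.length ≤ D := by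
    refine ⟨1 + Finset.univ.sup fun l => (u l).coeff.support.sup fun w => w.length, by omega,
      fun l w hw => ?_⟩
    have h2 : w.length ≤ (u l).coeff.support.sup fun w => w.length :=
      Finset.le_sup (f := fun w : FreeMonoid (Al r) => w.length) (Finsupp.mem_support_iff.mpr hw)
    have h3 : ((u l).coeff.support.sup fun w => w.length) ≤
        Finset.univ.sup fun l => (u l).coeff.support.sup fun w => w.length :=
      Finset.le_sup (f := fun l => (u l).coeff.support.sup fun w => w.length) (Finset.mem_univ l)
    omega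
  obtain ⟨D, hD, hDu⟩ := h1
  exact ⟨D, wp_mem_flowW u hD, flowW_lq u hu hDu, flowW_rq u hu hDu⟩

end TARO
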