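import Pool.Agent.TARO.PERN
import Pool.Agent.TARO.FLOW

/-! SLOW: the flow spaces of tuples which can be killed are slow relations. -/

open Module

namespace TARO

variable {r : ℕ}

private theorem sum_word_le (hr : 1 ≤ r) {Q E' E : ℕ} {δ η : ℝ} (hp : Params r Q E' E δ η)
    {k : ℕ} {u : Fin k → F r} {dg : Fin k → ℕ} {i₀ : Fin k} {ψ : Cm r}
    (h : KillData r k u dg i₀ ψ) (o g n : ℕ) (w₁ w₂ : List (Al r)) :
    ∑ v : Fin n → Fin k, w (shift (cs r) o) (E * g)
        (Submodule.span K {part (E * g) (wd w₁ * wp u (List.ofFn v) * wd w₂)}) ≤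
      3 * (((r : ℝ) + 1) ^ E / 2) ^ g := by
  rcases Nat.lt_or_ge (E * g) w₁.length with h1 | h1
  · have h2 : ∀ v : Fin n → Fin k, w (shift (cs r) o) (E * g)
        (Submodule.span K {part (E * g) (wd w₁ * wp u (List.ofFn v) * wd w₂)}) = 0 := by
      intro v
      rw [mul_assoc, part_mul_of_lt (wd_mem_Fd w₁) _ h1, Submodule.span_zero_singleton, w_bot]
    rw [Finset.sum_congr rfl fun v _ => h2 v, Finset.sum_const_zero]
    positivity
  · obtain ⟨m, hm⟩ := Nat.exists_eq_add_of_le h1
    have h3 : m ≤ E * g := by omega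
    refine le_trans (Finset.sum_le_sum fun v _ => ?_)
      (sum_w_part_le hr hp h o (wd_mem_Fd w₂) n h3)
    rw [hm, mul_assoc, part_mul_of_mem (wd_mem_Fd w₁), add_comm w₁.length m]
    have h4 : Submodule.span K {(wd w₁ : F r) * part m (wp u (List.ofFn v) * wd w₂)} =
        Submodule.span K {(wd w₁ : F r)} *
          Submodule.span K {part m (wp u (List.ofFn v) * wd w₂)} := by
      rw [Submodule.span_mul_span, Set.singleton_mul_singleton]
    rw [h4]
    have h5 : Submodule.span K {(wd w₁ : F r)} ≤ Fd r w₁.length := by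
      rw [Submodule.span_singleton_le_iff_mem]
      exact wd_mem_Fd w₁
    have h6 : Submodule.span K {part m (wp u (List.ofFn v) * wd w₂)} ≤ Fd r m := by
      rw [Submodule.span_singleton_le_iff_mem]
      exact part_mem m _
    refine (w_mul_le (shift (cs r) o) m w₁.length h5 h6).trans ?_
    have h7 := w_singleton_le_one (shift (shift (cs r) o) m) w₁.length (wd w₁ : F r)
    have h8 := w_nonneg (shift (cs r) o) m
      (Submodule.span K {part m (wp u (List.ofFn v) * wd w₂)})
    exact (mul_le_mul_of_nonneg_right h7 h8).trans (one_mul _).le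

/-- `flowW_part_span`, `w_mono`, `w_span_range_le`; for `h = E g` the part of degree `h` of
`wd w₁ * wp u v * wd w₂` is `wd w₁ * part (h - |w₁|) (wp u v * wd w₂)` (or `0` if
`h < |w₁|`), of weight at most the weight of the second factor (`w_mul_le`,
`w_singleton_le_one`); sum over `v` with `sum_w_part_le`, over the `E g + 1` lengths and over
the pairs `(w₁, w₂)`; `poly_bound`. -/
theorem slow_flow (hr : 1 ≤ r) : ∃ E : ℕ, 1 ≤ E ∧ ∀ {k : ℕ} (u : Fin k → F r), Killable u →
    ∀ D : ℕ, SlowRel (cs r) E (fun h => (flowW u D).map (part h)) := by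
  obtain ⟨Q, E', E, δ, η, hp⟩ := exists_params r
  refine ⟨E, by rw [hp.hE]; omega, ?_⟩
  rintro k u ⟨dg, i₀, ψ, hk⟩ D
  have hu : ∀ l, NC (u l) := by
    intro l
    rw [nc_iff]
    refine hk.low l 0 ?_
    rcases hk.deg l with h | h <;> omega
  obtain ⟨C, hC0, hC⟩ := poly_bound E
  refine ⟨?_, 3 * C * (Fintype.card ((Σ n : Fin D, (Fin n → Al r)) ×
    (Σ n : Fin D, (Fin n → Al r))) : ℝ), ?_⟩
  · intro h
    rw [Submodule.map_le_iff_le_comap]
    intro p _
    exact part_mem h p
  · intro g o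
    have h1 := flowW_part_span u hu D (E * g)
    have := FiniteDimensional.span_of_finite K (Set.finite_range
      fun x : ((Σ n : Fin D, (Fin n → Al r)) × (Σ n : Fin D, (Fin n → Al r))) ×
        (Σ n : Fin (E * g + 1), (Fin n → Fin k)) =>
      part (E * g) (wd (List.ofFn x.1.1.2) * wp u (List.ofFn x.2.2) * wd (List.ofFn x.1.2.2)))
    refine (w_mono (shift (cs r) o) (E * g) h1).trans ?_
    refine (w_span_range_le (shift (cs r) o) (E * g) _).trans ?_
    rw [Fintype.sum_prod_type]
    have h2 : ∀ x : (Σ n : Fin D, (Fin n → Al r)) × (Σ n : Fin D, (Fin n → Al r)),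
        ∑ y : (Σ n : Fin (E * g + 1), (Fin n → Fin k)), w (shift (cs r) o) (E * g)
          (Submodule.span K {part (E * g) (wd (List.ofFn x.1.2) * wp u (List.ofFn y.2) *
            wd (List.ofFn x.2.2))}) ≤
          ((E : ℝ) * g + 1) * (3 * (((r : ℝ) + 1) ^ E / 2) ^ g) := by
      intro x
      rw [Fintype.sum_sigma]
      calc _ ≤ ∑ _n : Fin (E * g + 1), 3 * (((r : ℝ) + 1) ^ E / 2) ^ g :=
            Finset.sum_le_sum fun n _ =>
              sum_word_le hr hp hk o g n (List.ofFn x.1.2) (List.ofFn x.2.2)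
        _ = _ := by
            rw [Finset.sum_const, Finset.card_univ, Fintype.card_fin, nsmul_eq_mul]
            push_cast
            ring
    refine (Finset.sum_le_sum fun x _ => h2 x).trans ?_
    rw [Finset.sum_const, Finset.card_univ, nsmul_eq_mul]
    have h3 : (((r : ℝ) + 1) ^ E / 2) ^ g =
        (3 / 4) ^ g * (2 * ((r : ℝ) + 1) ^ E / 3) ^ g := by
      rw [← mul_pow]
      congr 1
      ring
    rw [h3]
    have h4 := hC g
    have h5 : (0 : ℝ) ≤ (2 * ((r : ℝ) + 1) ^ E / 3) ^ g := by positivity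
    have h6 : (0 : ℝ) ≤ (Fintype.card ((Σ n : Fin D, (Fin n → Al r)) ×
      (Σ n : Fin D, (Fin n → Al r))) : ℝ) := Nat.cast_nonneg _
    calc _ = 3 * (((E : ℝ) * g + 1) * (3 / 4) ^ g) *
          (Fintype.card ((Σ n : Fin D, (Fin n → Al r)) ×
            (Σ n : Fin D, (Fin n → Al r))) : ℝ) * (2 * ((r : ℝ) + 1) ^ E / 3) ^ g := by ring
      _ ≤ 3 * C * (Fintype.card ((Σ n : Fin D, (Fin n → Al r)) ×
            (Σ n : Fin D, (Fin n → Al r))) : ℝ) * (2 * ((r : ℝ) + 1) ^ E / 3) ^ g := by
          refine mul_le_mul_of_nonneg_right (mul_le_mul_of_nonneg_right ?_ h6) h5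
          linarith

end TARO
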