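import Pool.Agent.TARO.LIM
import Pool.Agent.TARO.SLOW
import Pool.Agent.TARO.FLOW
import Pool.Agent.TARO.NILP

/-! FAM: the family. -/

open Module

namespace TARO

variable {r : ℕ}

theorem FAM_nc {k : ℕ} {u : Fin k → F r} (hu : Killable u) (l : Fin k) : NC (u l) := by
  obtain ⟨dg, i₀, ψ, h⟩ := hu
  rw [nc_iff]
  refine h.low l 0 ?_
  rcases h.deg l with e | e <;> omega

theorem exists_family (hr : 1 ≤ r) :
    ∃ (L : ℕ) (P : ℕ → Submodule K (F r)), 1 ≤ L ∧ LeftClosed r P ∧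
      (∀ n, L ∣ n → HL r L P n) ∧ P 0 = ⊥ ∧
      ∀ (k : ℕ) (u : Fin k → F r), Killable u →
        ∃ N : ℕ, ∀ v : List (Fin k), v.length = N → ∀ f : F r, wp u v * f ∈ PI P := by
  obtain ⟨E, hE, hslow⟩ := slow_flow hr
  have : Countable (F r) := countable_F
  let T : Type := Σ k : ℕ, {u : Fin k → F r // Killable u}
  have : Nonempty T := by
    refine ⟨⟨r + 1, fun _ => 0, fun _ => 1, 0, 0, ⟨fun _ => Or.inl rfl, ?_, ?_, ?_⟩⟩⟩
    · intro i n _
      rw [map_zero]
    · rw [Finset.sum_const, Finset.card_univ, Fintype.card_fin, nsmul_eq_mul, pow_one]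
      push_cast
      have : ((r : ℝ) + 1) ≠ 0 := by positivity
      rw [mul_one_div_cancel this]
    · rw [map_zero]
      exact Submodule.zero_mem _
  obtain ⟨s, hs⟩ := exists_surjective_nat T
  choose D hW hl hr' using fun i => exists_flow (s i).2.1 (fun l => FAM_nc (s i).2.2 l)
  obtain ⟨P, hP, h2, h0, hrel⟩ := exists_limit hr hE
    (fun i h => (flowW (s i).2.1 (D i)).map (part h)) (fun i => hslow _ (s i).2.2 (D i))
  refine ⟨2 * E, P, by omega, hP, h2, h0, fun k u hu => ?_⟩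
  obtain ⟨i, hi⟩ := hs ⟨k, u, hu⟩
  obtain ⟨h, hh, hr2⟩ := hrel i
  refine ⟨2 * h, ?_⟩
  have key : ∀ x : T, x = s i → ∀ v : List (Fin x.1), v.length = 2 * h → ∀ f : F r,
      wp x.2.1 v * f ∈ PI P := by
    intro x hx
    subst hx
    intro v hv f
    exact nilp _ (fun l => FAM_nc (s i).2.2 l) _ (hW i) (hl i) (hr' i) hP hh hr2 v hv f
  exact key ⟨k, u, hu⟩ hi.symm

end TARO
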