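import Pool.Agent.TARO.FILP

/-! FILM: the filtration has finite quotients and is raised by the letters. -/

open Module

namespace TARO

variable {r : ℕ} {P : ℕ → Submodule K (F r)}

theorem FILM_pi_mul (D : QData r P) (n : ℕ) (a : Al r) (g : F r) :
    D.π (n + 1) (D.ρ (wd [a]) ((PI P).mkQ g)) = (P (n + 1)).mkQ (wd [a] * part n g) := by
  rw [D.hρ, D.hπ]
  have h := part_mul_of_mem (wd_mem_Fd [a]) g n
  have e : ([a] : List (Al r)).length + n = n + 1 := by
    rw [List.length_singleton]; omega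
  rw [e] at h
  rw [h]

/-- the part of degree `n` of `x m` is `x` times the part of degree `n - 1` of `m` -/
theorem pi_letter (hP : LeftClosed r P) (D : QData r P) (n : ℕ) (a : Al r)
    (m : F r ⧸ PI P) (p : F r) (hp : D.π n m = (P n).mkQ p) (hpn : p ∈ Fd r n) :
    D.π (n + 1) (D.ρ (wd [a]) m) = (P (n + 1)).mkQ (wd [a] * p) := by
  obtain ⟨g, rfl⟩ := Submodule.mkQ_surjective _ m
  rw [FILM_pi_mul]
  rw [D.hπ, Submodule.mkQ_apply, Submodule.mkQ_apply, Submodule.Quotient.eq] at hp
  rw [Submodule.mkQ_apply, Submodule.mkQ_apply, Submodule.Quotient.eq, ← mul_sub]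
  exact hP.closed n (Submodule.mul_mem_mul (wd_mem_Fd [a]) hp)

theorem finite_quot_Fil (D : QData r P) (n : ℕ) : Finite ((F r ⧸ PI P) ⧸ D.Fil n) := by
  classical
  set Φ : (F r ⧸ PI P) →ₗ[K] (∀ i : Fin n, F r ⧸ P i) := LinearMap.pi fun i => D.π i with hΦ
  have hker : LinearMap.ker Φ = D.Fil n := by
    rw [hΦ, LinearMap.ker_pi]
    rfl
  have hr : Finite (LinearMap.range Φ) := by
    have h1 : ∀ i : Fin n, ((((Fd r i).map (P i).mkQ : Submodule K (F r ⧸ P i)) :
        Set (F r ⧸ P i))).Finite := by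
      intro i
      have h2 : FiniteDimensional K ((Fd r i).map (P i).mkQ : Submodule K (F r ⧸ P i)) :=
        inferInstance
      have h3 : Finite ((Fd r i).map (P i).mkQ : Submodule K (F r ⧸ P i)) :=
        Module.finite_of_finite K
      exact Set.toFinite _
    have h4 := Set.Finite.pi' h1
    refine (h4.subset ?_).to_subtype
    rintro y ⟨m, rfl⟩ i
    obtain ⟨g, rfl⟩ := Submodule.mkQ_surjective _ m
    refine ⟨part i g, part_mem _ _, ?_⟩
    rw [← D.hπ]
    rfl
  rw [← hker]
  exact Finite.of_equiv _ (Φ.quotKerEquivRange).symm.toEquiv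

theorem map_mem_Fil (hP : LeftClosed r P) (D : QData r P) (n : ℕ) (a : Al r)
    (m : F r ⧸ PI P) (h : m ∈ D.Fil n) : D.ρ (wd [a]) m ∈ D.Fil (n + 1) := by
  rw [FILP_mem] at h ⊢
  intro i hi
  rcases i with _ | j
  · obtain ⟨g, rfl⟩ := Submodule.mkQ_surjective _ m
    rw [D.hρ, D.hπ, part_mul_of_lt (wd_mem_Fd [a]) g (by rw [List.length_singleton]; omega),
      map_zero]
  · have h1 := h j (by omega)
    have h2 := pi_letter hP D j a m 0 (by rw [h1, map_zero]) (Submodule.zero_mem _)
    rw [h2, mul_zero, map_zero]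

end TARO
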