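import Pool.Agent.TARO.Defs

/-! FINS: the Hall inequality fails if one of the two sets generates a finite group, and for
the configuration. -/

namespace TARO

variable {a b : ℕ}

theorem GHset.symm {G : Type} [Group G] [DecidableEq G] {x : Fin a → G} {y : Fin b → G}
    (h : GHset x y) : GHset y x := by
  intro F₁ F₂
  have h1 := h F₂ F₁
  rw [add_comm] at h1
  refine h1.trans (le_of_eq ?_)
  rw [Finset.union_comm F₂ F₁, Finset.union_right_comm]

/-- `H = closure (range s)`, `F₂ = {1}`, `F₁ =` the union of `H` and the cosets `H * t j`: then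
`s i * F₁ ⊆ F₁` and `t j ∈ F₁`, so the union of all sets in the Hall inequality is `F₁` -/
theorem not_gh_of_finite {G : Type} [Group G] [DecidableEq G] (s : Fin a → G) (t : Fin b → G)
    (h : Finite (Subgroup.closure (Set.range s))) : ¬ GHset s t := by
  intro hG
  obtain ⟨H, hH⟩ : ∃ H : Subgroup G, H = Subgroup.closure (Set.range s) := ⟨_, rfl⟩
  rw [← hH] at h
  have hfin : (H : Set G).Finite := Set.toFinite _
  obtain ⟨Hf, hHf⟩ : ∃ Hf : Finset G, ∀ x, x ∈ Hf ↔ x ∈ H :=
    ⟨hfin.toFinset, fun x => by rw [Set.Finite.mem_toFinset]; rfl⟩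
  obtain ⟨F₁, hF₁⟩ : ∃ F₁ : Finset G, F₁ = Hf ∪ Finset.univ.biUnion
      (fun j => Hf.image fun x => x * t j) := ⟨_, rfl⟩
  have hmem : ∀ x, x ∈ F₁ ↔ x ∈ H ∨ ∃ j, ∃ y ∈ H, y * t j = x := by
    intro x
    rw [hF₁, Finset.mem_union, hHf, Finset.mem_biUnion]
    simp only [Finset.mem_univ, true_and, Finset.mem_image, hHf]
  have hs : ∀ i, s i ∈ H := fun i => by
    rw [hH]
    exact Subgroup.subset_closure ⟨i, rfl⟩
  have h1 := hG F₁ {1}
  have h2 : (F₁ ∪ {1}) ∪ (Finset.univ.biUnion fun i => F₁.image fun g => s i * g) ∪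
      (Finset.univ.biUnion fun i => ({1} : Finset G).image fun g => t i * g) ⊆ F₁ := by
    intro x hx
    rw [Finset.mem_union, Finset.mem_union, Finset.mem_union, Finset.mem_singleton,
      Finset.mem_biUnion, Finset.mem_biUnion] at hx
    rcases hx with ((hx | hx) | ⟨i, _, hx⟩) | ⟨j, _, hx⟩
    · exact hx
    · rw [hx, hmem]
      exact Or.inl H.one_mem
    · rw [Finset.mem_image] at hx
      obtain ⟨y, hy, rfl⟩ := hx
      rw [hmem] at hy ⊢
      rcases hy with hy | ⟨j, z, hz, rfl⟩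
      · exact Or.inl (H.mul_mem (hs i) hy)
      · exact Or.inr ⟨j, s i * z, H.mul_mem (hs i) hz, by rw [mul_assoc]⟩
    · rw [Finset.mem_image] at hx
      obtain ⟨y, hy, rfl⟩ := hx
      rw [Finset.mem_singleton] at hy
      rw [hmem, hy, mul_one]
      exact Or.inr ⟨j, 1, H.one_mem, one_mul _⟩
  have h3 := Finset.card_le_card h2
  rw [Finset.card_singleton] at h1
  omega

/-- `F = H ∪ H g` has `2 |H|` elements; take `F₁ = F`, `F₂ = f F`.  All sets in the Hall
inequality lie in `(H ∪ g H) (H ∪ H g) = H ∪ H g ∪ g H ∪ g H g`, which has at most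
`4 |H| - 1` elements because `g ∈ H g ∩ g H`. -/
theorem not_gh_of_config {G : Type} [Group G] [DecidableEq G] (s : Fin a → G) (t : Fin b → G)
    (H : Subgroup G) [Finite H] {g f : G} (hg : g ∉ H)
    (hs : ∀ i, s i ∈ H ∨ g⁻¹ * s i ∈ H) (hf : f ∈ H ∨ g⁻¹ * f ∈ H)
    (ht : ∀ j, t j * f ∈ H ∨ g⁻¹ * (t j * f) ∈ H) : ¬ GHset s t := by
  intro hG
  have hfin : (H : Set G).Finite := Set.toFinite _
  obtain ⟨Hf, hHf⟩ : ∃ Hf : Finset G, ∀ x, x ∈ Hf ↔ x ∈ H :=
    ⟨hfin.toFinset, fun x => by rw [Set.Finite.mem_toFinset]; rfl⟩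
  obtain ⟨E, hE⟩ : ∃ E : Finset G, E = Hf ∪ Hf.image fun x => x * g := ⟨_, rfl⟩
  have hmem : ∀ x, x ∈ E ↔ x ∈ H ∨ ∃ y ∈ H, y * g = x := by
    intro x
    rw [hE, Finset.mem_union, hHf]
    simp only [Finset.mem_image, hHf]
  have hHE : ∀ x ∈ H, ∀ y ∈ E, x * y ∈ E := by
    intro x hx y hy
    rw [hmem] at hy ⊢
    rcases hy with hy | ⟨z, hz, rfl⟩
    · exact Or.inl (H.mul_mem hx hy)
    · exact Or.inr ⟨x * z, H.mul_mem hx hz, by rw [mul_assoc]⟩
  obtain ⟨U, hU⟩ : ∃ U : Finset G, U = E ∪ E.image fun x => g * x := ⟨_, rfl⟩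
  have hmul : ∀ x, (x ∈ H ∨ g⁻¹ * x ∈ H) → ∀ y ∈ E, x * y ∈ U := by
    intro x hx y hy
    rw [hU, Finset.mem_union, Finset.mem_image]
    rcases hx with hx | hx
    · exact Or.inl (hHE x hx y hy)
    · refine Or.inr ⟨g⁻¹ * x * y, hHE _ hx y hy, ?_⟩
      group
  have h1E : (1 : G) ∈ E := (hmem 1).mpr (Or.inl H.one_mem)
  have hgE : g ∈ E := (hmem g).mpr (Or.inr ⟨1, H.one_mem, one_mul _⟩)
  have hcard : U.card < E.card + E.card := by
    have h1 := Finset.card_union_add_card_inter E (E.image fun x => g * x)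
    rw [← hU, Finset.card_image_of_injective E (mul_right_injective g)] at h1
    have h2 : 0 < (E ∩ E.image fun x => g * x).card := by
      rw [Finset.card_pos]
      exact ⟨g, Finset.mem_inter.mpr ⟨hgE, Finset.mem_image.mpr ⟨1, h1E, mul_one g⟩⟩⟩
    omega
  have h1 := hG E (E.image fun x => f * x)
  rw [Finset.card_image_of_injective E (mul_right_injective f)] at h1
  have h2 : (E ∪ E.image fun x => f * x) ∪
      (Finset.univ.biUnion fun i => E.image fun g => s i * g) ∪
      (Finset.univ.biUnion fun i => (E.image fun x => f * x).image fun g => t i * g) ⊆ U := by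
    intro x hx
    rw [Finset.mem_union, Finset.mem_union, Finset.mem_union,
      Finset.mem_biUnion, Finset.mem_biUnion] at hx
    rcases hx with ((hx | hx) | ⟨i, _, hx⟩) | ⟨j, _, hx⟩
    · rw [hU, Finset.mem_union]
      exact Or.inl hx
    · rw [Finset.mem_image] at hx
      obtain ⟨y, hy, rfl⟩ := hx
      exact hmul f hf y hy
    · rw [Finset.mem_image] at hx
      obtain ⟨y, hy, rfl⟩ := hx
      exact hmul (s i) (hs i) y hy
    · rw [Finset.mem_image] at hx
      obtain ⟨y, hy, rfl⟩ := hx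
      rw [Finset.mem_image] at hy
      obtain ⟨z, hz, rfl⟩ := hy
      have := hmul (t j * f) (ht j) z hz
      rwa [mul_assoc] at this
  have h3 := Finset.card_le_card h2
  omega

end TARO
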