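import Pool.Agent.TARO.Defs

/-! FIXV: a fixed vector of a finite 2-group. -/

open Module

namespace TARO

/-- a finite 2-group acting on a nonzero finite dimensional space over `K` fixes a nonzero
vector -/
theorem exists_fixed {Q : Type} [Group Q] [Finite Q] (hQ : IsPGroup 2 Q) {E : Type}
    [AddCommGroup E] [Module K E] [FiniteDimensional K E] [Nontrivial E]
    (σ : Representation K Q E) : ∃ v : E, v ≠ 0 ∧ ∀ q, σ q v = v := by
  have hfin : Finite E := Module.finite_of_finite K
  let act : MulAction Q E :=
    { smul := fun q v => σ q v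
      one_smul := fun v => by
        show σ 1 v = v
        rw [map_one]
        rfl
      mul_smul := fun q q' v => by
        show σ (q * q') v = σ q (σ q' v)
        rw [map_mul]
        rfl }
  have hsmul : ∀ (q : Q) (v : E), q • v = σ q v := fun _ _ => rfl
  have hp : (2 : ℕ) ∣ Nat.card E := by
    have h1 : Nat.card E = Nat.card K ^ finrank K E := Module.natCard_eq_pow_finrank
    rw [h1]
    have h2 : Nat.card K = 2 := by simp [K]
    rw [h2]
    exact dvd_pow_self 2 (finrank_pos (R := K) (M := E)).ne'
  have h0 : (0 : E) ∈ MulAction.fixedPoints Q E := by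
    intro q
    rw [hsmul, map_zero]
  have : Fact (Nat.Prime 2) := ⟨Nat.prime_two⟩
  obtain ⟨v, hv, hv0⟩ := hQ.exists_fixed_point_of_prime_dvd_card_of_fixed_point E hp h0
  exact ⟨v, hv0.symm, fun q => by rw [← hsmul]; exact hv q⟩

end TARO
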