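import Pool.Agent.TARO.QUO

/-! FLOWQ: the flow space is closed under quotients by letters. -/

open Module

namespace TARO

variable {r k : ℕ}

theorem FLOWQ_gen (u : Fin k → F r) {D : ℕ} {w₁ w₂ : List (Al r)} (h₁ : w₁.length < D)
    (h₂ : w₂.length < D) (v : List (Fin k)) : wd w₁ * wp u v * wd w₂ ∈ flowW u D :=
  Submodule.subset_span ⟨w₁, w₂, v, h₁, h₂, rfl⟩

theorem FLOWQ_span {D : ℕ} {q : F r} (h : ∀ w : FreeMonoid (Al r), q.coeff w ≠ 0 → w.length < D) :
    q ∈ Submodule.span K {p : F r | ∃ w : List (Al r), w.length < D ∧ p = wd w} := by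
  rw [← MonoidAlgebra.sum_coeff_single q, Finsupp.sum]
  refine Submodule.sum_mem _ fun w hw => ?_
  have h1 : (MonoidAlgebra.single w (q.coeff w) : F r) = q.coeff w • wd w.toList := by
    rw [wd]
    apply MonoidAlgebra.ext
    simp
  rw [h1]
  exact Submodule.smul_mem _ _ (Submodule.subset_span
    ⟨w.toList, h w (Finsupp.mem_support_iff.mp hw), rfl⟩)

theorem wp_mem_flowW (u : Fin k → F r) {D : ℕ} (hD : 0 < D) (v : List (Fin k)) :
    wp u v ∈ flowW u D := by
  have h := FLOWQ_gen u (w₁ := []) (w₂ := []) (by simpa using hD) (by simpa using hD) v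
  rwa [wd_nil, one_mul, mul_one] at h

theorem flowW_lq (u : Fin k → F r) (hu : ∀ l, NC (u l)) {D : ℕ}
    (hD : ∀ l (w : FreeMonoid (Al r)), (u l).coeff w ≠ 0 → w.length ≤ D) (a : Al r) :
    (flowW u D).map (lq a) ≤ flowW u D := by
  rw [flowW, Submodule.map_span_le]
  rintro _ ⟨w₁, w₂, v, h₁, h₂, rfl⟩
  rw [← flowW]
  cases w₁ with
  | cons b w =>
    rw [mul_assoc, lq_mul_of_nc a (NC_wd _ (List.cons_ne_nil _ _)), lq_wd_cons]
    split_ifs
    · rw [← mul_assoc]
      exact FLOWQ_gen u (by simp only [List.length_cons] at h₁; omega) h₂ v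
    · rw [zero_mul]
      exact Submodule.zero_mem _
  | nil =>
    rw [wd_nil, one_mul]
    cases v with
    | nil =>
      have h3 : wp u [] = 1 := by simp [wp]
      rw [h3, one_mul]
      cases w₂ with
      | nil =>
        rw [wd_nil, lq_one]
        exact Submodule.zero_mem _
      | cons b w =>
        rw [lq_wd_cons]
        split_ifs
        · have h4 := FLOWQ_gen u (w₁ := []) (w₂ := w) (D := D) (by simpa using by omega)
            (by simp only [List.length_cons] at h₂; omega) []
          rwa [wd_nil, one_mul, h3, one_mul] at h4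
        · exact Submodule.zero_mem _
    | cons l v =>
      have h3 : wp u (l :: v) = u l * wp u v := by simp [wp]
      rw [h3, mul_assoc, lq_mul_of_nc a (hu l)]
      have h4 : lq a (u l) ∈ Submodule.span K {p : F r | ∃ w : List (Al r), w.length < D ∧ p = wd w} := by
        apply FLOWQ_span
        intro w hw
        rw [coeff_lq] at hw
        have h5 := hD l _ hw
        rw [FreeMonoid.length_mul, FreeMonoid.length_of] at h5
        omega
      have h5 : ∀ q ∈ Submodule.span K {p : F r | ∃ w : List (Al r), w.length < D ∧ p = wd w},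
          q * (wp u v * wd w₂) ∈ flowW u D := by
        intro q hq
        induction hq using Submodule.span_induction with
        | mem q hq =>
          obtain ⟨w, hw, rfl⟩ := hq
          rw [← mul_assoc]
          exact FLOWQ_gen u hw h₂ v
        | zero =>
          rw [zero_mul]
          exact Submodule.zero_mem _
        | add x y _ _ hx hy =>
          rw [add_mul]
          exact Submodule.add_mem _ hx hy
        | smul c x _ hx =>
          rw [smul_mul_assoc]
          exact Submodule.smul_mem _ _ hx
      exact h5 _ h4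

theorem flowW_rq (u : Fin k → F r) (hu : ∀ l, NC (u l)) {D : ℕ}
    (hD : ∀ l (w : FreeMonoid (Al r)), (u l).coeff w ≠ 0 → w.length ≤ D) (a : Al r) :
    (flowW u D).map (rq a) ≤ flowW u D := by
  rw [flowW, Submodule.map_span_le]
  rintro _ ⟨w₁, w₂, v, h₁, h₂, rfl⟩
  rw [← flowW]
  rcases List.eq_nil_or_concat' w₂ with rfl | ⟨w, b, rfl⟩
  · rw [wd_nil, mul_one]
    rcases List.eq_nil_or_concat' v with rfl | ⟨v, l, rfl⟩
    · have h3 : wp u [] = 1 := by simp [wp]
      rw [h3, mul_one]
      rcases List.eq_nil_or_concat' w₁ with rfl | ⟨w, b, rfl⟩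
      · rw [wd_nil, rq_one]
        exact Submodule.zero_mem _
      · rw [rq_wd_concat]
        split_ifs
        · have h4 := FLOWQ_gen u (w₁ := w) (w₂ := []) (D := D)
            (by simp only [List.length_append, List.length_singleton] at h₁; omega)
            (by simpa using by omega) []
          rwa [wd_nil, mul_one, h3, mul_one] at h4
        · exact Submodule.zero_mem _
    · have h3 : wp u (v ++ [l]) = wp u v * u l := by simp [wp]
      rw [h3, ← mul_assoc, rq_mul_of_nc a (hu l)]
      have h4 : rq a (u l) ∈ Submodule.span K {p : F r | ∃ w : List (Al r), w.length < D ∧ p = wd w} := by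
        apply FLOWQ_span
        intro w hw
        rw [coeff_rq] at hw
        have h5 := hD l _ hw
        rw [FreeMonoid.length_mul, FreeMonoid.length_of] at h5
        omega
      have h5 : ∀ q ∈ Submodule.span K {p : F r | ∃ w : List (Al r), w.length < D ∧ p = wd w},
          wd w₁ * wp u v * q ∈ flowW u D := by
        intro q hq
        induction hq using Submodule.span_induction with
        | mem q hq =>
          obtain ⟨w, hw, rfl⟩ := hq
          exact FLOWQ_gen u h₁ hw v
        | zero =>
          rw [mul_zero]
          exact Submodule.zero_mem _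
        | add x y _ _ hx hy =>
          rw [mul_add]
          exact Submodule.add_mem _ hx hy
        | smul c x _ hx =>
          rw [mul_smul_comm]
          exact Submodule.smul_mem _ _ hx
      exact h5 _ h4
  · rw [rq_mul_of_nc a (NC_wd _ (by simp)), rq_wd_concat]
    split_ifs
    · exact FLOWQ_gen u h₁ (by simp only [List.length_append, List.length_singleton] at h₂; omega) v
    · rw [mul_zero]
      exact Submodule.zero_mem _

end TARO
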