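import Pool.Agent.TARO.DIMX
import Pool.Agent.TARO.PT

/-! FLT: basic facts on the filtration. -/

open Module

namespace TARO

variable {r : ℕ}

theorem YC_le (ψ : Cm r) : YC ψ ≤ Fd r 1 := by
  unfold YC
  rw [Submodule.span_le]
  rintro _ ⟨j, rfl⟩
  refine Submodule.add_mem _ (wd_mem_Fd [Sum.inr j]) (Submodule.sum_mem _ fun i _ => ?_)
  exact Submodule.smul_mem _ _ (wd_mem_Fd [Sum.inl i])

private theorem FLT_one_le (ψ : Cm r) : Fd r 1 ≤ XM r ⊔ YC ψ := by
  rw [Fd_one]
  refine sup_le le_sup_left ?_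
  unfold YM
  rw [Submodule.span_le]
  rintro _ ⟨j, rfl⟩
  have e : (wd [Sum.inr j] : F r) =
      yl ψ j - ∑ i : Fin (r + 1), ψ j i • (wd [Sum.inl i] : F r) := by
    unfold yl
    rw [add_sub_cancel_right]
  show (wd [Sum.inr j] : F r) ∈ XM r ⊔ YC ψ
  rw [e]
  refine Submodule.sub_mem _ (Submodule.mem_sup_right (Submodule.subset_span ⟨j, rfl⟩))
    (Submodule.mem_sup_left (Submodule.sum_mem _ fun i _ => ?_))
  exact Submodule.smul_mem _ _ (Submodule.subset_span ⟨i, rfl⟩)

theorem Flt_zero (c : ℕ → Cm r) (n : ℕ) : Flt c n 0 = Fd r n := by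
  cases n <;> rfl

theorem Flt_succ (c : ℕ → Cm r) (n j : ℕ) :
    Flt c (n + 1) (j + 1) = XM r * Flt c n (j + 1) ⊔ YC (c n) * Flt c n j := rfl

theorem Flt_le (c : ℕ → Cm r) (n j : ℕ) : Flt c n j ≤ Fd r n := by
  induction n generalizing j with
  | zero =>
    cases j with
    | zero => exact le_rfl
    | succ j => exact bot_le
  | succ n ih =>
    cases j with
    | zero => exact le_rfl
    | succ j =>
      rw [Flt_succ]
      have h1 : Fd r (n + 1) = Fd r 1 * Fd r n := by rw [Fd_mul, add_comm]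
      rw [h1]
      exact sup_le (mul_le_mul' XM_le (ih _)) (mul_le_mul' (YC_le _) (ih _))

private theorem FLT_anti_succ (c : ℕ → Cm r) (n j : ℕ) : Flt c n (j + 1) ≤ Flt c n j := by
  induction n generalizing j with
  | zero => exact bot_le
  | succ n ih =>
    cases j with
    | zero =>
      rw [Flt_zero]
      exact Flt_le _ _ _
    | succ j =>
      rw [Flt_succ, Flt_succ]
      exact sup_le_sup (mul_le_mul' le_rfl (ih _)) (mul_le_mul' le_rfl (ih _))

theorem Flt_anti (c : ℕ → Cm r) (n : ℕ) {i j : ℕ} (h : i ≤ j) : Flt c n j ≤ Flt c n i :=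
  antitone_nat_of_succ_le (f := fun j => Flt c n j) (FLT_anti_succ c n) h

theorem Flt_bot (c : ℕ → Cm r) {n j : ℕ} (h : n < j) : Flt c n j = ⊥ := by
  induction n generalizing j with
  | zero =>
    cases j with
    | zero => exact absurd h (lt_irrefl _)
    | succ j => rfl
  | succ n ih =>
    cases j with
    | zero => omega
    | succ j =>
      rw [Flt_succ, ih (by omega : n < j + 1), ih (by omega : n < j), Submodule.mul_bot,
        Submodule.mul_bot, sup_bot_eq]

private theorem FLT_one_mul (c : ℕ → Cm r) (n j : ℕ) :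
    Fd r 1 * Flt c n j ≤ Flt c (n + 1) j := by
  cases j with
  | zero =>
    rw [Flt_zero, Flt_zero, Fd_mul, add_comm]
  | succ j =>
    rw [Flt_succ]
    refine (mul_le_mul' (FLT_one_le (c n)) le_rfl).trans ?_
    rw [Submodule.sup_mul]
    exact sup_le_sup le_rfl (mul_le_mul' le_rfl (FLT_anti_succ c n j))

theorem Fd_mul_Flt (c : ℕ → Cm r) (d n j : ℕ) : Fd r d * Flt c n j ≤ Flt c (n + d) j := by
  induction d with
  | zero =>
    rw [Fd_zero, one_mul]
    exact le_rfl
  | succ d ih =>
    have h1 : Fd r (d + 1) = Fd r 1 * Fd r d := by rw [Fd_mul, add_comm]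
    rw [h1, mul_assoc]
    exact (mul_le_mul' le_rfl ih).trans (FLT_one_mul c (n + d) j)

/-- the filtration only depends on the complements at the levels below `n` -/
theorem Flt_congr {c c' : ℕ → Cm r} {n : ℕ} (h : ∀ t, t < n → c t = c' t) (j : ℕ) :
    Flt c n j = Flt c' n j := by
  induction n generalizing j with
  | zero => cases j <;> rfl
  | succ n ih =>
    cases j with
    | zero => rfl
    | succ j =>
      rw [Flt_succ, Flt_succ, h n (Nat.lt_succ_self n), ih (fun t ht => h t (by omega)),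
        ih (fun t ht => h t (by omega))]

end TARO
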