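import Pool.Agent.TARO.COMP

/-! FLTM: the filtration is multiplicative. -/

open Module

namespace TARO

variable {r : ℕ}

/-- induction on `n` for all `i`: for `n = 0`, `i = 0` use `Fd r 0 = span {1}`; for `n + 1`,
`i + 1` use `Flt_succ` for `shift c m`, associativity and `shift c m n = c (m + n)`; for `i = 0`
use `Fd_mul_Flt` -/
theorem Flt_mul (c : ℕ → Cm r) (m n i j : ℕ) :
    Flt (shift c m) n i * Flt c m j ≤ Flt c (m + n) (i + j) := by
  induction n generalizing i with
  | zero =>
    cases i with
    | zero =>
      rw [Flt_zero, Fd_zero, one_mul, add_zero, zero_add]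
    | succ i =>
      rw [Flt_bot (shift c m) (Nat.succ_pos i), Submodule.bot_mul]
      exact bot_le
  | succ n ih =>
    cases i with
    | zero =>
      rw [Flt_zero, zero_add]
      exact Fd_mul_Flt c (n + 1) m j
    | succ i =>
      have h1 : Flt c (m + (n + 1)) (i + 1 + j) =
          XM r * Flt c (m + n) (i + 1 + j) ⊔ YC (c (m + n)) * Flt c (m + n) (i + j) := by
        have h2 : i + 1 + j = i + j + 1 := by omega
        rw [h2, ← add_assoc, Flt_succ]
      rw [Flt_succ, Submodule.sup_mul, mul_assoc, mul_assoc, h1]
      have h3 : shift c m n = c (m + n) := rfl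
      rw [h3]
      exact sup_le_sup (mul_le_mul' le_rfl (ih (i + 1)))
        (mul_le_mul' le_rfl (ih i))

end TARO
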