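import Pool.Agent.TARO.HOMG

/-! GHG: the Hall inequality for finite sets. -/

open Module

namespace TARO

variable {sx sy : ℕ}

theorem GHG_span_image {G V : Type} [DecidableEq G] [AddCommGroup V] [Module K V]
    (v : G → V) (A : Finset G) (h : LinearIndepOn K v (A : Set G)) :
    finrank K (Submodule.span K (v '' (A : Set G))) = A.card := by
  classical
  have h1 : LinearIndependent K (fun a : A => v a) := h
  have h2 := finrank_span_eq_card h1
  have h3 : Set.range (fun a : A => v a) = v '' (A : Set G) := by
    ext z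
    constructor
    · rintro ⟨a, rfl⟩
      exact ⟨a, a.2, rfl⟩
    · rintro ⟨a, ha, rfl⟩
      exact ⟨⟨a, ha⟩, rfl⟩
  rw [h3] at h2
  rw [h2]
  simp

theorem GHG_span_le {G V : Type} [DecidableEq G] [AddCommGroup V] [Module K V]
    (v : G → V) (A : Finset G) :
    finrank K (Submodule.span K (v '' (A : Set G))) ≤ A.card := by
  classical
  have h := finrank_span_finset_le_card (R := K) (A.image v)
  rw [Finset.coe_image] at h
  exact h.trans Finset.card_image_le

theorem ghset_of_rep {G : Type} [Group G] [DecidableEq G] {M : Type} [AddCommGroup M]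
    [Module K M] (ρ : Representation K G M) (x : Fin sx → G) (y : Fin sy → G)
    (h : GHlin (fun i => ρ (x i)) (fun i => ρ (y i))) (hnt : ∃ m : M, m ≠ 0)
    (htr : ∀ S : Finset G, ∃ (Q : Type) (_ : Group Q) (_ : Finite Q) (π : G →* Q),
      IsPGroup 2 Q ∧ Set.InjOn π (S : Set G)) : GHset x y := by
  classical
  intro F₁ F₂
  obtain ⟨m0, hm0⟩ := hnt
  set S : Finset G := ((F₁ ∪ F₂) ∪ (Finset.univ.biUnion fun i => F₁.image fun g => x i * g) ∪
        (Finset.univ.biUnion fun i => F₂.image fun g => y i * g)) with hS
  obtain ⟨Q, iQ, fQ, π, hQ, hinj⟩ := htr S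
  have hfin : Fintype Q := Fintype.ofFinite Q
  let σ : Representation K Q (Q →₀ K) :=
    { toFun := fun q => Finsupp.lmapDomain K K (fun z => q * z)
      map_one' := by
        ext z w
        simp [Finsupp.mapDomain_single]
      map_mul' := fun q q' => by
        ext z w
        simp [Finsupp.mapDomain_single, mul_assoc] }
  have H := homg hQ π ρ x y h (Q →₀ K) σ
  let b : (Q →₀ K) →ₗ[K] M := (LinearMap.toSpanSingleton K M m0) ∘ₗ (Finsupp.lapply 1)
  let v : G → ((Q →₀ K) →ₗ[K] M) := fun g => Representation.linHom (σ.comp π) ρ g b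
  have hv : ∀ g q (c : K), v g (Finsupp.single q c) = if q = π g then c • ρ g m0 else 0 := by
    intro g q c
    have h1 : v g (Finsupp.single q c) = ρ g (b (σ (π g⁻¹) (Finsupp.single q c))) := rfl
    rw [h1]
    have h2 : σ (π g⁻¹) (Finsupp.single q c) = Finsupp.single (π g⁻¹ * q) c := by
      exact Finsupp.mapDomain_single
    rw [h2]
    have h3 : b (Finsupp.single (π g⁻¹ * q) c) = (Finsupp.single (π g⁻¹ * q) c) 1 • m0 := rfl
    rw [h3, Finsupp.single_apply]
    have h4 : (π g⁻¹ * q = 1) ↔ q = π g := by
      rw [map_inv, inv_mul_eq_one]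
      exact eq_comm
    by_cases hq : q = π g
    · rw [if_pos (h4.2 hq), if_pos hq, map_smul]
    · rw [if_neg (fun hh => hq (h4.1 hh)), if_neg hq, zero_smul, map_zero]
  have hmul : ∀ g g' : G, Representation.linHom (σ.comp π) ρ g (v g') = v (g * g') := by
    intro g g'
    have : v (g * g') = Representation.linHom (σ.comp π) ρ (g * g') b := rfl
    rw [this, map_mul]
    rfl
  have hne : ∀ g : G, ρ g m0 ≠ 0 := by
    intro g hg
    apply hm0
    have h1 : ρ g⁻¹ (ρ g m0) = m0 := by
      rw [← Module.End.mul_apply, ← map_mul, inv_mul_cancel, map_one]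
      rfl
    rw [← h1, hg, map_zero]
  have hli : LinearIndepOn K v (S : Set G) := by
    have : LinearIndependent K (fun a : S => v a) := by
      rw [Fintype.linearIndependent_iff]
      intro c hc a
      have h1 := congrArg (fun f : (Q →₀ K) →ₗ[K] M => f (Finsupp.single (π a) 1)) hc
      simp only [LinearMap.sum_apply, LinearMap.smul_apply, LinearMap.zero_apply, hv] at h1
      rw [Finset.sum_eq_single a] at h1
      · rw [if_pos rfl, one_smul] at h1
        exact (smul_eq_zero.1 h1).resolve_right (hne a)
      · intro b' _ hb'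
        rw [if_neg, smul_zero]
        intro heq
        apply hb'
        exact Subtype.ext (hinj b'.2 a.2 heq.symm)
      · intro ha
        exact absurd (Finset.mem_univ a) ha
    exact this
  have hsub1 : F₁ ⊆ S := by
    intro g hg
    simp only [hS, Finset.mem_union]
    exact Or.inl (Or.inl (Or.inl hg))
  have hsub2 : F₂ ⊆ S := by
    intro g hg
    simp only [hS, Finset.mem_union]
    exact Or.inl (Or.inl (Or.inr hg))
  have e1 : finrank K (Submodule.span K (v '' (F₁ : Set G))) = F₁.card :=
    GHG_span_image v F₁ (hli.mono (Finset.coe_subset.2 hsub1))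
  have e2 : finrank K (Submodule.span K (v '' (F₂ : Set G))) = F₂.card :=
    GHG_span_image v F₂ (hli.mono (Finset.coe_subset.2 hsub2))
  have f1 : FiniteDimensional K (Submodule.span K (v '' (F₁ : Set G))) :=
    FiniteDimensional.span_of_finite K (F₁.finite_toSet.image v)
  have f2 : FiniteDimensional K (Submodule.span K (v '' (F₂ : Set G))) :=
    FiniteDimensional.span_of_finite K (F₂.finite_toSet.image v)
  have f3 : FiniteDimensional K (Submodule.span K (v '' (S : Set G))) :=
    FiniteDimensional.span_of_finite K (S.finite_toSet.image v)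
  have H2 := H _ _ f1 f2
  rw [e1, e2] at H2
  refine H2.trans (le_trans (Submodule.finrank_mono ?_) (GHG_span_le v S))
  refine sup_le (sup_le (sup_le ?_ ?_) (iSup_le fun i => ?_)) (iSup_le fun i => ?_)
  · exact Submodule.span_mono (Set.image_mono (Finset.coe_subset.2 hsub1))
  · exact Submodule.span_mono (Set.image_mono (Finset.coe_subset.2 hsub2))
  · rw [Submodule.map_span, Submodule.span_le]
    rintro z ⟨w, ⟨g, hg, rfl⟩, rfl⟩
    apply Submodule.subset_span
    refine ⟨x i * g, ?_, (hmul _ _).symm⟩
    simp only [hS, Finset.coe_union, Set.mem_union, Finset.mem_coe, Finset.mem_biUnion,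
      Finset.mem_univ, true_and, Finset.mem_image]
    exact Or.inl (Or.inr ⟨i, g, hg, rfl⟩)
  · rw [Submodule.map_span, Submodule.span_le]
    rintro z ⟨w, ⟨g, hg, rfl⟩, rfl⟩
    apply Submodule.subset_span
    refine ⟨y i * g, ?_, (hmul _ _).symm⟩
    simp only [hS, Finset.coe_union, Set.mem_union, Finset.mem_coe, Finset.mem_biUnion,
      Finset.mem_univ, true_and, Finset.mem_image]
    exact Or.inr ⟨i, g, hg, rfl⟩

end TARO
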