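import Pool.Agent.TARO.GR
import Pool.Agent.TARO.FILM

/-! GRX: leading parts and letters. -/

open Module

namespace TARO

variable {r m : ℕ} {P : ℕ → Submodule K (F r)}

theorem GRX_gen (hP : LeftClosed r P) (D : QData r P) (V : Submodule K (F r ⧸ PI P))
    (n : ℕ) (c : Fin m → Al r) :
    Submodule.span K (Set.range fun i : Fin m => (wd [c i] : F r)) * D.gr V n ≤
      D.gr (⨆ i : Fin m, V.map (D.ρ (wd [c i]))) (n + 1) := by
  rw [Submodule.mul_le]
  intro x hx p hp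
  refine Submodule.span_induction (p := fun x _ => x * p ∈
    D.gr (⨆ i : Fin m, V.map (D.ρ (wd [c i]))) (n + 1)) ?_ ?_ ?_ ?_ hx
  · rintro _ ⟨i, rfl⟩
    obtain ⟨hp1, hp2⟩ := Submodule.mem_inf.1 hp
    obtain ⟨z, ⟨hm1, hm2⟩, hm3⟩ := hp2
    refine Submodule.mem_inf.2 ⟨?_, ?_⟩
    · have h := Submodule.mul_mem_mul (wd_mem_Fd [c i]) hp1
      rw [Fd_mul, List.length_singleton, Nat.add_comm] at h
      exact h
    · refine ⟨D.ρ (wd [c i]) z, ⟨?_, ?_⟩, ?_⟩
      · exact Submodule.mem_iSup_of_mem i ⟨z, hm1, rfl⟩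
      · exact map_mem_Fil hP D n (c i) z hm2
      · exact pi_letter hP D n (c i) z p hm3 hp1
  · simp only [zero_mul]
    exact Submodule.zero_mem _
  · intro x y _ _ h1 h2
    simp only [add_mul]
    exact Submodule.add_mem _ h1 h2
  · intro a x _ h1
    simp only [smul_mul_assoc]
    exact Submodule.smul_mem _ a h1

theorem X_mul_gr_le (hP : LeftClosed r P) (D : QData r P) (V : Submodule K (F r ⧸ PI P))
    (n : ℕ) : XM r * D.gr V n ≤
      D.gr (⨆ i : Fin (r + 1), V.map (D.ρ (wd [Sum.inl i]))) (n + 1) :=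
  GRX_gen hP D V n Sum.inl

theorem Y_mul_gr_le (hP : LeftClosed r P) (D : QData r P) (V : Submodule K (F r ⧸ PI P))
    (n : ℕ) : YM r * D.gr V n ≤
      D.gr (⨆ i : Fin (r + 2), V.map (D.ρ (wd [Sum.inr i]))) (n + 1) :=
  GRX_gen hP D V n Sum.inr

end TARO
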