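import Pool.Agent.TARO.GRS
import Pool.Agent.TARO.GRX

/-! GHM: the Hall inequality in the quotient. -/

open Module

namespace TARO

variable {r : ℕ} {P : ℕ → Submodule K (F r)}

theorem ghm_rng (L : ℕ) (a : ℕ → ℕ) (M : ℕ) :
    ∑ n ∈ Finset.range (L * M), a n =
      ∑ t ∈ Finset.range M, ∑ i ∈ Finset.range L, a (L * t + i) := by
  induction M with
  | zero => simp
  | succ M ih =>
    rw [Nat.mul_succ, Finset.sum_range_add, ih, Finset.sum_range_succ]

theorem ghm {L : ℕ} (hL : 1 ≤ L) (hP : LeftClosed r P) (h2 : ∀ n, L ∣ n → HL r L P n)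
    (D : QData r P) :
    GHlin (fun i : Fin (r + 1) => D.ρ (wd [Sum.inl i]))
      (fun i : Fin (r + 2) => D.ρ (wd [Sum.inr i])) := by
  intro V₁ V₂ f1 f2
  set W : Submodule K (F r ⧸ PI P) := V₁ ⊔ V₂ ⊔
    (⨆ i : Fin (r + 1), V₁.map (D.ρ (wd [Sum.inl i]))) ⊔
      (⨆ i : Fin (r + 2), V₂.map (D.ρ (wd [Sum.inr i]))) with hW
  have := f1
  have := f2
  have fW : FiniteDimensional K W := by
    rw [hW]
    infer_instance
  have l1 : V₁ ≤ W := le_trans le_sup_left (le_trans le_sup_left le_sup_left)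
  have l2 : V₂ ≤ W := le_trans le_sup_right (le_trans le_sup_left le_sup_left)
  have lx : (⨆ i : Fin (r + 1), V₁.map (D.ρ (wd [Sum.inl i]))) ≤ W :=
    le_trans le_sup_right le_sup_left
  have ly : (⨆ i : Fin (r + 2), V₂.map (D.ρ (wd [Sum.inr i]))) ≤ W := le_sup_right
  obtain ⟨N1, hN1⟩ := finrank_eq_sum hP D V₁
  obtain ⟨N2, hN2⟩ := finrank_eq_sum hP D V₂
  obtain ⟨N3, hN3⟩ := finrank_eq_sum hP D W
  set M := N1 + N2 + N3 with hM
  have hLM : M ≤ L * M := Nat.le_mul_of_pos_left M hL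
  have e1 := hN1 (L * M) (by omega)
  have e2 := hN2 (L * M) (by omega)
  have e3 := hN3 (L * M + 1) (by omega)
  rw [e1, e2, e3, ghm_rng, ghm_rng, ← Finset.sum_add_distrib, Finset.sum_range_succ']
  refine le_trans ?_ (Nat.le_add_right _ _)
  rw [ghm_rng L (fun n => rd (D.gr W (n + 1)) (P (n + 1)))]
  apply Finset.sum_le_sum
  intro t _
  have key := h2 (L * t) ⟨t, rfl⟩
    (fun i => if i < L then D.gr V₁ (L * t + i) else ⊥)
    (fun i => if i < L then D.gr V₂ (L * t + i) else ⊥)
    (fun i => by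
      split_ifs
      · exact gr_le D _ _
      · exact bot_le)
    (fun i => by
      split_ifs
      · exact gr_le D _ _
      · exact bot_le)
    (if_neg (lt_irrefl L)) (if_neg (lt_irrefl L))
  rw [← Finset.sum_add_distrib]
  refine le_trans (le_of_eq ?_) (key.trans ?_)
  · refine Finset.sum_congr rfl fun i hi => ?_
    rw [if_pos (Finset.mem_range.1 hi), if_pos (Finset.mem_range.1 hi)]
  · refine Finset.sum_le_sum fun i hi => ?_
    have fd : FiniteDimensional K (D.gr W (L * t + (i + 1))) :=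
      finiteDimensional_of_le_Fd (gr_le D _ _)
    have hi' := Finset.mem_range.1 hi
    refine rd_mono_left (P (L * t + (i + 1))) ?_
    rw [if_pos hi', if_pos hi']
    refine sup_le (sup_le (sup_le ?_ ?_) ?_) ?_
    · split_ifs
      · exact gr_mono D l1 _
      · exact bot_le
    · split_ifs
      · exact gr_mono D l2 _
      · exact bot_le
    · exact (X_mul_gr_le hP D V₁ (L * t + i)).trans (gr_mono D lx _)
    · exact (Y_mul_gr_le hP D V₂ (L * t + i)).trans (gr_mono D ly _)

end TARO
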