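import Pool.Agent.TARO.WD

/-! GLUE: restriction, congruence and gluing of good families. -/

open Module

namespace TARO

variable {r : ℕ}

theorem HL.congr {L : ℕ} {P Q : ℕ → Submodule K (F r)} {b : ℕ} (hP : HL r L P b)
    (h : ∀ i, i ≤ L → P (b + i) = Q (b + i)) : HL r L Q b := by
  intro V₁ V₂ hV₁ hV₂ h₁ h₂
  have e := hP V₁ V₂ hV₁ hV₂ h₁ h₂
  have e1 : ∑ i ∈ Finset.range L, (rd (V₁ i) (P (b + i)) + rd (V₂ i) (P (b + i))) =
      ∑ i ∈ Finset.range L, (rd (V₁ i) (Q (b + i)) + rd (V₂ i) (Q (b + i))) :=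
    Finset.sum_congr rfl fun i hi => by
      rw [h i (Finset.mem_range.1 hi).le]
  have e2 : ∑ i ∈ Finset.range L,
        rd (V₁ (i + 1) ⊔ V₂ (i + 1) ⊔ XM r * V₁ i ⊔ YM r * V₂ i) (P (b + (i + 1))) =
      ∑ i ∈ Finset.range L,
        rd (V₁ (i + 1) ⊔ V₂ (i + 1) ⊔ XM r * V₁ i ⊔ YM r * V₂ i) (Q (b + (i + 1))) :=
    Finset.sum_congr rfl fun i hi => by
      rw [h (i + 1) (Finset.mem_range.1 hi)]
  rwa [e1, e2] at e

theorem Good.congr {L : ℕ} {R : Rels r} {b e : ℕ} {P Q : ℕ → Submodule K (F r)}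
    (hP : Good r L R b e P) (h : ∀ n, b ≤ n → n ≤ e → P n = Q n) : Good r L R b e Q where
  le n hb he := by
    rw [← h n hb he]
    exact hP.le n hb he
  closed n hb he := by
    rw [← h n hb (by omega), ← h (n + 1) (by omega) he]
    exact hP.closed n hb he
  hl n hn hb he := (hP.hl n hn hb he).congr fun i hi => h (n + i) (by omega) (by omega)
  rel p hp t hb he := by
    rw [← h ((t + 1) * p.1) (hb.trans (Nat.mul_le_mul_right _ (Nat.le_succ t))) he]
    exact hP.rel p hp t hb he

theorem Good.restrict {L : ℕ} {R : Rels r} {b e b' e' : ℕ} {P : ℕ → Submodule K (F r)}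
    (hP : Good r L R b e P) (hb : b ≤ b') (he : e' ≤ e) : Good r L R b' e' P where
  le n h1 h2 := hP.le n (hb.trans h1) (h2.trans he)
  closed n h1 h2 := hP.closed n (hb.trans h1) (h2.trans he)
  hl n hn h1 h2 := hP.hl n hn (hb.trans h1) (h2.trans he)
  rel p hp t h1 h2 := hP.rel p hp t (hb.trans h1) (h2.trans he)

theorem Good.mono_rels {L : ℕ} {R R' : Rels r} {b e : ℕ} {P : ℕ → Submodule K (F r)}
    (hP : Good r L R b e P) (h : R' ⊆ R) : Good r L R' b e P where
  le := hP.le
  closed := hP.closed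
  hl := hP.hl
  rel p hp t h1 h2 := hP.rel p (h hp) t h1 h2

theorem Good.glue {L : ℕ} {R : Rels r} {b c e : ℕ} {P Q : ℕ → Submodule K (F r)}
    (hP : Good r L R b c P) (hQ : Good r L R c e Q) (hc : P c = Q c) (hev : L ∣ c)
    (hdiv : ∀ p ∈ R, 0 < p.1 ∧ p.1 ∣ c) :
    Good r L R b e (fun n => if n ≤ c then P n else Q n) := by
  have e1 : ∀ n, n ≤ c → (if n ≤ c then P n else Q n) = P n := fun n hn => if_pos hn
  have e2 : ∀ n, c ≤ n → (if n ≤ c then P n else Q n) = Q n := fun n hn => by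
    by_cases h : n ≤ c
    · have h' : n = c := le_antisymm h hn
      rw [if_pos h, h', hc]
    · rw [if_neg h]
  refine ⟨fun n hb he => ?_, fun n hb he => ?_, fun n hn hb he => ?_, fun p hp t hb he => ?_⟩
  · by_cases h : n ≤ c
    · simp only [e1 n h]
      exact hP.le n hb h
    · simp only [e2 n (by omega)]
      exact hQ.le n (by omega) he
  · by_cases h : n + 1 ≤ c
    · simp only [e1 n (by omega), e1 (n + 1) h]
      exact hP.closed n hb h
    · simp only [e2 n (by omega), e2 (n + 1) (by omega)]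
      exact hQ.closed n (by omega) he
  · by_cases h : n + L ≤ c
    · exact (hP.hl n hn hb h).congr fun i hi => (e1 (n + i) (by omega)).symm
    · have h' : c ≤ n := by
        obtain ⟨a, rfl⟩ := hn
        obtain ⟨d, rfl⟩ := hev
        by_contra h2
        have h3 : a < d := by
          by_contra h4
          exact h2 (Nat.mul_le_mul_left L (not_lt.1 h4))
        have h5 : L * (a + 1) ≤ L * d := Nat.mul_le_mul_left L h3
        rw [Nat.mul_succ] at h5
        exact h h5
      exact (hQ.hl n hn h' he).congr fun i hi => (e2 (n + i) (by omega)).symm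
  · obtain ⟨hp0, k, hk⟩ := hdiv p hp
    by_cases h : t < k
    · have h' : (t + 1) * p.1 ≤ c := by
        rw [hk, mul_comm p.1 k]
        exact Nat.mul_le_mul_right _ h
      simp only [e1 _ h']
      exact hP.rel p hp t hb h'
    · have h' : c ≤ t * p.1 := by
        rw [hk, mul_comm p.1 k]
        exact Nat.mul_le_mul_right _ (not_lt.mp h)
      have h'' : c ≤ (t + 1) * p.1 := h'.trans (Nat.mul_le_mul_right _ (Nat.le_succ t))
      simp only [e2 _ h'']
      exact hQ.rel p hp t h' he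

end TARO
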