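import Pool.Agent.TARO.FILP
import Pool.Agent.TARO.RD

/-! GR: leading parts. -/

open Module

namespace TARO

variable {r : ℕ} {P : ℕ → Submodule K (F r)}

/-- rank-nullity for the restriction of a linear map to a subspace -/
theorem GR_rank {E E' : Type*} [AddCommGroup E] [Module K E] [AddCommGroup E'] [Module K E']
    (φ : E →ₗ[K] E') (A : Submodule K E) [FiniteDimensional K A] :
    finrank K (A.map φ) + finrank K (A ⊓ LinearMap.ker φ : Submodule K E) = finrank K A := by
  have h := LinearMap.finrank_range_add_finrank_ker (φ.domRestrict A)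
  rw [LinearMap.range_domRestrict, LinearMap.ker_domRestrict] at h
  have h2 : (LinearMap.ker φ).comap A.subtype = (A ⊓ LinearMap.ker φ).comap A.subtype := by
    ext x
    simp
  have h3 : finrank K ((LinearMap.ker φ).comap A.subtype) =
      finrank K (A ⊓ LinearMap.ker φ : Submodule K E) := by
    rw [h2]
    exact (Submodule.comapSubtypeEquivOfLe (inf_le_left : A ⊓ LinearMap.ker φ ≤ A)).finrank_eq
  rw [h3] at h
  exact h

theorem gr_le (D : QData r P) (V : Submodule K (F r ⧸ PI P)) (n : ℕ) : D.gr V n ≤ Fd r n :=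
  inf_le_left

theorem le_gr (hP : LeftClosed r P) (D : QData r P) (V : Submodule K (F r ⧸ PI P)) (n : ℕ) :
    P n ≤ D.gr V n := by
  intro p hp
  refine Submodule.mem_inf.mpr ⟨hP.le n hp, ?_⟩
  rw [Submodule.mem_comap]
  have h0 : (P n).mkQ p = 0 := by
    rw [Submodule.mkQ_apply, Submodule.Quotient.mk_eq_zero]
    exact hp
  rw [h0]
  exact Submodule.zero_mem _

theorem gr_mono (D : QData r P) {V W : Submodule K (F r ⧸ PI P)} (h : V ≤ W) (n : ℕ) :
    D.gr V n ≤ D.gr W n :=
  inf_le_inf_left _ (Submodule.comap_mono (Submodule.map_mono (inf_le_inf_right _ h)))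

theorem finrank_inf_Fil (hP : LeftClosed r P) (D : QData r P)
    (V : Submodule K (F r ⧸ PI P)) [FiniteDimensional K V] (n : ℕ) :
    finrank K (V ⊓ D.Fil n : Submodule K (F r ⧸ PI P)) =
      rd (D.gr V n) (P n) + finrank K (V ⊓ D.Fil (n + 1) : Submodule K (F r ⧸ PI P)) := by
  have : FiniteDimensional K (V ⊓ D.Fil n : Submodule K (F r ⧸ PI P)) :=
    Submodule.finiteDimensional_inf_left _ _
  have : FiniteDimensional K (D.gr V n) := finiteDimensional_of_le_Fd (gr_le D V n)
  have h1 := GR_rank (D.π n) (V ⊓ D.Fil n)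
  rw [inf_assoc, ← Fil_succ] at h1
  have h2 := GR_rank (P n).mkQ (D.gr V n)
  rw [Submodule.ker_mkQ] at h2
  have h3 : (D.gr V n).map (P n).mkQ = (V ⊓ D.Fil n).map (D.π n) := by
    apply le_antisymm
    · rw [Submodule.map_le_iff_le_comap]
      exact inf_le_right
    · rintro _ ⟨m, hm, rfl⟩
      obtain ⟨g, rfl⟩ := Submodule.mkQ_surjective (PI P) m
      refine ⟨part n g, Submodule.mem_inf.mpr ⟨?_, ?_⟩, (D.hπ n g).symm⟩
      · exact part_mem n g
      · rw [Submodule.mem_comap, ← D.hπ n g]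
        exact ⟨_, hm, rfl⟩
  have h4 := rd_add_inf (D.gr V n) (P n)
  rw [h3] at h2
  omega

end TARO
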