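import Pool.Agent.TARO.JET

/-! JETW: coefficients of products of the elements `1 + a`. -/

open Module

namespace TARO

variable {r : ℕ}

/-- the identity between the quadratic and the linear coefficients of a product of letters
`1 + a` -/
def Asy (f : F r) : Prop :=
  ∀ a b : Al r, qv f a b + qv f b a = lv f a * lv f b + if a = b then lv f a else 0

theorem EW_append (s t : List (Al r)) : EW (s ++ t) = EW s * EW t := by
  unfold EW
  rw [List.map_append, List.prod_append]

private theorem JETW_one : (1 : F r).coeff 1 = 1 := by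
  rw [← wd_nil, coeff_wd]
  exact if_pos rfl

private theorem JETW_wd (a : Al r) : (wd [a] : F r).coeff 1 = 0 := NC_wd [a] (by simp)

private theorem JETW_gen (a : Al r) : (1 + wd [a] : F r).coeff 1 = 1 := by
  change (1 : F r).coeff 1 + (wd [a] : F r).coeff 1 = 1
  rw [JETW_one, JETW_wd, add_zero]

private theorem JETW_cons (a : Al r) (s : List (Al r)) : EW (a :: s) = (1 + wd [a]) * EW s := by
  unfold EW
  rw [List.map_cons, List.prod_cons]

private theorem JETW_nil : EW ([] : List (Al r)) = 1 := rfl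

theorem EW_coeff_one (s : List (Al r)) : (EW s).coeff 1 = 1 := by
  induction s with
  | nil => rw [JETW_nil, JETW_one]
  | cons a s ih => rw [JETW_cons, coeff_one_mul, ih, JETW_gen, one_mul]

theorem NC_EW_sub_one (s : List (Al r)) : NC (EW s - 1) := by
  change (EW s).coeff 1 - (1 : F r).coeff 1 = 0
  rw [EW_coeff_one, JETW_one, sub_self]

/-- characteristic 2 -/
theorem Asy.mul {f g : F r} (hf : Asy f) (hg : Asy g) (hf1 : f.coeff 1 = 1)
    (hg1 : g.coeff 1 = 1) : Asy (f * g) := by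
  intro a b
  have h1 := hf a b
  have h2 := hg a b
  rw [qv_mul, qv_mul, lv_mul, lv_mul, hf1, hg1]
  split_ifs at h1 h2 ⊢ with h
  · linear_combination h1 + h2
  · linear_combination h1 + h2

private theorem JETW_Asy_one : Asy (1 : F r) := by
  intro a b
  rw [qv_one, qv_one, lv_one, lv_one]
  split_ifs <;> simp

private theorem JETW_Asy_gen (c : Al r) : Asy (1 + wd [c] : F r) := by
  intro a b
  rw [qv_add, qv_add, qv_one, qv_one, qv_wd, qv_wd, lv_add, lv_add, lv_one, lv_one, lv_wd, lv_wd]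
  by_cases h : a = b
  · subst h
    rw [if_pos rfl]
    split_ifs
    · decide
    · decide
  · rw [if_neg h]
    by_cases h1 : c = a
    · have h2 : c ≠ b := fun h' => h (h1 ▸ h')
      rw [if_neg h2]
      ring
    · rw [if_neg h1]
      ring

theorem Asy_EW (s : List (Al r)) : Asy (EW s) := by
  induction s with
  | nil => rw [JETW_nil]; exact JETW_Asy_one
  | cons a s ih =>
    rw [JETW_cons]
    exact (JETW_Asy_gen a).mul ih (JETW_gen a) (EW_coeff_one s)

theorem pow_coeff_one {f : F r} (hf : f.coeff 1 = 1) (n : ℕ) : (f ^ n).coeff 1 = 1 := by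
  induction n with
  | zero => rw [pow_zero, JETW_one]
  | succ n ih => rw [pow_succ, coeff_one_mul, ih, hf, one_mul]

theorem Asy.pow {f : F r} (hf : Asy f) (hf1 : f.coeff 1 = 1) (n : ℕ) : Asy (f ^ n) := by
  induction n with
  | zero => rw [pow_zero]; exact JETW_Asy_one
  | succ n ih => rw [pow_succ]; exact ih.mul hf (pow_coeff_one hf1 n) hf1

theorem lv_pow {f : F r} (hf : f.coeff 1 = 1) (n : ℕ) (a : Al r) :
    lv (f ^ n) a = (n : K) * lv f a := by
  induction n with
  | zero => rw [pow_zero, lv_one, Nat.cast_zero, zero_mul]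
  | succ n ih =>
    rw [pow_succ, lv_mul, pow_coeff_one hf, hf, ih, Nat.cast_add, Nat.cast_one]
    ring

theorem qv_pow {f : F r} (hf : f.coeff 1 = 1) (n : ℕ) (a b : Al r) :
    qv (f ^ n) a b = (n : K) * qv f a b + ((n * (n - 1) / 2 : ℕ) : K) * (lv f a * lv f b) := by
  rw [← Nat.choose_two_right]
  induction n with
  | zero => simp [qv_one]
  | succ n ih =>
    rw [pow_succ, qv_mul, pow_coeff_one hf, hf, ih, lv_pow hf, Nat.choose_succ_succ' n 1,
      Nat.choose_one_right, Nat.cast_add, Nat.cast_add, Nat.cast_one]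
    ring

/-- the formal inverse modulo degree 3 -/
theorem lv_pow_inv {f : F r} (hf : f.coeff 1 = 1) {M : ℕ} (hM : 4 ∣ M) (hM0 : 0 < M) (a : Al r) :
    lv (f ^ (M - 1)) a = lv f a := by
  obtain ⟨k, rfl⟩ := hM
  rw [lv_pow hf]
  have h1 : ((4 * k - 1 : ℕ) : K) = 1 := by
    have h2 : 4 * k - 1 = 2 * (2 * k - 1) + 1 := by omega
    have h3 : ((2 : ℕ) : K) = 0 := rfl
    rw [h2, Nat.cast_add, Nat.cast_mul, h3, zero_mul, zero_add, Nat.cast_one]
  rw [h1, one_mul]

theorem qv_pow_inv {f : F r} (hf : f.coeff 1 = 1) {M : ℕ} (hM : 4 ∣ M) (hM0 : 0 < M)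
    (a b : Al r) : qv (f ^ (M - 1)) a b = qv f a b + lv f a * lv f b := by
  obtain ⟨k, rfl⟩ := hM
  obtain ⟨l, rfl⟩ : ∃ l, k = l + 1 := ⟨k - 1, by omega⟩
  rw [qv_pow hf]
  have h3 : ((2 : ℕ) : K) = 0 := rfl
  have h1 : ((4 * (l + 1) - 1 : ℕ) : K) = 1 := by
    have h2 : 4 * (l + 1) - 1 = 2 * (2 * l + 1) + 1 := by omega
    rw [h2, Nat.cast_add, Nat.cast_mul, h3, zero_mul, zero_add, Nat.cast_one]
  have h4 : (((4 * (l + 1) - 1) * (4 * (l + 1) - 1 - 1) / 2 : ℕ) : K) = 1 := by
    have e1 : 4 * (l + 1) - 1 = 4 * l + 3 := by omega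
    have e2 : 4 * l + 3 - 1 = 2 * (2 * l + 1) := by omega
    have e3 : (4 * l + 3) * (2 * (2 * l + 1)) = (4 * l + 3) * (2 * l + 1) * 2 := by ring
    have e4 : (4 * l + 3) * (2 * l + 1) = 2 * (4 * l * l + 5 * l + 1) + 1 := by ring
    rw [e1, e2, e3, Nat.mul_div_cancel _ (by norm_num), e4, Nat.cast_add, Nat.cast_mul, h3,
      zero_mul, zero_add, Nat.cast_one]
  rw [h1, h4, one_mul, one_mul]

end TARO
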