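import Pool.Agent.TARO.POLY
import Pool.Agent.TARO.JETW

/-! POSW: every element of the group is a product of the generators. -/

open Module

namespace TARO

variable {r : ℕ}

private theorem POSW_pow (L : LinRep r) (x : Module.End K L.M) (n : ℕ) :
    (1 + x) ^ (2 ^ n) = 1 + x ^ (2 ^ n) := by
  induction n with
  | zero => rw [pow_zero, pow_one, pow_one]
  | succ n ih =>
    have h1 : (1 + x ^ 2 ^ n) * (1 + x ^ 2 ^ n) =
        1 + (x ^ 2 ^ n + x ^ 2 ^ n) + x ^ 2 ^ n * x ^ 2 ^ n := by noncomm_ring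
    rw [pow_succ, pow_mul, ih, pow_mul, pow_two, pow_two, h1, POLY_two, add_zero]

/-- `(1 + x) ^ (2 ^ N) = 1 + x ^ (2 ^ N) = 1` for a nilpotent `x` in characteristic 2 -/
theorem letter_finite_order (hr : 1 ≤ r) (L : LinRep r) (e : Al r → (Module.End K L.M)ˣ)
    (he : ∀ a, ((e a : (Module.End K L.M)ˣ) : Module.End K L.M) = 1 + L.ρ (wd [a])) (a : Al r) :
    ∃ n : ℕ, 0 < n ∧ e a ^ n = 1 := by
  obtain ⟨N, hN⟩ := letter_nilpotent hr L a
  refine ⟨2 ^ N, by positivity, ?_⟩
  apply Units.ext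
  rw [Units.val_pow_eq_pow_val, he, POSW_pow, Units.val_one]
  have h1 : N ≤ 2 ^ N := Nat.lt_two_pow_self.le
  rw [pow_eq_zero_of_le h1 hN, add_zero]

private theorem POSW_rep (a : Al r) (m : ℕ) :
    EW (List.replicate m a) = (1 + wd [a] : F r) ^ m := by
  unfold EW
  rw [List.map_replicate, List.prod_replicate]

/-- closure induction for: `g` and `g⁻¹` are both products of generators; the inverse of a
generator is a power of it -/
theorem posw (hr : 1 ≤ r) (L : LinRep r) (e : Al r → (Module.End K L.M)ˣ)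
    (he : ∀ a, ((e a : (Module.End K L.M)ˣ) : Module.End K L.M) = 1 + L.ρ (wd [a]))
    (g : (Module.End K L.M)ˣ) (hg : g ∈ Subgroup.closure (Set.range e)) :
    ∃ s : List (Al r), (g : Module.End K L.M) = L.ρ (EW s) := by
  have hpow : ∀ (a : Al r) (m : ℕ), ((e a ^ m : (Module.End K L.M)ˣ) : Module.End K L.M) =
      L.ρ (EW (List.replicate m a)) := by
    intro a m
    rw [POSW_rep, map_pow, map_add, map_one, Units.val_pow_eq_pow_val, he]
  have key : (∃ s : List (Al r), (g : Module.End K L.M) = L.ρ (EW s)) ∧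
      (∃ s : List (Al r), ((g⁻¹ : (Module.End K L.M)ˣ) : Module.End K L.M) = L.ρ (EW s)) := by
    induction hg using Subgroup.closure_induction with
    | mem x hx =>
      obtain ⟨a, rfl⟩ := hx
      refine ⟨⟨List.replicate 1 a, ?_⟩, ?_⟩
      · rw [← hpow, pow_one]
      · obtain ⟨n, hn, h⟩ := letter_finite_order hr L e he a
        refine ⟨List.replicate (n - 1) a, ?_⟩
        rw [← hpow]
        congr 1
        rw [inv_eq_iff_mul_eq_one, ← pow_succ', Nat.sub_add_cancel hn, h]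
    | one =>
      refine ⟨⟨[], ?_⟩, ⟨[], ?_⟩⟩
      · change (1 : Module.End K L.M) = L.ρ 1
        rw [map_one]
      · rw [inv_one]
        change (1 : Module.End K L.M) = L.ρ 1
        rw [map_one]
    | mul x y _ _ hx hy =>
      obtain ⟨⟨s, hs⟩, ⟨s', hs'⟩⟩ := hx
      obtain ⟨⟨t, ht⟩, ⟨t', ht'⟩⟩ := hy
      refine ⟨⟨s ++ t, ?_⟩, ⟨t' ++ s', ?_⟩⟩
      · rw [EW_append, map_mul, Units.val_mul, hs, ht]
      · rw [EW_append, map_mul, mul_inv_rev, Units.val_mul, hs', ht']
    | inv x _ hx =>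
      rw [inv_inv]
      exact ⟨hx.2, hx.1⟩
  exact key.1

end TARO
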