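import Pool.Agent.TARO.FING
import Pool.Agent.TARO.KLIN

/-! RGEN: subgroups generated by `r` elements are finite. -/

open Module

namespace TARO

variable {r : ℕ}

/-- `r` elements without constant term lie in the algebra of a tuple which can be killed -/
theorem exists_kill_r (u : Fin r → F r) (hu : ∀ l, NC (u l)) :
    ∃ u' : Fin (r + 1) → F r, Killable u' ∧ ∀ i, u i ∈ Alg u' := by
  obtain ⟨u', h1, h2⟩ := killable_lin (Fin.cons (0 : F r) u)
    (fun l => by
      refine Fin.cases ?_ (fun i => ?_) l
      · rw [Fin.cons_zero, nc_iff, map_zero]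
      · rw [Fin.cons_succ]
        exact hu i)
    (Pi.single 0 1) (by
      intro h
      have := congrFun h 0
      rw [Pi.single_eq_same] at this
      exact one_ne_zero this)
    (Or.inl (by
      rw [Finset.sum_eq_single 0]
      · rw [Fin.cons_zero, smul_zero, map_zero]
      · intro b _ hb
        rw [Pi.single_eq_of_ne hb, zero_smul]
      · intro h
        exact absurd (Finset.mem_univ _) h))
  exact ⟨u', h1, fun i => by simpa using h2 i.succ⟩

theorem rgen (L : LinRep r) (s : Fin r → (Module.End K L.M)ˣ)
    (hs : ∀ l, ∃ f : F r, NC f ∧ ((s l : (Module.End K L.M)ˣ) : Module.End K L.M) = 1 + L.ρ f) :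
    Finite (Subgroup.closure (Set.range s)) := by
  choose u hu hsu using hs
  obtain ⟨u', h1, h2⟩ := exists_kill_r u hu
  refine fing L h1 _ ?_
  rintro _ ⟨l, rfl⟩
  exact ⟨u l, h2 l, hsu l⟩

end TARO
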