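import Pool.Agent.TARO.FINS
import Pool.Agent.TARO.POSW
import Pool.Agent.TARO.CONF
import Pool.Agent.TARO.RGEN

/-! NOGH: the Hall inequality fails for any two sets `{1} ∪ {s i}`, `{1} ∪ {t j}` with
`r + 1` elements `s i` and `t j`. -/

open Module

namespace TARO

variable {r : ℕ}

/-- `fing` inside the subgroup generated by the `e a` (as in `GRP_rfin`) -/
theorem fing_sub (L : LinRep r) (e : Al r → (Module.End K L.M)ˣ) {k : ℕ} {u : Fin k → F r}
    (hu : Killable u) (S : Set (Subgroup.closure (Set.range e)))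
    (hS : ∀ g ∈ S, ∃ f ∈ Alg u, ((g : (Module.End K L.M)ˣ) : Module.End K L.M) = 1 + L.ρ f) :
    Finite (Subgroup.closure S) := by
  have h := fing L hu ((Subgroup.closure (Set.range e)).subtype '' S) (by
    rintro _ ⟨g, hg, rfl⟩
    exact hS g hg)
  rw [← MonoidHom.map_closure] at h
  exact Finite.of_equiv _
    ((Subgroup.closure S).equivMapOfInjective _
      (Subgroup.subtype_injective _)).symm.toEquiv

theorem NOGH_lv (f : F r) (a : Al r) : lv (f - 1) a = lv f a := by
  rw [lv_sub, lv_one, sub_zero]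

/-- Either the linear parts of the `f i - 1` are a basis of the span of the x-letters, or all
`f i - 1` are in the algebra of a tuple which can be killed (`killable_lin`,
`part_one_eq_zero_iff`, `part_one_mem_XM_iff`). -/
theorem basis_or_kill (S : Fin (r + 1) → F r) (hS : ∀ i, (S i).coeff 1 = 1) :
    ((∀ i, XLin (S i)) ∧
      LinearIndependent K fun i (l : Fin (r + 1)) => lv (S i) (Sum.inl l)) ∨
    ∃ u : Fin (r + 1) → F r, Killable u ∧ ∀ i, S i - 1 ∈ Alg u := by
  classical
  have hNC : ∀ i, NC (S i - 1) := by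
    intro i
    show (S i - 1).coeff (1 : FreeMonoid (Al r)) = 0
    have h1 : (S i - 1).coeff (1 : FreeMonoid (Al r)) =
        (S i).coeff 1 - (1 : F r).coeff 1 := rfl
    rw [h1, hS i]
    have h2 : (1 : F r).coeff (1 : FreeMonoid (Al r)) = 1 := by
      simp [MonoidAlgebra.one_def]
    rw [h2, sub_self]
  by_cases hX : ∀ i, XLin (S i)
  · by_cases hL : LinearIndependent K fun i (l : Fin (r + 1)) => lv (S i) (Sum.inl l)
    · exact Or.inl ⟨hX, hL⟩
    · right
      rw [Fintype.not_linearIndependent_iff] at hL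
      obtain ⟨κ, hκ, i, hi⟩ := hL
      refine killable_lin (fun i => S i - 1) hNC κ (fun h => hi (by rw [h]; rfl)) (Or.inl ?_)
      rw [part_one_eq_zero_iff]
      intro a
      rw [lv_sum]
      rcases a with l | j
      · have h1 := congrFun hκ l
        rw [Finset.sum_apply, Pi.zero_apply] at h1
        rw [← h1]
        refine Finset.sum_congr rfl fun i _ => ?_
        rw [lv_smul, NOGH_lv]
        rfl
      · refine Finset.sum_eq_zero fun i _ => ?_
        rw [lv_smul, NOGH_lv, hX i j, mul_zero]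
  · right
    rw [not_forall] at hX
    obtain ⟨i, hi⟩ := hX
    refine killable_lin (fun i => S i - 1) hNC (Pi.single i 1) ?_ (Or.inr ?_)
    · intro h
      have := congrFun h i
      rw [Pi.single_eq_same] at this
      exact one_ne_zero this
    · rw [Finset.sum_eq_single i]
      · rw [Pi.single_eq_same, one_smul, part_one_mem_XM_iff]
        intro h
        exact hi fun j => by rw [← h j, NOGH_lv]
      · intro b _ hb
        rw [Pi.single_eq_of_ne hb, zero_smul]
      · intro h
        exact absurd (Finset.mem_univ _) h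

/-- elements of the group have finite order -/
theorem NOGH_order (hr : 1 ≤ r) (L : LinRep r) (e : Al r → (Module.End K L.M)ˣ)
    (he : ∀ a, ((e a : (Module.End K L.M)ˣ) : Module.End K L.M) = 1 + L.ρ (wd [a]))
    (g : Subgroup.closure (Set.range e)) : 0 < orderOf g := by
  have h := rgen L (fun _ : Fin r => (g : (Module.End K L.M)ˣ))
    (fun l => poly hr L e he _ g.2)
  rw [orderOf_pos_iff]
  refine (Submonoid.isOfFinOrder_coe
    (H := (Subgroup.closure (Set.range e)).toSubmonoid) (x := g)).mp ?_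
  have hmem : (g : (Module.End K L.M)ˣ) ∈
      Subgroup.closure (Set.range fun _ : Fin r => (g : (Module.End K L.M)ˣ)) :=
    Subgroup.subset_closure ⟨⟨0, hr⟩, rfl⟩
  have h1 : IsOfFinOrder (⟨(g : (Module.End K L.M)ˣ), hmem⟩ :
      Subgroup.closure (Set.range fun _ : Fin r => (g : (Module.End K L.M)ˣ))) :=
    isOfFinOrder_of_finite _
  exact (Submonoid.isOfFinOrder_coe
    (H := (Subgroup.closure (Set.range fun _ : Fin r =>
      (g : (Module.End K L.M)ˣ))).toSubmonoid)).mpr h1

/-- a power of `g` which is `1` or the inverse of `g` -/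
theorem NOGH_pow {G : Type} [Group G] (g : G) {M ε : ℕ} (hM : 0 < M) (hg : orderOf g ∣ M)
    (hε : ε = 0 ∨ ε = 1) : g ^ ((M - 1) * ε) = 1 ∨ g ^ ((M - 1) * ε) = g⁻¹ := by
  rcases hε with rfl | rfl
  · left
    rw [mul_zero, pow_zero]
  · right
    rw [mul_one, eq_inv_iff_mul_eq_one, ← pow_succ, Nat.sub_add_cancel hM]
    exact orderOf_dvd_iff_pow_eq_one.mp hg

/-- Write `s i = ρ (EW ..)`, `t j = ρ (EW ..)` (`posw`).  If `basis_or_kill` gives a tuple which
can be killed for the `s i` or for the `t j`, then `fing_sub` and `not_gh_of_finite` (with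
`GHset.symm` for the `t j`).  Otherwise `config` with `M = 4 * ∏ orderOf (s i)`; the subgroup `H`
generated by the elements `1 + ρ (gam i) = (s i₀)⁻¹ ^ ε * s (i₀.succAbove i)` and
`1 + ρ (kap j) = (s i₀)⁻¹ ^ ε' * t j * (s i₀) ^ a` is finite by `fing_sub`; if `s i₀ ∈ H` then all
`s i ∈ H` and `not_gh_of_finite`; otherwise `not_gh_of_config` with `g = s i₀`,
`f = (s i₀) ^ a`. -/
theorem no_gh (hr : 1 ≤ r) (L : LinRep r) (e : Al r → (Module.End K L.M)ˣ)
    (he : ∀ a, ((e a : (Module.End K L.M)ˣ) : Module.End K L.M) = 1 + L.ρ (wd [a]))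
    [DecidableEq (Subgroup.closure (Set.range e))]
    (s t : Fin (r + 1) → Subgroup.closure (Set.range e)) : ¬ GHset s t := by
  have hw : ∀ g : Subgroup.closure (Set.range e), ∃ v : List (Al r),
      ((g : (Module.End K L.M)ˣ) : Module.End K L.M) = L.ρ (EW v) :=
    fun g => posw hr L e he _ g.2
  choose v hv using hw
  have hSS : ∀ g : Subgroup.closure (Set.range e),
      ((g : (Module.End K L.M)ˣ) : Module.End K L.M) = 1 + L.ρ (EW (v g) - 1) := by
    intro g
    rw [map_sub, map_one, ← hv g, add_sub_cancel]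
  rcases basis_or_kill (fun i => EW (v (s i))) (fun i => EW_coeff_one _) with
    ⟨hSX, hξ⟩ | ⟨u, hu, hus⟩
  swap
  · refine not_gh_of_finite s t (fing_sub L e hu _ ?_)
    rintro _ ⟨i, rfl⟩
    exact ⟨_, hus i, hSS _⟩
  rcases basis_or_kill (fun i => EW (v (t i))) (fun i => EW_coeff_one _) with
    ⟨hTX, hη⟩ | ⟨u, hu, hus⟩
  swap
  · refine fun hgh => not_gh_of_finite t s (fing_sub L e hu _ ?_) hgh.symm
    rintro _ ⟨i, rfl⟩
    exact ⟨_, hus i, hSS _⟩
  have hord : ∀ i, 0 < orderOf (s i) := fun i => NOGH_order hr L e he (s i)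
  obtain ⟨M, hM⟩ : ∃ M, M = 4 * ∏ i, orderOf (s i) := ⟨_, rfl⟩
  have hM0 : 0 < M := by
    rw [hM]
    have := Finset.prod_pos fun i (_ : i ∈ Finset.univ) => hord i
    positivity
  have hdvd : ∀ i, orderOf (s i) ∣ M := fun i => by
    rw [hM]
    exact (Finset.dvd_prod_of_mem (fun i => orderOf (s i)) (Finset.mem_univ i)).mul_left _
  obtain ⟨i₀, a, ε, ε', k, u, hu, hε, hε', ha, hgam, hkap⟩ :=
    config (S := fun i => EW (v (s i))) (T := fun i => EW (v (t i))) (M := M)
      ⟨_, hM⟩ hM0 (fun i => EW_coeff_one _) (fun i => EW_coeff_one _) (fun i => Asy_EW _)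
      (fun i => Asy_EW _) hSX hTX hξ (hη.ne_zero 0)
  obtain ⟨A, hA⟩ : ∃ A : Set (Subgroup.closure (Set.range e)),
    A = {g : Subgroup.closure (Set.range e) | ∃ f ∈ Alg u,
      ((g : (Module.End K L.M)ˣ) : Module.End K L.M) = 1 + L.ρ f} := ⟨_, rfl⟩
  have hfin : Finite (Subgroup.closure A) := by
    refine fing_sub L e hu A fun g hg => ?_
    rw [hA] at hg
    exact hg
  have hmemA : ∀ (g : Subgroup.closure (Set.range e)) (f : F r), f - 1 ∈ Alg u →
      ((g : (Module.End K L.M)ˣ) : Module.End K L.M) = L.ρ f → g ∈ Subgroup.closure A := by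
    intro g f hf hgf
    refine Subgroup.subset_closure ?_
    rw [hA]
    refine ⟨f - 1, hf, ?_⟩
    rw [hgf, map_sub, map_one, add_sub_cancel]
  -- the elements of degree 1
  have hs : ∀ i, s i ∈ Subgroup.closure A ∨ (s i₀)⁻¹ * s i ∈ Subgroup.closure A := by
    intro i
    rcases eq_or_ne i i₀ with rfl | hi
    · right
      rw [inv_mul_cancel]
      exact one_mem _
    · obtain ⟨i', rfl⟩ := Fin.exists_succAbove_eq hi
      have h1 : s i₀ ^ ((M - 1) * ε (i₀.succAbove i')) * s (i₀.succAbove i') ∈
          Subgroup.closure A := by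
        refine hmemA _ _ (hgam i') ?_
        rw [Subgroup.coe_mul, Subgroup.coe_pow, Units.val_mul, Units.val_pow_eq_pow_val,
          hv, hv (s (i₀.succAbove i')), map_mul, map_pow]
      rcases NOGH_pow (s i₀) hM0 (hdvd i₀) (hε (i₀.succAbove i')) with h | h
      · left
        rwa [h, one_mul] at h1
      · right
        rwa [h] at h1
  have hf : s i₀ ^ a ∈ Subgroup.closure A ∨ (s i₀)⁻¹ * s i₀ ^ a ∈ Subgroup.closure A := by
    rcases ha with rfl | rfl
    · left
      rw [pow_zero]
      exact one_mem _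
    · right
      rw [pow_one, inv_mul_cancel]
      exact one_mem _
  have ht : ∀ j, t j * s i₀ ^ a ∈ Subgroup.closure A ∨
      (s i₀)⁻¹ * (t j * s i₀ ^ a) ∈ Subgroup.closure A := by
    intro j
    have h1 : s i₀ ^ ((M - 1) * ε' j) * t j * s i₀ ^ a ∈ Subgroup.closure A := by
      refine hmemA _ _ (hkap j) ?_
      rw [Subgroup.coe_mul, Subgroup.coe_mul, Subgroup.coe_pow, Subgroup.coe_pow,
        Units.val_mul, Units.val_mul, Units.val_pow_eq_pow_val, Units.val_pow_eq_pow_val,
        hv (s i₀), hv (t j), map_mul, map_mul, map_pow, map_pow]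
    rw [mul_assoc] at h1
    rcases NOGH_pow (s i₀) hM0 (hdvd i₀) (hε' j) with h | h
    · left
      rwa [h, one_mul] at h1
    · right
      rwa [h] at h1
  by_cases hg : s i₀ ∈ Subgroup.closure A
  · refine not_gh_of_finite s t ?_
    have hle : Subgroup.closure (Set.range s) ≤ Subgroup.closure A := by
      rw [Subgroup.closure_le]
      rintro _ ⟨i, rfl⟩
      rcases hs i with h | h
      · exact h
      · have := mul_mem hg h
        rwa [mul_inv_cancel_left] at this
    have hfin' : ((Subgroup.closure A : Subgroup _) :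
      Set (Subgroup.closure (Set.range e))).Finite := hfin
    exact (hfin'.subset hle).to_subtype
  · exact not_gh_of_config s t (Subgroup.closure A) hg hs hf ht

end TARO
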