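import Pool.Agent.TARO.Defs

/-! ONE: adding the identity to the operators. -/

open Module

namespace TARO

variable {sx sy : ℕ}

private theorem ONE_map_le {M : Type} [AddCommGroup M] [Module K M] (V : Submodule K M)
    (f : Module.End K M) : V.map f ≤ V ⊔ V.map (1 + f) := by
  rintro _ ⟨v, hv, rfl⟩
  have h : f v = -v + (1 + f) v := by simp
  rw [h]
  exact add_mem (Submodule.mem_sup_left (neg_mem hv))
    (Submodule.mem_sup_right ⟨v, hv, rfl⟩)

private theorem ONE_map_le' {M : Type} [AddCommGroup M] [Module K M] (V : Submodule K M)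
    (f : Module.End K M) : V.map (1 + f) ≤ V ⊔ V.map f := by
  rintro _ ⟨v, hv, rfl⟩
  have h : (1 + f) v = v + f v := by simp
  rw [h]
  exact add_mem (Submodule.mem_sup_left hv) (Submodule.mem_sup_right ⟨v, hv, rfl⟩)

/-- the Hall inequality does not change when the identity is added to the operators -/
theorem GHlin.one_add {M : Type} [AddCommGroup M] [Module K M]
    {x : Fin sx → Module.End K M} {y : Fin sy → Module.End K M} (h : GHlin x y) :
    GHlin (fun i => 1 + x i) (fun i => 1 + y i) := by
  intro V₁ V₂ h₁ h₂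
  have key : (V₁ ⊔ V₂ ⊔ (⨆ i, V₁.map (x i)) ⊔ (⨆ i, V₂.map (y i)) : Submodule K M) =
      V₁ ⊔ V₂ ⊔ (⨆ i, V₁.map (1 + x i)) ⊔ (⨆ i, V₂.map (1 + y i)) := by
    apply le_antisymm
    · refine sup_le (sup_le (sup_le ?_ ?_) (iSup_le fun i => ?_)) (iSup_le fun i => ?_)
      · exact le_sup_of_le_left (le_sup_of_le_left le_sup_left)
      · exact le_sup_of_le_left (le_sup_of_le_left le_sup_right)
      · refine (ONE_map_le V₁ (x i)).trans (sup_le ?_ ?_)
        · exact le_sup_of_le_left (le_sup_of_le_left le_sup_left)
        · exact le_sup_of_le_left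
            (le_sup_of_le_right (le_iSup (fun i => V₁.map (1 + x i)) i))
      · refine (ONE_map_le V₂ (y i)).trans (sup_le ?_ ?_)
        · exact le_sup_of_le_left (le_sup_of_le_left le_sup_right)
        · exact le_sup_of_le_right (le_iSup (fun i => V₂.map (1 + y i)) i)
    · refine sup_le (sup_le (sup_le ?_ ?_) (iSup_le fun i => ?_)) (iSup_le fun i => ?_)
      · exact le_sup_of_le_left (le_sup_of_le_left le_sup_left)
      · exact le_sup_of_le_left (le_sup_of_le_left le_sup_right)
      · refine (ONE_map_le' V₁ (x i)).trans (sup_le ?_ ?_)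
        · exact le_sup_of_le_left (le_sup_of_le_left le_sup_left)
        · exact le_sup_of_le_left
            (le_sup_of_le_right (le_iSup (fun i => V₁.map (x i)) i))
      · refine (ONE_map_le' V₂ (y i)).trans (sup_le ?_ ?_)
        · exact le_sup_of_le_left (le_sup_of_le_left le_sup_right)
        · exact le_sup_of_le_right (le_iSup (fun i => V₂.map (y i)) i)
  have := h V₁ V₂ h₁ h₂
  rw [key] at this
  exact this

end TARO
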