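import Pool.Agent.TARO.IFACE
import Pool.Agent.TARO.POLY
import Pool.Agent.TARO.ONE
import Pool.Agent.TARO.RGEN
import Pool.Agent.TARO.TRUNC
import Pool.Agent.TARO.GHG
import Pool.Agent.TARO.NOGH

/-! GRP: the group. -/

open Module

namespace TARO

/-- the subgroups generated by `r` elements are finite -/
theorem GRP_rfin {r : ℕ} (hr : 1 ≤ r) (L : LinRep r) (e : Al r → (Module.End K L.M)ˣ)
    (he : ∀ a, ((e a : (Module.End K L.M)ˣ) : Module.End K L.M) = 1 + L.ρ (wd [a])) :
    TAR.RFin (Subgroup.closure (Set.range e)) r := by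
  intro s
  have h := rgen L (fun l => ((s l : Subgroup.closure (Set.range e)) : (Module.End K L.M)ˣ))
    (fun l => poly hr L e he _ (s l).2)
  have hmap : (Subgroup.closure (Set.range s)).map (Subgroup.closure (Set.range e)).subtype =
      Subgroup.closure (Set.range fun l =>
        ((s l : Subgroup.closure (Set.range e)) : (Module.End K L.M)ˣ)) := by
    rw [MonoidHom.map_closure]
    congr 1
    ext g
    simp only [Set.mem_image, Set.mem_range, exists_exists_eq_and]
    rfl
  rw [← hmap] at h
  exact Finite.of_equiv _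
    ((Subgroup.closure (Set.range s)).equivMapOfInjective _
      (Subgroup.subtype_injective _)).symm.toEquiv

theorem exists_group {r : ℕ} (hr : 1 ≤ r) :
    ∃ (G : Type) (_ : Group G) (_ : DecidableEq G) (x : Fin (r + 1) → G) (y : Fin (r + 2) → G),
      Subgroup.closure (Set.range x ∪ Set.range y) = ⊤ ∧ TAR.RFin G r ∧ GHset x y ∧
        ∀ s t : Fin (r + 1) → G, ¬ GHset s t := by
  classical
  obtain ⟨L⟩ := exists_linRep hr
  obtain ⟨e, he⟩ := exists_units hr L
  have hmem : ∀ a, e a ∈ Subgroup.closure (Set.range e) := fun a =>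
    Subgroup.subset_closure ⟨a, rfl⟩
  let G := Subgroup.closure (Set.range e)
  let x : Fin (r + 1) → G := fun i => ⟨e (Sum.inl i), hmem _⟩
  let y : Fin (r + 2) → G := fun i => ⟨e (Sum.inr i), hmem _⟩
  refine ⟨G, inferInstance, inferInstance, x, y, ?_, GRP_rfin hr L e he, ?_, fun s t => no_gh hr L e he s t⟩
  · have hinj : Function.Injective (Subgroup.map G.subtype) :=
      Subgroup.map_injective (Subgroup.subtype_injective _)
    apply hinj
    rw [MonoidHom.map_closure, ← MonoidHom.range_eq_map, Subgroup.range_subtype]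
    show Subgroup.closure _ = Subgroup.closure (Set.range e)
    congr 1
    ext g
    constructor
    · rintro ⟨g', (⟨i, rfl⟩ | ⟨i, rfl⟩), rfl⟩
      · exact ⟨Sum.inl i, rfl⟩
      · exact ⟨Sum.inr i, rfl⟩
    · rintro ⟨a, rfl⟩
      rcases a with i | i
      · exact ⟨x i, Or.inl ⟨i, rfl⟩, rfl⟩
      · exact ⟨y i, Or.inr ⟨i, rfl⟩, rfl⟩
  · let ρ : Representation K G L.M := (Units.coeHom (Module.End K L.M)).comp G.subtype
    have hx : ∀ i, ρ (x i) = 1 + L.ρ (wd [Sum.inl i]) := fun i => he _
    have hy : ∀ i, ρ (y i) = 1 + L.ρ (wd [Sum.inr i]) := fun i => he _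
    refine ghset_of_rep ρ x y ?_ L.nontriv ?_
    · have h1 := L.gh.one_add
      have e1 : (fun i => ρ (x i)) = fun i => 1 + L.ρ (wd [Sum.inl i]) := funext hx
      have e2 : (fun i => ρ (y i)) = fun i => 1 + L.ρ (wd [Sum.inr i]) := funext hy
      rw [e1, e2]
      exact h1
    · exact trunc L G (fun g hg => poly hr L e he g hg)

end TARO
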