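import Pool.Agent.TARO.Defs

/-! HITC: every backward path meets a gain position. -/

namespace TARO

variable {r k : ℕ}

theorem hit_mono {dg : Fin k → ℕ} {gain : ℕ → Prop} {n n' m : ℕ} (h : n ≤ n')
    (hh : hit dg gain n m) : hit dg gain n' m := by
  induction n generalizing n' m with
  | zero => exact absurd hh (by simp [hit])
  | succ n ih =>
    obtain ⟨n', rfl⟩ : ∃ l, n' = l + 1 := ⟨n' - 1, by omega⟩
    rcases hh with hg | hh
    · exact Or.inl hg
    · refine Or.inr fun i => ?_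
      rcases hh i with hi | hi
      · exact Or.inl hi
      · exact Or.inr (ih (by omega) hi)

/-- a path starting at `m` cannot have more than `m` steps -/
theorem hit_small {dg : Fin k → ℕ} (hdg : ∀ i, 1 ≤ dg i) (gain : ℕ → Prop) (m : ℕ) :
    hit dg gain (m + 1) m := by
  induction m using Nat.strong_induction_on with
  | _ m ih =>
    refine Or.inr fun i => ?_
    rcases Nat.lt_or_ge m (dg i) with hi | hi
    · exact Or.inl hi
    · refine Or.inr (hit_mono ?_ (ih (m - dg i) ?_))
      · have := hdg i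
        omega
      · have := hdg i
        omega

theorem HITC_cs (r : ℕ) (ψ : Cm r) (j n : ℕ)
    (hj : j % Fintype.card (Cm r) = (Fintype.equivFin (Cm r) ψ : ℕ)) (hn : n / 3 = j) :
    cs r n = ψ := by
  unfold cs
  rw [Equiv.symm_apply_eq]
  apply Fin.ext
  simp only [hn, hj]

theorem HITC_aux (r : ℕ) (o : ℕ) (ψ : Cm r) {d₀ : ℕ} (hd₀ : d₀ = 1 ∨ d₀ = 2) {dg : Fin k → ℕ}
    (hdg : ∀ i, dg i = 1 ∨ dg i = 2) (j : ℕ)
    (hj : j % Fintype.card (Cm r) = (Fintype.equivFin (Cm r) ψ : ℕ)) (m : ℕ)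
    (hm : 3 * j + 2 ≤ o + m) :
    hit dg (gainAt (cs r) o ψ d₀) (o + m - (3 * j + 2) + 3) m := by
  have hdg1 : ∀ i, 1 ≤ dg i := fun i => by rcases hdg i with h | h <;> omega
  induction m using Nat.strong_induction_on with
  | _ m ih =>
    by_cases hp : o + m ≤ 3 * j + 3
    · by_cases hmd : d₀ ≤ m
      · refine Or.inl ⟨hmd, fun t ht ht' => ?_⟩
        apply HITC_cs r ψ j _ hj
        rcases hd₀ with h | h <;> omega
      · refine hit_mono ?_ (hit_small hdg1 _ m)
        rcases hd₀ with h | h <;> omega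
    · refine Or.inr fun i => ?_
      rcases Nat.lt_or_ge m (dg i) with hi | hi
      · exact Or.inl hi
      · refine Or.inr (hit_mono ?_ (ih (m - dg i) ?_ ?_))
        · rcases hdg i with h | h <;> omega
        · rcases hdg i with h | h <;> omega
        · rcases hdg i with h | h <;> omega

/-- Let `N = Fintype.card (Cm r)`, `e ψ` the index of `ψ` in the enumeration; the levels
`3 j, 3 j + 1, 3 j + 2` with `j % N = e ψ` have complement `ψ`.  If `3 j + 2 ≤ o + m` with
`j % N = e ψ` then `hit dg gain (o + m - (3 j + 2) + 3) m`: if `o + m` is `3 j + 2` or `3 j + 3`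
then `m` is a gain position, or `m < d₀ ≤ 2` and `hit_small`; otherwise a step of length `1` or
`2` leads to a position with the same property.  For a given `m` take the largest such `j` (then
`o + m - (3 j + 2) < 3 N`), or, if there is none, `m < 3 N` and `hit_small`. -/
theorem hit_cs (r : ℕ) (o : ℕ) (ψ : Cm r) {d₀ : ℕ} (hd₀ : d₀ = 1 ∨ d₀ = 2) {dg : Fin k → ℕ}
    (hdg : ∀ i, dg i = 1 ∨ dg i = 2) (m : ℕ) :
    hit dg (gainAt (cs r) o ψ d₀) (3 * Fintype.card (Cm r) + 3) m := by
  have hdg1 : ∀ i, 1 ≤ dg i := fun i => by rcases hdg i with h | h <;> omega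
  obtain ⟨e, he, heN⟩ : ∃ e : ℕ, (Fintype.equivFin (Cm r) ψ : ℕ) = e ∧
      e < Fintype.card (Cm r) := ⟨_, rfl, (Fintype.equivFin (Cm r) ψ).isLt⟩
  obtain ⟨N, hN⟩ : ∃ N, Fintype.card (Cm r) = N := ⟨_, rfl⟩
  rw [hN] at heN ⊢
  by_cases hp : 3 * e + 2 ≤ o + m
  · obtain ⟨s, hs⟩ : ∃ s, s = (o + m - (3 * e + 2)) / (3 * N) := ⟨_, rfl⟩
    have h1 : 3 * N * s ≤ o + m - (3 * e + 2) := by
      rw [hs]
      exact Nat.mul_div_le _ _
    have h2 : o + m - (3 * e + 2) < 3 * N * s + 3 * N := by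
      rw [hs]
      have := Nat.lt_mul_div_succ (o + m - (3 * e + 2)) (show 0 < 3 * N by omega)
      rw [mul_add, mul_one] at this
      exact this
    have h3 : 3 * (e + N * s) + 2 = 3 * e + 2 + 3 * N * s := by ring
    refine hit_mono ?_ (HITC_aux r o ψ hd₀ hdg (e + N * s) ?_ m ?_)
    · omega
    · rw [he, show (e + N * s) % Fintype.card (Cm r) = (e + N * s) % N from by simp only [hN],
        Nat.add_mul_mod_self_left, Nat.mod_eq_of_lt heN]
    · omega
  · refine hit_mono ?_ (hit_small hdg1 _ m)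
    omega

end TARO
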