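import Pool.Agent.TARO.EXT
import Pool.Agent.TARO.FIXV

/-! HOMG: the Hall inequality for `Hom(E, M)`, where the group acts on `E` through a
finite 2-group. -/

open Module

namespace TARO

variable {sx sy : ℕ}

private theorem HOMG_aux {G Q : Type} [Group G] [Group Q] [Finite Q] (hQ : IsPGroup 2 Q)
    (π : G →* Q) {M : Type} [AddCommGroup M] [Module K M] (ρ : Representation K G M)
    (x : Fin sx → G) (y : Fin sy → G) (h : GHlin (fun i => ρ (x i)) (fun i => ρ (y i))) (n : ℕ) :
    ∀ (E : Type) [AddCommGroup E] [Module K E] [FiniteDimensional K E]
      (σ : Representation K Q E), finrank K E ≤ n →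
      GHlin (fun i => Representation.linHom (σ.comp π) ρ (x i))
        (fun i => Representation.linHom (σ.comp π) ρ (y i)) := by
  induction n with
  | zero =>
    intro E _ _ _ σ hE V₁ V₂ _ _
    have hs : Subsingleton E := by
      rw [← Module.finrank_zero_iff (R := K)]
      omega
    have hs2 : Subsingleton (E →ₗ[K] M) := by
      constructor
      intro f g
      ext e
      rw [Subsingleton.elim e 0]; simp
    have h1 : finrank K V₁ = 0 := by
      rw [Subsingleton.elim V₁ ⊥, finrank_bot]
    have h2 : finrank K V₂ = 0 := by
      rw [Subsingleton.elim V₂ ⊥, finrank_bot]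
    rw [h1, h2]
    exact Nat.zero_le _
  | succ n ih =>
    intro E _ _ _ σ hE
    rcases subsingleton_or_nontrivial E with hs | hs
    · refine ih E σ ?_
      rw [Module.finrank_zero_of_subsingleton]
      exact Nat.zero_le _
    · obtain ⟨e0, he0, hfix⟩ := exists_fixed hQ σ
      have hfix2 : ∀ q, σ q e0 = e0 := hfix
      have hle : ∀ q, (Submodule.span K {e0} : Submodule K E) ≤
          (Submodule.span K {e0}).comap (σ q) := by
        intro q
        rw [Submodule.span_le]
        intro z hz
        rw [Set.mem_singleton_iff] at hz
        subst hz
        show σ q z ∈ Submodule.span K {z}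
        rw [hfix2 q]
        exact Submodule.mem_span_singleton_self z
      have hfr : finrank K (E ⧸ (Submodule.span K {e0} : Submodule K E)) ≤ n := by
        have h1 := Submodule.finrank_quotient_add_finrank (Submodule.span K {e0} : Submodule K E)
        rw [finrank_span_singleton he0] at h1
        omega
      have h' := ih (E ⧸ (Submodule.span K {e0} : Submodule K E))
        (σ.quotient (Submodule.span K {e0}) hle) hfr
      refine GHlin.ext (LinearMap.lcomp K M (Submodule.span K {e0} : Submodule K E).mkQ)
        (LinearMap.applyₗ e0) ?_ ?_ ?_ ?_ ?_ ?_ h' h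
      · intro f g hfg
        ext e
        have := LinearMap.congr_fun hfg e
        simpa using this
      · ext f
        rw [LinearMap.mem_range, LinearMap.mem_ker]
        constructor
        · rintro ⟨g, rfl⟩
          show g ((Submodule.span K {e0} : Submodule K E).mkQ e0) = 0
          rw [Submodule.mkQ_apply, (Submodule.Quotient.mk_eq_zero _).2
            (Submodule.mem_span_singleton_self e0), map_zero]
        · intro hf
          have hf' : f e0 = 0 := hf
          refine ⟨(Submodule.span K {e0} : Submodule K E).liftQ f ?_, ?_⟩
          · rw [Submodule.span_le]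
            intro z hz
            rw [Set.mem_singleton_iff] at hz
            subst hz
            exact hf'
          · ext e
            rfl
      · intro i w
        ext e
        rfl
      · intro i w
        ext e
        rfl
      · intro i w
        show ρ (x i) (w (σ (π (x i)⁻¹) e0)) = ρ (x i) (w e0)
        rw [hfix2]
      · intro i w
        show ρ (y i) (w (σ (π (y i)⁻¹) e0)) = ρ (y i) (w e0)
        rw [hfix2]

theorem homg {G Q : Type} [Group G] [Group Q] [Finite Q] (hQ : IsPGroup 2 Q) (π : G →* Q)
    {M : Type} [AddCommGroup M] [Module K M] (ρ : Representation K G M)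
    (x : Fin sx → G) (y : Fin sy → G) (h : GHlin (fun i => ρ (x i)) (fun i => ρ (y i)))
    (E : Type) [AddCommGroup E] [Module K E] [FiniteDimensional K E]
    (σ : Representation K Q E) :
    GHlin (fun i => Representation.linHom (σ.comp π) ρ (x i))
      (fun i => Representation.linHom (σ.comp π) ρ (y i)) :=
  HOMG_aux hQ π ρ x y h (finrank K E) E σ le_rfl

end TARO
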