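import Pool.Agent.TARO.RD

/-! INTC: intersections of good families are good. -/

open Module

namespace TARO

variable {r : ℕ}

private theorem INTC_X {n : ℕ} {V : Submodule K (F r)} (h : V ≤ Fd r n) :
    XM r * V ≤ Fd r (n + 1) := by
  have h1 : Fd r (n + 1) = Fd r 1 * Fd r n := by rw [Fd_mul, add_comm]
  rw [h1]
  exact mul_le_mul' XM_le h

private theorem INTC_Y {n : ℕ} {V : Submodule K (F r)} (h : V ≤ Fd r n) :
    YM r * V ≤ Fd r (n + 1) := by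
  have h1 : Fd r (n + 1) = Fd r 1 * Fd r n := by rw [Fd_mul, add_comm]
  rw [h1]
  exact mul_le_mul' YM_le h

theorem HL.inf {L : ℕ} {P Q : ℕ → Submodule K (F r)} {b : ℕ} (hP : HL r L P b)
    (hQ : HL r L Q b) (h0 : ∀ i, i < L → Fd r 1 * P (b + i) ≤ P (b + (i + 1))) :
    HL r L (fun k => P k ⊓ Q k) b := by
  intro V₁ V₂ hV₁ hV₂ h₁ h₂
  have e1 := hP V₁ V₂ hV₁ hV₂ h₁ h₂
  have e2 := hQ (fun i => V₁ i ⊓ P (b + i)) (fun i => V₂ i ⊓ P (b + i))
    (fun i => inf_le_left.trans (hV₁ i)) (fun i => inf_le_left.trans (hV₂ i))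
    (by simp only [h₁, bot_inf_eq]) (by simp only [h₂, bot_inf_eq])
  have f1 : ∀ i, FiniteDimensional K (V₁ i) := fun i => finiteDimensional_of_le_Fd (hV₁ i)
  have f2 : ∀ i, FiniteDimensional K (V₂ i) := fun i => finiteDimensional_of_le_Fd (hV₂ i)
  have hA : ∀ i, V₁ (i + 1) ⊔ V₂ (i + 1) ⊔ XM r * V₁ i ⊔ YM r * V₂ i ≤
      Fd r (b + (i + 1)) := fun i =>
    sup_le (sup_le (sup_le (hV₁ _) (hV₂ _)) (INTC_X (hV₁ i))) (INTC_Y (hV₂ i))
  have hle : ∀ i, i < L → (V₁ (i + 1) ⊓ P (b + (i + 1))) ⊔ (V₂ (i + 1) ⊓ P (b + (i + 1))) ⊔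
      XM r * (V₁ i ⊓ P (b + i)) ⊔ YM r * (V₂ i ⊓ P (b + i)) ≤
      (V₁ (i + 1) ⊔ V₂ (i + 1) ⊔ XM r * V₁ i ⊔ YM r * V₂ i) ⊓ P (b + (i + 1)) := by
    intro i hi
    refine sup_le (sup_le (sup_le ?_ ?_) ?_) ?_
    · exact inf_le_inf_right _ (le_sup_of_le_left (le_sup_of_le_left le_sup_left))
    · exact inf_le_inf_right _ (le_sup_of_le_left (le_sup_of_le_left le_sup_right))
    · refine le_inf ?_ ?_
      · exact (mul_le_mul' le_rfl inf_le_left).trans (le_sup_of_le_left le_sup_right)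
      · exact (mul_le_mul' XM_le inf_le_right).trans (h0 i hi)
    · refine le_inf ?_ ?_
      · exact (mul_le_mul' le_rfl inf_le_left).trans le_sup_right
      · exact (mul_le_mul' YM_le inf_le_right).trans (h0 i hi)
  have e3 : ∀ i ∈ Finset.range L,
      rd (V₁ (i + 1) ⊔ V₂ (i + 1) ⊔ XM r * V₁ i ⊔ YM r * V₂ i) (P (b + (i + 1))) +
      rd ((V₁ (i + 1) ⊓ P (b + (i + 1))) ⊔ (V₂ (i + 1) ⊓ P (b + (i + 1))) ⊔
        XM r * (V₁ i ⊓ P (b + i)) ⊔ YM r * (V₂ i ⊓ P (b + i))) (Q (b + (i + 1))) ≤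
      rd (V₁ (i + 1) ⊔ V₂ (i + 1) ⊔ XM r * V₁ i ⊔ YM r * V₂ i)
        (P (b + (i + 1)) ⊓ Q (b + (i + 1))) := by
    intro i hi
    have fA := finiteDimensional_of_le_Fd (hA i)
    have fA' : FiniteDimensional K
        ((V₁ (i + 1) ⊔ V₂ (i + 1) ⊔ XM r * V₁ i ⊔ YM r * V₂ i) ⊓ P (b + (i + 1)) :
          Submodule K (F r)) := finiteDimensional_of_le_Fd (inf_le_left.trans (hA i))
    rw [rd_inf (V₁ (i + 1) ⊔ V₂ (i + 1) ⊔ XM r * V₁ i ⊔ YM r * V₂ i)]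
    have := rd_mono_left (Q (b + (i + 1))) (hle i (Finset.mem_range.1 hi))
    omega
  have e4 : ∀ i ∈ Finset.range L,
      rd (V₁ i) (P (b + i) ⊓ Q (b + i)) + rd (V₂ i) (P (b + i) ⊓ Q (b + i)) =
      (rd (V₁ i) (P (b + i)) + rd (V₂ i) (P (b + i))) +
      (rd (V₁ i ⊓ P (b + i)) (Q (b + i)) + rd (V₂ i ⊓ P (b + i)) (Q (b + i))) := by
    intro i _
    rw [rd_inf (V₁ i), rd_inf (V₂ i)]
    omega
  rw [Finset.sum_congr rfl e4, Finset.sum_add_distrib]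
  refine le_trans (add_le_add e1 e2) ?_
  rw [← Finset.sum_add_distrib]
  exact Finset.sum_le_sum e3

theorem Good.inf {L : ℕ} {R : Rels r} {b e : ℕ} {P Q : ℕ → Submodule K (F r)}
    (hP : Good r L R b e P) (hQ : Good r L R b e Q) :
    Good r L R b e (fun k => P k ⊓ Q k) where
  le n hb he := inf_le_left.trans (hP.le n hb he)
  closed n hb he := le_inf ((mul_le_mul' le_rfl inf_le_left).trans (hP.closed n hb he))
    ((mul_le_mul' le_rfl inf_le_right).trans (hQ.closed n hb he))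
  hl n hn hb he := HL.inf (hP.hl n hn hb he) (hQ.hl n hn hb he)
    (fun i hi => hP.closed (n + i) (by omega) (by omega))
  rel p hp t hb he := le_inf (hP.rel p hp t hb he) (hQ.rel p hp t hb he)

end TARO
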