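import Pool.Agent.TARO.QUO
import Pool.Agent.TARO.FLT

/-! JET: linear and quadratic coefficients. -/

open Module

namespace TARO

variable {r : ℕ}

theorem lv_add (f g : F r) (a : Al r) : lv (f + g) a = lv f a + lv g a := by
  rfl

theorem lv_sub (f g : F r) (a : Al r) : lv (f - g) a = lv f a - lv g a := by
  rfl

theorem lv_smul (c : K) (f : F r) (a : Al r) : lv (c • f) a = c * lv f a := by
  rfl

private theorem JET_lv_zero (a : Al r) : lv (0 : F r) a = 0 := rfl

private theorem JET_qv_zero (a b : Al r) : qv (0 : F r) a b = 0 := rfl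

theorem lv_sum {ι : Type} (s : Finset ι) (f : ι → F r) (a : Al r) :
    lv (∑ i ∈ s, f i) a = ∑ i ∈ s, lv (f i) a := by
  classical
  induction s using Finset.induction_on with
  | empty => rw [Finset.sum_empty, Finset.sum_empty, JET_lv_zero]
  | insert i s hi ih => rw [Finset.sum_insert hi, Finset.sum_insert hi, lv_add, ih]

open Classical in
private theorem JET_coeff_one (z : FreeMonoid (Al r)) :
    (1 : F r).coeff z = if z = 1 then 1 else 0 := by
  rw [← wd_nil, coeff_wd]
  by_cases h : z = 1
  · subst h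
    rw [if_pos rfl, if_pos]
    rfl
  · rw [if_neg h, if_neg]
    intro h'
    exact h (FreeMonoid.toList.injective h'.symm)

theorem lv_one (a : Al r) : lv (1 : F r) a = 0 := by
  unfold lv
  rw [JET_coeff_one, if_neg]
  intro h
  have := congrArg FreeMonoid.length h
  simp at this

theorem qv_add (f g : F r) (a b : Al r) : qv (f + g) a b = qv f a b + qv g a b := by
  rfl

theorem qv_sub (f g : F r) (a b : Al r) : qv (f - g) a b = qv f a b - qv g a b := by
  rfl

theorem qv_smul (c : K) (f : F r) (a b : Al r) : qv (c • f) a b = c * qv f a b := by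
  rfl

theorem qv_sum {ι : Type} (s : Finset ι) (f : ι → F r) (a b : Al r) :
    qv (∑ i ∈ s, f i) a b = ∑ i ∈ s, qv (f i) a b := by
  classical
  induction s using Finset.induction_on with
  | empty => rw [Finset.sum_empty, Finset.sum_empty, JET_qv_zero]
  | insert i s hi ih => rw [Finset.sum_insert hi, Finset.sum_insert hi, qv_add, ih]

theorem qv_one (a b : Al r) : qv (1 : F r) a b = 0 := by
  unfold qv
  rw [JET_coeff_one, if_neg]
  intro h
  have := congrArg FreeMonoid.length h
  rw [FreeMonoid.length_mul, FreeMonoid.length_of, FreeMonoid.length_of,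
    FreeMonoid.length_one] at this
  omega

private theorem JET_nc (f : F r) : NC (f - f.coeff 1 • (1 : F r)) := by
  change f.coeff 1 - f.coeff 1 * (1 : F r).coeff 1 = 0
  rw [JET_coeff_one, if_pos rfl, mul_one, sub_self]

theorem coeff_one_mul (f g : F r) :
    (f * g).coeff (1 : FreeMonoid (Al r)) = f.coeff 1 * g.coeff 1 := by
  obtain ⟨f', hf'⟩ : ∃ f', f' = f - f.coeff 1 • (1 : F r) := ⟨_, rfl⟩
  obtain ⟨g', hg'⟩ : ∃ g', g' = g - g.coeff 1 • (1 : F r) := ⟨_, rfl⟩
  have hf : NC f' := hf' ▸ JET_nc f
  have hg : NC g' := hg' ▸ JET_nc g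
  have h1 : f * g = f.coeff 1 • g.coeff 1 • (1 : F r) + f.coeff 1 • g' + f' * g := by
    have e1 : f = f' + f.coeff 1 • (1 : F r) := by rw [hf']; abel
    have e2 : g' = g - g.coeff 1 • (1 : F r) := hg'
    rw [e2, smul_sub]
    have e3 : f * g = f' * g + f.coeff 1 • g := by
      conv_lhs => rw [e1]
      rw [add_mul, smul_mul_assoc, one_mul]
    rw [e3]
    abel
  have h2 : (f' * g).coeff 1 = 0 := hf.mul_right g
  have h3 : g'.coeff 1 = 0 := hg
  have h4 : (f * g).coeff 1 = f.coeff 1 * (g.coeff 1 * (1 : F r).coeff 1) +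
      f.coeff 1 * g'.coeff 1 + (f' * g).coeff 1 := by
    conv_lhs => rw [h1]
    rfl
  rw [h4, h2, h3, JET_coeff_one, if_pos rfl, mul_one, mul_zero, add_zero, add_zero]

private theorem JET_lv (f : F r) (a : Al r) : lv f a = (lq a f).coeff 1 := by
  rw [coeff_lq, mul_one]
  rfl

private theorem JET_qv (f : F r) (a b : Al r) : qv f a b = lv (lq a f) b := by
  unfold lv
  rw [coeff_lq]
  rfl

theorem lv_mul (f g : F r) (a : Al r) :
    lv (f * g) a = f.coeff 1 * lv g a + lv f a * g.coeff 1 := by
  rw [JET_lv, JET_lv, JET_lv, lq_mul]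
  change (lq a f * g).coeff 1 + f.coeff 1 * (lq a g).coeff 1 = _
  rw [coeff_one_mul, add_comm]

theorem qv_mul (f g : F r) (a b : Al r) :
    qv (f * g) a b = f.coeff 1 * qv g a b + lv f a * lv g b + qv f a b * g.coeff 1 := by
  rw [JET_qv, JET_qv, JET_qv, lq_mul, lv_add, lv_smul, lv_mul, JET_lv f a]
  ring

theorem lv_wd (a b : Al r) : lv (wd [a] : F r) b = if a = b then 1 else 0 := by
  unfold lv
  rw [coeff_wd]
  change (if [a] = [b] then _ else _) = _
  by_cases h : a = b
  · rw [if_pos h, if_pos (by rw [h])]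
  · rw [if_neg h, if_neg]
    intro h'
    exact h (by simpa using h')

theorem qv_wd (a b c : Al r) : qv (wd [a] : F r) b c = 0 := by
  unfold qv
  rw [coeff_wd]
  change (if [a] = [b, c] then _ else _) = _
  rw [if_neg (by simp)]

private theorem JET_part_zero (f : F r) : part 0 f = f.coeff 1 • (1 : F r) := by
  apply MonoidAlgebra.ext
  ext z
  change (f.coeff.filter fun w => w.length = 0) z = f.coeff 1 * (1 : F r).coeff z
  rw [Finsupp.filter_apply, JET_coeff_one]
  by_cases h : z = 1
  · subst h
    rw [if_pos FreeMonoid.length_one, if_pos rfl, mul_one]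
  · rw [if_neg h, mul_zero, if_neg]
    intro h'
    exact h (FreeMonoid.length_eq_zero.mp h')

private theorem JET_nc_part (n : ℕ) (f : F r) : NC (part (n + 1) f) := by
  rw [nc_iff]
  exact part_of_ne (part_mem (n + 1) f) (by omega)

theorem part_one_eq (f : F r) : part 1 f = ∑ a, lv f a • (wd [a] : F r) := by
  rw [eq_sum_lq (part 1 f) (JET_nc_part 0 f)]
  refine Finset.sum_congr rfl fun a _ => ?_
  rw [lq_part 0 a f, JET_part_zero, mul_smul_comm, mul_one, JET_lv]

theorem part_two_eq (f : F r) : part 2 f = ∑ a, ∑ b, qv f a b • (wd [a, b] : F r) := by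
  rw [eq_sum_lq (part 2 f) (JET_nc_part 1 f)]
  refine Finset.sum_congr rfl fun a _ => ?_
  rw [lq_part 1 a f, part_one_eq, Finset.mul_sum]
  refine Finset.sum_congr rfl fun b _ => ?_
  rw [mul_smul_comm, ← wd_cons, JET_qv]

private theorem JET_lv_part (f : F r) (a : Al r) : lv (part 1 f) a = lv f a := by
  unfold lv
  change (f.coeff.filter fun w => w.length = 1) (FreeMonoid.of a) = _
  rw [Finsupp.filter_apply, if_pos (FreeMonoid.length_of a)]

theorem part_one_eq_zero_iff (f : F r) : part 1 f = 0 ↔ ∀ a, lv f a = 0 := by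
  constructor
  · intro h a
    rw [← JET_lv_part, h]
    rfl
  · intro h
    rw [part_one_eq]
    exact Finset.sum_eq_zero fun a _ => by rw [h, zero_smul]

theorem part_one_mem_XM_iff (f : F r) : part 1 f ∈ XM r ↔ XLin f := by
  constructor
  · intro h j
    rw [← JET_lv_part]
    have key : ∀ g ∈ XM r, lv g (Sum.inr j) = 0 := by
      intro g hg
      unfold XM at hg
      induction hg using Submodule.span_induction with
      | mem x hx =>
        obtain ⟨i, rfl⟩ := hx
        rw [lv_wd, if_neg (by simp)]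
      | zero => rfl
      | add x y _ _ hx hy => rw [lv_add, hx, hy, add_zero]
      | smul c x _ hx => rw [lv_smul, hx, mul_zero]
    exact key _ h
  · intro h
    rw [part_one_eq, Fintype.sum_sum_type]
    have h2 : ∑ j : Fin (r + 2), lv f (Sum.inr j) • (wd [Sum.inr j] : F r) = 0 :=
      Finset.sum_eq_zero fun j _ => by rw [h j, zero_smul]
    rw [h2, add_zero]
    exact Submodule.sum_mem _ fun i _ =>
      Submodule.smul_mem _ _ (Submodule.subset_span ⟨i, rfl⟩)

/-- if all coefficients of `x_i x_j` vanish, then `part 2 f` has a y-letter in every term -/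
theorem part_two_bad {f : F r} (h : ∀ i j : Fin (r + 1), qv f (Sum.inl i) (Sum.inl j) = 0) :
    part 2 f ∈ Flt (fun _ => (0 : Cm r)) 2 1 := by
  have hY : ∀ j : Fin (r + 2), (wd [Sum.inr j] : F r) ∈ YC (0 : Cm r) := by
    intro j
    refine Submodule.subset_span ⟨j, ?_⟩
    unfold yl
    rw [Finset.sum_eq_zero, add_zero]
    intro i _
    rw [Pi.zero_apply, Pi.zero_apply, zero_smul]
  have hY1 : ∀ j : Fin (r + 2), (wd [Sum.inr j] : F r) ∈ Flt (fun _ => (0 : Cm r)) 1 1 := by
    intro j
    rw [Flt_succ]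
    refine Submodule.mem_sup_right ?_
    rw [Flt_zero, Fd_zero, mul_one]
    exact hY j
  rw [part_two_eq]
  refine Submodule.sum_mem _ fun a _ => Submodule.sum_mem _ fun b _ => ?_
  rcases a with i | i
  · rcases b with j | j
    · rw [h i j, zero_smul]
      exact Submodule.zero_mem _
    · refine Submodule.smul_mem _ _ ?_
      rw [Flt_succ, wd_cons]
      exact Submodule.mem_sup_left
        (Submodule.mul_mem_mul (Submodule.subset_span ⟨i, rfl⟩) (hY1 j))
  · refine Submodule.smul_mem _ _ ?_
    rw [Flt_succ, wd_cons]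
    refine Submodule.mem_sup_right (Submodule.mul_mem_mul (hY i) ?_)
    rw [Flt_zero]
    exact wd_mem_Fd [b]

end TARO
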