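import Pool.Agent.TARO.PRODW
import Pool.Agent.TARO.FLOWD

/-! LAW: the weight of the parts of a product is bounded by its mass. -/

open Module

namespace TARO

variable {r k : ℕ}

/-- weight of the part of degree `d` of a factor: at most `1`, and at most `alp r` for the bad
part of the special factor at a gain position (the levels `o + (m - d), …, o + (m - 1)` have
complement `ψ`, `Flt_congr`) -/
theorem w_factor_le {u : Fin k → F r} {dg : Fin k → ℕ} {i₀ : Fin k} {ψ : Cm r}
    (h : KillData r k u dg i₀ ψ) (c : ℕ → Cm r) (o : ℕ) {δ : ℝ} (hδ : 0 < δ) (i : Fin k)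
    {d m : ℕ} (hd : dg i ≤ d) (hdm : d ≤ m) :
    δ ^ (d - dg i) * w (shift c (o + (m - d))) d (Submodule.span K {part d (u i)}) ≤
      stepW (alp r) δ dg i₀ (gainAt c o ψ (dg i₀)) m i d := by
  unfold stepW
  refine mul_le_mul_of_nonneg_left ?_ (pow_nonneg hδ.le _)
  split_ifs with h1
  · obtain ⟨rfl, rfl, h2, h3⟩ := h1
    have h4 : part (dg i) (u i) ∈ Flt (shift c (o + (m - dg i))) (dg i) 1 := by
      rw [Flt_congr (c' := fun _ => ψ) (fun t ht => ?_) 1]
      · exact h.bad
      · change c (o + (m - dg i) + t) = ψ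
        rw [add_assoc]
        exact h3 _ (by omega) (by omega)
    have h5 := w_singleton_le (shift c (o + (m - dg i))) h4
    rwa [pow_one] at h5
  · exact w_singleton_le_one _ _ _

private theorem LAW_part_mul (a b : F r) (m : ℕ) :
    part m (a * b) = ∑ d ∈ Finset.range (m + 1), part d a * part (m - d) b := by
  obtain ⟨N, hN, ha⟩ := exists_sum_part a
  have h1 : part m (a * b) = ∑ d ∈ Finset.range N, part m (part d a * b) := by
    conv_lhs => rw [ha]
    rw [Finset.sum_mul, map_sum]
  have h2 : ∀ d, part m (part d a * b) = if d ≤ m then part d a * part (m - d) b else 0 := by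
    intro d
    split_ifs with h
    · obtain ⟨e, rfl⟩ := Nat.exists_eq_add_of_le h
      rw [part_mul_of_mem (part_mem d a), Nat.add_sub_cancel_left]
    · exact part_mul_of_lt (part_mem d a) b (not_le.mp h)
  rw [h1]
  simp only [h2]
  rw [← Finset.sum_filter]
  symm
  have h3 : (Finset.range N).filter (fun d => d ≤ m) ⊆ Finset.range (m + 1) := by
    intro d hd
    rw [Finset.mem_filter] at hd
    exact Finset.mem_range.mpr (Nat.lt_succ_of_le hd.2)
  rw [← Finset.sum_subset h3]
  intro d hd hd'
  have h4 : N ≤ d := by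
    by_contra h5
    exact hd' (Finset.mem_filter.mpr ⟨Finset.mem_range.mpr (not_le.mp h5),
      Nat.le_of_lt_succ (Finset.mem_range.mp hd)⟩)
  rw [hN d h4, zero_mul]

private theorem LAW_wp_cons {u : Fin k → F r} (i : Fin k) (v : List (Fin k)) (z : F r) :
    wp u (i :: v) * z = u i * (wp u v * z) := by
  unfold wp
  rw [List.map_cons, List.prod_cons, mul_assoc]

private theorem LAW_sum {u : Fin k → F r} {dg : Fin k → ℕ} {i₀ : Fin k} {ψ : Cm r}
    (h : KillData r k u dg i₀ ψ) (i : Fin k) (z : F r) (m : ℕ) :
    part m (u i * z) = ∑ d ∈ Finset.Icc (dg i) m, part d (u i) * part (m - d) z := by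
  rw [LAW_part_mul]
  symm
  refine Finset.sum_subset ?_ ?_
  · intro d hd
    rw [Finset.mem_Icc] at hd
    exact Finset.mem_range.mpr (by omega)
  · intro d hd hd'
    rw [h.low i d ?_, zero_mul]
    rw [Finset.mem_range] at hd
    rw [Finset.mem_Icc] at hd'
    omega

private theorem LAW_w_zero (c : ℕ → Cm r) (n : ℕ) : w c n (Submodule.span K {(0 : F r)}) = 0 := by
  rw [Submodule.span_zero_singleton, w_bot]

private theorem LAW_fin (v : F r) : FiniteDimensional K (Submodule.span K {v}) :=
  FiniteDimensional.span_of_finite K (Set.finite_singleton v)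

private theorem LAW_w_sum (c : ℕ → Cm r) (n : ℕ) (s : Finset ℕ) (f : ℕ → F r) :
    w c n (Submodule.span K {∑ d ∈ s, f d}) ≤ ∑ d ∈ s, w c n (Submodule.span K {f d}) := by
  induction s using Finset.induction_on with
  | empty =>
    rw [Finset.sum_empty, Finset.sum_empty, LAW_w_zero]
  | insert a s ha ih =>
    rw [Finset.sum_insert ha, Finset.sum_insert ha]
    exact (w_singleton_add c n _ _).trans (add_le_add le_rfl ih)

/-- Induction on `v`.  `part m (u i * z') = ∑ d ≤ m, part d (u i) * part (m - d) z'`, the terms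
with `d < dg i` vanish; the weight of a term is at most the weight of `part d (u i)` at offset
`o + (m - d)` times the weight of `part (m - d) z'` (`w_mul_le` with
`shift (shift c o) (m - d) = shift c (o + (m - d))`). -/
theorem w_part_le {u : Fin k → F r} {dg : Fin k → ℕ} {i₀ : Fin k} {ψ : Cm r}
    (h : KillData r k u dg i₀ ψ) (c : ℕ → Cm r) (o : ℕ) {δ : ℝ} (hδ : 0 < δ) {s : ℕ} {z : F r}
    (hz : z ∈ Fd r s) (v : List (Fin k)) (m : ℕ) :
    δ ^ m * w (shift c o) m (Submodule.span K {part m (wp u v * z)}) ≤
      δ ^ (s + (v.map dg).sum) *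
        wmass (alp r) δ dg i₀ (gainAt c o ψ (dg i₀)) s v m := by
  induction v generalizing m with
  | nil =>
    have h1 : wp u ([] : List (Fin k)) * z = z := by
      unfold wp
      rw [List.map_nil, List.prod_nil, one_mul]
    rw [h1]
    simp only [List.map_nil, List.sum_nil, add_zero, wmass]
    split_ifs with h2
    · subst h2
      exact mul_le_mul_of_nonneg_left (w_singleton_le_one _ _ _) (pow_nonneg hδ.le _)
    · rw [part_of_ne hz h2, LAW_w_zero, mul_zero, mul_zero]
  | cons i v ih =>
    rw [LAW_wp_cons, LAW_sum h]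
    simp only [wmass]
    refine (mul_le_mul_of_nonneg_left (LAW_w_sum _ _ _ _) (pow_nonneg hδ.le _)).trans ?_
    rw [Finset.mul_sum, Finset.mul_sum]
    refine Finset.sum_le_sum fun d hd => ?_
    obtain ⟨h1, h2⟩ := Finset.mem_Icc.mp hd
    have h3 : Submodule.span K {part d (u i) * part (m - d) (wp u v * z)} =
        Submodule.span K {part d (u i)} * Submodule.span K {part (m - d) (wp u v * z)} := by
      rw [Submodule.span_mul_span, Set.singleton_mul_singleton]
    have h4 := w_mul_le (shift c o) (m - d) d
      (Ω := Submodule.span K {part d (u i)})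
      (U := Submodule.span K {part (m - d) (wp u v * z)})
      ((Submodule.span_singleton_le_iff_mem _ _).mpr (part_mem _ _))
      ((Submodule.span_singleton_le_iff_mem _ _).mpr (part_mem _ _))
    have h5 : shift (shift c o) (m - d) = shift c (o + (m - d)) := by
      funext n
      change c (o + ((m - d) + n)) = c (o + (m - d) + n)
      rw [add_assoc]
    rw [h5, Nat.sub_add_cancel h2, ← h3] at h4
    have h6 := w_factor_le h c o hδ i h1 h2
    have h7 := ih (m - d)
    have h8 : δ ^ m = δ ^ (d - dg i) * (δ ^ dg i * δ ^ (m - d)) := by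
      rw [← pow_add, ← pow_add]
      congr 1
      omega
    have h9 : δ ^ (s + (List.map dg (i :: v)).sum) = δ ^ dg i * δ ^ (s + (List.map dg v).sum) := by
      rw [List.map_cons, List.sum_cons, ← pow_add]
      congr 1
      omega
    have hw1 := w_nonneg (shift c (o + (m - d))) d (Submodule.span K {part d (u i)})
    have hw2 := w_nonneg (shift c o) (m - d)
      (Submodule.span K {part (m - d) (wp u v * z)})
    have hs : 0 ≤ stepW (alp r) δ dg i₀ (gainAt c o ψ (dg i₀)) m i d :=
      (mul_nonneg (pow_nonneg hδ.le _) hw1).trans h6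
    calc δ ^ m * w (shift c o) m
          (Submodule.span K {part d (u i) * part (m - d) (wp u v * z)})
        ≤ δ ^ m * (w (shift c (o + (m - d))) d (Submodule.span K {part d (u i)}) *
          w (shift c o) (m - d) (Submodule.span K {part (m - d) (wp u v * z)})) :=
          mul_le_mul_of_nonneg_left h4 (pow_nonneg hδ.le _)
      _ = δ ^ dg i * ((δ ^ (d - dg i) *
            w (shift c (o + (m - d))) d (Submodule.span K {part d (u i)})) *
          (δ ^ (m - d) * w (shift c o) (m - d)
            (Submodule.span K {part (m - d) (wp u v * z)}))) := by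
          rw [h8]
          ring
      _ ≤ δ ^ dg i * (stepW (alp r) δ dg i₀ (gainAt c o ψ (dg i₀)) m i d *
          (δ ^ (s + (List.map dg v).sum) *
            wmass (alp r) δ dg i₀ (gainAt c o ψ (dg i₀)) s v (m - d))) := by
          refine mul_le_mul_of_nonneg_left ?_ (pow_nonneg hδ.le _)
          exact mul_le_mul h6 h7 (mul_nonneg (pow_nonneg hδ.le _) hw2) hs
      _ = δ ^ (s + (List.map dg (i :: v)).sum) *
          (stepW (alp r) δ dg i₀ (gainAt c o ψ (dg i₀)) m i d *
            wmass (alp r) δ dg i₀ (gainAt c o ψ (dg i₀)) s v (m - d)) := by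
          rw [h9]
          ring

/-- parts of small degree of a product vanish -/
theorem part_wp_zero {u : Fin k → F r} {dg : Fin k → ℕ} {i₀ : Fin k} {ψ : Cm r}
    (h : KillData r k u dg i₀ ψ) {s : ℕ} {z : F r} (hz : z ∈ Fd r s) (v : List (Fin k)) {m : ℕ}
    (hm : m < s + (v.map dg).sum) : part m (wp u v * z) = 0 := by
  induction v generalizing m with
  | nil =>
    have h1 : wp u ([] : List (Fin k)) * z = z := by
      unfold wp
      rw [List.map_nil, List.prod_nil, one_mul]
    rw [h1]
    simp only [List.map_nil, List.sum_nil, add_zero] at hm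
    exact part_of_ne hz hm.ne
  | cons i v ih =>
    rw [LAW_wp_cons, LAW_sum h]
    refine Finset.sum_eq_zero fun d hd => ?_
    obtain ⟨h1, h2⟩ := Finset.mem_Icc.mp hd
    rw [List.map_cons, List.sum_cons] at hm
    rw [ih (by omega), mul_zero]

end TARO
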