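import Pool.Agent.TARO.INTC

/-! LEAST: the full family is good, and there is a least good family containing given
subspaces at the bottom and at the top. -/

open Module

namespace TARO

variable {r : ℕ}

theorem good_full {L : ℕ} {R : Rels r} (b e : ℕ) (hR : ∀ p ∈ R, p.2 ≤ Fd r p.1) :
    Good r L R b e (Fd r) where
  le := fun n _ _ => le_refl _
  closed := by
    intro n _ _
    rw [Fd_mul, Nat.add_comm]
  hl := by
    intro n _ _ _ V₁ V₂ hV₁ hV₂ _ _
    refine le_of_eq_of_le (Finset.sum_eq_zero fun i _ => ?_) (Nat.zero_le _)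
    rw [rd_eq_zero (hV₁ i), rd_eq_zero (hV₂ i), add_zero]
  rel := by
    intro p hp t _ _
    calc p.2 * Fd r (t * p.1) ≤ Fd r p.1 * Fd r (t * p.1) :=
          mul_le_mul_left (hR p hp) _
      _ = Fd r (p.1 + t * p.1) := Fd_mul _ _
      _ = Fd r ((t + 1) * p.1) := by
          congr 1
          ring
      _ ≤ Fd r ((t + 1) * p.1) := le_refl _

theorem exists_least {L : ℕ} {R : Rels r} {b e : ℕ} (hR : ∀ p ∈ R, p.2 ≤ Fd r p.1)
    {Y Ω : Submodule K (F r)} (hY : Y ≤ Fd r b) (hΩ : Ω ≤ Fd r e) :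
    ∃ P : ℕ → Submodule K (F r), Good r L R b e P ∧ Y ≤ P b ∧ Ω ≤ P e ∧
      ∀ Q : ℕ → Submodule K (F r), Good r L R b e Q → Y ≤ Q b → Ω ≤ Q e →
        ∀ n, b ≤ n → n ≤ e → P n ≤ Q n := by
  classical
  let S : Set (ℕ → Submodule K (F r)) := {P | Good r L R b e P ∧ Y ≤ P b ∧ Ω ≤ P e}
  let f : (ℕ → Submodule K (F r)) → ℕ := fun P => ∑ n ∈ Finset.Icc b e, finrank K (P n)
  have hne : S.Nonempty := ⟨Fd r, good_full b e hR, hY, hΩ⟩
  obtain ⟨P, hPS, hmin⟩ := (measure f).wf.has_min S hne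
  refine ⟨P, hPS.1, hPS.2.1, hPS.2.2, ?_⟩
  intro Q hQ hYQ hΩQ n hbn hne'
  have hI : (fun k => P k ⊓ Q k) ∈ S :=
    ⟨hPS.1.inf hQ, le_inf hPS.2.1 hYQ, le_inf hPS.2.2 hΩQ⟩
  have hle : f P ≤ f (fun k => P k ⊓ Q k) := not_lt.1 (hmin _ hI)
  have hterm : ∀ k ∈ Finset.Icc b e,
      finrank K (P k ⊓ Q k : Submodule K (F r)) ≤ finrank K (P k) := by
    intro k hk
    rw [Finset.mem_Icc] at hk
    have : FiniteDimensional K (P k) :=
      finiteDimensional_of_le_Fd (hPS.1.le k hk.1 hk.2)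
    exact Submodule.finrank_mono inf_le_left
  have heq : ∀ k ∈ Finset.Icc b e,
      finrank K (P k ⊓ Q k : Submodule K (F r)) = finrank K (P k) :=
    (Finset.sum_eq_sum_iff_of_le hterm).1 (le_antisymm (Finset.sum_le_sum hterm) hle)
  have : FiniteDimensional K (P n) := finiteDimensional_of_le_Fd (hPS.1.le n hbn hne')
  have h2 : (P n ⊓ Q n : Submodule K (F r)) = P n :=
    Submodule.eq_of_le_of_finrank_eq inf_le_left (heq n (Finset.mem_Icc.2 ⟨hbn, hne'⟩))
  exact inf_eq_left.1 h2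

end TARO
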