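import Pool.Agent.TARO.SEQ
import Pool.Agent.TARO.LEAST
import Pool.Agent.TARO.GLUE
import Pool.Agent.TARO.WB

/-! LIM: the limit family. -/

open Module

namespace TARO

variable {r : ℕ}

private theorem LIM_stable (n : ℕ) (f : ℕ → Submodule K (F r)) (hf : ∀ i, n ≤ i → f i ≤ Fd r n)
    (hm : ∀ i, n ≤ i → f i ≤ f (i + 1)) : ∃ i₀, ∀ i, i₀ ≤ i → f i = f i₀ := by
  have hmon : ∀ i j, n ≤ i → i ≤ j → f i ≤ f j := by
    intro i j hi hij
    induction j, hij using Nat.le_induction with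
    | base => exact le_refl _
    | succ j hj ih => exact ih.trans (hm j (hi.trans hj))
  let g : ℕ →o Submodule K (Fd r n) :=
    ⟨fun k => (f (n + k)).comap (Fd r n).subtype, fun a b hab =>
      Submodule.comap_mono (hmon _ _ (by omega) (by omega))⟩
  obtain ⟨k₀, hk₀⟩ := monotone_stabilizes_iff_noetherian.mpr
    (inferInstance : IsNoetherian K (Fd r n)) g
  refine ⟨n + k₀, fun i hi => ?_⟩
  obtain ⟨k, rfl⟩ : ∃ k, i = n + k := ⟨i - n, by omega⟩
  have h1 := hk₀ k (by omega)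
  have h2 := congrArg (Submodule.map (Fd r n).subtype) h1
  change Submodule.map (Fd r n).subtype ((f (n + k₀)).comap (Fd r n).subtype) =
    Submodule.map (Fd r n).subtype ((f (n + k)).comap (Fd r n).subtype) at h2
  rw [Submodule.map_comap_subtype, Submodule.map_comap_subtype,
    inf_eq_right.mpr (hf _ (by omega)), inf_eq_right.mpr (hf _ (by omega))] at h2
  exact h2.symm

/-- as in `TAR.LIM`: let `Q i` be the least good family for `R i` on `[0, H i]` with `Y = Ω = ⊥`;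
`Q i 0 = ⊥` by the capacity (`w c 0` is the dimension); `Q i ≤ Q (i + 1)` on `[0, H i]`; let
`P n` be the supremum of the `Q i n` with `n ≤ H i`; by finite dimension `P n = Q i n` for large
`i`, simultaneously for `n, …, n + 2 * E` -/
theorem exists_limit (hr : 1 ≤ r) {E : ℕ} (hE : 1 ≤ E) (Ω : ℕ → ℕ → Submodule K (F r))
    (hΩ : ∀ i, SlowRel (cs r) E (Ω i)) :
    ∃ P : ℕ → Submodule K (F r), LeftClosed r P ∧ (∀ n, 2 * E ∣ n → HL r (2 * E) P n) ∧
      P 0 = ⊥ ∧ ∀ i, ∃ h, 0 < h ∧ ∀ t, Ω i h * Fd r (t * h) ≤ P ((t + 1) * h) := by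
  obtain ⟨R, H, κ, hS, hRm, hHd, hH, hRΩ⟩ := exists_states hr hE Ω hΩ
  have hL := fun i => exists_least (L := 2 * E) (R := R i) (b := 0) (e := H i)
    (fun p hp => ((hS i).rels p hp).2.2) (Y := ⊥) (Ω := ⊥) bot_le bot_le
  choose Q hQ _ _ hQmin using hL
  have hQ0 : ∀ i, Q i 0 = ⊥ := by
    intro i
    obtain ⟨P', hP', hY', hΩ', hb⟩ := (hS i).cap 0 ⊥ ⊥ bot_le bot_le
    rw [zero_add, one_mul, zero_mul] at hP'
    rw [w_bot, w_bot, sub_zero, zero_mul] at hb
    have hκ : 0 < κ i := by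
      refine lt_of_le_of_lt ?_ (hS i).big
      positivity
    have h0 : (finrank K (P' 0) : ℝ) ≤ 0 := by
      have h1 := le_w (cs r) 0 (P' 0)
      rw [pow_zero, one_mul] at h1
      have h2 : w (cs r) 0 (P' 0) ≤ 0 := by
        by_contra h3
        have h4 := mul_pos hκ (not_le.1 h3)
        exact absurd hb (not_le.2 h4)
      exact h1.trans h2
    have h0' : finrank K (P' 0) = 0 := by
      have : finrank K (P' 0) ≤ 0 := by exact_mod_cast h0
      omega
    have hfd : FiniteDimensional K (P' 0) :=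
      finiteDimensional_of_le_Fd (hP'.le 0 le_rfl (Nat.zero_le _))
    have h1 : P' 0 = ⊥ := Submodule.finrank_eq_zero.mp h0'
    have h2 := hQmin i P' hP' bot_le bot_le 0 le_rfl (Nat.zero_le _)
    rw [h1] at h2
    exact le_bot_iff.mp h2
  have hHle : ∀ i, H i ≤ H (i + 1) := fun i => Nat.le_of_dvd (hS (i + 1)).pos (hHd i)
  have hQm : ∀ i n, n ≤ H i → Q i n ≤ Q (i + 1) n := by
    intro i n hn
    exact hQmin i (Q (i + 1)) (((hQ (i + 1)).restrict le_rfl (hHle i)).mono_rels (hRm i))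
      bot_le bot_le n (Nat.zero_le _) hn
  have hst : ∀ n, ∃ i₀, ∀ i, i₀ ≤ i → Q i n = Q i₀ n := by
    intro n
    refine LIM_stable n (fun i => Q i n) (fun i hi => ?_) (fun i hi => ?_)
    · exact (hQ i).le n (Nat.zero_le _) (hi.trans (hH i).le)
    · exact hQm i n (hi.trans (hH i).le)
  choose i₀ hi₀ using hst
  have hRmon : ∀ i j, i ≤ j → R i ⊆ R j := by
    intro i j hij
    induction j, hij using Nat.le_induction with
    | base => exact le_refl _
    | succ j hj ih => exact ih.trans (hRm j)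
  refine ⟨fun n => Q (i₀ n) n, ⟨fun n => ?_, fun n => ?_⟩, fun n hn => ?_, hQ0 _, fun i => ?_⟩
  · have h := (hQ (max (i₀ n) n)).le n (Nat.zero_le _)
      ((le_max_right (i₀ n) n).trans (hH _).le)
    rwa [hi₀ n _ (le_max_left _ _)] at h
  · obtain ⟨j, hj1, hj2, hj3⟩ : ∃ j, i₀ n ≤ j ∧ i₀ (n + 1) ≤ j ∧ n + 1 ≤ j :=
      ⟨i₀ n + i₀ (n + 1) + (n + 1), by omega, by omega, by omega⟩
    have h := (hQ j).closed n (Nat.zero_le _) (hj3.trans (hH j).le)
    rwa [hi₀ n j hj1, hi₀ (n + 1) j hj2] at h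
  · obtain ⟨j, hj1, hj2⟩ : ∃ j, (∀ i, i ≤ 2 * E → i₀ (n + i) ≤ j) ∧ n + 2 * E ≤ j := by
      refine ⟨(∑ i ∈ Finset.range (2 * E + 1), i₀ (n + i)) + (n + 2 * E), fun i hi => ?_,
        by omega⟩
      have h := Finset.single_le_sum (f := fun i => i₀ (n + i)) (fun _ _ => Nat.zero_le _)
        (Finset.mem_range.2 (Nat.lt_succ_of_le hi))
      change i₀ (n + i) ≤ ∑ i ∈ Finset.range (2 * E + 1), i₀ (n + i) at h
      omega
    exact ((hQ j).hl n hn (Nat.zero_le _) (hj2.trans (hH j).le)).congr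
      fun i hi => hi₀ (n + i) j (hj1 i hi)
  · refine ⟨H (i + 1), (hS (i + 1)).pos, fun t => ?_⟩
    obtain ⟨m, hm⟩ : ∃ m, m = (t + 1) * H (i + 1) := ⟨_, rfl⟩
    obtain ⟨j, hj1, hj2, hj3⟩ : ∃ j, i₀ m ≤ j ∧ i + 1 ≤ j ∧ m ≤ j :=
      ⟨i₀ m + (i + 1) + m, by omega, by omega, by omega⟩
    have h := (hQ j).rel _ (hRmon (i + 1) j hj2 (hRΩ i)) t (Nat.zero_le _)
      (by
        change (t + 1) * H (i + 1) ≤ H j
        rw [← hm]
        exact hj3.trans (hH j).le)
    change Ω i (H (i + 1)) * Fd r (t * H (i + 1)) ≤ Q j ((t + 1) * H (i + 1)) at h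
    rw [← hm, hi₀ m j hj1] at h
    rw [← hm]
    exact h

end TARO
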