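import Pool.Agent.TARO.Defs

/-! MASS: bounds for the total mass. -/

namespace TARO

variable {k : ℕ}

/-- For one factor `i` the sum of `δ ^ (d - dg i) * q ^ d` over `d > dg i` is at most
`q ^ dg i * ((δ q) + (δ q) ^ 2 + …) ≤ q ^ dg i * δ` (as `q ≤ 1 / 2`, `δ ≤ 1`). -/
theorem excess_le {δ q : ℝ} (hδ0 : 0 ≤ δ) (hδ1 : δ ≤ 1) (hq0 : 0 ≤ q) (hq : q ≤ 1 / 2)
    (d₀ m : ℕ) :
    ∑ d ∈ Finset.Icc (d₀ + 1) m, δ ^ (d - d₀) * q ^ d ≤ q ^ d₀ * δ := by
  have key : ∀ m : ℕ, ∑ d ∈ Finset.Icc (d₀ + 1) m, δ ^ (d - d₀) * q ^ d ≤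
      q ^ d₀ * δ * (1 - (1 / 2) ^ (m - d₀)) := by
    intro m
    induction m with
    | zero =>
      rw [Finset.Icc_eq_empty (by omega), Finset.sum_empty]
      simp
    | succ m ih =>
      by_cases hm : d₀ ≤ m
      · rw [Finset.sum_Icc_succ_top (by omega)]
        obtain ⟨t, rfl⟩ := Nat.exists_eq_add_of_le hm
        have e1 : d₀ + t - d₀ = t := by omega
        have e2 : d₀ + t + 1 - d₀ = t + 1 := by omega
        rw [e1] at ih
        rw [e2]
        have h1 : δ ^ (t + 1) ≤ δ := by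
          rw [pow_succ]
          have : δ ^ t ≤ 1 := pow_le_one₀ hδ0 hδ1
          nlinarith
        have h2 : q ^ (t + 1) ≤ (1 / 2) ^ (t + 1) := pow_le_pow_left₀ hq0 hq _
        have h3 : δ ^ (t + 1) * q ^ (t + 1) ≤ δ * (1 / 2) ^ (t + 1) :=
          mul_le_mul h1 h2 (pow_nonneg hq0 _) hδ0
        have h4 : δ ^ (t + 1) * q ^ (d₀ + t + 1) = q ^ d₀ * (δ ^ (t + 1) * q ^ (t + 1)) := by
          rw [add_assoc, pow_add q d₀ (t + 1)]; ring
        rw [h4]
        have h5 : q ^ d₀ * (δ ^ (t + 1) * q ^ (t + 1)) ≤ q ^ d₀ * (δ * (1 / 2) ^ (t + 1)) :=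
          mul_le_mul_of_nonneg_left h3 (pow_nonneg hq0 _)
        calc _ ≤ q ^ d₀ * δ * (1 - (1 / 2) ^ t) + q ^ d₀ * (δ * (1 / 2) ^ (t + 1)) :=
              add_le_add ih h5
          _ = q ^ d₀ * δ * (1 - (1 / 2) ^ (t + 1)) := by
              rw [pow_succ]; ring
      · rw [Finset.Icc_eq_empty (by omega), Finset.sum_empty]
        have : m + 1 - d₀ = 0 := by omega
        rw [this]
        simp
  refine (key m).trans ?_
  have h1 : (0 : ℝ) ≤ (1 / 2) ^ (m - d₀) := by positivity
  have h2 : 0 ≤ q ^ d₀ * δ := mul_nonneg (pow_nonneg hq0 _) hδ0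
  nlinarith

private theorem stepW_nonneg {α δ : ℝ} {dg : Fin k → ℕ} {i₀ : Fin k} {gain : ℕ → Prop}
    (hα0 : 0 ≤ α) (hδ0 : 0 ≤ δ) (m : ℕ) (i : Fin k) (d : ℕ) :
    0 ≤ stepW α δ dg i₀ gain m i d := by
  unfold stepW
  refine mul_nonneg (pow_nonneg hδ0 _) ?_
  split_ifs
  · exact hα0
  · exact zero_le_one

theorem mass_nonneg {α δ q : ℝ} {dg : Fin k → ℕ} {i₀ : Fin k} {gain : ℕ → Prop}
    (hα0 : 0 ≤ α) (hδ0 : 0 ≤ δ) (hq0 : 0 ≤ q) (n m : ℕ) :
    0 ≤ mass α δ q dg i₀ gain n m := by
  induction n generalizing m with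
  | zero => simp [mass]
  | succ n ih =>
    rw [mass]
    refine Finset.sum_nonneg fun i _ => Finset.sum_nonneg fun d _ => ?_
    exact mul_nonneg (mul_nonneg (stepW_nonneg hα0 hδ0 _ _ _) (pow_nonneg hq0 _)) (ih _)

/-- Induction on `n`.  Split each sum over `d` into `d = dg i` (if `dg i ≤ m`) and the rest
(`excess_le`).  If `gain m` the term `i = i₀`, `d = dg i₀` has the factor `α`, so the total
weight is at most `1 - γ + δ`.  Otherwise use the induction hypothesis
`mass n (m - dg i) ≤ (1 + δ) ^ n - γ` for all `i` (if `m < dg i` the term is missing). -/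
theorem mass_le {α δ q γ : ℝ} {dg : Fin k → ℕ} {i₀ : Fin k} {gain : ℕ → Prop}
    (hα0 : 0 ≤ α) (hα1 : α ≤ 1) (hδ0 : 0 ≤ δ) (hδ1 : δ ≤ 1) (hq0 : 0 ≤ q) (hq : q ≤ 1 / 2)
    (hm : ∑ i, q ^ dg i ≤ 1) (hγ0 : 0 ≤ γ) (hγ : γ ≤ (1 - α) * q ^ dg i₀) (n m : ℕ) :
    mass α δ q dg i₀ gain n m ≤ (1 + δ) ^ n ∧
      (hit dg gain n m → mass α δ q dg i₀ gain n m ≤ (1 + δ) ^ n - γ) := by
  classical
  have hγ1 : γ ≤ 1 := by
    have h1 : q ^ dg i₀ ≤ 1 := pow_le_one₀ hq0 (by linarith)
    have h2 : 0 ≤ q ^ dg i₀ := pow_nonneg hq0 _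
    nlinarith
  induction n generalizing m with
  | zero =>
    refine ⟨by simp [mass], fun h => ?_⟩
    exact absurd h (by simp [hit])
  | succ n ih =>
    set M : ℝ := (1 + δ) ^ n with hM
    have hM1 : 1 ≤ M := one_le_pow₀ (by linarith)
    let A : Fin k → ℝ := fun i => if dg i ≤ m then
      stepW α δ dg i₀ gain m i (dg i) * q ^ dg i * mass α δ q dg i₀ gain n (m - dg i) else 0
    -- the inner sums
    have hinner : ∀ i, ∑ d ∈ Finset.Icc (dg i) m,
        stepW α δ dg i₀ gain m i d * q ^ d * mass α δ q dg i₀ gain n (m - d) ≤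
        A i + q ^ dg i * δ * M := by
      intro i
      have hrest : ∑ d ∈ Finset.Icc (dg i + 1) m,
          stepW α δ dg i₀ gain m i d * q ^ d * mass α δ q dg i₀ gain n (m - d) ≤
          q ^ dg i * δ * M := by
        refine le_trans ?_ (mul_le_mul_of_nonneg_right (excess_le hδ0 hδ1 hq0 hq (dg i) m)
          (by linarith : (0 : ℝ) ≤ M))
        rw [Finset.sum_mul]
        refine Finset.sum_le_sum fun d hd => ?_
        have hd' := Finset.mem_Icc.1 hd
        have h1 : stepW α δ dg i₀ gain m i d = δ ^ (d - dg i) := by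
          unfold stepW
          rw [if_neg, mul_one]
          rintro ⟨-, h2, -⟩
          omega
        rw [h1]
        exact mul_le_mul_of_nonneg_left (ih (m - d)).1
          (mul_nonneg (pow_nonneg hδ0 _) (pow_nonneg hq0 _))
      by_cases hi : dg i ≤ m
      · have hmem : dg i ∈ Finset.Icc (dg i) m := Finset.mem_Icc.2 ⟨le_rfl, hi⟩
        rw [← Finset.add_sum_erase _ _ hmem]
        have he : (Finset.Icc (dg i) m).erase (dg i) = Finset.Icc (dg i + 1) m := by
          ext d
          simp only [Finset.mem_erase, Finset.mem_Icc]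
          omega
        rw [he]
        simp only [A, if_pos hi]
        exact add_le_add le_rfl hrest
      · rw [Finset.Icc_eq_empty hi, Finset.sum_empty]
        simp only [A, if_neg hi, zero_add]
        exact mul_nonneg (mul_nonneg (pow_nonneg hq0 _) hδ0) (by linarith)
    have hstep1 : ∀ i, stepW α δ dg i₀ gain m i (dg i) ≤ 1 := by
      intro i
      unfold stepW
      rw [Nat.sub_self, pow_zero, one_mul]
      split_ifs
      · exact hα1
      · exact le_rfl
    -- bounds for A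
    have hA : ∀ i (c : ℝ), 0 ≤ c → (dg i ≤ m → mass α δ q dg i₀ gain n (m - dg i) ≤ c) →
        A i ≤ q ^ dg i * c := by
      intro i c hc hc2
      by_cases hi : dg i ≤ m
      · simp only [A, if_pos hi]
        have h1 := hstep1 i
        have h2 := stepW_nonneg (dg := dg) (i₀ := i₀) (gain := gain) hα0 hδ0 m i (dg i)
        have h3 : 0 ≤ q ^ dg i := pow_nonneg hq0 _
        have h4 := mass_nonneg (dg := dg) (i₀ := i₀) (gain := gain) hα0 hδ0 hq0 n (m - dg i)
        refine mul_le_mul ?_ (hc2 hi) h4 h3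
        calc _ ≤ 1 * q ^ dg i := mul_le_mul_of_nonneg_right h1 h3
          _ = _ := one_mul _
      · simp only [A, if_neg hi]
        exact mul_nonneg (pow_nonneg hq0 _) hc
    have hsum : mass α δ q dg i₀ gain (n + 1) m ≤ ∑ i, (A i + q ^ dg i * δ * M) := by
      rw [mass]
      exact Finset.sum_le_sum fun i _ => hinner i
    have hpow : (1 + δ) ^ (n + 1) = M + δ * M := by
      rw [pow_succ, ← hM]; ring
    have hqs0 : 0 ≤ ∑ i, q ^ dg i := Finset.sum_nonneg fun i _ => pow_nonneg hq0 _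
    have hexc : ∑ i, q ^ dg i * δ * M ≤ δ * M := by
      have h1 : ∑ i, q ^ dg i * δ * M = (∑ i, q ^ dg i) * (δ * M) := by
        rw [Finset.sum_mul]
        refine Finset.sum_congr rfl fun i _ => by ring
      rw [h1]
      have h2 : 0 ≤ δ * M := mul_nonneg hδ0 (by linarith)
      nlinarith
    rw [Finset.sum_add_distrib] at hsum
    rw [hpow]
    constructor
    · have h1 : ∑ i, A i ≤ ∑ i, q ^ dg i * M :=
        Finset.sum_le_sum fun i _ => hA i M (by linarith) (fun _ => (ih _).1)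
      rw [← Finset.sum_mul] at h1
      nlinarith
    · intro hh
      rw [hit] at hh
      rcases hh with hg | hh
      · -- gain position
        have hA0 : A i₀ ≤ α * (q ^ dg i₀ * M) := by
          by_cases hi : dg i₀ ≤ m
          · simp only [A, if_pos hi]
            have h1 : stepW α δ dg i₀ gain m i₀ (dg i₀) = α := by
              unfold stepW
              rw [if_pos ⟨rfl, rfl, hg⟩, Nat.sub_self, pow_zero, one_mul]
            rw [h1, mul_assoc]
            exact mul_le_mul_of_nonneg_left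
              (mul_le_mul_of_nonneg_left (ih _).1 (pow_nonneg hq0 _)) hα0
          · simp only [A, if_neg hi]
            exact mul_nonneg hα0 (mul_nonneg (pow_nonneg hq0 _) (by linarith))
        have h1 : ∑ i, A i = A i₀ + ∑ i ∈ Finset.univ.erase i₀, A i :=
          (Finset.add_sum_erase _ _ (Finset.mem_univ i₀)).symm
        have h2 : ∑ i ∈ Finset.univ.erase i₀, A i ≤ ∑ i ∈ Finset.univ.erase i₀, q ^ dg i * M :=
          Finset.sum_le_sum fun i _ => hA i M (by linarith) (fun _ => (ih _).1)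
        have h3 : ∑ i, q ^ dg i * M = q ^ dg i₀ * M + ∑ i ∈ Finset.univ.erase i₀, q ^ dg i * M :=
          (Finset.add_sum_erase _ _ (Finset.mem_univ i₀)).symm
        have h4 : ∑ i, q ^ dg i * M ≤ M := by
          rw [← Finset.sum_mul]
          nlinarith
        have h5 : γ ≤ (1 - α) * (q ^ dg i₀ * M) := by
          have h6 : 0 ≤ (1 - α) * q ^ dg i₀ :=
            mul_nonneg (by linarith) (pow_nonneg hq0 _)
          nlinarith
        nlinarith
      · have h1 : ∑ i, A i ≤ ∑ i, q ^ dg i * (M - γ) := by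
          refine Finset.sum_le_sum fun i _ => hA i (M - γ) (by linarith) ?_
          intro hi
          rcases hh i with h2 | h2
          · omega
          · exact (ih _).2 h2
        rw [← Finset.sum_mul] at h1
        have h2 : 0 ≤ M - γ := by linarith
        nlinarith

end TARO
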