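import Pool.Agent.TARO.MASS

/-! MDEC: exponential decay of the mass. -/

namespace TARO

variable {k : ℕ}

/-- monotonicity and linearity of the recursion, induction on `n'` -/
theorem mass_add_le {α δ q C : ℝ} {dg : Fin k → ℕ} {i₀ : Fin k} {gain : ℕ → Prop}
    (hα0 : 0 ≤ α) (hδ0 : 0 ≤ δ) (hq0 : 0 ≤ q) {n : ℕ}
    (h : ∀ m, mass α δ q dg i₀ gain n m ≤ C) (n' m : ℕ) :
    mass α δ q dg i₀ gain (n' + n) m ≤ C * mass α δ q dg i₀ gain n' m := by
  induction n' generalizing m with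
  | zero =>
    rw [Nat.zero_add]
    have h1 : mass α δ q dg i₀ gain 0 m = 1 := by simp [mass]
    rw [h1, mul_one]
    exact h m
  | succ n' ih =>
    have h1 : n' + 1 + n = (n' + n) + 1 := by omega
    rw [h1, mass, mass, Finset.mul_sum]
    refine Finset.sum_le_sum fun i _ => ?_
    rw [Finset.mul_sum]
    refine Finset.sum_le_sum fun d _ => ?_
    have h2 : 0 ≤ stepW α δ dg i₀ gain m i d * q ^ d := by
      refine mul_nonneg ?_ (pow_nonneg hq0 _)
      unfold stepW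
      refine mul_nonneg (pow_nonneg hδ0 _) ?_
      split_ifs
      · exact hα0
      · exact zero_le_one
    calc _ ≤ stepW α δ dg i₀ gain m i d * q ^ d * (C * mass α δ q dg i₀ gain n' (m - d)) :=
          mul_le_mul_of_nonneg_left (ih (m - d)) h2
      _ = _ := by ring

/-- write `n = s + Q * t` with `s < Q`, use `mass_add_le` and `mass_le` -/
theorem mass_decay {α δ q γ η : ℝ} {dg : Fin k → ℕ} {i₀ : Fin k} {gain : ℕ → Prop}
    (hα0 : 0 ≤ α) (hα1 : α ≤ 1) (hδ0 : 0 ≤ δ) (hδ1 : δ ≤ 1) (hq0 : 0 ≤ q) (hq : q ≤ 1 / 2)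
    (hm : ∑ i, q ^ dg i ≤ 1) (hγ0 : 0 ≤ γ) (hγ : γ ≤ (1 - α) * q ^ dg i₀)
    {Q : ℕ} (hQ : 0 < Q) (hhit : ∀ m, hit dg gain Q m) (hη0 : 0 ≤ η)
    (hη : (1 + δ) ^ Q - γ ≤ η) (n m : ℕ) :
    mass α δ q dg i₀ gain n m ≤ (1 + δ) ^ Q * η ^ (n / Q) := by
  have key : ∀ t m : ℕ, mass α δ q dg i₀ gain (Q * t) m ≤ η ^ t := by
    intro t
    induction t with
    | zero =>
      intro m
      simp [mass]
    | succ t ih =>
      intro m
      have h1 : Q * (t + 1) = Q + Q * t := by ring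
      rw [h1, pow_succ]
      refine (mass_add_le hα0 hδ0 hq0 ih Q m).trans ?_
      refine mul_le_mul_of_nonneg_left ?_ (pow_nonneg hη0 _)
      exact ((mass_le hα0 hα1 hδ0 hδ1 hq0 hq hm hγ0 hγ Q m).2 (hhit m)).trans hη
  have h1 : n = n % Q + Q * (n / Q) := (Nat.mod_add_div n Q).symm
  have h2 := mass_add_le hα0 hδ0 hq0 (key (n / Q)) (n % Q) m
  rw [← h1] at h2
  refine h2.trans ?_
  rw [mul_comm]
  refine mul_le_mul_of_nonneg_right ?_ (pow_nonneg hη0 _)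
  refine (mass_le hα0 hα1 hδ0 hδ1 hq0 hq hm hγ0 hγ (n % Q) m).1.trans ?_
  exact pow_le_pow_right₀ (by linarith) (Nat.mod_lt n hQ).le

end TARO
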