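import Mathlib

/-! NUM: choice of the number of repetitions. -/

namespace TARO

/-- `a` is the rate per unit, `n` the number of units of the old length, `κ` the old capacity -/
theorem num {a κ : ℝ} {n : ℕ} (ha : 0 < a) (hn : 0 < n) (hκ : a ^ n < κ) (C : ℝ) :
    ∃ T : ℕ, 2 ≤ T ∧ a ^ (T * n) + C * a ^ (T * n) < κ ^ T := by
  have _ := hn
  have ha' : (0 : ℝ) < a ^ n := pow_pos ha n
  have hb : (0 : ℝ) < κ := ha'.trans hκ
  set q : ℝ := a ^ n / κ with hq
  have hq0 : 0 < q := div_pos ha' hb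
  have hq1 : q < 1 := (div_lt_one hb).mpr hκ
  have h1 := (tendsto_pow_atTop_nhds_zero_of_lt_one hq0.le hq1).const_mul (1 + C)
  rw [mul_zero] at h1
  have h4 := h1.eventually (gt_mem_nhds (zero_lt_one))
  obtain ⟨T, hT, hT2⟩ := (h4.and (Filter.eventually_ge_atTop 2)).exists
  refine ⟨T, hT2, ?_⟩
  have h8 : a ^ (T * n) = q ^ T * κ ^ T := by
    rw [← mul_pow, hq, div_mul_cancel₀ _ hb.ne', ← pow_mul, mul_comm T n]
  rw [h8]
  have h9 : (0 : ℝ) < κ ^ T := pow_pos hb T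
  have h10 : q ^ T * κ ^ T + C * (q ^ T * κ ^ T) = ((1 + C) * q ^ T) * κ ^ T := by ring
  rw [h10]
  calc ((1 + C) * q ^ T) * κ ^ T < 1 * κ ^ T := mul_lt_mul_of_pos_right hT h9
    _ = κ ^ T := one_mul _

end TARO
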