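import Pool.Agent.TARO.Defs

/-! PARM: choice of the parameters. -/

namespace TARO

/-- the constants: `Q` is the number of steps after which every path has met a gain position,
`δ` the penalty, `η` the decay per `Q` steps, `E` the unit of length -/
structure Params (r : ℕ) (Q E' E : ℕ) (δ η : ℝ) : Prop where
  hQ : Q = 3 * Fintype.card (Cm r) + 3
  δ_pos : 0 < δ
  δ_le : δ ≤ 1
  η_pos : 0 < η
  η_lt : η < 1
  pow_le : (1 + δ) ^ Q ≤ 2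
  gain : (1 + δ) ^ Q - (1 - alp r) * (1 / ((r : ℝ) + 1)) ^ 2 ≤ η
  small : η ^ E' ≤ δ / 2
  hE : E = 2 * Q * E' + 1

private theorem PARM_pow {δ : ℝ} (h0 : 0 ≤ δ) (h1 : δ ≤ 1) (n : ℕ) :
    (1 + δ) ^ n ≤ 1 + (2 ^ n - 1) * δ := by
  induction n with
  | zero => simp
  | succ n ih =>
    have h2 : (1 : ℝ) ≤ 2 ^ n := one_le_pow₀ (by norm_num)
    have h3 : (1 + δ) ^ (n + 1) ≤ (1 + (2 ^ n - 1) * δ) * (1 + δ) := by
      rw [pow_succ]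
      exact mul_le_mul_of_nonneg_right ih (by linarith)
    have h4 : (2 ^ n - 1) * (δ * (1 - δ)) ≥ 0 :=
      mul_nonneg (by linarith) (mul_nonneg h0 (by linarith))
    rw [pow_succ (2 : ℝ) n]
    nlinarith [h3, h4]

/-- `γ = (1 - alp r) / (r + 1) ^ 2 ∈ (0, 1)`; `δ = γ / (2 ^ (Q + 1))` gives
`(1 + δ) ^ Q ≤ 1 + γ / 2` (for instance `(1 + δ) ^ Q ≤ 1 + 2 ^ Q δ`), `η = 1 - γ / 2`, and `E'`
exists as `η ^ E' → 0` -/
theorem exists_params (r : ℕ) : ∃ (Q E' E : ℕ) (δ η : ℝ), Params r Q E' E δ η := by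
  have ha1 : alp r < 1 := by
    unfold alp
    rw [div_lt_one (by positivity)]
    linarith
  have ha0 : 0 < alp r := by
    unfold alp
    positivity
  obtain ⟨Q, hQ⟩ : ∃ Q : ℕ, Q = 3 * Fintype.card (Cm r) + 3 := ⟨_, rfl⟩
  obtain ⟨γ, hγ⟩ : ∃ γ : ℝ, γ = (1 - alp r) * (1 / ((r : ℝ) + 1)) ^ 2 := ⟨_, rfl⟩
  have hr0 : (0 : ℝ) < 1 / ((r : ℝ) + 1) := by positivity
  have hr1 : 1 / ((r : ℝ) + 1) ≤ 1 := by
    rw [div_le_one (by positivity)]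
    have : (0 : ℝ) ≤ r := Nat.cast_nonneg r
    linarith
  have hγ0 : 0 < γ := by
    rw [hγ]
    exact mul_pos (by linarith) (pow_pos hr0 2)
  have hγ1 : γ ≤ 1 := by
    rw [hγ]
    have h1 : (1 / ((r : ℝ) + 1)) ^ 2 ≤ 1 := pow_le_one₀ hr0.le hr1
    have h2 : (1 - alp r) * (1 / ((r : ℝ) + 1)) ^ 2 ≤ 1 * 1 :=
      mul_le_mul (by linarith) h1 (pow_pos hr0 2).le (by norm_num)
    linarith
  obtain ⟨δ, hδ⟩ : ∃ δ : ℝ, δ = γ / 2 ^ (Q + 1) := ⟨_, rfl⟩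
  have h2Q : (1 : ℝ) ≤ 2 ^ Q := one_le_pow₀ (by norm_num)
  have hmul : 2 ^ Q * δ = γ / 2 := by
    rw [hδ, pow_succ]
    field_simp
  have hδ0 : 0 < δ := by
    rw [hδ]
    positivity
  have hδ1 : δ ≤ 1 := by
    have h3 : δ ≤ 2 ^ Q * δ := by nlinarith
    linarith
  have hpow : (1 + δ) ^ Q ≤ 1 + γ / 2 := by
    have h3 := PARM_pow hδ0.le hδ1 Q
    have h4 : 1 + (2 ^ Q - 1) * δ = 1 + 2 ^ Q * δ - δ := by ring
    rw [h4, hmul] at h3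
    linarith
  obtain ⟨E', hE'⟩ : ∃ E' : ℕ, (1 - γ / 2) ^ E' < δ / 2 :=
    exists_pow_lt_of_lt_one (by linarith) (by linarith)
  exact ⟨Q, E', 2 * Q * E' + 1, δ, 1 - γ / 2,
    { hQ := hQ
      δ_pos := hδ0
      δ_le := hδ1
      η_pos := by linarith
      η_lt := by linarith
      pow_le := by linarith
      gain := by
        rw [← hγ]
        linarith
      small := hE'.le
      hE := rfl }⟩

/-- `(E g + 1) (3 / 4) ^ g` is bounded -/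
theorem poly_bound (E : ℕ) : ∃ C : ℝ, 0 ≤ C ∧ ∀ g : ℕ,
    ((E : ℝ) * g + 1) * (3 / 4) ^ g ≤ C := by
  have hE : (0 : ℝ) ≤ E := Nat.cast_nonneg E
  refine ⟨4 * ((E : ℝ) + 1), by positivity, fun g => ?_⟩
  have hg : (0 : ℝ) ≤ g := Nat.cast_nonneg g
  have h1 : 1 + (g : ℝ) * (1 / 3) ≤ (1 + 1 / 3) ^ g :=
    one_add_mul_le_pow (by norm_num) g
  have h2 : ((1 : ℝ) + 1 / 3) ^ g * (3 / 4) ^ g = 1 := by
    rw [← mul_pow]
    norm_num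
  have h3 : (0 : ℝ) < (3 / 4) ^ g := by positivity
  have h4 : (1 + (g : ℝ) * (1 / 3)) * (3 / 4) ^ g ≤ 1 := by
    calc (1 + (g : ℝ) * (1 / 3)) * (3 / 4) ^ g ≤ (1 + 1 / 3) ^ g * (3 / 4) ^ g :=
          mul_le_mul_of_nonneg_right h1 h3.le
      _ = 1 := h2
  have h5 : (E : ℝ) * g + 1 ≤ ((E : ℝ) + 1) * (4 * (1 + (g : ℝ) * (1 / 3))) := by
    nlinarith [mul_nonneg hE hg]
  calc ((E : ℝ) * g + 1) * (3 / 4) ^ g
      ≤ (((E : ℝ) + 1) * (4 * (1 + (g : ℝ) * (1 / 3)))) * (3 / 4) ^ g :=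
        mul_le_mul_of_nonneg_right h5 h3.le
    _ = 4 * ((E : ℝ) + 1) * ((1 + (g : ℝ) * (1 / 3)) * (3 / 4) ^ g) := by ring
    _ ≤ 4 * ((E : ℝ) + 1) * 1 := mul_le_mul_of_nonneg_left h4 (by positivity)
    _ = 4 * ((E : ℝ) + 1) := by ring

end TARO
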