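import Pool.Agent.TARO.MASS

/-! WMS: the sum of the masses of all products of `n` factors, and the number of products of
small degree. -/

namespace TARO

variable {k : ℕ}

private theorem stepW_nonneg' {α δ : ℝ} {dg : Fin k → ℕ} {i₀ : Fin k} {gain : ℕ → Prop}
    (hα0 : 0 ≤ α) (hδ0 : 0 ≤ δ) (m : ℕ) (i : Fin k) (d : ℕ) :
    0 ≤ stepW α δ dg i₀ gain m i d := by
  unfold stepW
  refine mul_nonneg (pow_nonneg hδ0 _) ?_
  split_ifs
  · exact hα0
  · exact zero_le_one

theorem wmass_nonneg {α δ : ℝ} {dg : Fin k → ℕ} {i₀ : Fin k} {gain : ℕ → Prop}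
    (hα0 : 0 ≤ α) (hδ0 : 0 ≤ δ) (s : ℕ) (v : List (Fin k)) (m : ℕ) :
    0 ≤ wmass α δ dg i₀ gain s v m := by
  induction v generalizing m with
  | nil =>
    rw [wmass]
    split_ifs
    · exact zero_le_one
    · exact le_refl _
  | cons i v ih =>
    rw [wmass]
    exact Finset.sum_nonneg fun d _ => mul_nonneg (stepW_nonneg' hα0 hδ0 m i d) (ih _)

/-- induction on `n` for all `m`, with `Fin (n + 1) → Fin k` as pairs (first value, rest)
(`Fin.consEquiv` or `Fin.cons`), `List.ofFn (Fin.cons i v) = i :: List.ofFn v` and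
`q ^ m = q ^ d * q ^ (m - d)` -/
theorem sum_wmass_le {α δ q : ℝ} {dg : Fin k → ℕ} {i₀ : Fin k} {gain : ℕ → Prop}
    (hα0 : 0 ≤ α) (hδ0 : 0 ≤ δ) (hq0 : 0 ≤ q) (s n m : ℕ) :
    (∑ v : Fin n → Fin k, wmass α δ dg i₀ gain s (List.ofFn v) m) * q ^ m ≤
      q ^ s * mass α δ q dg i₀ gain n m := by
  induction n generalizing m with
  | zero =>
    rw [Fintype.sum_unique, List.ofFn_zero, wmass, mass, mul_one]
    split_ifs with h
    · rw [h, one_mul]
    · rw [zero_mul]
      exact pow_nonneg hq0 _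
  | succ n ih =>
    have h1 : ∑ v : Fin (n + 1) → Fin k, wmass α δ dg i₀ gain s (List.ofFn v) m =
        ∑ i : Fin k, ∑ v : Fin n → Fin k, wmass α δ dg i₀ gain s (i :: List.ofFn v) m := by
      rw [← (Fin.consEquiv (fun _ : Fin (n + 1) => Fin k)).sum_comp, Fintype.sum_prod_type]
      refine Finset.sum_congr rfl fun i _ => Finset.sum_congr rfl fun v _ => ?_
      have h2 : List.ofFn ((Fin.consEquiv (fun _ : Fin (n + 1) => Fin k)) (i, v)) =
          i :: List.ofFn v := by
        simp [Fin.consEquiv, List.ofFn_succ]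
      rw [h2]
    rw [h1, mass, Finset.sum_mul, Finset.mul_sum]
    refine Finset.sum_le_sum fun i _ => ?_
    simp only [wmass]
    rw [Finset.sum_comm, Finset.sum_mul, Finset.mul_sum]
    refine Finset.sum_le_sum fun d hd => ?_
    rw [Finset.mem_Icc] at hd
    rw [← Finset.mul_sum]
    have h3 : q ^ m = q ^ d * q ^ (m - d) := by
      rw [← pow_add]
      congr 1
      omega
    have h4 := ih (m - d)
    have h5 : 0 ≤ stepW α δ dg i₀ gain m i d * q ^ d :=
      mul_nonneg (stepW_nonneg' hα0 hδ0 m i d) (pow_nonneg hq0 _)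
    have h6 := mul_le_mul_of_nonneg_left h4 h5
    rw [h3]
    calc stepW α δ dg i₀ gain m i d *
          (∑ v : Fin n → Fin k, wmass α δ dg i₀ gain s (List.ofFn v) (m - d)) *
          (q ^ d * q ^ (m - d)) = stepW α δ dg i₀ gain m i d * q ^ d *
          ((∑ v : Fin n → Fin k, wmass α δ dg i₀ gain s (List.ofFn v) (m - d)) *
            q ^ (m - d)) := by ring
      _ ≤ _ := h6
      _ = _ := by ring

/-- `∑ v, q ^ (sum of the degrees of v) = (∑ i, q ^ dg i) ^ n ≤ 1` and
`q ^ (sum of the degrees) ≥ q ^ m` -/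
theorem card_small_le {q : ℝ} (hq0 : 0 ≤ q) (hq1 : q ≤ 1) {dg : Fin k → ℕ}
    (hm : ∑ i, q ^ dg i ≤ 1) (n m : ℕ) :
    ((Finset.univ.filter fun v : Fin n → Fin k =>
      ((List.ofFn v).map dg).sum ≤ m).card : ℝ) * q ^ m ≤ 1 := by
  have h0 : 0 ≤ ∑ i, q ^ dg i := Finset.sum_nonneg fun i _ => pow_nonneg hq0 _
  calc ((Finset.univ.filter fun v : Fin n → Fin k =>
      ((List.ofFn v).map dg).sum ≤ m).card : ℝ) * q ^ m
      = ∑ v ∈ (Finset.univ.filter fun v : Fin n → Fin k =>
      ((List.ofFn v).map dg).sum ≤ m), q ^ m := by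
        rw [Finset.sum_const, nsmul_eq_mul]
    _ ≤ ∑ v ∈ (Finset.univ.filter fun v : Fin n → Fin k =>
      ((List.ofFn v).map dg).sum ≤ m), q ^ ((List.ofFn v).map dg).sum := by
        refine Finset.sum_le_sum fun v hv => ?_
        exact pow_le_pow_of_le_one hq0 hq1 (Finset.mem_filter.mp hv).2
    _ ≤ ∑ v : Fin n → Fin k, q ^ ((List.ofFn v).map dg).sum :=
        Finset.sum_le_sum_of_subset_of_nonneg (Finset.filter_subset _ _)
          fun v _ _ => pow_nonneg hq0 _
    _ = (∑ i, q ^ dg i) ^ n := by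
        rw [Fintype.sum_pow]
        refine Finset.sum_congr rfl fun v _ => ?_
        rw [List.map_ofFn, List.sum_ofFn, ← Finset.prod_pow_eq_pow_sum]
        rfl
    _ ≤ 1 := pow_le_one₀ h0 hm

end TARO
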