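import Pool.Agent.TARO.LAW
import Pool.Agent.TARO.WMS
import Pool.Agent.TARO.MDEC
import Pool.Agent.TARO.HITC
import Pool.Agent.TARO.PARM

/-! PERN: total weight of the products of `n` factors. -/

open Module

namespace TARO

variable {r k : ℕ}

private theorem pern_sum_le {dg : Fin k → ℕ} (hdg : ∀ i, dg i = 1 ∨ dg i = 2)
    (v : List (Fin k)) : (v.map dg).sum ≤ 2 * v.length := by
  induction v with
  | nil => simp
  | cons a v ih =>
    rw [List.map_cons, List.sum_cons, List.length_cons]
    have := hdg a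
    omega

private theorem pern_w_le_one (c : ℕ → Cm r) (m : ℕ) (x : F r) :
    w c m (Submodule.span K {x}) ≤ 1 := by
  refine (w_le_finrank c m _).trans ?_
  by_cases hx : x = 0
  · subst hx
    rw [Submodule.span_zero_singleton, finrank_bot]
    norm_num
  · rw [finrank_span_singleton hx]
    norm_num

/-- Put `p = r + 1`, `q = 1 / p`.  Products `v` with degree sum `≤ (E - 1) g`: each has weight
`≤ 1`, and their number is at most `p ^ ((E - 1) g) ≤ (p ^ E / 2) ^ g` (`card_small_le`).
Products with degree sum `> (E - 1) g`: if `m < s + sum` the part is `0`; otherwise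
`w_part_le` and `m - s - sum ≤ g` give the weight `≤ δ ^ (-g) wmass`; the sum of the `wmass` is
at most `p ^ m * mass n m ≤ p ^ (E g) * 2 * η ^ (n / Q)` (`sum_wmass_le`, `mass_decay`,
`hit_cs`); such products exist only if `2 n > (E - 1) g = 2 Q E' g`, so `n / Q ≥ E' g` and
`η ^ (n / Q) ≤ (δ / 2) ^ g`. -/
theorem sum_w_part_le (hr : 1 ≤ r) {Q E' E : ℕ} {δ η : ℝ} (hp : Params r Q E' E δ η)
    {u : Fin k → F r} {dg : Fin k → ℕ} {i₀ : Fin k} {ψ : Cm r} (h : KillData r k u dg i₀ ψ)
    (o : ℕ) {s : ℕ} {z : F r} (hz : z ∈ Fd r s) (n : ℕ) {m g : ℕ} (hm : m ≤ E * g) :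
    ∑ v : Fin n → Fin k, w (shift (cs r) o) m
        (Submodule.span K {part m (wp u (List.ofFn v) * z)}) ≤
      3 * (((r : ℝ) + 1) ^ E / 2) ^ g := by
  classical
  have hp2 : (2 : ℝ) ≤ (r : ℝ) + 1 := by
    have : (1 : ℝ) ≤ r := by exact_mod_cast hr
    linarith
  have hgain := hp.gain
  have hmass := h.mass
  generalize hpd : (r : ℝ) + 1 = p at hp2 hgain hmass ⊢
  have hp0 : 0 < p := by linarith
  generalize hqd : 1 / p = q at hgain hmass
  have hpq : q * p = 1 := by
    rw [← hqd]
    field_simp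
  have hq0 : 0 ≤ q := by rw [← hqd]; positivity
  have hq12 : q ≤ 1 / 2 := by
    rw [← hqd]
    exact one_div_le_one_div_of_le (by norm_num) hp2
  have hq1 : q ≤ 1 := by linarith
  have hα0 := (alp_pos r).le
  have hα1 := (alp_lt_one r).le
  have hδ0 := hp.δ_pos
  have hδ1 := hp.δ_le
  have hη0 := hp.η_pos
  have hη1 := hp.η_lt
  let D : (Fin n → Fin k) → ℕ := fun v => ((List.ofFn v).map dg).sum
  let W : (Fin n → Fin k) → ℝ := fun v => w (shift (cs r) o) m
    (Submodule.span K {part m (wp u (List.ofFn v) * z)})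
  let μ : (Fin n → Fin k) → ℝ := fun v =>
    wmass (alp r) δ dg i₀ (gainAt (cs r) o ψ (dg i₀)) s (List.ofFn v) m
  change ∑ v, W v ≤ 3 * (p ^ E / 2) ^ g
  have hE1 : E = 2 * Q * E' + 1 := hp.hE
  have hW0 : ∀ v, 0 ≤ W v := fun v => w_nonneg _ _ _
  have hμ0 : ∀ v, 0 ≤ μ v := fun v => wmass_nonneg hα0 hδ0.le s _ m
  rw [← Finset.sum_filter_add_sum_filter_not Finset.univ (fun v => D v ≤ (E - 1) * g) W]
  -- small products
  have hsmall : ∑ v ∈ Finset.univ.filter (fun v => D v ≤ (E - 1) * g), W v ≤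
      (p ^ E / 2) ^ g := by
    have h1 : ∑ v ∈ Finset.univ.filter (fun v => D v ≤ (E - 1) * g), W v ≤
        ((Finset.univ.filter fun v => D v ≤ (E - 1) * g).card : ℝ) := by
      have h2 : ∑ v ∈ Finset.univ.filter (fun v => D v ≤ (E - 1) * g), W v ≤
          ∑ v ∈ Finset.univ.filter (fun v => D v ≤ (E - 1) * g), (1 : ℝ) :=
        Finset.sum_le_sum fun v _ => pern_w_le_one _ _ _
      rwa [Finset.sum_const, nsmul_eq_mul, mul_one] at h2
    have h2 := card_small_le (k := k) hq0 hq1 hmass n ((E - 1) * g)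
    have h3 : ((Finset.univ.filter fun v => D v ≤ (E - 1) * g).card : ℝ) ≤
        p ^ ((E - 1) * g) := by
      have h4 : q ^ ((E - 1) * g) * p ^ ((E - 1) * g) = 1 := by
        rw [← mul_pow, hpq, one_pow]
      have h5 : 0 ≤ p ^ ((E - 1) * g) := pow_nonneg hp0.le _
      calc ((Finset.univ.filter fun v => D v ≤ (E - 1) * g).card : ℝ)
          = ((Finset.univ.filter fun v => D v ≤ (E - 1) * g).card : ℝ) *
              q ^ ((E - 1) * g) * p ^ ((E - 1) * g) := by
            rw [mul_assoc, h4, mul_one]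
        _ ≤ 1 * p ^ ((E - 1) * g) := mul_le_mul_of_nonneg_right h2 h5
        _ = _ := one_mul _
    refine (h1.trans h3).trans ?_
    rw [pow_mul]
    refine pow_le_pow_left₀ (pow_nonneg hp0.le _) ?_ g
    have h6 : E = (E - 1) + 1 := by omega
    have h7 : p ^ E = p ^ (E - 1) * p := by
      rw [← pow_succ, ← h6]
    rw [h7]
    have h8 : 0 ≤ p ^ (E - 1) := pow_nonneg hp0.le _
    nlinarith
  -- large products
  have hlarge : ∑ v ∈ Finset.univ.filter (fun v => ¬ D v ≤ (E - 1) * g), W v ≤
      2 * (p ^ E / 2) ^ g := by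
    have hD : ∀ v, D v ≤ 2 * n := by
      intro v
      have := pern_sum_le h.deg (List.ofFn v)
      rwa [List.length_ofFn] at this
    by_cases hn : 2 * n ≤ (E - 1) * g
    · rw [Finset.filter_false_of_mem, Finset.sum_empty]
      · have : (0 : ℝ) ≤ (p ^ E / 2) ^ g := by positivity
        linarith
      · intro v _
        have := hD v
        omega
    · have hloc : ∀ v ∈ Finset.univ.filter (fun v => ¬ D v ≤ (E - 1) * g),
          δ ^ g * W v ≤ μ v := by
        intro v hv
        have hv' : ¬ D v ≤ (E - 1) * g := (Finset.mem_filter.1 hv).2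
        by_cases hms : m < s + D v
        · have h1 : part m (wp u (List.ofFn v) * z) = 0 := part_wp_zero h hz _ hms
          have h2 : W v = 0 := by
            simp only [W]
            rw [h1, Submodule.span_zero_singleton, w_bot]
          rw [h2, mul_zero]
          exact hμ0 v
        · obtain ⟨t, ht⟩ := Nat.exists_eq_add_of_le (not_lt.1 hms)
          have htg : t ≤ g := by
            have h3 : E * g = (E - 1) * g + g := by
              have h6 : E = (E - 1) + 1 := by omega
              calc E * g = ((E - 1) + 1) * g := by rw [← h6]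
                _ = (E - 1) * g + g := by ring
            omega
          have h1 := w_part_le h (cs r) o hδ0 hz (List.ofFn v) m
          have h2 : δ ^ m * W v ≤ δ ^ (s + D v) * μ v := h1
          have h3 : δ ^ m = δ ^ (s + D v) * δ ^ t := by rw [← pow_add, ← ht]
          rw [h3, mul_assoc] at h2
          have h4 : δ ^ t * W v ≤ μ v := le_of_mul_le_mul_left h2 (pow_pos hδ0 _)
          refine le_trans ?_ h4
          refine mul_le_mul_of_nonneg_right ?_ (hW0 v)
          exact pow_le_pow_of_le_one hδ0.le hδ1 htg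
      have h1 : δ ^ g * ∑ v ∈ Finset.univ.filter (fun v => ¬ D v ≤ (E - 1) * g), W v ≤
          ∑ v, μ v := by
        rw [Finset.mul_sum]
        refine (Finset.sum_le_sum hloc).trans ?_
        exact Finset.sum_le_sum_of_subset_of_nonneg (Finset.filter_subset _ _)
          (fun v _ _ => hμ0 v)
      have h2 := sum_wmass_le (α := alp r) (δ := δ) (q := q) (dg := dg) (i₀ := i₀)
        (gain := gainAt (cs r) o ψ (dg i₀)) hα0 hδ0.le hq0 s n m
      have hQ0 : 0 < Q := by rw [hp.hQ]; omega
      have hγ0 : 0 ≤ (1 - alp r) * q ^ 2 := mul_nonneg (by linarith) (pow_nonneg hq0 _)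
      have hγ : (1 - alp r) * q ^ 2 ≤ (1 - alp r) * q ^ dg i₀ := by
        refine mul_le_mul_of_nonneg_left ?_ (by linarith)
        refine pow_le_pow_of_le_one hq0 hq1 ?_
        have := h.deg i₀
        omega
      have h3 := mass_decay (α := alp r) (δ := δ) (q := q) (dg := dg) (i₀ := i₀)
        (gain := gainAt (cs r) o ψ (dg i₀)) hα0 hα1 hδ0.le hδ1 hq0 hq12 hmass hγ0 hγ hQ0
        (fun m => by
          rw [hp.hQ]
          exact hit_cs r o ψ (h.deg i₀) h.deg m) hη0.le hgain n m
      have h4 : ∑ v, μ v ≤ p ^ (E * g) * (2 * (δ / 2) ^ g) := by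
        have hnQ : E' * g ≤ n / Q := by
          rw [Nat.le_div_iff_mul_le hQ0]
          have h6 : E - 1 = 2 * Q * E' := by omega
          rw [h6] at hn
          have h7 : 2 * (E' * g * Q) = 2 * Q * E' * g := by ring
          omega
        have h5 : η ^ (n / Q) ≤ (δ / 2) ^ g := by
          calc η ^ (n / Q) ≤ η ^ (E' * g) := pow_le_pow_of_le_one hη0.le hη1.le hnQ
            _ = (η ^ E') ^ g := pow_mul _ _ _
            _ ≤ (δ / 2) ^ g := pow_le_pow_left₀ (pow_nonneg hη0.le _) hp.small g
        have h6 : mass (alp r) δ q dg i₀ (gainAt (cs r) o ψ (dg i₀)) n m ≤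
            2 * (δ / 2) ^ g := by
          refine h3.trans ?_
          exact mul_le_mul hp.pow_le h5 (pow_nonneg hη0.le _) (by norm_num)
        have h7 : (∑ v, μ v) * q ^ m ≤ 2 * (δ / 2) ^ g := by
          refine h2.trans ?_
          have h8 : q ^ s ≤ 1 := pow_le_one₀ hq0 hq1
          have h9 : 0 ≤ q ^ s := pow_nonneg hq0 _
          have h10 : 0 ≤ mass (alp r) δ q dg i₀ (gainAt (cs r) o ψ (dg i₀)) n m :=
            mass_nonneg hα0 hδ0.le hq0 n m
          nlinarith
        have h8 : q ^ m * p ^ m = 1 := by rw [← mul_pow, hpq, one_pow]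
        have h9 : 0 ≤ p ^ m := pow_nonneg hp0.le _
        have h10 : p ^ m ≤ p ^ (E * g) := pow_le_pow_right₀ (by linarith) hm
        have h11 : 0 ≤ 2 * (δ / 2) ^ g := by positivity
        calc ∑ v, μ v = (∑ v, μ v) * q ^ m * p ^ m := by rw [mul_assoc, h8, mul_one]
          _ ≤ 2 * (δ / 2) ^ g * p ^ m := mul_le_mul_of_nonneg_right h7 h9
          _ ≤ 2 * (δ / 2) ^ g * p ^ (E * g) := mul_le_mul_of_nonneg_left h10 h11
          _ = _ := by ring
      have h5 := h1.trans h4
      have h6 : p ^ (E * g) * (2 * (δ / 2) ^ g) = δ ^ g * (2 * (p ^ E / 2) ^ g) := by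
        rw [pow_mul, div_pow, div_pow]
        ring
      rw [h6] at h5
      exact le_of_mul_le_mul_left h5 (pow_pos hδ0 _)
  linarith

end TARO
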