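import Pool.Agent.TARO.PT

/-! PIL: the graded left ideal. -/

open Module

namespace TARO

variable {r : ℕ} {P : ℕ → Submodule K (F r)}

theorem mem_PI (hP : LeftClosed r P) {f : F r} : f ∈ PI P ↔ ∀ n, part n f ∈ P n := by
  constructor
  · intro hf n
    have h1 : PI P ≤ (P n).comap (part n) := by
      refine iSup_le fun m => ?_
      intro p hp
      rw [Submodule.mem_comap]
      by_cases hmn : n = m
      · subst hmn
        rw [part_of_mem (hP.le n hp)]
        exact hp
      · rw [part_of_ne (hP.le m hp) hmn]
        exact Submodule.zero_mem _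
    exact h1 hf
  · intro h
    obtain ⟨N, _, hN⟩ := exists_sum_part f
    rw [hN]
    exact Submodule.sum_mem _ fun n _ => (le_iSup P n) (h n)

theorem PI_mul (hP : LeftClosed r P) (f : F r) {g : F r} (hg : g ∈ PI P) : f * g ∈ PI P := by
  have h1 : PI P ≤ (PI P).comap (LinearMap.mulLeft K f) := by
    refine iSup_le fun n => ?_
    intro p hp
    rw [Submodule.mem_comap, LinearMap.mulLeft_apply]
    obtain ⟨N, _, hN⟩ := exists_sum_part f
    rw [hN, Finset.sum_mul]
    refine Submodule.sum_mem _ fun m _ => ?_
    have h2 : Fd r m * P n ≤ P (n + m) :=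
      Fd_mul_le (P := P) (b := 0) (e := n + m) (fun k _ _ => hP.closed k) m n (Nat.zero_le _)
        (le_refl _)
    exact (le_iSup P (n + m)) (h2 (Submodule.mul_mem_mul (part_mem m f) hp))
  exact h1 hg

end TARO
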