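import Pool.Agent.TARO.MUL

/-! POW: powers of capacities. -/

open Module

namespace TARO

variable {r : ℕ}

/-- induction on `T` with `CapI.mul` at the point `(t + T) * H` -/
theorem CapI.pow {c : ℕ → Cm r} {L : ℕ} {R : Rels r} {H : ℕ} {κ : ℝ} (hH : 0 < H) (hL : L ∣ H)
    (hR : RelOK r R H) (hκ : 0 ≤ κ)
    (h : ∀ t : ℕ, CapI c L R (t * H) ((t + 1) * H) κ) (T : ℕ) (hT : 0 < T) (t : ℕ) :
    CapI c L R (t * H) ((t + T) * H) (κ ^ T) := by
  induction T, hT using Nat.le_induction with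
  | base => simpa using h t
  | succ T hT ih =>
    have h2 : CapI c L R ((t + T) * H) ((t + (T + 1)) * H) κ := h (t + T)
    rw [pow_succ]
    refine CapI.mul (Nat.mul_le_mul_right H (Nat.le_add_right t T))
      (Nat.mul_le_mul_right H (by omega)) (hL.mul_left (t + T)) (fun p hp => (hR p hp).2.2)
      (fun p hp => ⟨(hR p hp).1, (hR p hp).2.1.mul_left (t + T)⟩) hκ ih h2

end TARO
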