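import Pool.Agent.TARO.VIOW

/-! PQ: initial sums modulo a left closed family. -/

open Module

namespace TARO

variable {r : ℕ}

/-- the modular law and dimensions -/
private theorem PQ_aux {A P Z : Submodule K (F r)} [FiniteDimensional K A]
    [FiniteDimensional K P] (h : P ≤ A) :
    (finrank K A : ℤ) - finrank K (A ⊓ (P ⊔ Z) : Submodule K (F r)) =
      (rd A Z : ℤ) - rd P Z := by
  haveI : FiniteDimensional K (A ⊓ Z : Submodule K (F r)) :=
    Submodule.finiteDimensional_of_le (inf_le_left (a := A) (b := Z))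
  have e1 : A ⊓ (P ⊔ Z) = P ⊔ (A ⊓ Z) := by
    rw [inf_comm, sup_inf_assoc_of_le Z h, inf_comm Z A]
  have e2 := Submodule.finrank_sup_add_finrank_inf_eq P (A ⊓ Z)
  have e3 : P ⊓ (A ⊓ Z) = P ⊓ Z := by
    rw [← inf_assoc, inf_eq_left.2 h]
  rw [e3] at e2
  have h1 := rd_add_inf A Z
  have h2 := rd_add_inf P Z
  rw [e1]
  omega

private theorem PQ_AA_mono {V₁ V₂ W₁ W₂ : ℕ → Submodule K (F r)} {i : ℕ}
    (h1 : ∀ t, V₁ t ≤ W₁ t) (h2 : ∀ t, V₂ t ≤ W₂ t) : AA V₁ V₂ i ≤ AA W₁ W₂ i := by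
  unfold AA
  exact sup_le_sup (sup_le_sup (sup_le_sup (h1 _) (h2 _)) (mul_le_mul_right (h1 _) _))
    (mul_le_mul_right (h2 _) _)

/-- Let `V' t = V t ⊓ (P (b + t) ⊔ Z t)` for `t ≤ i` and `V' t = V t` for `t > i` (both
indices `1, 2`).  This is admissible.  For `t < i` (that is for the levels `b + 1, …, b + i`)
the space `AA V₁' V₂' t` lies in `AA V₁ V₂ t ⊓ (P (b + (t + 1)) ⊔ Z (t + 1))`, because
`XM * (P (b + t) ⊔ Z t) ≤ P (b + (t + 1)) ⊔ Z (t + 1)`; for `t ≥ i` it lies in `AA V₁ V₂ t`.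
For `P ≤ A` the modular law gives `A ⊓ (P ⊔ Z) = P ⊔ (A ⊓ Z)` and so
`finrank A - finrank (A ⊓ (P ⊔ Z)) = rd A Z - rd P Z`.  Now use
`fv L b P V₁ V₂ ≤ fv L b P V₁' V₂'`. -/
theorem initial_sum_le {L b : ℕ} {P V₁ V₂ Z : ℕ → Submodule K (F r)} (hP : LCB r L b P)
    (hV : AdmV r L b P V₁ V₂)
    (hmin : ∀ V₁' V₂' : ℕ → Submodule K (F r), AdmV r L b P V₁' V₂' →
      fv L b P V₁ V₂ ≤ fv L b P V₁' V₂')
    (hZ : ∀ i, i ≤ L → Z i ≤ Fd r (b + i))
    (hZ' : ∀ i, i < L → Fd r 1 * Z i ≤ Z (i + 1)) {i : ℕ} (hi : i ≤ L) :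
    ∑ t ∈ Finset.range i,
        ((rd (AA V₁ V₂ t) (Z (t + 1)) : ℤ) - rd (P (b + (t + 1))) (Z (t + 1))) ≤
      ∑ t ∈ Finset.range (i + 1),
        ((rd (V₁ t) (Z t) : ℤ) + rd (V₂ t) (Z t) - 2 * rd (P (b + t)) (Z t)) := by
  classical
  -- the modified pair
  set W₁ : ℕ → Submodule K (F r) :=
    fun t => if t ≤ i then V₁ t ⊓ (P (b + t) ⊔ Z t) else V₁ t with hW₁
  set W₂ : ℕ → Submodule K (F r) :=
    fun t => if t ≤ i then V₂ t ⊓ (P (b + t) ⊔ Z t) else V₂ t with hW₂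
  have W1pos : ∀ t, t ≤ i → W₁ t = V₁ t ⊓ (P (b + t) ⊔ Z t) := fun t ht => if_pos ht
  have W2pos : ∀ t, t ≤ i → W₂ t = V₂ t ⊓ (P (b + t) ⊔ Z t) := fun t ht => if_pos ht
  have W1neg : ∀ t, i < t → W₁ t = V₁ t := fun t ht => if_neg (not_le.2 ht)
  have W2neg : ∀ t, i < t → W₂ t = V₂ t := fun t ht => if_neg (not_le.2 ht)
  have w1 : ∀ t, W₁ t ≤ V₁ t := by
    intro t
    simp only [hW₁]
    split_ifs
    · exact inf_le_left
    · exact le_rfl
  have w2 : ∀ t, W₂ t ≤ V₂ t := by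
    intro t
    simp only [hW₂]
    split_ifs
    · exact inf_le_left
    · exact le_rfl
  have hadm : AdmV r L b P W₁ W₂ := by
    refine ⟨fun t ht => (w1 t).trans (hV.le₁ t ht), fun t ht => (w2 t).trans (hV.le₂ t ht),
      fun t ht => ?_, fun t ht => ?_, ?_, ?_⟩
    · simp only [hW₁]
      split_ifs
      · exact le_inf (hV.ge₁ t ht) le_sup_left
      · exact hV.ge₁ t ht
    · simp only [hW₂]
      split_ifs
      · exact le_inf (hV.ge₂ t ht) le_sup_left
      · exact hV.ge₂ t ht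
    · simp only [hW₁]
      split_ifs
      · rw [hV.top₁, inf_eq_left]
        exact le_sup_left
      · exact hV.top₁
    · simp only [hW₂]
      split_ifs
      · rw [hV.top₂, inf_eq_left]
        exact le_sup_left
      · exact hV.top₂
  have hm := hmin W₁ W₂ hadm
  -- finite dimensions
  have fdP : ∀ t, t ≤ L → FiniteDimensional K (P (b + t)) := fun t ht =>
    finiteDimensional_of_le_Fd (hP.1 t ht)
  have fdV1 : ∀ t, t ≤ L → FiniteDimensional K (V₁ t) := fun t ht =>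
    finiteDimensional_of_le_Fd (hV.le₁ t ht)
  have fdV2 : ∀ t, t ≤ L → FiniteDimensional K (V₂ t) := fun t ht =>
    finiteDimensional_of_le_Fd (hV.le₂ t ht)
  have hAA : ∀ t, t < L → AA V₁ V₂ t ≤ Fd r (b + (t + 1)) := by
    intro t ht
    have hmul : Fd r 1 * Fd r (b + t) = Fd r (b + (t + 1)) := by
      rw [Fd_mul]
      congr 1
      omega
    unfold AA
    refine sup_le (sup_le (sup_le (hV.le₁ _ ht) (hV.le₂ _ ht)) ?_) ?_
    · rw [← hmul]
      exact mul_le_mul' XM_le (hV.le₁ t ht.le)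
    · rw [← hmul]
      exact mul_le_mul' YM_le (hV.le₂ t ht.le)
  have fdA : ∀ t, t < L → FiniteDimensional K (AA V₁ V₂ t) := fun t ht =>
    finiteDimensional_of_le_Fd (hAA t ht)
  have hPA : ∀ t, t < L → P (b + (t + 1)) ≤ AA V₁ V₂ t := by
    intro t ht
    unfold AA
    exact (hV.ge₁ (t + 1) ht).trans (le_sup_left.trans (le_sup_left.trans le_sup_left))
  -- the left sides
  have hL : ∀ t, t < i →
      ((rd (AA V₁ V₂ t) (Z (t + 1)) : ℤ) - rd (P (b + (t + 1))) (Z (t + 1))) ≤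
        (finrank K (AA V₁ V₂ t) : ℤ) - finrank K (AA W₁ W₂ t) := by
    intro t ht
    have htL : t < L := lt_of_lt_of_le ht hi
    haveI := fdA t htL
    haveI := fdP (t + 1) htL
    rw [← PQ_aux (hPA t htL)]
    haveI : FiniteDimensional K
        (AA V₁ V₂ t ⊓ (P (b + (t + 1)) ⊔ Z (t + 1)) : Submodule K (F r)) :=
      Submodule.finiteDimensional_of_le
        (inf_le_left (a := AA V₁ V₂ t) (b := P (b + (t + 1)) ⊔ Z (t + 1)))
    have hle : AA W₁ W₂ t ≤ AA V₁ V₂ t ⊓ (P (b + (t + 1)) ⊔ Z (t + 1)) := by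
      refine le_inf (PQ_AA_mono w1 w2) ?_
      have hstep : Fd r 1 * (P (b + t) ⊔ Z t) ≤ P (b + (t + 1)) ⊔ Z (t + 1) := by
        rw [Submodule.mul_sup]
        exact sup_le_sup (hP.2 t htL) (hZ' t htL)
      have a1 : W₁ t ≤ P (b + t) ⊔ Z t := by
        simp only [hW₁, if_pos ht.le]
        exact inf_le_right
      have a2 : W₂ t ≤ P (b + t) ⊔ Z t := by
        simp only [hW₂, if_pos ht.le]
        exact inf_le_right
      have a3 : W₁ (t + 1) ≤ P (b + (t + 1)) ⊔ Z (t + 1) := by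
        simp only [hW₁, if_pos (Nat.succ_le_of_lt ht)]
        exact inf_le_right
      have a4 : W₂ (t + 1) ≤ P (b + (t + 1)) ⊔ Z (t + 1) := by
        simp only [hW₂, if_pos (Nat.succ_le_of_lt ht)]
        exact inf_le_right
      unfold AA
      exact sup_le (sup_le (sup_le a3 a4)
        ((mul_le_mul' XM_le a1).trans hstep))
        ((mul_le_mul' YM_le a2).trans hstep)
    have := Submodule.finrank_mono hle
    omega
  have hL' : ∀ t, t < L →
      (0 : ℤ) ≤ (finrank K (AA V₁ V₂ t) : ℤ) - finrank K (AA W₁ W₂ t) := by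
    intro t ht
    haveI := fdA t ht
    have := Submodule.finrank_mono (PQ_AA_mono (i := t) w1 w2)
    omega
  -- the right sides
  have hR1 : ∀ t, t ≤ i → (finrank K (V₁ t) : ℤ) - finrank K (W₁ t) =
      (rd (V₁ t) (Z t) : ℤ) - rd (P (b + t)) (Z t) := by
    intro t ht
    haveI := fdV1 t (ht.trans hi)
    haveI := fdP t (ht.trans hi)
    rw [W1pos t ht]
    exact PQ_aux (hV.ge₁ t (ht.trans hi))
  have hR2 : ∀ t, t ≤ i → (finrank K (V₂ t) : ℤ) - finrank K (W₂ t) =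
      (rd (V₂ t) (Z t) : ℤ) - rd (P (b + t)) (Z t) := by
    intro t ht
    haveI := fdV2 t (ht.trans hi)
    haveI := fdP t (ht.trans hi)
    rw [W2pos t ht]
    exact PQ_aux (hV.ge₂ t (ht.trans hi))
  have hR : ∀ t, i < t → ((finrank K (V₁ t) : ℤ) - finrank K (W₁ t)) +
      ((finrank K (V₂ t) : ℤ) - finrank K (W₂ t)) = 0 := by
    intro t ht
    rw [W1neg t ht, W2neg t ht]
    ring
  -- the inequality of the defects
  have key : ∑ t ∈ Finset.range L,
      ((finrank K (AA V₁ V₂ t) : ℤ) - finrank K (AA W₁ W₂ t)) ≤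
      ∑ t ∈ Finset.range L, (((finrank K (V₁ t) : ℤ) - finrank K (W₁ t)) +
      ((finrank K (V₂ t) : ℤ) - finrank K (W₂ t))) := by
    unfold fv at hm
    simp only [Finset.sum_sub_distrib, Finset.sum_add_distrib] at hm ⊢
    linarith
  have hlast : ((finrank K (V₁ L) : ℤ) - finrank K (W₁ L)) +
      ((finrank K (V₂ L) : ℤ) - finrank K (W₂ L)) = 0 := by
    rw [hV.top₁, hV.top₂, hadm.top₁, hadm.top₂]
    ring
  have key2 : ∑ t ∈ Finset.range L,
      ((finrank K (AA V₁ V₂ t) : ℤ) - finrank K (AA W₁ W₂ t)) ≤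
      ∑ t ∈ Finset.range (L + 1), (((finrank K (V₁ t) : ℤ) - finrank K (W₁ t)) +
      ((finrank K (V₂ t) : ℤ) - finrank K (W₂ t))) := by
    rw [Finset.sum_range_succ, hlast, add_zero]
    exact key
  have hsub : ∑ t ∈ Finset.range (i + 1), (((finrank K (V₁ t) : ℤ) - finrank K (W₁ t)) +
      ((finrank K (V₂ t) : ℤ) - finrank K (W₂ t))) =
      ∑ t ∈ Finset.range (L + 1), (((finrank K (V₁ t) : ℤ) - finrank K (W₁ t)) +
      ((finrank K (V₂ t) : ℤ) - finrank K (W₂ t))) := by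
    refine Finset.sum_subset (Finset.range_mono (by omega)) ?_
    intro t _ ht
    exact hR t (by simpa using ht)
  calc ∑ t ∈ Finset.range i,
        ((rd (AA V₁ V₂ t) (Z (t + 1)) : ℤ) - rd (P (b + (t + 1))) (Z (t + 1)))
      ≤ ∑ t ∈ Finset.range i,
        ((finrank K (AA V₁ V₂ t) : ℤ) - finrank K (AA W₁ W₂ t)) :=
        Finset.sum_le_sum fun t ht => hL t (Finset.mem_range.1 ht)
    _ ≤ ∑ t ∈ Finset.range L,
        ((finrank K (AA V₁ V₂ t) : ℤ) - finrank K (AA W₁ W₂ t)) :=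
        Finset.sum_le_sum_of_subset_of_nonneg (Finset.range_mono hi)
          fun t ht _ => hL' t (Finset.mem_range.1 ht)
    _ ≤ ∑ t ∈ Finset.range (L + 1), (((finrank K (V₁ t) : ℤ) - finrank K (W₁ t)) +
      ((finrank K (V₂ t) : ℤ) - finrank K (W₂ t))) := key2
    _ = ∑ t ∈ Finset.range (i + 1), (((finrank K (V₁ t) : ℤ) - finrank K (W₁ t)) +
      ((finrank K (V₂ t) : ℤ) - finrank K (W₂ t))) := hsub.symm
    _ = ∑ t ∈ Finset.range (i + 1),
        ((rd (V₁ t) (Z t) : ℤ) + rd (V₂ t) (Z t) - 2 * rd (P (b + t)) (Z t)) := by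
        refine Finset.sum_congr rfl fun t ht => ?_
        have ht' : t ≤ i := Nat.lt_succ_iff.1 (Finset.mem_range.1 ht)
        rw [hR1 t ht', hR2 t ht']
        ring

end TARO
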