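import Pool.Agent.TARO.PQ
import Pool.Agent.TARO.WB

/-! PSUM: weighted initial sums of a violator with minimal defect. -/

open Module

namespace TARO

variable {r : ℕ}

private theorem PSUM_aux {J : ℕ} (α : ℝ) (s : Finset ℕ) (X : ℕ → ℝ) (x : ℕ → ℕ → ℝ)
    (y : ℕ → ℝ)
    (h : ∀ t ∈ s, X t = (1 - α) * ∑ j ∈ Finset.range J, α ^ j * x j t + α ^ J * y t) :
    ∑ t ∈ s, X t = (1 - α) * ∑ j ∈ Finset.range J, α ^ j * ∑ t ∈ s, x j t +
      α ^ J * ∑ t ∈ s, y t := by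
  rw [Finset.sum_congr rfl h, Finset.sum_add_distrib, ← Finset.mul_sum, ← Finset.mul_sum,
    Finset.sum_comm]
  congr 2
  refine Finset.sum_congr rfl fun j _ => ?_
  rw [Finset.mul_sum]

/-- the initial sum for the filtration `Z`, as a real number -/
private noncomputable def PSUM_D (b : ℕ) (P V₁ V₂ Z : ℕ → Submodule K (F r)) (i : ℕ) : ℝ :=
  ∑ t ∈ Finset.range i,
      ((rd (AA V₁ V₂ t) (Z (t + 1)) : ℝ) - rd (P (b + (t + 1))) (Z (t + 1))) -
    ∑ t ∈ Finset.range (i + 1),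
      ((rd (V₁ t) (Z t) : ℝ) + rd (V₂ t) (Z t) - 2 * rd (P (b + t)) (Z t))

private theorem PSUM_D_nonpos {L b : ℕ} {P V₁ V₂ Z : ℕ → Submodule K (F r)}
    (hP : LCB r L b P) (hV : AdmV r L b P V₁ V₂)
    (hmin : ∀ V₁' V₂' : ℕ → Submodule K (F r), AdmV r L b P V₁' V₂' →
      fv L b P V₁ V₂ ≤ fv L b P V₁' V₂')
    (hZ : ∀ i, i ≤ L → Z i ≤ Fd r (b + i))
    (hZ' : ∀ i, i < L → Fd r 1 * Z i ≤ Z (i + 1)) {i : ℕ} (hi : i ≤ L) :
    PSUM_D b P V₁ V₂ Z i ≤ 0 := by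
  have h := initial_sum_le hP hV hmin hZ hZ' hi
  have h2 : ((∑ t ∈ Finset.range i,
        ((rd (AA V₁ V₂ t) (Z (t + 1)) : ℤ) - rd (P (b + (t + 1))) (Z (t + 1))) : ℤ) : ℝ) ≤
      ((∑ t ∈ Finset.range (i + 1),
        ((rd (V₁ t) (Z t) : ℤ) + rd (V₂ t) (Z t) - 2 * rd (P (b + t)) (Z t)) : ℤ) : ℝ) := by
    exact_mod_cast h
  push_cast at h2
  unfold PSUM_D
  linarith

private theorem PSUM_rd_bot (V : Submodule K (F r)) : rd V ⊥ = finrank K V := by
  unfold rd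
  rw [inf_bot_eq, finrank_bot, Nat.sub_zero]

private theorem PSUM_Sw (c : ℕ → Cm r) {L b : ℕ} {P V₁ V₂ : ℕ → Submodule K (F r)} {i : ℕ}
    (hi : i ≤ L) :
    Sw c b P V₁ V₂ i = (1 - alp r) * ∑ j ∈ Finset.range (b + L),
        alp r ^ j * PSUM_D b P V₁ V₂ (fun t => Flt c (b + t) (j + 1)) i +
      alp r ^ (b + L) * PSUM_D b P V₁ V₂ (fun _ => ⊥) i := by
  have h1 := PSUM_aux (J := b + L) (alp r) (Finset.range i)
    (fun t => w c (b + (t + 1)) (AA V₁ V₂ t) - w c (b + (t + 1)) (P (b + (t + 1))))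
    (fun j t => (rd (AA V₁ V₂ t) (Flt c (b + (t + 1)) (j + 1)) : ℝ) -
      rd (P (b + (t + 1))) (Flt c (b + (t + 1)) (j + 1)))
    (fun t => (rd (AA V₁ V₂ t) ⊥ : ℝ) - rd (P (b + (t + 1))) ⊥) (by
      intro t ht
      have ht' : b + (t + 1) ≤ b + L := by
        have := Finset.mem_range.1 ht
        omega
      simp only [w_eq c ht', PSUM_rd_bot, mul_sub, Finset.sum_sub_distrib]
      ring)
  have h2 := PSUM_aux (J := b + L) (alp r) (Finset.range (i + 1))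
    (fun t => w c (b + t) (V₁ t) + w c (b + t) (V₂ t) - 2 * w c (b + t) (P (b + t)))
    (fun j t => (rd (V₁ t) (Flt c (b + t) (j + 1)) : ℝ) + rd (V₂ t) (Flt c (b + t) (j + 1)) -
      2 * rd (P (b + t)) (Flt c (b + t) (j + 1)))
    (fun t => (rd (V₁ t) ⊥ : ℝ) + rd (V₂ t) ⊥ - 2 * rd (P (b + t)) ⊥) (by
      intro t ht
      have ht' : b + t ≤ b + L := by
        have := Finset.mem_range.1 ht
        omega
      simp only [w_eq c ht', PSUM_rd_bot, mul_sub, mul_add, Finset.sum_sub_distrib,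
        Finset.sum_add_distrib]
      have e : ∀ x : ℕ → ℝ, ∑ j ∈ Finset.range (b + L), alp r ^ j * (2 * x j) =
          2 * ∑ j ∈ Finset.range (b + L), alp r ^ j * x j := by
        intro x
        rw [Finset.mul_sum]
        refine Finset.sum_congr rfl fun j _ => ?_
        ring
      rw [e]
      ring)
  unfold Sw PSUM_D
  rw [h1, h2]
  simp only [mul_sub, Finset.sum_sub_distrib]
  ring

/-- Write all weighted dimensions with `w_eq` for `J = b + L` and use `initial_sum_le` for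
`Z t = Flt c (b + t) (j + 1)` (all `j < J`) and for `Z t = ⊥` (`rd V ⊥ = finrank V`). -/
theorem Sw_nonpos (c : ℕ → Cm r) {L b : ℕ} {P V₁ V₂ : ℕ → Submodule K (F r)}
    (hP : LCB r L b P) (hV : AdmV r L b P V₁ V₂)
    (hmin : ∀ V₁' V₂' : ℕ → Submodule K (F r), AdmV r L b P V₁' V₂' →
      fv L b P V₁ V₂ ≤ fv L b P V₁' V₂') {i : ℕ} (hi : i ≤ L) :
    Sw c b P V₁ V₂ i ≤ 0 := by
  rw [PSUM_Sw c hi]
  have ha := alp_pos r
  have ha1 := alp_lt_one r
  have h1 : ∑ j ∈ Finset.range (b + L),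
      alp r ^ j * PSUM_D b P V₁ V₂ (fun t => Flt c (b + t) (j + 1)) i ≤ 0 := by
    refine Finset.sum_nonpos fun j _ => ?_
    refine mul_nonpos_of_nonneg_of_nonpos (by positivity) ?_
    refine PSUM_D_nonpos hP hV hmin (fun t _ => Flt_le c _ _) (fun t _ => ?_) hi
    have := Fd_mul_Flt c 1 (b + t) (j + 1)
    rwa [add_assoc] at this
  have h2 : PSUM_D b P V₁ V₂ (fun _ => ⊥) i ≤ 0 :=
    PSUM_D_nonpos hP hV hmin (fun t _ => bot_le) (fun t _ => by simp) hi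
  have h3 : (1 - alp r) * ∑ j ∈ Finset.range (b + L),
      alp r ^ j * PSUM_D b P V₁ V₂ (fun t => Flt c (b + t) (j + 1)) i ≤ 0 :=
    mul_nonpos_of_nonneg_of_nonpos (by linarith) h1
  have h4 : alp r ^ (b + L) * PSUM_D b P V₁ V₂ (fun _ => ⊥) i ≤ 0 :=
    mul_nonpos_of_nonneg_of_nonpos (by positivity) h2
  linarith

/-- the same for `i = L`; the term with `Z t = ⊥` is `fv` (the summand `t = L` vanishes) and
has the positive weight `alp ^ (b + L)` -/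
theorem Sw_neg (c : ℕ → Cm r) {L b : ℕ} {P V₁ V₂ : ℕ → Submodule K (F r)}
    (hP : LCB r L b P) (hV : AdmV r L b P V₁ V₂) (hneg : fv L b P V₁ V₂ < 0)
    (hmin : ∀ V₁' V₂' : ℕ → Submodule K (F r), AdmV r L b P V₁' V₂' →
      fv L b P V₁ V₂ ≤ fv L b P V₁' V₂') :
    Sw c b P V₁ V₂ L < 0 := by
  rw [PSUM_Sw c le_rfl]
  have ha := alp_pos r
  have ha1 := alp_lt_one r
  have h1 : ∑ j ∈ Finset.range (b + L),
      alp r ^ j * PSUM_D b P V₁ V₂ (fun t => Flt c (b + t) (j + 1)) L ≤ 0 := by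
    refine Finset.sum_nonpos fun j _ => ?_
    refine mul_nonpos_of_nonneg_of_nonpos (by positivity) ?_
    refine PSUM_D_nonpos hP hV hmin (fun t _ => Flt_le c _ _) (fun t _ => ?_) le_rfl
    have := Fd_mul_Flt c 1 (b + t) (j + 1)
    rwa [add_assoc] at this
  have h2 : PSUM_D b P V₁ V₂ (fun _ => ⊥) L = (fv L b P V₁ V₂ : ℝ) := by
    unfold PSUM_D fv
    rw [Finset.sum_range_succ (fun t => ((rd (V₁ t) ⊥ : ℝ) + rd (V₂ t) ⊥ -
      2 * rd (P (b + t)) ⊥)), hV.top₁, hV.top₂]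
    simp only [PSUM_rd_bot]
    push_cast
    ring
  have h2' : (fv L b P V₁ V₂ : ℝ) < 0 := by exact_mod_cast hneg
  have h3 : (1 - alp r) * ∑ j ∈ Finset.range (b + L),
      alp r ^ j * PSUM_D b P V₁ V₂ (fun t => Flt c (b + t) (j + 1)) L ≤ 0 :=
    mul_nonpos_of_nonneg_of_nonpos (by linarith) h1
  have h4 : alp r ^ (b + L) * PSUM_D b P V₁ V₂ (fun _ => ⊥) L < 0 := by
    rw [h2]
    exact mul_neg_of_pos_of_neg (by positivity) h2'
  linarith

end TARO
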