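import Pool.Agent.TARO.PIL

/-! QD: the quotient of the free algebra by a graded left ideal. -/

open Module

namespace TARO

variable {r : ℕ} {P : ℕ → Submodule K (F r)}

theorem exists_qdata (hP : LeftClosed r P) : Nonempty (QData r P) := by
  classical
  let φ : F r → Module.End K (F r ⧸ PI P) := fun f =>
    (PI P).mapQ (PI P) (LinearMap.mulLeft K f) (fun g hg => PI_mul hP f hg)
  have hφ : ∀ f g : F r, φ f ((PI P).mkQ g) = (PI P).mkQ (f * g) := by
    intro f g
    show (PI P).mapQ (PI P) (LinearMap.mulLeft K f) _ ((PI P).mkQ g) = _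
    rw [Submodule.mkQ_apply, Submodule.mapQ_apply, LinearMap.mulLeft_apply, Submodule.mkQ_apply]
  have hsurj : ∀ x : F r ⧸ PI P, ∃ g : F r, (PI P).mkQ g = x := fun x =>
    Submodule.mkQ_surjective (PI P) x
  let ρ : F r →ₐ[K] Module.End K (F r ⧸ PI P) :=
    { toFun := φ
      map_one' := by
        apply LinearMap.ext
        intro x
        obtain ⟨g, rfl⟩ := hsurj x
        rw [hφ, one_mul]
        rfl
      map_mul' := by
        intro f f'
        apply LinearMap.ext
        intro x
        obtain ⟨g, rfl⟩ := hsurj x
        rw [hφ, Module.End.mul_apply, hφ, hφ, mul_assoc]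
      map_zero' := by
        apply LinearMap.ext
        intro x
        obtain ⟨g, rfl⟩ := hsurj x
        rw [hφ, zero_mul, map_zero]
        rfl
      map_add' := by
        intro f f'
        apply LinearMap.ext
        intro x
        obtain ⟨g, rfl⟩ := hsurj x
        rw [hφ, LinearMap.add_apply, hφ, hφ, add_mul, map_add]
      commutes' := by
        intro c
        apply LinearMap.ext
        intro x
        obtain ⟨g, rfl⟩ := hsurj x
        rw [hφ, Module.algebraMap_end_apply, ← map_smul, Algebra.smul_def] }
  have hker : ∀ n, PI P ≤ LinearMap.ker ((P n).mkQ ∘ₗ part n) := by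
    intro n g hg
    rw [LinearMap.mem_ker, LinearMap.comp_apply, Submodule.mkQ_apply,
      Submodule.Quotient.mk_eq_zero]
    exact (mem_PI hP).1 hg n
  exact ⟨{ ρ := ρ
           π := fun n => (PI P).liftQ ((P n).mkQ ∘ₗ part n) (hker n)
           hρ := fun f g => hφ f g
           hπ := by
             intro n g
             rw [Submodule.mkQ_apply, Submodule.liftQ_apply, LinearMap.comp_apply] }⟩

end TARO
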