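import Pool.Agent.TARO.PT

/-! QUO: left and right quotients by letters. -/

open Module

namespace TARO

variable {r : ℕ}

theorem coeff_lq (a : Al r) (p : F r) (w : FreeMonoid (Al r)) :
    (lq a p).coeff w = p.coeff (FreeMonoid.of a * w) := rfl

theorem coeff_rq (a : Al r) (p : F r) (w : FreeMonoid (Al r)) :
    (rq a p).coeff w = p.coeff (w * FreeMonoid.of a) := rfl

/-- linear statements may be checked on words -/
private theorem QUO_ind {P : F r → Prop} (hw : ∀ w, P (wd w)) (h0 : P 0)
    (ha : ∀ p q, P p → P q → P (p + q)) (p : F r) : P p := by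
  have hp : p ∈ Submodule.span K (Set.range (wd : List (Al r) → F r)) := by
    rw [span_wd]; exact Submodule.mem_top
  induction hp using Submodule.span_induction with
  | mem x hx => obtain ⟨w, rfl⟩ := hx; exact hw w
  | zero => exact h0
  | add x y _ _ hx hy => exact ha x y hx hy
  | smul c x _ hx =>
    have hc : c = 0 ∨ c = 1 := by
      change ZMod 2 at c
      revert c; decide
    rcases hc with rfl | rfl
    · rw [zero_smul]; exact h0
    · rw [one_smul]; exact hx

private theorem QUO_toList (a : Al r) (w : FreeMonoid (Al r)) :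
    (FreeMonoid.of a * w).toList = a :: w.toList := rfl

private theorem QUO_toList' (a : Al r) (w : FreeMonoid (Al r)) :
    (w * FreeMonoid.of a).toList = w.toList ++ [a] := rfl

theorem lq_wd_cons (a b : Al r) (w : List (Al r)) :
    lq a (wd (b :: w) : F r) = if a = b then wd w else 0 := by
  apply MonoidAlgebra.ext
  ext z
  rw [coeff_lq, coeff_wd, QUO_toList]
  by_cases hab : a = b
  · subst hab
    rw [if_pos rfl, coeff_wd]
    simp
  · rw [if_neg hab]
    have : ¬ (b :: w = a :: z.toList) := fun h => hab (List.cons.inj h).1.symm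
    rw [if_neg this]
    rfl

theorem rq_wd_concat (a b : Al r) (w : List (Al r)) :
    rq a (wd (w ++ [b]) : F r) = if a = b then wd w else 0 := by
  apply MonoidAlgebra.ext
  ext z
  rw [coeff_rq, coeff_wd, QUO_toList']
  by_cases hab : a = b
  · subst hab
    rw [if_pos rfl, coeff_wd]
    simp
  · rw [if_neg hab]
    have : ¬ (w ++ [b] = z.toList ++ [a]) := fun h => by
      have h2 := List.append_inj' h rfl
      exact hab (by simpa using h2.2.symm)
    rw [if_neg this]
    rfl

theorem lq_one (a : Al r) : lq a (1 : F r) = 0 := by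
  rw [← wd_nil]
  apply MonoidAlgebra.ext
  ext z
  rw [coeff_lq, coeff_wd, QUO_toList]
  simp

theorem rq_one (a : Al r) : rq a (1 : F r) = 0 := by
  rw [← wd_nil]
  apply MonoidAlgebra.ext
  ext z
  rw [coeff_rq, coeff_wd, QUO_toList']
  simp

private theorem QUO_coeff_one (w : List (Al r)) :
    (wd w : F r).coeff 1 = if w = [] then 1 else 0 := by
  rw [coeff_wd]; rfl

theorem lq_mul (a : Al r) (u z : F r) :
    lq a (u * z) = lq a u * z + u.coeff 1 • lq a z := by
  induction u using QUO_ind with
  | hw w =>
    induction z using QUO_ind with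
    | hw v =>
      cases w with
      | nil =>
        rw [QUO_coeff_one, wd_nil, lq_one, one_mul, zero_mul, zero_add]
        simp
      | cons b w =>
        rw [QUO_coeff_one, ← wd_append, List.cons_append, lq_wd_cons, lq_wd_cons]
        split_ifs
        · simp_all
        · simp_all [wd_append]
        · simp_all
        · simp_all
    | h0 => simp
    | ha p q hp hq =>
      rw [mul_add, map_add, hp, hq, mul_add, map_add, smul_add]
      abel
  | h0 => simp
  | ha p q hp hq =>
    rw [add_mul, map_add, hp, hq, map_add, add_mul, MonoidAlgebra.coeff_add, Finsupp.add_apply,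
      add_smul]
    abel

theorem rq_mul (a : Al r) (z u : F r) :
    rq a (z * u) = z * rq a u + u.coeff 1 • rq a z := by
  induction u using QUO_ind with
  | hw w =>
    induction z using QUO_ind with
    | hw v =>
      rcases List.eq_nil_or_concat' w with rfl | ⟨w, b, rfl⟩
      · rw [QUO_coeff_one, wd_nil, rq_one, mul_one, mul_zero, zero_add]
        simp
      · rw [QUO_coeff_one, ← wd_append, ← List.append_assoc, rq_wd_concat, rq_wd_concat]
        have h1 : w ++ [b] ≠ [] := by simp
        rw [if_neg h1, zero_smul, add_zero]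
        split_ifs
        · rw [wd_append]
        · rw [mul_zero]
    | h0 => simp
    | ha p q hp hq =>
      rw [add_mul, map_add, hp, hq, add_mul, map_add, smul_add]
      abel
  | h0 => simp
  | ha p q hp hq =>
    rw [mul_add, map_add, hp, hq, map_add, mul_add, MonoidAlgebra.coeff_add, Finsupp.add_apply,
      add_smul]
    abel

theorem lq_mul_of_nc (a : Al r) {u : F r} (hu : NC u) (z : F r) :
    lq a (u * z) = lq a u * z := by
  rw [lq_mul, show u.coeff 1 = 0 from hu, zero_smul, add_zero]

theorem rq_mul_of_nc (a : Al r) {u : F r} (hu : NC u) (z : F r) :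
    rq a (z * u) = z * rq a u := by
  rw [rq_mul, show u.coeff 1 = 0 from hu, zero_smul, add_zero]

theorem lq_rq (a b : Al r) (p : F r) : lq a (rq b p) = rq b (lq a p) := by
  apply MonoidAlgebra.ext
  ext w
  rw [coeff_lq, coeff_rq, coeff_rq, coeff_lq, mul_assoc]

private theorem QUO_eq_l (p : F r) : p = p.coeff 1 • (1 : F r) + ∑ a, wd [a] * lq a p := by
  induction p using QUO_ind with
  | hw w =>
    cases w with
    | nil =>
      rw [QUO_coeff_one, wd_nil]
      simp [lq_one]
    | cons b w =>
      rw [QUO_coeff_one, if_neg (by simp), zero_smul, zero_add]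
      simp_rw [lq_wd_cons, mul_ite, mul_zero]
      rw [Finset.sum_ite_eq' Finset.univ b, if_pos (Finset.mem_univ _), ← wd_cons]
  | h0 => simp
  | ha p q hp hq =>
    rw [MonoidAlgebra.coeff_add, Finsupp.add_apply, add_smul]
    simp_rw [map_add, mul_add]
    rw [Finset.sum_add_distrib]
    nth_rewrite 1 [hp]
    nth_rewrite 1 [hq]
    abel

private theorem QUO_eq_r (p : F r) : p = p.coeff 1 • (1 : F r) + ∑ a, rq a p * wd [a] := by
  induction p using QUO_ind with
  | hw w =>
    rcases List.eq_nil_or_concat' w with rfl | ⟨w, b, rfl⟩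
    · rw [QUO_coeff_one, wd_nil]
      simp [rq_one]
    · rw [QUO_coeff_one, if_neg (by simp), zero_smul, zero_add]
      simp_rw [rq_wd_concat, ite_mul, zero_mul]
      rw [Finset.sum_ite_eq' Finset.univ b, if_pos (Finset.mem_univ _), ← wd_append]
  | h0 => simp
  | ha p q hp hq =>
    rw [MonoidAlgebra.coeff_add, Finsupp.add_apply, add_smul]
    simp_rw [map_add, add_mul]
    rw [Finset.sum_add_distrib]
    nth_rewrite 1 [hp]
    nth_rewrite 1 [hq]
    abel

theorem eq_sum_lq (p : F r) (hp : NC p) : p = ∑ a, wd [a] * lq a p := by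
  have h := QUO_eq_l p
  rw [show p.coeff 1 = 0 from hp, zero_smul, zero_add] at h
  exact h

theorem eq_sum_rq (p : F r) (hp : NC p) : p = ∑ a, rq a p * wd [a] := by
  have h := QUO_eq_r p
  rw [show p.coeff 1 = 0 from hp, zero_smul, zero_add] at h
  exact h

theorem lq_mem {n : ℕ} (a : Al r) {p : F r} (hp : p ∈ Fd r (n + 1)) : lq a p ∈ Fd r n := by
  rw [mem_Fd] at hp ⊢
  intro w hw
  rw [coeff_lq] at hw
  have := hp _ hw
  rw [FreeMonoid.length_mul, FreeMonoid.length_of] at this
  omega

theorem rq_mem {n : ℕ} (a : Al r) {p : F r} (hp : p ∈ Fd r (n + 1)) : rq a p ∈ Fd r n := by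
  rw [mem_Fd] at hp ⊢
  intro w hw
  rw [coeff_rq] at hw
  have := hp _ hw
  rw [FreeMonoid.length_mul, FreeMonoid.length_of] at this
  omega

private theorem QUO_coeff_part (n : ℕ) (p : F r) (w : FreeMonoid (Al r)) :
    (part n p).coeff w = if w.length = n then p.coeff w else 0 := by
  change (p.coeff.filter fun w => w.length = n) w = _
  rw [Finsupp.filter_apply]

theorem lq_part (n : ℕ) (a : Al r) (p : F r) : lq a (part (n + 1) p) = part n (lq a p) := by
  apply MonoidAlgebra.ext
  ext w
  rw [coeff_lq, QUO_coeff_part, QUO_coeff_part, coeff_lq, FreeMonoid.length_mul,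
    FreeMonoid.length_of]
  have : (1 + w.length = n + 1) ↔ w.length = n := by omega
  simp only [this]

theorem rq_part (n : ℕ) (a : Al r) (p : F r) : rq a (part (n + 1) p) = part n (rq a p) := by
  apply MonoidAlgebra.ext
  ext w
  rw [coeff_rq, QUO_coeff_part, QUO_coeff_part, coeff_rq, FreeMonoid.length_mul,
    FreeMonoid.length_of]
  have : (w.length + 1 = n + 1) ↔ w.length = n := by omega
  simp only [this]

end TARO
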