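import Pool.Agent.TARO.COMP
import Pool.Agent.TARO.RD

/-! RDX: dimensions modulo `XM * A ⊔ YC ψ * B`. -/

open Module

namespace TARO

variable {r : ℕ}

private theorem RDX_mem {I : Type} [Fintype I] (g : I → F r) {V : Submodule K (F r)} {p : F r}
    (hp : p ∈ Submodule.span K (Set.range g) * V) :
    ∃ v : I → F r, (∀ i, v i ∈ V) ∧ p = ∑ i, g i * v i := by
  refine Submodule.mul_induction_on hp (fun m hm n hn => ?_) (fun x y hx hy => ?_)
  · obtain ⟨c, rfl⟩ := (Submodule.mem_span_range_iff_exists_fun K).1 hm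
    refine ⟨fun i => c i • n, fun i => Submodule.smul_mem _ _ hn, ?_⟩
    rw [Finset.sum_mul]
    refine Finset.sum_congr rfl fun i _ => ?_
    rw [smul_mul_assoc, mul_smul_comm]
  · obtain ⟨v, hv, rfl⟩ := hx
    obtain ⟨v', hv', rfl⟩ := hy
    refine ⟨fun i => v i + v' i, fun i => Submodule.add_mem _ (hv i) (hv' i), ?_⟩
    rw [← Finset.sum_add_distrib]
    refine Finset.sum_congr rfl fun i _ => ?_
    rw [mul_add]

private theorem RDX_lq_letter (a b : Al r) (z : F r) :
    lq a (wd [b] * z) = if a = b then z else 0 := by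
  rw [lq_mul_of_nc a (NC_wd [b] (by simp)) z]
  have h1 : lq a (wd [b] : F r) = if a = b then wd [] else 0 := lq_wd_cons a b []
  rw [h1]
  split_ifs
  · rw [wd_nil, one_mul]
  · rw [zero_mul]

private theorem RDX_lqX (i : Fin (r + 1)) (v : Fin (r + 1) → F r) :
    lq (Sum.inl i) (∑ i, wd [Sum.inl i] * v i) = v i := by
  classical
  rw [map_sum, Finset.sum_eq_single i]
  · rw [RDX_lq_letter, if_pos rfl]
  · intro j _ hj
    rw [RDX_lq_letter, if_neg]
    intro h
    exact hj (Sum.inl_injective h).symm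
  · intro h
    exact absurd (Finset.mem_univ i) h

private theorem RDX_lqX0 (j : Fin (r + 2)) (v : Fin (r + 1) → F r) :
    lq (Sum.inr j) (∑ i, wd [Sum.inl i] * v i) = 0 := by
  rw [map_sum]
  refine Finset.sum_eq_zero fun i _ => ?_
  rw [RDX_lq_letter, if_neg]
  intro h
  cases h

private theorem RDX_lqY (j : Fin (r + 2)) (v : Fin (r + 2) → F r) :
    lq (Sum.inr j) (∑ i, wd [Sum.inr i] * v i) = v j := by
  classical
  rw [map_sum, Finset.sum_eq_single j]
  · rw [RDX_lq_letter, if_pos rfl]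
  · intro i _ hi
    rw [RDX_lq_letter, if_neg]
    intro h
    exact hi (Sum.inr_injective h).symm
  · intro h
    exact absurd (Finset.mem_univ j) h

/-- the left quotients by the y-letters -/
private noncomputable def RDX_map : F r →ₗ[K] (Fin (r + 2) → F r) :=
  LinearMap.pi fun j => lq (Sum.inr j)

/-- Let `S = XM * V₁ ⊔ YM * V₂`, `P = XM * A ⊔ YC ψ * B`.  For `s = ∑ x_i v_i + ∑ y_j w_j` in
`S ⊓ P` the left quotients by the letters `y_j` give `w_j ∈ V₂ ⊓ B`; if all `w_j` vanish then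
`v_i ∈ V₁ ⊓ A`.  So `finrank (S ⊓ P) ≤ (r + 1) finrank (V₁ ⊓ A) + (r + 2) finrank (V₂ ⊓ B)`;
together with `finrank_XY` for `S`. -/
theorem rdx_lower (ψ : Cm r) (V₁ V₂ A B : Submodule K (F r)) [FiniteDimensional K V₁]
    [FiniteDimensional K V₂] :
    (r + 1) * rd V₁ A + (r + 2) * rd V₂ B ≤
      rd (XM r * V₁ ⊔ YM r * V₂) (XM r * A ⊔ YC ψ * B) := by
  have fX : FiniteDimensional K (XM r) := by
    unfold XM
    exact FiniteDimensional.span_of_finite K (Set.finite_range _)
  have fY : FiniteDimensional K (YM r) := by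
    unfold YM
    exact FiniteDimensional.span_of_finite K (Set.finite_range _)
  have fV : FiniteDimensional K (V₁ ⊓ A : Submodule K (F r)) :=
    Submodule.finiteDimensional_of_le inf_le_left
  have fW : FiniteDimensional K (V₂ ⊓ B : Submodule K (F r)) :=
    Submodule.finiteDimensional_of_le inf_le_left
  set S := XM r * V₁ ⊔ YM r * V₂ with hS
  set P := XM r * A ⊔ YC ψ * B with hP
  have fS : FiniteDimensional K S := inferInstance
  have fSP : FiniteDimensional K (S ⊓ P : Submodule K (F r)) :=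
    Submodule.finiteDimensional_of_le inf_le_left
  -- left quotients by y-letters
  have hlq : ∀ s ∈ S ⊓ P, ∀ j, lq (Sum.inr j) s ∈ V₂ ⊓ B := by
    rintro s ⟨hs, hs'⟩ j
    constructor
    · obtain ⟨x, hx, y, hy, rfl⟩ := Submodule.mem_sup.1 hs
      obtain ⟨v, hv, rfl⟩ := RDX_mem _ hx
      obtain ⟨v', hv', rfl⟩ := RDX_mem _ hy
      rw [map_add, RDX_lqX0, RDX_lqY, zero_add]
      exact hv' j
    · obtain ⟨x, hx, y, hy, rfl⟩ := Submodule.mem_sup.1 hs'
      obtain ⟨v, hv, rfl⟩ := RDX_mem _ hx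
      obtain ⟨v', hv', rfl⟩ := mem_YC_mul ψ hy
      rw [map_add, RDX_lqX0, lq_inr_yl, zero_add]
      exact hv' j
  have hker : ∀ s ∈ S ⊓ P, (∀ j, lq (Sum.inr j) s = 0) → s ∈ XM r * (V₁ ⊓ A) := by
    rintro s ⟨hs, hs'⟩ h0
    obtain ⟨x, hx, y, hy, e⟩ := Submodule.mem_sup.1 hs
    obtain ⟨v, hv, rfl⟩ := RDX_mem _ hx
    obtain ⟨v', hv', rfl⟩ := RDX_mem _ hy
    obtain ⟨x2, hx2, y2, hy2, e2⟩ := Submodule.mem_sup.1 hs'
    obtain ⟨u, hu, rfl⟩ := RDX_mem _ hx2
    obtain ⟨u', hu', rfl⟩ := mem_YC_mul ψ hy2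
    have h1 : ∀ j, v' j = 0 := by
      intro j
      have := h0 j
      rw [← e, map_add, RDX_lqX0, RDX_lqY, zero_add] at this
      exact this
    have h2 : ∀ j, u' j = 0 := by
      intro j
      have := h0 j
      rw [← e2, map_add, RDX_lqX0, lq_inr_yl, zero_add] at this
      exact this
    have e3 : (∑ i, wd [Sum.inr i] * v' i : F r) = 0 :=
      Finset.sum_eq_zero fun i _ => by rw [h1, mul_zero]
    have e4 : (∑ j, yl ψ j * u' j : F r) = 0 :=
      Finset.sum_eq_zero fun i _ => by rw [h2, mul_zero]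
    have e5 : s = ∑ i, wd [Sum.inl i] * v i := by
      rw [← e]
      show _ + (∑ i, wd [Sum.inr i] * v' i : F r) = _
      rw [e3, add_zero]
    have e6 : s = ∑ i, wd [Sum.inl i] * u i := by
      rw [← e2, e4, add_zero]
    have h3 : ∀ i, v i = u i := by
      intro i
      rw [← RDX_lqX i v, ← RDX_lqX i u, ← e5, ← e6]
    rw [e5]
    refine Submodule.sum_mem _ fun i _ => ?_
    refine Submodule.mul_mem_mul (Submodule.subset_span ⟨i, rfl⟩) ⟨hv i, ?_⟩
    rw [h3]
    exact hu i
  -- rank and kernel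
  let f : (S ⊓ P : Submodule K (F r)) →ₗ[K] (Fin (r + 2) → F r) :=
    RDX_map.domRestrict (S ⊓ P)
  have hrn := LinearMap.finrank_range_add_finrank_ker f
  have hk : finrank K (LinearMap.ker f) ≤ (r + 1) * finrank K (V₁ ⊓ A : Submodule K (F r)) := by
    rw [← finrank_XM_mul]
    have e1 : finrank K (LinearMap.ker f) =
        finrank K ((LinearMap.ker f).map (S ⊓ P).subtype) :=
      (Submodule.finrank_map_subtype_eq (S ⊓ P) (LinearMap.ker f)).symm
    rw [e1]
    refine Submodule.finrank_mono ?_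
    rintro _ ⟨s, hs, rfl⟩
    refine hker s.1 s.2 fun j => ?_
    exact congrFun (LinearMap.mem_ker.1 hs) j
  have hr' : finrank K (LinearMap.range f) ≤
      (r + 2) * finrank K (V₂ ⊓ B : Submodule K (F r)) := by
    let ι : (Fin (r + 2) → (V₂ ⊓ B : Submodule K (F r))) →ₗ[K] (Fin (r + 2) → F r) :=
      LinearMap.pi fun j => (V₂ ⊓ B).subtype ∘ₗ LinearMap.proj j
    have h1 : LinearMap.range f ≤ LinearMap.range ι := by
      rintro _ ⟨s, rfl⟩
      refine ⟨fun j => ⟨lq (Sum.inr j) s.1, hlq s.1 s.2 j⟩, ?_⟩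
      funext j
      rfl
    refine (Submodule.finrank_mono h1).trans ?_
    refine (LinearMap.finrank_range_le ι).trans ?_
    rw [Module.finrank_pi_fintype, Finset.sum_const, Finset.card_univ, Fintype.card_fin,
      smul_eq_mul]
  have h1 := rd_add_inf S P
  have h2 := rd_add_inf V₁ A
  have h3 := rd_add_inf V₂ B
  have h4 : finrank K S = (r + 1) * finrank K V₁ + (r + 2) * finrank K V₂ := finrank_XY V₁ V₂
  rw [← h2, ← h3, mul_add, mul_add] at h4
  omega

/-- `Fd r 1 * V = XM * V ⊔ YC ψ * V` contains `XM * (V ⊓ A) ⊔ YC ψ * (V ⊓ B)` -/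
theorem rdx_upper (ψ : Cm r) (V A B : Submodule K (F r)) [FiniteDimensional K V] :
    rd (Fd r 1 * V) (XM r * A ⊔ YC ψ * B) ≤ (r + 1) * rd V A + (r + 2) * rd V B := by
  have fX : FiniteDimensional K (XM r) := by
    unfold XM
    exact FiniteDimensional.span_of_finite K (Set.finite_range _)
  have fY : FiniteDimensional K (YC ψ) := by
    unfold YC
    exact FiniteDimensional.span_of_finite K (Set.finite_range _)
  have fF : FiniteDimensional K (Fd r 1) := by
    rw [Fd_one_eq ψ]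
    infer_instance
  have fV : FiniteDimensional K (V ⊓ A : Submodule K (F r)) :=
    Submodule.finiteDimensional_of_le inf_le_left
  have fW : FiniteDimensional K (V ⊓ B : Submodule K (F r)) :=
    Submodule.finiteDimensional_of_le inf_le_left
  have h1 := rd_add_inf (Fd r 1 * V) (XM r * A ⊔ YC ψ * B)
  have h2 := rd_add_inf V A
  have h3 := rd_add_inf V B
  have h4 : XM r * (V ⊓ A) ⊔ YC ψ * (V ⊓ B) ≤
      (Fd r 1 * V) ⊓ (XM r * A ⊔ YC ψ * B) := by
    refine le_inf ?_ ?_
    · rw [Fd_one_eq ψ, Submodule.sup_mul]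
      exact sup_le_sup (mul_le_mul' le_rfl inf_le_left) (mul_le_mul' le_rfl inf_le_left)
    · exact sup_le_sup (mul_le_mul' le_rfl inf_le_right) (mul_le_mul' le_rfl inf_le_right)
  have fI : FiniteDimensional K
      ((Fd r 1 * V) ⊓ (XM r * A ⊔ YC ψ * B) : Submodule K (F r)) :=
    Submodule.finiteDimensional_of_le inf_le_left
  have h5 := Submodule.finrank_mono h4
  have h6 : finrank K (XM r * (V ⊓ A) ⊔ YC ψ * (V ⊓ B) : Submodule K (F r)) =
      (r + 1) * finrank K (V ⊓ A : Submodule K (F r)) +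
        (r + 2) * finrank K (V ⊓ B : Submodule K (F r)) := by
    have h := Submodule.finrank_sup_add_finrank_inf_eq (XM r * (V ⊓ A)) (YC ψ * (V ⊓ B))
    rw [(disjoint_XM_YC ψ _ _).eq_bot, finrank_bot, add_zero, finrank_XM_mul,
      finrank_YC_mul] at h
    exact h
  have h7 := finrank_Fd_one_mul V
  rw [h6] at h5
  have h8 : (2 * r + 3) * finrank K V = (r + 1) * finrank K V + (r + 2) * finrank K V := by ring
  rw [h7, h8] at h1
  nth_rewrite 1 [← h2] at h1
  rw [← h3, mul_add, mul_add] at h1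
  omega

end TARO
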