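import Pool.Agent.TARO.STEP

/-! SEQ: the sequence of states. -/

open Module

namespace TARO

variable {r : ℕ}

/-- a state together with its proof -/
private def SEQState {r : ℕ} (c : ℕ → Cm r) (E : ℕ) : Type :=
  {s : Rels r × ℕ × ℝ // IsState c E s.1 s.2.1 s.2.2}

private theorem SEQ_step {c : ℕ → Cm r} {E : ℕ} (hE : 1 ≤ E) (s : SEQState c E)
    {Ω : ℕ → Submodule K (F r)} (hΩ : SlowRel c E Ω) :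
    ∃ s' : SEQState c E, s.1.2.1 ∣ s'.1.2.1 ∧ 2 * s.1.2.1 ≤ s'.1.2.1 ∧
      s'.1.1 = insert (s'.1.2.1, Ω s'.1.2.1) s.1.1 := by
  obtain ⟨H', κ', h1, h2, h3⟩ := state_step hE s.2 hΩ
  exact ⟨⟨(insert (H', Ω H') s.1.1, H', κ'), h3⟩, h1, h2, rfl⟩

/-- the sequence of states -/
private noncomputable def SEQ_seq (hr : 1 ≤ r) {c : ℕ → Cm r} {E : ℕ} (hE : 1 ≤ E)
    (Ω : ℕ → ℕ → Submodule K (F r)) (hΩ : ∀ i, SlowRel c E (Ω i)) : ℕ → SEQState c E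
  | 0 => ⟨(∅, 2 * E, ((r : ℝ) + 1) ^ (2 * E) - ((r : ℝ) + 1) ^ (2 * E - 1)),
      state_zero hr c hE⟩
  | i + 1 => (SEQ_step hE (SEQ_seq hr hE Ω hΩ i) (hΩ i)).choose

private theorem SEQ_seq_spec (hr : 1 ≤ r) {c : ℕ → Cm r} {E : ℕ} (hE : 1 ≤ E)
    (Ω : ℕ → ℕ → Submodule K (F r)) (hΩ : ∀ i, SlowRel c E (Ω i)) (i : ℕ) :
    (SEQ_seq hr hE Ω hΩ i).1.2.1 ∣ (SEQ_seq hr hE Ω hΩ (i + 1)).1.2.1 ∧
    2 * (SEQ_seq hr hE Ω hΩ i).1.2.1 ≤ (SEQ_seq hr hE Ω hΩ (i + 1)).1.2.1 ∧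
    (SEQ_seq hr hE Ω hΩ (i + 1)).1.1 =
      insert ((SEQ_seq hr hE Ω hΩ (i + 1)).1.2.1, Ω i (SEQ_seq hr hE Ω hΩ (i + 1)).1.2.1)
        (SEQ_seq hr hE Ω hΩ i).1.1 :=
  (SEQ_step hE (SEQ_seq hr hE Ω hΩ i) (hΩ i)).choose_spec

/-- as in `TAR.SEQ`: recursion with `state_zero` and `state_step` -/
theorem exists_states (hr : 1 ≤ r) {c : ℕ → Cm r} {E : ℕ} (hE : 1 ≤ E)
    (Ω : ℕ → ℕ → Submodule K (F r))
    (hΩ : ∀ i, SlowRel c E (Ω i)) :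
    ∃ (R : ℕ → Rels r) (H : ℕ → ℕ) (κ : ℕ → ℝ), (∀ i, IsState c E (R i) (H i) (κ i)) ∧
      (∀ i, R i ⊆ R (i + 1)) ∧ (∀ i, H i ∣ H (i + 1)) ∧ (∀ i, i < H i) ∧
      (∀ i, (H (i + 1), Ω i (H (i + 1))) ∈ R (i + 1)) := by
  refine ⟨fun i => (SEQ_seq hr hE Ω hΩ i).1.1, fun i => (SEQ_seq hr hE Ω hΩ i).1.2.1,
    fun i => (SEQ_seq hr hE Ω hΩ i).1.2.2, fun i => (SEQ_seq hr hE Ω hΩ i).2, ?_, ?_, ?_, ?_⟩
  · intro i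
    show (SEQ_seq hr hE Ω hΩ i).1.1 ⊆ (SEQ_seq hr hE Ω hΩ (i + 1)).1.1
    rw [(SEQ_seq_spec hr hE Ω hΩ i).2.2]
    exact Set.subset_insert _ _
  · intro i
    exact (SEQ_seq_spec hr hE Ω hΩ i).1
  · intro i
    show i < (SEQ_seq hr hE Ω hΩ i).1.2.1
    induction i with
    | zero => exact (SEQ_seq hr hE Ω hΩ 0).2.pos
    | succ i ih =>
      have := (SEQ_seq_spec hr hE Ω hΩ i).2.1
      omega
  · intro i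
    show ((SEQ_seq hr hE Ω hΩ (i + 1)).1.2.1, Ω i (SEQ_seq hr hE Ω hΩ (i + 1)).1.2.1) ∈
      (SEQ_seq hr hE Ω hΩ (i + 1)).1.1
    rw [(SEQ_seq_spec hr hE Ω hΩ i).2.2]
    exact Set.mem_insert _ _

end TARO
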