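import Pool.Agent.TARO.BL
import Pool.Agent.TARO.POW
import Pool.Agent.TARO.ADD
import Pool.Agent.TARO.NUM

/-! STEP: the initial state and the step of the construction. -/

open Module

namespace TARO

variable {r : ℕ}

/-- `RelOK` is empty, `big`: `(2 p ^ E / 3) ^ 2 = 4 p ^ (2 E) / 9 < p ^ (2 E) - p ^ (2 E - 1)`
for `p = r + 1 ≥ 2`; `cap` is `base_cap` -/
theorem state_zero (hr : 1 ≤ r) (c : ℕ → Cm r) {E : ℕ} (hE : 1 ≤ E) :
    IsState c E (∅ : Rels r) (2 * E) (((r : ℝ) + 1) ^ (2 * E) - ((r : ℝ) + 1) ^ (2 * E - 1)) where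
  rels := fun p hp => absurd hp (Set.notMem_empty p)
  dvd := dvd_rfl
  pos := by omega
  big := by
    have e1 : 2 * E / E = 2 := Nat.mul_div_cancel _ (by omega)
    have hp : (2 : ℝ) ≤ (r : ℝ) + 1 := by
      have : (1 : ℝ) ≤ r := by exact_mod_cast hr
      linarith
    have e2 : ((r : ℝ) + 1) ^ (2 * E) = ((r : ℝ) + 1) ^ (2 * E - 1) * ((r : ℝ) + 1) := by
      rw [← pow_succ]
      congr 1
      omega
    have e3 : (2 * ((r : ℝ) + 1) ^ E / 3) ^ 2 = 4 / 9 * ((r : ℝ) + 1) ^ (2 * E) := by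
      rw [mul_comm 2 E, pow_mul]
      ring
    have h0 : 0 < ((r : ℝ) + 1) ^ (2 * E - 1) := by positivity
    rw [e1, e3, e2]
    nlinarith
  cap := fun t => by
    have h := base_cap c (L := 2 * E) (by omega) (b := t * (2 * E)) (Dvd.intro_left t rfl)
    have e : (t + 1) * (2 * E) = t * (2 * E) + 2 * E := by ring
    rw [e]
    exact h

/-- `num` for `a = 2 p ^ E / 3`, `n = H / E` and the constant `C` of `Ω` gives `T`; take
`H' = T * H`, `κ' = κ ^ T - C * a ^ (T * n)` with `CapI.pow` (at `t * T`) and `CapI.add`;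
`E * (T * n) = H'` -/
theorem state_step {c : ℕ → Cm r} {E : ℕ} (hE : 1 ≤ E) {R : Rels r} {H : ℕ} {κ : ℝ}
    (hS : IsState c E R H κ) {Ω : ℕ → Submodule K (F r)} (hΩ : SlowRel c E Ω) :
    ∃ (H' : ℕ) (κ' : ℝ), H ∣ H' ∧ 2 * H ≤ H' ∧ IsState c E (insert (H', Ω H') R) H' κ' := by
  obtain ⟨hΩle, C, hC⟩ := hΩ
  have hEH : E ∣ H := (Dvd.intro_left 2 rfl).trans hS.dvd
  obtain ⟨n, rfl⟩ := hEH
  have hn : 0 < n := Nat.pos_of_mul_pos_left hS.pos
  have e0 : E * n / E = n := Nat.mul_div_cancel_left _ (by omega)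
  have ha : 0 < 2 * ((r : ℝ) + 1) ^ E / 3 := by positivity
  have hbig := hS.big
  rw [e0] at hbig
  obtain ⟨T, hT2, hT⟩ := num ha hn hbig C
  have hT0 : 0 < T := by omega
  have hκ : 0 ≤ κ := (by positivity : (0 : ℝ) ≤ (2 * ((r : ℝ) + 1) ^ E / 3) ^ n).trans hbig.le
  have hH' : 0 < T * (E * n) := Nat.mul_pos hT0 hS.pos
  have e3 : T * (E * n) = E * (T * n) := by ring
  refine ⟨T * (E * n), κ ^ T - C * (2 * ((r : ℝ) + 1) ^ E / 3) ^ (T * n), Dvd.intro_left T rfl,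
    Nat.mul_le_mul_right _ hT2, ?_⟩
  refine ⟨?_, hS.dvd.mul_left T, hH', ?_, ?_⟩
  · intro p hp
    rcases Set.mem_insert_iff.1 hp with hp | hp
    · subst hp
      exact ⟨hH', dvd_refl _, hΩle _⟩
    · obtain ⟨h1, h2, h3⟩ := hS.rels p hp
      exact ⟨h1, h2.mul_left T, h3⟩
  · have e4 : T * (E * n) / E = T * n := by
      rw [e3]
      exact Nat.mul_div_cancel_left _ (by omega)
    rw [e4]
    linarith
  · intro t
    have hR : ∀ p ∈ R, p.2 ≤ Fd r p.1 := fun p hp => (hS.rels p hp).2.2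
    have hpow := CapI.pow hS.pos hS.dvd hS.rels hκ hS.cap T hT0 (t * T)
    have e1 : t * T * (E * n) = t * (T * (E * n)) := by ring
    have e2 : (t * T + T) * (E * n) = (t + 1) * (T * (E * n)) := by ring
    rw [e1, e2] at hpow
    refine CapI.add hH' hR (hΩle _) ?_ hpow
    rw [e3]
    exact hC (T * n) _

end TARO
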