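import Pool.Agent.TARO.RGEN
import Pool.Agent.TARO.ALGN

/-! UNIP: the generators are unipotent. -/

open Module

namespace TARO

variable {r : ℕ}

theorem letter_nilpotent (hr : 1 ≤ r) (L : LinRep r) (a : Al r) :
    ∃ N : ℕ, (L.ρ (wd [a])) ^ N = 0 := by
  obtain ⟨u', h1, h2⟩ := exists_kill_r (fun _ : Fin r => (wd [a] : F r))
    (fun _ => NC_wd [a] (by simp))
  exact alg_nil L h1 (h2 ⟨0, hr⟩)

theorem exists_units (hr : 1 ≤ r) (L : LinRep r) :
    ∃ e : Al r → (Module.End K L.M)ˣ,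
      ∀ a, ((e a : (Module.End K L.M)ˣ) : Module.End K L.M) = 1 + L.ρ (wd [a]) := by
  have h : ∀ a : Al r, ∃ u : (Module.End K L.M)ˣ,
      (u : Module.End K L.M) = 1 + L.ρ (wd [a]) := by
    intro a
    obtain ⟨N, hN⟩ := letter_nilpotent hr L a
    have hn : IsNilpotent (L.ρ (wd [a])) := ⟨N, hN⟩
    exact hn.isUnit_one_add
  choose e he using h
  exact ⟨e, he⟩

end TARO
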