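import Pool.Agent.TARO.DIMX
import Pool.Agent.TARO.RD

/-! VIOW: a violator of the Hall inequality may be taken above `P`, with minimal defect. -/

open Module

namespace TARO

variable {r : ℕ}

private theorem VIOW_X {n : ℕ} {V : Submodule K (F r)} (h : V ≤ Fd r n) :
    XM r * V ≤ Fd r (n + 1) := by
  have h1 : Fd r (n + 1) = Fd r 1 * Fd r n := by rw [Fd_mul, add_comm]
  rw [h1]
  exact mul_le_mul' XM_le h

private theorem VIOW_Y {n : ℕ} {V : Submodule K (F r)} (h : V ≤ Fd r n) :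
    YM r * V ≤ Fd r (n + 1) := by
  have h1 : Fd r (n + 1) = Fd r 1 * Fd r n := by rw [Fd_mul, add_comm]
  rw [h1]
  exact mul_le_mul' YM_le h

/-- Replace `V₁ i`, `V₂ i` by `V₁ i ⊔ P (b + i)`, `V₂ i ⊔ P (b + i)` for `i ≤ L` (at `i = L` this
is `P (b + L)`).  `rd V P = finrank (V ⊔ P) - finrank P`, and because of
`XM * P (b + i) ≤ P (b + (i + 1))` the new `AA` at `i` is contained in
`(V₁ (i+1) ⊔ V₂ (i+1) ⊔ XM * V₁ i ⊔ YM * V₂ i) ⊔ P (b + (i + 1))`. -/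
theorem exists_violator {L b : ℕ} {P : ℕ → Submodule K (F r)} (hP : LCB r L b P)
    (h : ¬ HL r L P b) : ∃ V₁ V₂ : ℕ → Submodule K (F r), AdmV r L b P V₁ V₂ ∧
      fv L b P V₁ V₂ < 0 := by
  obtain ⟨hPle, hPc⟩ := hP
  unfold HL at h
  push Not at h
  obtain ⟨V₁, V₂, hV₁, hV₂, t₁, t₂, hlt⟩ := h
  refine ⟨fun i => V₁ i ⊔ P (b + i), fun i => V₂ i ⊔ P (b + i),
    ⟨fun i hi => sup_le (hV₁ i) (hPle i hi), fun i hi => sup_le (hV₂ i) (hPle i hi),
      fun i _ => le_sup_right, fun i _ => le_sup_right, ?_, ?_⟩, ?_⟩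
  · show V₁ L ⊔ P (b + L) = P (b + L)
    rw [t₁, bot_sup_eq]
  · show V₂ L ⊔ P (b + L) = P (b + L)
    rw [t₂, bot_sup_eq]
  have e1 : ∀ i ∈ Finset.range L,
      (finrank K (AA (fun i => V₁ i ⊔ P (b + i)) (fun i => V₂ i ⊔ P (b + i)) i) : ℤ) -
        finrank K (P (b + (i + 1))) ≤
      (rd (V₁ (i + 1) ⊔ V₂ (i + 1) ⊔ XM r * V₁ i ⊔ YM r * V₂ i) (P (b + (i + 1))) : ℤ) := by
    intro i hi
    have hi' := Finset.mem_range.1 hi
    have hA : V₁ (i + 1) ⊔ V₂ (i + 1) ⊔ XM r * V₁ i ⊔ YM r * V₂ i ≤ Fd r (b + (i + 1)) :=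
      sup_le (sup_le (sup_le (hV₁ (i + 1)) (hV₂ (i + 1))) (VIOW_X (hV₁ i))) (VIOW_Y (hV₂ i))
    have fA := finiteDimensional_of_le_Fd hA
    have fP := finiteDimensional_of_le_Fd (hPle (i + 1) (by omega))
    have hA' : AA (fun i => V₁ i ⊔ P (b + i)) (fun i => V₂ i ⊔ P (b + i)) i ≤
        (V₁ (i + 1) ⊔ V₂ (i + 1) ⊔ XM r * V₁ i ⊔ YM r * V₂ i) ⊔ P (b + (i + 1)) := by
      show (V₁ (i + 1) ⊔ P (b + (i + 1))) ⊔ (V₂ (i + 1) ⊔ P (b + (i + 1))) ⊔
        XM r * (V₁ i ⊔ P (b + i)) ⊔ YM r * (V₂ i ⊔ P (b + i)) ≤ _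
      rw [Submodule.mul_sup, Submodule.mul_sup]
      refine sup_le (sup_le (sup_le ?_ ?_) ?_) ?_
      · exact sup_le (le_sup_of_le_left (le_sup_of_le_left (le_sup_of_le_left le_sup_left)))
          le_sup_right
      · exact sup_le (le_sup_of_le_left (le_sup_of_le_left (le_sup_of_le_left le_sup_right)))
          le_sup_right
      · exact sup_le (le_sup_of_le_left (le_sup_of_le_left le_sup_right))
          (le_sup_of_le_right ((mul_le_mul' XM_le le_rfl).trans (hPc i hi')))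
      · exact sup_le (le_sup_of_le_left le_sup_right)
          (le_sup_of_le_right ((mul_le_mul' YM_le le_rfl).trans (hPc i hi')))
    have h1 := rd_add (V₁ (i + 1) ⊔ V₂ (i + 1) ⊔ XM r * V₁ i ⊔ YM r * V₂ i) (P (b + (i + 1)))
    have h2 := Submodule.finrank_mono hA'
    omega
  have e2 : ∀ i ∈ Finset.range L,
      ((finrank K ((fun i => V₁ i ⊔ P (b + i)) i : Submodule K (F r)) : ℤ) +
        finrank K ((fun i => V₂ i ⊔ P (b + i)) i : Submodule K (F r)) -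
        2 * finrank K (P (b + i))) =
      ((rd (V₁ i) (P (b + i)) + rd (V₂ i) (P (b + i)) : ℕ) : ℤ) := by
    intro i hi
    have hi' := Finset.mem_range.1 hi
    have f1 := finiteDimensional_of_le_Fd (hV₁ i)
    have f2 := finiteDimensional_of_le_Fd (hV₂ i)
    have fP := finiteDimensional_of_le_Fd (hPle i hi'.le)
    have h1 := rd_add (V₁ i) (P (b + i))
    have h2 := rd_add (V₂ i) (P (b + i))
    show ((finrank K (V₁ i ⊔ P (b + i) : Submodule K (F r)) : ℤ) +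
        finrank K (V₂ i ⊔ P (b + i) : Submodule K (F r)) -
        2 * finrank K (P (b + i))) = _
    omega
  unfold fv
  rw [Finset.sum_congr rfl e2]
  have h1 := Finset.sum_le_sum e1
  rw [← Nat.cast_sum] at h1 ⊢
  have h2 : ((∑ i ∈ Finset.range L,
        rd (V₁ (i + 1) ⊔ V₂ (i + 1) ⊔ XM r * V₁ i ⊔ YM r * V₂ i) (P (b + (i + 1))) : ℕ) : ℤ) <
      ((∑ i ∈ Finset.range L, (rd (V₁ i) (P (b + i)) + rd (V₂ i) (P (b + i))) : ℕ) : ℤ) := by
    exact_mod_cast hlt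
  linarith

/-- the integer `fv` is bounded below by `- ∑ i < L, 2 finrank (Fd r (b + i))`, so there is an
admissible pair with minimal `fv` -/
theorem exists_min_violator {L b : ℕ} {P : ℕ → Submodule K (F r)} (hP : LCB r L b P)
    (h : ¬ HL r L P b) : ∃ V₁ V₂ : ℕ → Submodule K (F r), AdmV r L b P V₁ V₂ ∧
      fv L b P V₁ V₂ < 0 ∧
      ∀ V₁' V₂' : ℕ → Submodule K (F r), AdmV r L b P V₁' V₂' →
        fv L b P V₁ V₂ ≤ fv L b P V₁' V₂' := by
  obtain ⟨W₁, W₂, hW, hW0⟩ := exists_violator hP h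
  have hbd : ∃ B : ℤ, ∀ z : ℤ,
      (∃ V₁ V₂ : ℕ → Submodule K (F r), AdmV r L b P V₁ V₂ ∧ fv L b P V₁ V₂ = z) → B ≤ z := by
    refine ⟨- ∑ i ∈ Finset.range L, ((2 * finrank K (Fd r (b + i)) : ℕ) : ℤ), ?_⟩
    rintro z ⟨V₁, V₂, hV, rfl⟩
    have e1 : (0 : ℤ) ≤ ∑ i ∈ Finset.range L,
        ((finrank K (AA V₁ V₂ i) : ℤ) - finrank K (P (b + (i + 1)))) := by
      refine Finset.sum_nonneg fun i hi => ?_
      have hi' := Finset.mem_range.1 hi
      have hA : AA V₁ V₂ i ≤ Fd r (b + (i + 1)) :=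
        sup_le (sup_le (sup_le (hV.le₁ (i + 1) (by omega)) (hV.le₂ (i + 1) (by omega)))
          (VIOW_X (hV.le₁ i hi'.le))) (VIOW_Y (hV.le₂ i hi'.le))
      have fA := finiteDimensional_of_le_Fd hA
      have hPA : P (b + (i + 1)) ≤ AA V₁ V₂ i :=
        le_sup_of_le_left (le_sup_of_le_left (le_sup_of_le_left (hV.ge₁ (i + 1) (by omega))))
      have h1 := Submodule.finrank_mono hPA
      omega
    have e2 : ∑ i ∈ Finset.range L,
        ((finrank K (V₁ i) : ℤ) + finrank K (V₂ i) - 2 * finrank K (P (b + i))) ≤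
        ∑ i ∈ Finset.range L, ((2 * finrank K (Fd r (b + i)) : ℕ) : ℤ) := by
      refine Finset.sum_le_sum fun i hi => ?_
      have hi' := Finset.mem_range.1 hi
      have fF := finiteDimensional_of_le_Fd (le_refl (Fd r (b + i)))
      have h1 := Submodule.finrank_mono (hV.le₁ i hi'.le)
      have h2 := Submodule.finrank_mono (hV.le₂ i hi'.le)
      omega
    unfold fv
    linarith
  obtain ⟨z, ⟨V₁, V₂, hV, hz⟩, hmin⟩ := Int.exists_least_of_bdd hbd ⟨_, W₁, W₂, hW, rfl⟩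
  refine ⟨V₁, V₂, hV, ?_, ?_⟩
  · rw [hz]
    exact lt_of_le_of_lt (hmin _ ⟨W₁, W₂, hW, rfl⟩) hW0
  · intro V₁' V₂' hV'
    rw [hz]
    exact hmin _ ⟨V₁', V₂', hV', rfl⟩

end TARO
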