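import Pool.Agent.TARO.Defs

/-! WD: words, coefficients and degrees in the free algebra. -/

open Module

namespace TARO

variable {r : ℕ}

theorem wd_nil : (wd [] : F r) = 1 := rfl

theorem wd_append (v w : List (Al r)) : (wd (v ++ w) : F r) = wd v * wd w := by
  unfold wd
  rw [MonoidAlgebra.single_mul_single, mul_one]
  rfl

theorem wd_cons (a : Al r) (w : List (Al r)) : (wd (a :: w) : F r) = wd [a] * wd w :=
  wd_append [a] w

theorem coeff_wd (w : List (Al r)) (z : FreeMonoid (Al r)) :
    (wd w : F r).coeff z = if w = z.toList then 1 else 0 := by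
  unfold wd
  rw [MonoidAlgebra.coeff_single]
  by_cases h : w = z.toList
  · rw [if_pos h, h]
    exact Finsupp.single_eq_same
  · rw [if_neg h]
    apply Finsupp.single_eq_of_ne
    intro h1
    apply h
    rw [h1]
    rfl

private theorem WD_single (z : FreeMonoid (Al r)) (c : K) :
    (MonoidAlgebra.single z c : F r) = c • wd z.toList := by
  unfold wd
  rw [MonoidAlgebra.smul_single, smul_eq_mul, mul_one]
  rfl

theorem span_wd : Submodule.span K (Set.range (wd : List (Al r) → F r)) = ⊤ := by
  rw [Submodule.eq_top_iff']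
  intro x
  induction x using MonoidAlgebra.induction_linear with
  | zero => exact Submodule.zero_mem _
  | add f g hf hg => exact Submodule.add_mem _ hf hg
  | single m c =>
    rw [WD_single]
    exact Submodule.smul_mem _ _ (Submodule.subset_span ⟨_, rfl⟩)

theorem mem_Fd {n : ℕ} {p : F r} :
    p ∈ Fd r n ↔ ∀ w : FreeMonoid (Al r), p.coeff w ≠ 0 → w.length = n := by
  constructor
  · intro h
    unfold Fd at h
    induction h using Submodule.span_induction with
    | mem x hx =>
      obtain ⟨w, hw, rfl⟩ := hx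
      intro z hz
      rw [coeff_wd] at hz
      by_cases h1 : w = z.toList
      · rw [← hw, h1]
        rfl
      · rw [if_neg h1] at hz
        exact (hz rfl).elim
    | zero =>
      intro z hz
      exact (hz rfl).elim
    | add x y _ _ hx hy =>
      intro z hz
      by_cases h1 : x.coeff z = 0
      · by_cases h2 : y.coeff z = 0
        · exfalso
          apply hz
          rw [MonoidAlgebra.coeff_add, Finsupp.add_apply, h1, h2, add_zero]
        · exact hy z h2
      · exact hx z h1
    | smul c x _ hx =>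
      intro z hz
      apply hx
      intro h1
      apply hz
      rw [MonoidAlgebra.coeff_smul, Finsupp.smul_apply, h1, smul_zero]
  · intro h
    rw [← MonoidAlgebra.sum_coeff_single p]
    unfold Finsupp.sum
    apply Submodule.sum_mem
    intro z hz
    rw [WD_single]
    exact Submodule.smul_mem _ _
      (Submodule.subset_span ⟨_, h z (Finsupp.mem_support_iff.1 hz), rfl⟩)

theorem wd_mem_Fd (w : List (Al r)) : (wd w : F r) ∈ Fd r w.length :=
  Submodule.subset_span ⟨w, rfl, rfl⟩

theorem Fd_mul (a b : ℕ) : Fd r a * Fd r b = Fd r (a + b) := by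
  unfold Fd
  rw [Submodule.span_mul_span]
  congr 1
  ext p
  rw [Set.mem_mul]
  constructor
  · rintro ⟨x, ⟨v, hv, rfl⟩, y, ⟨w, hw, rfl⟩, rfl⟩
    exact ⟨v ++ w, by rw [List.length_append, hv, hw], (wd_append v w).symm⟩
  · rintro ⟨w, hw, rfl⟩
    refine ⟨wd (w.take a), ⟨_, ?_, rfl⟩, wd (w.drop a), ⟨_, ?_, rfl⟩, ?_⟩
    · rw [List.length_take, hw]
      omega
    · rw [List.length_drop, hw]
      omega
    · rw [← wd_append, List.take_append_drop]

theorem Fd_zero : Fd r 0 = 1 := by
  rw [Submodule.one_eq_span]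
  unfold Fd
  congr 1
  ext p
  constructor
  · rintro ⟨w, hw, rfl⟩
    rw [List.length_eq_zero_iff.1 hw]
    rfl
  · intro h
    exact ⟨[], rfl, h⟩

theorem Fd_one : Fd r 1 = XM r ⊔ YM r := by
  unfold Fd XM YM
  rw [← Submodule.span_union]
  congr 1
  ext p
  constructor
  · rintro ⟨w, hw, rfl⟩
    obtain ⟨a, rfl⟩ := List.length_eq_one_iff.1 hw
    rcases a with i | i
    · exact Or.inl ⟨i, rfl⟩
    · exact Or.inr ⟨i, rfl⟩
  · rintro (⟨i, rfl⟩ | ⟨i, rfl⟩)
    · exact ⟨_, rfl, rfl⟩
    · exact ⟨_, rfl, rfl⟩

theorem XM_le : XM r ≤ Fd r 1 := by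
  rw [Fd_one]
  exact le_sup_left

theorem YM_le : YM r ≤ Fd r 1 := by
  rw [Fd_one]
  exact le_sup_right

instance finiteDimensional_Fd (n : ℕ) : FiniteDimensional K (Fd r n) := by
  have h1 : ({p : F r | ∃ w : List (Al r), w.length = n ∧ p = wd w}).Finite := by
    refine ((List.finite_length_eq (Al r) n).image wd).subset ?_
    rintro p ⟨w, hw, rfl⟩
    exact ⟨w, hw, rfl⟩
  exact FiniteDimensional.span_of_finite K h1

instance finiteDimensional_XM : FiniteDimensional K (XM r) :=
  Submodule.finiteDimensional_of_le XM_le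

instance finiteDimensional_YM : FiniteDimensional K (YM r) :=
  Submodule.finiteDimensional_of_le YM_le

theorem finiteDimensional_of_le_Fd {n : ℕ} {V : Submodule K (F r)} (h : V ≤ Fd r n) :
    FiniteDimensional K V :=
  Submodule.finiteDimensional_of_le h

/-- a left closed family absorbs all degrees: `Fd a * P n ≤ P (n + a)` on an interval -/
theorem Fd_mul_le {P : ℕ → Submodule K (F r)} {b e : ℕ}
    (hc : ∀ n, b ≤ n → n + 1 ≤ e → Fd r 1 * P n ≤ P (n + 1)) (a n : ℕ) (hb : b ≤ n)
    (he : n + a ≤ e) : Fd r a * P n ≤ P (n + a) := by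
  induction a with
  | zero =>
    rw [Fd_zero, one_mul]
    exact le_refl _
  | succ a ih =>
    have h1 : Fd r (a + 1) = Fd r 1 * Fd r a := by
      rw [Fd_mul, add_comm]
    rw [h1, mul_assoc]
    exact (mul_le_mul' le_rfl (ih (by omega))).trans (hc (n + a) (by omega) (by omega))

theorem countable_F : Countable (F r) := by
  have h1 : Countable (FreeMonoid (Al r)) := inferInstanceAs (Countable (List (Al r)))
  exact (MonoidAlgebra.coeff_injective (R := ZMod 2) (M := FreeMonoid (Al r))).countable

end TARO
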